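import Pool.Agent.TH221.Defs

/-!
# Extremal function of the spherical ring
-/

set_option autoImplicit false

open MeasureTheory Set Filter Topology Metric
open scoped ENNReal NNReal ContDiff

namespace Pool.Agent.TH221

namespace J146

/-- Polar coordinates for the lower Lebesgue integral. -/
theorem lintegral_polar {n : ℕ} (hn : 1 ≤ n) (F : Eu n → ℝ≥0∞) (hF : Measurable F) :
    ∫⁻ y, F y = ∫⁻ e : sphere (0 : Eu n) 1, ∫⁻ t in Ioi (0 : ℝ),
      ENNReal.ofReal (t ^ (n - 1)) * F (t • (e : Eu n)) ∂volume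
        ∂(volume : Measure (Eu n)).toSphere := by
  have hnt : Nontrivial (Eu n) := by
    have : NeZero n := ⟨by omega⟩
    infer_instance
  have hmp := (volume : Measure (Eu n)).measurePreserving_homeomorphUnitSphereProd
  have hdim : Module.finrank ℝ (Eu n) = n := by simp
  rw [hdim] at hmp
  have hFm : Measurable (fun p : sphere (0 : Eu n) 1 × Ioi (0 : ℝ) =>
      F ((p.2 : ℝ) • (p.1 : Eu n))) := by
    refine hF.comp ?_
    fun_prop
  calc ∫⁻ y, F y = ∫⁻ y in {(0 : Eu n)}ᶜ, F y := by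
        rw [restrict_compl_singleton]
    _ = ∫⁻ y : ({(0 : Eu n)}ᶜ : Set (Eu n)), F y ∂(Measure.comap (Subtype.val) volume) :=
        (lintegral_subtype_comap (measurableSet_singleton _).compl F).symm
    _ = ∫⁻ y : ({(0 : Eu n)}ᶜ : Set (Eu n)), (fun p : sphere (0 : Eu n) 1 × Ioi (0 : ℝ) =>
        F ((p.2 : ℝ) • (p.1 : Eu n))) (homeomorphUnitSphereProd (Eu n) y)
          ∂(Measure.comap (Subtype.val) volume) := by
        refine lintegral_congr fun y => ?_
        have hy : (y : Eu n) ≠ 0 := y.2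
        have : ‖(y : Eu n)‖ ≠ 0 := norm_ne_zero_iff.2 hy
        simp only [homeomorphUnitSphereProd_apply_snd_coe, homeomorphUnitSphereProd_apply_fst_coe,
          smul_smul, mul_inv_cancel₀ this, one_smul]
    _ = ∫⁻ p, F ((p.2 : ℝ) • (p.1 : Eu n))
          ∂((volume : Measure (Eu n)).toSphere.prod (Measure.volumeIoiPow (n - 1))) :=
        hmp.lintegral_comp_emb (Homeomorph.measurableEmbedding _)
          (fun p : sphere (0 : Eu n) 1 × Ioi (0 : ℝ) => F ((p.2 : ℝ) • (p.1 : Eu n)))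
    _ = ∫⁻ e : sphere (0 : Eu n) 1, ∫⁻ t : Ioi (0 : ℝ), F ((t : ℝ) • (e : Eu n))
          ∂(Measure.volumeIoiPow (n - 1)) ∂(volume : Measure (Eu n)).toSphere :=
        lintegral_prod _ hFm.aemeasurable
    _ = _ := by
        refine lintegral_congr fun e => ?_
        rw [Measure.volumeIoiPow, lintegral_withDensity_eq_lintegral_mul]
        · have := lintegral_subtype_comap (μ := volume) (measurableSet_Ioi (a := (0 : ℝ)))
            (fun t : ℝ => ENNReal.ofReal (t ^ (n - 1)) * F (t • (e : Eu n)))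
          rw [← this]
          rfl
        · fun_prop
        · exact hF.comp (by fun_prop)

theorem lintegral_polar_shift {n : ℕ} (hn : 1 ≤ n) (x : Eu n) (F : Eu n → ℝ≥0∞)
    (hF : Measurable F) :
    ∫⁻ y, F y = ∫⁻ e : sphere (0 : Eu n) 1, ∫⁻ t in Ioi (0 : ℝ),
      ENNReal.ofReal (t ^ (n - 1)) * F (x + t • (e : Eu n)) ∂volume
        ∂(volume : Measure (Eu n)).toSphere := by
  rw [← lintegral_add_left_eq_self F x, lintegral_polar hn]
  exact hF.comp (by fun_prop)

/-- Bernoulli inequality in `[0, ∞]`. -/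
theorem bernoulli (n : ℕ) (hn : 1 ≤ n) (a : ℝ≥0∞) {b : ℝ} (hb : 0 < b) :
    n * (ENNReal.ofReal b ^ (n - 1) * a) ≤ a ^ n + (n - 1 : ℕ) * ENNReal.ofReal b ^ n := by
  by_cases ha : a = ⊤
  · rw [ha, ENNReal.top_pow (by omega), top_add]; exact le_top
  obtain ⟨a, rfl⟩ : ∃ a' : ℝ≥0, a = a' := ⟨a.toNNReal, (ENNReal.coe_toNNReal ha).symm⟩
  have h1 : (a : ℝ≥0∞) = ENNReal.ofReal (a : ℝ) := by simp
  have ha0 : (0 : ℝ) ≤ a := a.2
  rw [h1]
  have key : (n : ℝ) * (b ^ (n - 1) * a) ≤ (a : ℝ) ^ n + (n - 1 : ℕ) * b ^ n := by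
    have h2 := one_add_mul_le_pow (a := (a : ℝ) / b - 1)
      (by have : 0 ≤ (a : ℝ) / b := by positivity
          linarith) n
    have h3 : 1 + ((a : ℝ) / b - 1) = a / b := by ring
    rw [h3, div_pow] at h2
    have h4 := mul_le_mul_of_nonneg_right h2 (by positivity : (0:ℝ) ≤ b ^ n)
    rw [div_mul_cancel₀ _ (by positivity : b ^ n ≠ 0)] at h4
    have h5 : b ^ n = b ^ (n - 1) * b := by
      rw [← pow_succ]; congr 1; omega
    have h6 : (1 + n * ((a : ℝ) / b - 1)) * b ^ n = b ^ n + n * (b ^ (n - 1) * a) - n * b ^ n := by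
      rw [h5]; field_simp; ring
    rw [h6] at h4
    have h7 : ((n - 1 : ℕ) : ℝ) = n - 1 := by
      rw [Nat.cast_sub hn, Nat.cast_one]
    rw [h7]; linarith
  rw [← ENNReal.ofReal_pow hb.le, ← ENNReal.ofReal_pow hb.le, ← ENNReal.ofReal_pow ha0,
    ← ENNReal.ofReal_mul (by positivity), ← ENNReal.ofReal_natCast, ← ENNReal.ofReal_natCast,
    ← ENNReal.ofReal_mul (by positivity), ← ENNReal.ofReal_mul (by positivity),
    ← ENNReal.ofReal_add (by positivity) (by positivity)]
  exact ENNReal.ofReal_le_ofReal key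

end J146

open J146 in
/-- the extremal function `1/(log(R/r) |y - x|)` of the spherical ring has least energy among the
Borel functions whose integral over every radial segment is at least one -/
theorem ring_energy {n : ℕ} (hn : 2 ≤ n) (x : Eu n) {r R : ℝ} (hr : 0 < r) (hR : r < R)
    {ρ : Eu n → ℝ≥0∞} (hρ : Measurable ρ)
    (hadm : ∀ e : Eu n, ‖e‖ = 1 → 1 ≤ ∫⁻ t in Icc r R, ρ (x + t • e)) :
    ∫⁻ y in {y | r < ‖y - x‖ ∧ ‖y - x‖ < R}, ENNReal.ofReal (1 / (Real.log (R / r) * ‖y - x‖)) ^ n ≤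
      ∫⁻ y, ρ y ^ n := by
  set L := Real.log (R / r) with hLd
  have hL : 0 < L := Real.log_pos (by rw [lt_div_iff₀ hr]; linarith)
  set A : Set (Eu n) := {y | r < ‖y - x‖ ∧ ‖y - x‖ < R} with hAd
  have hA1 : IsOpen {y : Eu n | r < ‖y - x‖} := isOpen_lt continuous_const (by fun_prop)
  have hA2 : IsOpen {y : Eu n | ‖y - x‖ < R} := isOpen_lt (by fun_prop) continuous_const
  have hAm : MeasurableSet A := (hA1.inter hA2).measurableSet
  have hn1 : 1 ≤ n := by omega
  let b : Eu n → ℝ≥0∞ := fun y => ENNReal.ofReal (1 / (L * ‖y - x‖))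
  have hb : Measurable b := by fun_prop
  have hbρ : Measurable (fun y => b y ^ (n - 1) * ρ y) := (hb.pow_const _).mul hρ
  set S := (volume : Measure (Eu n)).toSphere univ with hS
  have hSfin : S ≠ ⊤ := measure_ne_top _ _
  -- membership in polar coordinates
  have hmem : ∀ e : sphere (0 : Eu n) 1, ∀ t : ℝ, 0 < t → (x + t • (e : Eu n) ∈ A ↔ t ∈ Ioo r R) := by
    intro e t ht
    have he : ‖(e : Eu n)‖ = 1 := by simp
    simp only [hAd, mem_ofPred_eq, add_sub_cancel_left, norm_smul, he, mul_one,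
      Real.norm_of_nonneg ht.le, mem_Ioo]
  have hnorm : ∀ e : sphere (0 : Eu n) 1, ∀ t : ℝ, 0 < t → ‖x + t • (e : Eu n) - x‖ = t := by
    intro e t ht
    have he : ‖(e : Eu n)‖ = 1 := by simp
    simp only [add_sub_cancel_left, norm_smul, he, mul_one, Real.norm_of_nonneg ht.le]
  -- a general computation
  have hgen : ∀ F : Eu n → ℝ≥0∞, Measurable F → ∫⁻ y in A, F y =
      ∫⁻ e : sphere (0 : Eu n) 1, ∫⁻ t in Ioo r R,
        ENNReal.ofReal (t ^ (n - 1)) * F (x + t • (e : Eu n)) ∂volume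
          ∂(volume : Measure (Eu n)).toSphere := by
    intro F hF
    rw [← lintegral_indicator hAm, lintegral_polar_shift hn1 x _ (hF.indicator hAm)]
    refine lintegral_congr fun e => ?_
    have hsub : Ioo r R ⊆ Ioi 0 := fun t ht => hr.trans ht.1
    have e1 : ∫⁻ t in Ioo r R, ENNReal.ofReal (t ^ (n - 1)) * F (x + t • (e : Eu n))
        = ∫⁻ t in Ioi (0 : ℝ), (Ioo r R).indicator
          (fun t => ENNReal.ofReal (t ^ (n - 1)) * F (x + t • (e : Eu n))) t := by
      rw [lintegral_indicator measurableSet_Ioo, Measure.restrict_restrict measurableSet_Ioo,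
        inter_eq_self_of_subset_left hsub]
    rw [e1]
    refine setLIntegral_congr_fun measurableSet_Ioi fun t ht => ?_
    by_cases h : t ∈ Ioo r R
    · rw [indicator_of_mem h, indicator_of_mem ((hmem e t ht).2 h)]
    · rw [indicator_of_notMem h, indicator_of_notMem (fun h' => h ((hmem e t ht).1 h')), mul_zero]
  -- energy of the extremal function
  have hc : ∫⁻ y in A, b y ^ n = ENNReal.ofReal (L⁻¹ ^ (n - 1)) * S := by
    rw [hgen _ (hb.pow_const n)]
    have e2 : ∀ e : sphere (0 : Eu n) 1, ∫⁻ t in Ioo r R,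
        ENNReal.ofReal (t ^ (n - 1)) * b (x + t • (e : Eu n)) ^ n = ENNReal.ofReal (L⁻¹ ^ (n - 1)) := by
      intro e
      have e3 : ∫⁻ t in Ioo r R, ENNReal.ofReal (t ^ (n - 1)) * b (x + t • (e : Eu n)) ^ n
          = ∫⁻ t in Ioo r R, ENNReal.ofReal (L⁻¹ ^ n * t⁻¹) := by
        refine setLIntegral_congr_fun measurableSet_Ioo fun t ht => ?_
        have ht0 : 0 < t := hr.trans ht.1
        simp only [b]
        rw [hnorm e t ht0, ← ENNReal.ofReal_pow (by positivity), ← ENNReal.ofReal_mul (by positivity)]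
        congr 1
        have h5 : t ^ n = t ^ (n - 1) * t := by rw [← pow_succ]; congr 1; omega
        rw [div_pow, mul_pow, h5, one_pow, inv_pow]
        field_simp
      rw [e3, ← ofReal_integral_eq_lintegral_ofReal]
      · congr 1
        rw [integral_const_mul, ← integral_Ioc_eq_integral_Ioo,
          ← intervalIntegral.integral_of_le hR.le, integral_inv_of_pos hr (hr.trans hR), ← hLd]
        have h5 : L⁻¹ ^ n = L⁻¹ ^ (n - 1) * L⁻¹ := by rw [← pow_succ]; congr 1; omega
        rw [h5, mul_assoc, inv_mul_cancel₀ hL.ne', mul_one]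
      · have hc' : ContinuousOn (fun t : ℝ => L⁻¹ ^ n * t⁻¹) (Icc r R) := by
          refine continuousOn_const.mul (continuousOn_id.inv₀ fun t ht => ?_)
          have : 0 < t := lt_of_lt_of_le hr ht.1
          exact this.ne'
        exact hc'.integrableOn_Icc.mono_set Ioo_subset_Icc_self
      · filter_upwards [ae_restrict_mem measurableSet_Ioo] with t ht
        have ht0 : 0 < t := hr.trans ht.1
        positivity
    simp only [e2, lintegral_const, hS]
  have hcfin : ∫⁻ y in A, b y ^ n ≠ ⊤ := by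
    rw [hc]; exact ENNReal.mul_ne_top ENNReal.ofReal_ne_top hSfin
  -- the pairing
  have hpair : ∫⁻ y in A, b y ^ n ≤ ∫⁻ y in A, b y ^ (n - 1) * ρ y := by
    rw [hc, hgen _ hbρ, hS, ← lintegral_const]
    refine lintegral_mono fun e => ?_
    have he : ‖(e : Eu n)‖ = 1 := by simp
    have e4 : ∫⁻ t in Ioo r R, ENNReal.ofReal (t ^ (n - 1)) * (b (x + t • (e : Eu n)) ^ (n - 1)
        * ρ (x + t • (e : Eu n)))
        = ∫⁻ t in Ioo r R, ENNReal.ofReal (L⁻¹ ^ (n - 1)) * ρ (x + t • (e : Eu n)) := by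
      refine setLIntegral_congr_fun measurableSet_Ioo fun t ht => ?_
      have ht0 : 0 < t := hr.trans ht.1
      simp only [b]
      rw [hnorm e t ht0, ← ENNReal.ofReal_pow (by positivity), ← mul_assoc,
        ← ENNReal.ofReal_mul (by positivity)]
      congr 2
      rw [div_pow, mul_pow, one_pow, inv_pow]
      field_simp
    show ENNReal.ofReal (L⁻¹ ^ (n - 1)) ≤ ∫⁻ t in Ioo r R, ENNReal.ofReal (t ^ (n - 1)) *
      (b (x + t • (e : Eu n)) ^ (n - 1) * ρ (x + t • (e : Eu n)))
    rw [e4, lintegral_const_mul]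
    · have h6 := hadm e he
      rw [← Measure.restrict_congr_set Ioo_ae_eq_Icc] at h6
      calc ENNReal.ofReal (L⁻¹ ^ (n - 1)) = ENNReal.ofReal (L⁻¹ ^ (n - 1)) * 1 := (mul_one _).symm
        _ ≤ _ := by gcongr
    · exact hρ.comp (by fun_prop)
  -- Bernoulli
  have hbern : n * ∫⁻ y in A, b y ^ (n - 1) * ρ y ≤
      (∫⁻ y in A, ρ y ^ n) + (n - 1 : ℕ) * ∫⁻ y in A, b y ^ n := by
    rw [← lintegral_const_mul _ hbρ, ← lintegral_const_mul _ (hb.pow_const _),
      ← lintegral_add_left (hρ.pow_const _)]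
    refine setLIntegral_mono ((hρ.pow_const _).add ((hb.pow_const _).const_mul _)) fun y hy => ?_
    have hy0 : 0 < ‖y - x‖ := hr.trans hy.1
    exact bernoulli n hn1 (ρ y) (by positivity)
  have hfinal : ∫⁻ y in A, b y ^ n ≤ ∫⁻ y in A, ρ y ^ n := by
    have h7 : (n : ℝ≥0∞) * ∫⁻ y in A, b y ^ n ≤
        (∫⁻ y in A, ρ y ^ n) + (n - 1 : ℕ) * ∫⁻ y in A, b y ^ n :=
      (mul_le_mul_right hpair _).trans hbern
    have h8 : (n : ℝ≥0∞) = 1 + (n - 1 : ℕ) := by
      have : n = 1 + (n - 1) := by omega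
      conv_lhs => rw [this]
      push_cast; rfl
    rw [h8, add_mul, one_mul] at h7
    exact (ENNReal.add_le_add_iff_right (ENNReal.mul_ne_top (ENNReal.natCast_ne_top _) hcfin)).1 h7
  exact hfinal.trans (setLIntegral_le_lintegral _ _)

end Pool.Agent.TH221
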