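import Mathlib

/-!
# Real line lemma: continuous functions with countable exceptional image
-/

set_option autoImplicit false

open MeasureTheory Set Filter Topology Metric
open scoped ENNReal NNReal

namespace Pool.Agent.TH221

namespace J148

theorem image_le {f : ℝ → ℝ} {g : ℝ → ℝ≥0∞} {W : Set ℝ} (hW : IsOpen W)
    (hfg : ∀ p q, p ≤ q → Icc p q ⊆ W → ENNReal.ofReal |f q - f p| ≤ ∫⁻ s in Icc p q, g s) :
    volume (f '' W) ≤ ∫⁻ s in W, g s := by
  let l : ℕ → ℤ → ℝ := fun m k => (k : ℝ) / 2 ^ m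
  let V : ℕ → Set ℝ := fun m => {x | Icc (l m ⌊x * 2 ^ m⌋) (l m (⌊x * 2 ^ m⌋ + 1)) ⊆ W}
  have hpow : ∀ m : ℕ, (0 : ℝ) < 2 ^ m := fun m => by positivity
  have hmem : ∀ (m : ℕ) (x : ℝ), x ∈ Ico (l m ⌊x * 2 ^ m⌋) (l m (⌊x * 2 ^ m⌋ + 1)) := by
    intro m x
    simp only [l, mem_Ico]
    constructor
    · rw [div_le_iff₀ (hpow m)]; exact Int.floor_le _
    · rw [lt_div_iff₀ (hpow m)]; push_cast; exact Int.lt_floor_add_one _
  have hfl : ∀ (m : ℕ) (k : ℤ) (x : ℝ), x ∈ Ico (l m k) (l m (k + 1)) → ⌊x * 2 ^ m⌋ = k := by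
    intro m k x hx
    simp only [l, mem_Ico] at hx
    rw [Int.floor_eq_iff]
    rw [div_le_iff₀ (hpow m), lt_div_iff₀ (hpow m)] at hx
    push_cast at hx
    exact hx
  have hVW : ∀ m, V m ⊆ W := fun m x hx => hx (Ico_subset_Icc_self (hmem m x))
  have hmono : Monotone V := by
    refine monotone_nat_of_le_succ fun m x hx => ?_
    have hx : Icc (l m ⌊x * 2 ^ m⌋) (l m (⌊x * 2 ^ m⌋ + 1)) ⊆ W := hx
    show Icc (l (m + 1) ⌊x * 2 ^ (m + 1)⌋) (l (m + 1) (⌊x * 2 ^ (m + 1)⌋ + 1)) ⊆ W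
    refine (Icc_subset_Icc ?_ ?_).trans hx
    · have h1 : 2 * ⌊x * 2 ^ m⌋ ≤ ⌊x * 2 ^ (m + 1)⌋ := by
        rw [Int.le_floor]
        push_cast
        have := Int.floor_le (x * 2 ^ m)
        rw [pow_succ]; linarith
      have h2 : (2 * ⌊x * 2 ^ m⌋ : ℝ) ≤ ⌊x * 2 ^ (m + 1)⌋ := by exact_mod_cast h1
      simp only [l]
      generalize ⌊x * 2 ^ (m + 1)⌋ = N at h2 ⊢
      rw [div_le_div_iff₀ (hpow _) (hpow _), pow_succ]
      nlinarith [hpow m]
    · have h1 : ⌊x * 2 ^ (m + 1)⌋ < 2 * ⌊x * 2 ^ m⌋ + 2 := by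
        rw [Int.floor_lt]
        push_cast
        have := Int.lt_floor_add_one (x * 2 ^ m)
        rw [pow_succ]; linarith
      have h1' : ⌊x * 2 ^ (m + 1)⌋ + 1 ≤ 2 * ⌊x * 2 ^ m⌋ + 2 := by omega
      have h2 : ((⌊x * 2 ^ (m + 1)⌋ : ℝ) + 1) ≤ 2 * ⌊x * 2 ^ m⌋ + 2 := by exact_mod_cast h1'
      simp only [l]
      generalize ⌊x * 2 ^ (m + 1)⌋ = N at h2 ⊢
      rw [div_le_div_iff₀ (hpow _) (hpow _), pow_succ]
      push_cast
      nlinarith [hpow m]
  have hcov : ⋃ m, V m = W := by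
    refine Subset.antisymm (iUnion_subset hVW) fun x hx => ?_
    obtain ⟨ε, hε, hball⟩ := Metric.isOpen_iff.1 hW x hx
    obtain ⟨m, hm⟩ := exists_pow_lt_of_lt_one hε (by norm_num : (1 / 2 : ℝ) < 1)
    refine mem_iUnion.2 ⟨m, ?_⟩
    show Icc (l m ⌊x * 2 ^ m⌋) (l m (⌊x * 2 ^ m⌋ + 1)) ⊆ W
    intro y hy
    apply hball
    have h1 := hmem m x
    have h2 : l m (⌊x * 2 ^ m⌋ + 1) - l m ⌊x * 2 ^ m⌋ = (1 / 2) ^ m := by
      simp only [l]; push_cast
      rw [← sub_div, one_div, inv_pow, inv_eq_one_div]; congr 1; ring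
    rw [Metric.mem_ball, Real.dist_eq, abs_lt]
    constructor <;> linarith [hy.1, hy.2, h1.1, h1.2]
  have hVm : ∀ m, volume (f '' V m) ≤ ∫⁻ s in W, g s := by
    intro m
    let K : Set ℤ := {k | Icc (l m k) (l m (k + 1)) ⊆ W}
    have hV : V m = ⋃ k : K, Ico (l m k) (l m (k + 1)) := by
      ext x
      simp only [mem_iUnion]
      constructor
      · intro hx
        exact ⟨⟨_, hx⟩, hmem m x⟩
      · rintro ⟨⟨k, hk⟩, hx⟩
        have := hfl m k x hx
        show Icc (l m ⌊x * 2 ^ m⌋) (l m (⌊x * 2 ^ m⌋ + 1)) ⊆ W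
        rw [this]; exact hk
    have hdisj : Pairwise (Function.onFun Disjoint (fun k : K => Ico (l m k) (l m (k + 1)))) := by
      intro k k' hkk
      refine Set.disjoint_left.2 fun x hx hx' => hkk ?_
      exact Subtype.ext ((hfl m k x hx).symm.trans (hfl m k' x hx'))
    have hone : ∀ k : K, volume (f '' Ico (l m k) (l m (k + 1)))
        ≤ ∫⁻ s in Ico (l m k) (l m (k + 1)), g s := by
      intro k
      have hI : ∫⁻ s in Ico (l m k) (l m (k + 1)), g s = ∫⁻ s in Icc (l m k) (l m (k + 1)), g s := by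
        rw [Measure.restrict_congr_set Ico_ae_eq_Icc]
      rw [hI]
      refine (measure_mono (image_mono Ico_subset_Icc_self)).trans ?_
      refine (Real.volume_le_diam _).trans ?_
      refine Metric.ediam_le ?_
      have hsym : ∀ s ∈ Icc (l m k) (l m (k + 1)), ∀ t ∈ Icc (l m k) (l m (k + 1)), s ≤ t →
          ENNReal.ofReal |f t - f s| ≤ ∫⁻ s in Icc (l m k) (l m (k + 1)), g s := by
        intro s hs t ht hst
        have hsub : Icc s t ⊆ Icc (l m k) (l m (k + 1)) := Icc_subset_Icc hs.1 ht.2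
        exact (hfg s t hst (hsub.trans k.2)).trans (lintegral_mono_set hsub)
      rintro _ ⟨s, hs, rfl⟩ _ ⟨t, ht, rfl⟩
      rw [edist_dist, Real.dist_eq]
      rcases le_total s t with h | h
      · rw [abs_sub_comm]; exact hsym s hs t ht h
      · exact hsym t ht s hs h
    rw [hV, image_iUnion]
    refine (measure_iUnion_le _).trans ?_
    refine (ENNReal.tsum_le_tsum hone).trans ?_
    rw [← lintegral_iUnion (fun _ => measurableSet_Ico) hdisj, ← hV]
    exact lintegral_mono_set (hVW m)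
  have hmono' : Monotone fun m => f '' V m := fun m n hmn => image_mono (hmono hmn)
  rw [← hcov, image_iUnion, hmono'.measure_iUnion, hcov]
  exact iSup_le hVm

end J148

/-- real line lemma: a continuous function with countable image outside of the open set `U` and
with `|f q - f p| ≤ ∫_p^q g` for the intervals in `U` satisfies `|f b - f a| ≤ ∫_U g`. -/
theorem line_countable {f : ℝ → ℝ} {g : ℝ → ℝ≥0∞} {a b : ℝ} (hab : a ≤ b)
    (hf : ContinuousOn f (Icc a b)) {U : Set ℝ} (hU : IsOpen U)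
    (hZ : (f '' (Icc a b \ U)).Countable)
    (hfg : ∀ p q, p ≤ q → Icc p q ⊆ Icc a b ∩ U →
      ENNReal.ofReal |f q - f p| ≤ ∫⁻ s in Icc p q, g s) :
    ENNReal.ofReal |f b - f a| ≤ ∫⁻ s in Icc a b ∩ U, g s := by
  have h1 : uIcc (f a) (f b) ⊆ f '' uIcc a b :=
    intermediate_value_uIcc (by rwa [uIcc_of_le hab])
  rw [uIcc_of_le hab] at h1
  have h2 : f '' Icc a b ⊆ (f '' (Icc a b \ U) ∪ {f a, f b}) ∪ f '' (Ioo a b ∩ U) := by
    rintro _ ⟨x, hx, rfl⟩
    by_cases hxU : x ∈ U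
    · rcases eq_or_lt_of_le hx.1 with h | h
      · left; right; left; rw [h]
      · rcases eq_or_lt_of_le hx.2 with h' | h'
        · left; right; right; rw [h']; rfl
        · right; exact ⟨x, ⟨⟨h, h'⟩, hxU⟩, rfl⟩
    · left; left; exact ⟨x, ⟨hx, hxU⟩, rfl⟩
  have h3 : volume (f '' (Icc a b \ U) ∪ {f a, f b}) = 0 :=
    (hZ.union ((countable_singleton _).insert _)).measure_zero _
  calc ENNReal.ofReal |f b - f a| = volume (uIcc (f a) (f b)) := by
        rw [uIcc, Real.volume_Icc, max_sub_min_eq_abs]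
    _ ≤ volume ((f '' (Icc a b \ U) ∪ {f a, f b}) ∪ f '' (Ioo a b ∩ U)) :=
        measure_mono (h1.trans h2)
    _ ≤ volume (f '' (Icc a b \ U) ∪ {f a, f b}) + volume (f '' (Ioo a b ∩ U)) :=
        measure_union_le _ _
    _ = volume (f '' (Ioo a b ∩ U)) := by rw [h3, zero_add]
    _ ≤ ∫⁻ s in Ioo a b ∩ U, g s := by
        refine J148.image_le (isOpen_Ioo.inter hU) fun p q hpq hsub => ?_
        exact hfg p q hpq (hsub.trans (inter_subset_inter_left _ Ioo_subset_Icc_self))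
    _ ≤ ∫⁻ s in Icc a b ∩ U, g s :=
        lintegral_mono_set (inter_subset_inter_left _ Ioo_subset_Icc_self)

end Pool.Agent.TH221
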