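import Mathlib

/-!
# Urysohn lemma with a Lipschitz constraint for a lower semicontinuous pseudometric

The monotone (Nachbin) version of Urysohn's lemma on `K × [0, a]`, followed by an average.
-/

set_option autoImplicit false

open Set Filter Topology
open scoped ENNReal

namespace Pool.Agent.TH221

namespace J140

/-! ### monotone Urysohn lemma -/

/-- A pair of a closed lower set and an open lower neighborhood, with interpolation. -/
structure CU {X : Type*} [TopologicalSpace X] (R : X → X → Prop) where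
  C : Set X
  U : Set X
  closed_C : IsClosed C
  open_U : IsOpen U
  subset : C ⊆ U
  lowC : ∀ x y, R x y → y ∈ C → x ∈ C
  lowU : ∀ x y, R x y → y ∈ U → x ∈ U
  hP : ∀ {c u : Set X}, IsClosed c → IsOpen u → c ⊆ u → (∀ x y, R x y → y ∈ c → x ∈ c) →
    (∀ x y, R x y → y ∈ u → x ∈ u) →
    ∃ p : Set X × Set X, IsOpen p.1 ∧ IsClosed p.2 ∧ c ⊆ p.1 ∧ p.1 ⊆ p.2 ∧ p.2 ⊆ u ∧
      (∀ x y, R x y → y ∈ p.1 → x ∈ p.1) ∧ (∀ x y, R x y → y ∈ p.2 → x ∈ p.2)

namespace CU

variable {X : Type*} [TopologicalSpace X] {R : X → X → Prop}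

/-- The interpolating pair. -/
noncomputable def mid (c : CU R) : Set X × Set X :=
  (c.hP c.closed_C c.open_U c.subset c.lowC c.lowU).choose

theorem mid_spec (c : CU R) : IsOpen c.mid.1 ∧ IsClosed c.mid.2 ∧ c.C ⊆ c.mid.1 ∧
    c.mid.1 ⊆ c.mid.2 ∧ c.mid.2 ⊆ c.U ∧ (∀ x y, R x y → y ∈ c.mid.1 → x ∈ c.mid.1) ∧
      (∀ x y, R x y → y ∈ c.mid.2 → x ∈ c.mid.2) :=
  (c.hP c.closed_C c.open_U c.subset c.lowC c.lowU).choose_spec

/-- Left half. -/
@[simps C]
noncomputable def left (c : CU R) : CU R where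
  C := c.C
  U := c.mid.1
  closed_C := c.closed_C
  open_U := c.mid_spec.1
  subset := c.mid_spec.2.2.1
  lowC := c.lowC
  lowU := c.mid_spec.2.2.2.2.2.1
  hP := c.hP

/-- Right half. -/
@[simps U]
noncomputable def right (c : CU R) : CU R where
  C := c.mid.2
  U := c.U
  closed_C := c.mid_spec.2.1
  open_U := c.open_U
  subset := c.mid_spec.2.2.2.2.1
  lowC := c.mid_spec.2.2.2.2.2.2
  lowU := c.lowU
  hP := c.hP

theorem left_U_subset_right_C (c : CU R) : c.left.U ⊆ c.right.C :=
  c.mid_spec.2.2.2.1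

theorem left_U_subset (c : CU R) : c.left.U ⊆ c.U :=
  Subset.trans c.left_U_subset_right_C c.right.subset

theorem subset_right_C (c : CU R) : c.C ⊆ c.right.C :=
  Subset.trans c.left.subset c.left_U_subset_right_C

/-- Approximations. -/
noncomputable def approx : ℕ → CU R → X → ℝ
  | 0, c, x => indicator c.Uᶜ 1 x
  | n + 1, c, x => midpoint ℝ (approx n c.left x) (approx n c.right x)

theorem approx_of_mem_C (c : CU R) (n : ℕ) {x : X} (hx : x ∈ c.C) : c.approx n x = 0 := by
  induction n generalizing c with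
  | zero => exact indicator_of_notMem (fun (hU : x ∈ c.Uᶜ) => hU <| c.subset hx) _
  | succ n ihn =>
    simp only [approx]
    rw [ihn, ihn, midpoint_self]
    exacts [c.subset_right_C hx, hx]

theorem approx_of_notMem_U (c : CU R) (n : ℕ) {x : X} (hx : x ∉ c.U) : c.approx n x = 1 := by
  induction n generalizing c with
  | zero =>
    rw [← mem_compl_iff] at hx
    exact indicator_of_mem hx _
  | succ n ihn =>
    simp only [approx]
    rw [ihn, ihn, midpoint_self]
    exacts [hx, fun hU => hx <| c.left_U_subset hU]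

theorem approx_nonneg (c : CU R) (n : ℕ) (x : X) : 0 ≤ c.approx n x := by
  induction n generalizing c with
  | zero => exact indicator_nonneg (fun _ _ => zero_le_one) _
  | succ n ihn =>
    simp only [approx, midpoint_eq_smul_add]
    refine mul_nonneg (inv_nonneg.2 zero_le_two) (add_nonneg ?_ ?_) <;> apply ihn

theorem approx_le_one (c : CU R) (n : ℕ) (x : X) : c.approx n x ≤ 1 := by
  induction n generalizing c with
  | zero => exact indicator_apply_le' (fun _ => le_rfl) fun _ => zero_le_one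
  | succ n ihn =>
    simp only [approx, midpoint_eq_smul_add, invOf_eq_inv, smul_eq_mul, ← div_eq_inv_mul]
    have := add_le_add (ihn (left c)) (ihn (right c))
    norm_num at this
    exact Iff.mpr (div_le_one zero_lt_two) this

theorem bddAbove_range_approx (c : CU R) (x : X) : BddAbove (range fun n => c.approx n x) :=
  ⟨1, fun _ ⟨n, hn⟩ => hn ▸ c.approx_le_one n x⟩

theorem approx_le_approx_of_U_sub_C {c₁ c₂ : CU R} (h : c₁.U ⊆ c₂.C) (n₁ n₂ : ℕ) (x : X) :
    c₂.approx n₂ x ≤ c₁.approx n₁ x := by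
  by_cases hx : x ∈ c₁.U
  · calc
      approx n₂ c₂ x = 0 := approx_of_mem_C _ _ (h hx)
      _ ≤ approx n₁ c₁ x := approx_nonneg _ _ _
  · calc
      approx n₂ c₂ x ≤ 1 := approx_le_one _ _ _
      _ = approx n₁ c₁ x := (approx_of_notMem_U _ _ hx).symm

theorem approx_mem_Icc_right_left (c : CU R) (n : ℕ) (x : X) :
    c.approx n x ∈ Icc (c.right.approx n x) (c.left.approx n x) := by
  induction n generalizing c with
  | zero =>
    simp only [approx]
    refine ⟨le_rfl, ?_⟩
    by_cases hx : x ∈ c.left.U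
    · rw [indicator_of_notMem (fun (h : x ∈ c.Uᶜ) => h (c.left_U_subset hx))]
      exact indicator_nonneg (fun _ _ => zero_le_one) _
    · rw [indicator_of_mem (show x ∈ c.left.Uᶜ from hx)]
      exact indicator_apply_le' (fun _ => le_rfl) fun _ => zero_le_one
  | succ n ihn =>
    simp only [approx, mem_Icc]
    refine ⟨midpoint_le_midpoint ?_ (ihn _).1, midpoint_le_midpoint (ihn _).2 ?_⟩ <;>
      apply approx_le_approx_of_U_sub_C
    exacts [left_U_subset_right_C c, left_U_subset_right_C c]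

theorem approx_le_succ (c : CU R) (n : ℕ) (x : X) : c.approx n x ≤ c.approx (n + 1) x := by
  induction n generalizing c with
  | zero =>
    simp only [approx, right_U, right_le_midpoint]
    exact (approx_mem_Icc_right_left c 0 x).2
  | succ n ihn =>
    rw [approx, approx]
    exact midpoint_le_midpoint (ihn _) (ihn _)

theorem approx_mono (c : CU R) (x : X) : Monotone fun n => c.approx n x :=
  monotone_nat_of_le_succ fun n => c.approx_le_succ n x

/-- The limit function. -/
protected noncomputable def lim (c : CU R) (x : X) : ℝ :=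
  ⨆ n, c.approx n x

theorem tendsto_approx_atTop (c : CU R) (x : X) :
    Tendsto (fun n => c.approx n x) atTop (𝓝 <| c.lim x) :=
  tendsto_atTop_ciSup (c.approx_mono x) ⟨1, fun _ ⟨_, hn⟩ => hn ▸ c.approx_le_one _ _⟩

theorem lim_of_mem_C (c : CU R) (x : X) (h : x ∈ c.C) : c.lim x = 0 := by
  simp only [CU.lim, approx_of_mem_C, h, ciSup_const]

theorem lim_of_notMem_U (c : CU R) (x : X) (h : x ∉ c.U) : c.lim x = 1 := by
  simp only [CU.lim, approx_of_notMem_U c _ h, ciSup_const]

theorem lim_eq_midpoint (c : CU R) (x : X) :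
    c.lim x = midpoint ℝ (c.left.lim x) (c.right.lim x) := by
  refine tendsto_nhds_unique (c.tendsto_approx_atTop x) ((tendsto_add_atTop_iff_nat 1).1 ?_)
  simp only [approx]
  exact (c.left.tendsto_approx_atTop x).midpoint (c.right.tendsto_approx_atTop x)

theorem approx_le_lim (c : CU R) (x : X) (n : ℕ) : c.approx n x ≤ c.lim x :=
  le_ciSup (c.bddAbove_range_approx x) _

theorem lim_nonneg (c : CU R) (x : X) : 0 ≤ c.lim x :=
  (c.approx_nonneg 0 x).trans (c.approx_le_lim x 0)

theorem lim_le_one (c : CU R) (x : X) : c.lim x ≤ 1 :=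
  ciSup_le fun _ => c.approx_le_one _ _

theorem lim_mem_Icc (c : CU R) (x : X) : c.lim x ∈ Icc (0 : ℝ) 1 :=
  ⟨c.lim_nonneg x, c.lim_le_one x⟩

theorem continuous_lim (c : CU R) : Continuous c.lim := by
  obtain ⟨h0, h1234, h1⟩ : 0 < (2⁻¹ : ℝ) ∧ (2⁻¹ : ℝ) < 3 / 4 ∧ (3 / 4 : ℝ) < 1 := by norm_num
  refine
    continuous_iff_continuousAt.2 fun x =>
      (Metric.nhds_basis_closedBall_pow (h0.trans h1234) h1).tendsto_right_iff.2 fun n _ => ?_
  simp only [Metric.mem_closedBall]
  induction n generalizing c with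
  | zero =>
    filter_upwards with y
    rw [pow_zero]
    exact Real.dist_le_of_mem_Icc_01 (c.lim_mem_Icc _) (c.lim_mem_Icc _)
  | succ n ihn =>
    by_cases hxl : x ∈ c.left.U
    · filter_upwards [IsOpen.mem_nhds c.left.open_U hxl, ihn c.left] with _ hyl hyd
      rw [pow_succ', c.lim_eq_midpoint, c.lim_eq_midpoint,
        c.right.lim_of_mem_C _ (c.left_U_subset_right_C hyl),
        c.right.lim_of_mem_C _ (c.left_U_subset_right_C hxl)]
      refine (dist_midpoint_midpoint_le _ _ _ _).trans ?_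
      rw [dist_self, add_zero, div_eq_inv_mul]
      gcongr
    · replace hxl : x ∈ c.left.right.Cᶜ :=
        compl_subset_compl.2 c.left.right.subset hxl
      filter_upwards [IsOpen.mem_nhds (isOpen_compl_iff.2 c.left.right.closed_C) hxl,
        ihn c.left.right, ihn c.right] with y hyl hydl hydr
      replace hxl : x ∉ c.left.left.U :=
        compl_subset_compl.2 c.left.left_U_subset_right_C hxl
      replace hyl : y ∉ c.left.left.U :=
        compl_subset_compl.2 c.left.left_U_subset_right_C hyl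
      simp only [pow_succ, c.lim_eq_midpoint, c.left.lim_eq_midpoint,
        c.left.left.lim_of_notMem_U _ hxl, c.left.left.lim_of_notMem_U _ hyl]
      grw [dist_midpoint_midpoint_le, dist_midpoint_midpoint_le, dist_self, zero_add]
      set r := (3 / 4 : ℝ) ^ n
      calc _ ≤ (r / 2 + r) / 2 := by gcongr
        _ = _ := by ring

theorem approx_monotone (c : CU R) (n : ℕ) {x y : X} (hxy : R x y) :
    c.approx n x ≤ c.approx n y := by
  induction n generalizing c with
  | zero =>
    simp only [approx]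
    by_cases hy : y ∈ c.U
    · rw [indicator_of_notMem (fun (h : x ∈ c.Uᶜ) => h (c.lowU x y hxy hy)),
        indicator_of_notMem (fun (h : y ∈ c.Uᶜ) => h hy)]
    · rw [indicator_of_mem (show y ∈ c.Uᶜ from hy)]
      exact indicator_apply_le' (fun _ => le_rfl) fun _ => zero_le_one
  | succ n ihn =>
    simp only [approx]
    exact midpoint_le_midpoint (ihn _) (ihn _)

theorem lim_monotone (c : CU R) {x y : X} (hxy : R x y) : c.lim x ≤ c.lim y :=
  ciSup_mono (c.bddAbove_range_approx y) fun n => c.approx_monotone n hxy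

end CU

/-- The upper hull of a closed set is closed. -/
theorem closed_up {X : Type*} [TopologicalSpace X] [CompactSpace X] {R : X → X → Prop}
    (hR : IsClosed {p : X × X | R p.1 p.2}) {F : Set X} (hF : IsClosed F) :
    IsClosed {y | ∃ x ∈ F, R x y} := by
  have h : {y | ∃ x ∈ F, R x y} = Prod.snd '' ((Prod.fst ⁻¹' F) ∩ {p : X × X | R p.1 p.2}) := by
    ext y
    constructor
    · rintro ⟨x, hx, hxy⟩; exact ⟨(x, y), ⟨hx, hxy⟩, rfl⟩
    · rintro ⟨⟨x, z⟩, ⟨hx, hxy⟩, rfl⟩; exact ⟨x, hx, hxy⟩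
  rw [h]
  exact isClosedMap_snd_of_compactSpace _ ((hF.preimage continuous_fst).inter hR)

/-- The lower hull of a closed set is closed. -/
theorem closed_down {X : Type*} [TopologicalSpace X] [CompactSpace X] {R : X → X → Prop}
    (hR : IsClosed {p : X × X | R p.1 p.2}) {F : Set X} (hF : IsClosed F) :
    IsClosed {x | ∃ y ∈ F, R x y} := by
  have h : {x | ∃ y ∈ F, R x y} = Prod.fst '' ((Prod.snd ⁻¹' F) ∩ {p : X × X | R p.1 p.2}) := by
    ext x
    constructor
    · rintro ⟨y, hy, hxy⟩; exact ⟨(x, y), ⟨hy, hxy⟩, rfl⟩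
    · rintro ⟨⟨z, y⟩, ⟨hy, hxy⟩, rfl⟩; exact ⟨y, hy, hxy⟩
  rw [h]
  exact isClosedMap_fst_of_compactSpace _ ((hF.preimage continuous_snd).inter hR)

/-- Nachbin's monotone Urysohn lemma. -/
theorem monotone_urysohn {X : Type*} [TopologicalSpace X] [CompactSpace X] [NormalSpace X]
    {R : X → X → Prop} (hR : IsClosed {p : X × X | R p.1 p.2}) (hrefl : ∀ x, R x x)
    (htrans : ∀ x y z, R x y → R y z → R x z) {C U : Set X} (hC : IsClosed C) (hU : IsOpen U)
    (hCU : C ⊆ U) (lowC : ∀ x y, R x y → y ∈ C → x ∈ C) (lowU : ∀ x y, R x y → y ∈ U → x ∈ U) :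
    ∃ f : X → ℝ, Continuous f ∧ (∀ x, f x ∈ Icc (0 : ℝ) 1) ∧ (∀ x ∈ C, f x = 0) ∧
      (∀ x, x ∉ U → f x = 1) ∧ ∀ x y, R x y → f x ≤ f y := by
  let c : CU R :=
    { C := C
      U := U
      closed_C := hC
      open_U := hU
      subset := hCU
      lowC := lowC
      lowU := lowU
      hP := by
        intro c u hc hu hcu lc lu
        obtain ⟨v, hv, hcv, hvu⟩ := normal_exists_closure_subset hc hu hcu
        refine ⟨⟨{x | ∃ y ∈ vᶜ, R y x}ᶜ, {x | ∃ y ∈ closure v, R x y}⟩, ?_, ?_, ?_, ?_, ?_, ?_, ?_⟩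
        · exact (closed_up hR hv.isClosed_compl).isOpen_compl
        · exact closed_down hR isClosed_closure
        · rintro x hx ⟨y, hy, hyx⟩
          exact hy (hcv (lc y x hyx hx))
        · intro x hx
          refine ⟨x, subset_closure ?_, hrefl x⟩
          by_contra hxv
          exact hx ⟨x, hxv, hrefl x⟩
        · rintro x ⟨y, hy, hxy⟩
          exact lu x y hxy (hvu hy)
        · rintro x y hxy hy ⟨z, hz, hzx⟩
          exact hy ⟨z, hz, htrans z x y hzx hxy⟩
        · rintro x y hxy ⟨z, hz, hyz⟩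
          exact ⟨z, hz, htrans x y z hxy hyz⟩ }
  exact ⟨c.lim, c.continuous_lim, c.lim_mem_Icc, c.lim_of_mem_C, c.lim_of_notMem_U,
    fun x y hxy => c.lim_monotone hxy⟩

end J140

open J140 in
/-- Urysohn lemma with a Lipschitz constraint for a lower semicontinuous extended pseudometric. -/
theorem urysohn_lsc {K : Type*} [MetricSpace K] [CompactSpace K] (d : K → K → ℝ≥0∞)
    (h0 : ∀ x, d x x = 0) (ht : ∀ x y z, d x z ≤ d x y + d y z)
    (hc : ∀ c : ℝ≥0∞, c ≠ ⊤ → IsClosed {p : K × K | d p.1 p.2 ≤ c})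
    {A B : Set K} (hA : IsClosed A) (hB : IsClosed B) {a : ℝ} (ha : 0 < a)
    (hAB : ∀ x ∈ A, ∀ y ∈ B, ENNReal.ofReal a < d x y) :
    ∃ u : K → ℝ, Continuous u ∧ (∀ x, 0 ≤ u x ∧ u x ≤ a) ∧ (∀ x ∈ A, u x = 0) ∧
      (∀ x ∈ B, u x = a) ∧ ∀ x y, ENNReal.ofReal (u y - u x) ≤ d x y := by
  have ha0 : (0 : ℝ) ≤ a := ha.le
  let R : (K × Icc (0 : ℝ) a) → (K × Icc (0 : ℝ) a) → Prop := fun p q => (p.2 : ℝ) ≤ q.2 ∧
    d p.1 q.1 ≤ ENNReal.ofReal ((q.2 : ℝ) - p.2)
  have hRdef : ∀ p q : (K × Icc (0 : ℝ) a), R p q ↔ ((p.2 : ℝ) ≤ q.2 ∧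
    d p.1 q.1 ≤ ENNReal.ofReal ((q.2 : ℝ) - p.2)) := fun _ _ => Iff.rfl
  have hR : IsClosed {p : (K × Icc (0 : ℝ) a) × (K × Icc (0 : ℝ) a) | R p.1 p.2} := by
    have e : {p : (K × Icc (0 : ℝ) a) × (K × Icc (0 : ℝ) a) | R p.1 p.2} = {p : (K × Icc (0 : ℝ) a) × (K × Icc (0 : ℝ) a) | (p.1.2 : ℝ) ≤ p.2.2} ∩
        ⋂ (c : ℝ), ({p : (K × Icc (0 : ℝ) a) × (K × Icc (0 : ℝ) a) | c ≤ (p.2.2 : ℝ) - p.1.2} ∪
          {p : (K × Icc (0 : ℝ) a) × (K × Icc (0 : ℝ) a) | d p.1.1 p.2.1 ≤ ENNReal.ofReal c}) := by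
      ext p
      simp only [mem_inter_iff, mem_iInter, mem_union]
      constructor
      · rintro ⟨h1, h2⟩
        refine ⟨h1, fun c => ?_⟩
        rcases le_total c ((p.2.2 : ℝ) - p.1.2) with h | h
        · left; exact h
        · right; exact h2.trans (ENNReal.ofReal_le_ofReal h)
      · rintro ⟨h1, h2⟩
        refine ⟨h1, ?_⟩
        have h3 : Tendsto (fun c : ℝ => ENNReal.ofReal c) (𝓝[>] ((p.2.2 : ℝ) - p.1.2))
            (𝓝 (ENNReal.ofReal ((p.2.2 : ℝ) - p.1.2))) :=
          (ENNReal.continuous_ofReal.tendsto _).mono_left nhdsWithin_le_nhds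
        refine ge_of_tendsto h3 ?_
        filter_upwards [self_mem_nhdsWithin] with c hc'
        rcases h2 c with h | h
        · exact absurd (show c ≤ (p.2.2 : ℝ) - p.1.2 from h) (not_le.2 hc')
        · exact h
    rw [e]
    refine IsClosed.inter (isClosed_le (by fun_prop) (by fun_prop)) (isClosed_iInter fun c => ?_)
    refine IsClosed.union (isClosed_le (by fun_prop) (by fun_prop)) ?_
    have h4 : Continuous (fun p : (K × Icc (0 : ℝ) a) × (K × Icc (0 : ℝ) a) => ((p.1.1, p.2.1) : K × K)) := by fun_prop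
    exact (hc _ ENNReal.ofReal_ne_top).preimage h4
  have hrefl : ∀ x, R x x := fun x => ⟨le_rfl, by rw [h0]; exact zero_le⟩
  have htrans : ∀ x y z, R x y → R y z → R x z := by
    rintro x y z ⟨h1, h2⟩ ⟨h3, h4⟩
    refine ⟨h1.trans h3, (ht _ y.1 _).trans ?_⟩
    refine (add_le_add h2 h4).trans ?_
    rw [← ENNReal.ofReal_add (by linarith) (by linarith)]
    apply ENNReal.ofReal_le_ofReal; linarith
  have ma : a ∈ Icc (0 : ℝ) a := ⟨ha0, le_rfl⟩
  have m0 : (0 : ℝ) ∈ Icc (0 : ℝ) a := ⟨le_rfl, ha0⟩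
  let F : Set (K × Icc (0 : ℝ) a) := {q | q.1 ∈ B ∧ (q.2 : ℝ) = a}
  let G : Set (K × Icc (0 : ℝ) a) := {q | q.1 ∈ A ∧ (q.2 : ℝ) = 0}
  have hF : IsClosed F := (hB.preimage continuous_fst).inter
    (isClosed_eq (by fun_prop) continuous_const)
  have hG : IsClosed G := (hA.preimage continuous_fst).inter
    (isClosed_eq (by fun_prop) continuous_const)
  obtain ⟨f, hf, hf01, hfC, hfU, hfR⟩ := monotone_urysohn (X := (K × Icc (0 : ℝ) a)) (R := R) hR hrefl htrans
    (C := {x | ∃ y ∈ F, R x y}) (U := {y | ∃ x ∈ G, R x y}ᶜ) (closed_down hR hF)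
    (closed_up hR hG).isOpen_compl
    (by
      rintro p ⟨q, ⟨hq1, hq2⟩, hpq⟩ ⟨g, ⟨hg1, hg2⟩, hgp⟩
      have h5 := htrans g p q hgp hpq
      have h6 := h5.2
      rw [hq2, hg2, sub_zero] at h6
      exact absurd h6 (not_le.2 (hAB _ hg1 _ hq1)))
    (by
      rintro x y hxy ⟨z, hz, hyz⟩
      exact ⟨z, hz, htrans x y z hxy hyz⟩)
    (by
      rintro x y hxy hy ⟨z, hz, hzx⟩
      exact hy ⟨z, hz, htrans z x y hzx hxy⟩)
  -- the averaged function
  let g : K → ℝ → ℝ := fun x s => 1 - f (x, projIcc 0 a ha0 s)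
  have hgc : Continuous (Function.uncurry g) := by
    have h7 : Continuous (fun p : K × ℝ => ((p.1, projIcc 0 a ha0 p.2) : (K × Icc (0 : ℝ) a))) :=
      continuous_fst.prodMk (continuous_projIcc.comp continuous_snd)
    exact continuous_const.sub (hf.comp h7)
  have hgx : ∀ x, Continuous (g x) := fun x => hgc.comp (continuous_const.prodMk continuous_id)
  have hg0 : ∀ x s, 0 ≤ g x s := fun x s => by
    have := (hf01 (x, projIcc 0 a ha0 s)).2
    simp only [g]; linarith
  have hg1 : ∀ x s, g x s ≤ 1 := fun x s => by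
    have := (hf01 (x, projIcc 0 a ha0 s)).1
    simp only [g]; linarith
  have hint : ∀ x b c, IntervalIntegrable (g x) MeasureTheory.volume b c :=
    fun x b c => (hgx x).intervalIntegrable _ _
  refine ⟨fun x => ∫ s in (0 : ℝ)..a, g x s, ?_, ?_, ?_, ?_, ?_⟩
  · exact intervalIntegral.continuous_parametric_intervalIntegral_of_continuous' hgc 0 a
  · intro x
    refine ⟨intervalIntegral.integral_nonneg ha0 fun s _ => hg0 x s, ?_⟩
    calc ∫ s in (0 : ℝ)..a, g x s ≤ ∫ s in (0 : ℝ)..a, (1 : ℝ) :=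
          intervalIntegral.integral_mono_on ha0 (hint _ _ _) (by simp) fun s _ => hg1 x s
      _ = a := by simp
  · intro x hx
    have : ∀ s, g x s = 0 := by
      intro s
      simp only [g]
      rw [hfU, sub_self]
      intro h
      exact h ⟨(x, ⟨0, m0⟩), ⟨hx, rfl⟩, (projIcc 0 a ha0 s).2.1, by
        show d x x ≤ _
        rw [h0]; exact zero_le⟩
    simp [this]
  · intro x hx
    have : ∀ s, g x s = 1 := by
      intro s
      simp only [g]
      rw [hfC, sub_zero]
      exact ⟨(x, ⟨a, ma⟩), ⟨hx, rfl⟩, (projIcc 0 a ha0 s).2.2, by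
        show d x x ≤ _
        rw [h0]; exact zero_le⟩
    simp [this]
  · intro x y
    by_cases htop : d x y = ⊤
    · rw [htop]; exact le_top
    have hr0 : 0 ≤ (d x y).toReal := ENNReal.toReal_nonneg
    have hdr : d x y = ENNReal.ofReal (d x y).toReal := (ENNReal.ofReal_toReal htop).symm
    set r := (d x y).toReal with hr
    rw [hdr]
    apply ENNReal.ofReal_le_ofReal
    have hux : 0 ≤ ∫ s in (0 : ℝ)..a, g x s :=
      intervalIntegral.integral_nonneg ha0 fun s _ => hg0 x s
    rcases le_total a r with har | har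
    · have huy : ∫ s in (0 : ℝ)..a, g y s ≤ a := by
        calc ∫ s in (0 : ℝ)..a, g y s ≤ ∫ s in (0 : ℝ)..a, (1 : ℝ) :=
              intervalIntegral.integral_mono_on ha0 (hint _ _ _) (by simp) fun s _ => hg1 y s
          _ = a := by simp
      linarith
    · have e1 : ∫ s in (0 : ℝ)..a, g y s
          = (∫ s in (0 : ℝ)..r, g y s) + ∫ s in r..a, g y s :=
        (intervalIntegral.integral_add_adjacent_intervals (hint _ _ _) (hint _ _ _)).symm
      have e2 : ∫ s in (0 : ℝ)..r, g y s ≤ r := by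
        calc ∫ s in (0 : ℝ)..r, g y s ≤ ∫ s in (0 : ℝ)..r, (1 : ℝ) :=
              intervalIntegral.integral_mono_on hr0 (hint _ _ _) (by simp) fun s _ => hg1 y s
          _ = r := by simp
      have e3 : ∫ s in r..a, g y s = ∫ s in (0 : ℝ)..(a - r), g y (s + r) := by
        rw [intervalIntegral.integral_comp_add_right]
        simp
      have e4 : ∫ s in (0 : ℝ)..(a - r), g y (s + r) ≤ ∫ s in (0 : ℝ)..(a - r), g x s := by
        refine intervalIntegral.integral_mono_on (by linarith) ?_ (hint _ _ _) fun s hs => ?_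
        · exact ((hgx y).comp (by fun_prop)).intervalIntegrable _ _
        · have hs1 : s ∈ Icc (0 : ℝ) a := ⟨hs.1, by linarith [hs.2]⟩
          have hs2 : s + r ∈ Icc (0 : ℝ) a := ⟨by linarith [hs.1], by linarith [hs.2]⟩
          simp only [g]
          rw [projIcc_of_mem ha0 hs1, projIcc_of_mem ha0 hs2]
          have : f (x, ⟨s, hs1⟩) ≤ f (y, ⟨s + r, hs2⟩) := by
            apply hfR
            refine ⟨by show s ≤ s + r; linarith, ?_⟩
            show d x y ≤ ENNReal.ofReal (s + r - s)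
            rw [hdr]
            apply ENNReal.ofReal_le_ofReal; linarith
          linarith
      have e5 : ∫ s in (0 : ℝ)..(a - r), g x s ≤ ∫ s in (0 : ℝ)..a, g x s := by
        have e6 : ∫ s in (0 : ℝ)..a, g x s
            = (∫ s in (0 : ℝ)..(a - r), g x s) + ∫ s in (a - r)..a, g x s :=
          (intervalIntegral.integral_add_adjacent_intervals (hint _ _ _) (hint _ _ _)).symm
        have e7 : 0 ≤ ∫ s in (a - r)..a, g x s :=
          intervalIntegral.integral_nonneg (by linarith) fun s _ => hg0 x s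
        linarith
      linarith

end Pool.Agent.TH221
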