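import Pool.Agent.TH221.Defs

/-!
# Smoothing of admissible functions off a closed set
-/

set_option autoImplicit false

open MeasureTheory Set Filter Topology Metric
open scoped ENNReal NNReal ContDiff

namespace Pool.Agent.TH221

namespace J142

/-! ### change of variables inequality for antilipschitz maps -/

theorem volume_preimage_le {n : ℕ} {Ψ : Eu n → Eu n} {K : ℝ≥0} (hΨ : AntilipschitzWith K Ψ)
    (A : Set (Eu n)) : volume (Ψ ⁻¹' A) ≤ (K : ℝ≥0∞) ^ n * volume A := by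
  have hdim : Module.finrank ℝ (Eu n) = n := by simp
  have hH : (Measure.hausdorffMeasure (n : ℝ) : Measure (Eu n)).IsAddHaarMeasure := by
    have := isAddHaarMeasure_hausdorffMeasure (E := Eu n)
    rwa [hdim] at this
  have hv := Measure.isAddLeftInvariant_eq_smul (volume : Measure (Eu n))
    (Measure.hausdorffMeasure (n : ℝ) : Measure (Eu n))
  set c := Measure.addHaarScalarFactor (volume : Measure (Eu n))
    (Measure.hausdorffMeasure (n : ℝ) : Measure (Eu n))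
  have h1 : ∀ B : Set (Eu n), volume B = (c : ℝ≥0∞) * Measure.hausdorffMeasure (n : ℝ) B := by
    intro B
    rw [hv]; rfl
  have h2 := hΨ.hausdorffMeasure_preimage_le (d := (n : ℝ)) (Nat.cast_nonneg n) A
  rw [ENNReal.rpow_natCast] at h2
  rw [h1, h1 A]
  calc (c : ℝ≥0∞) * Measure.hausdorffMeasure (n : ℝ) (Ψ ⁻¹' A)
      ≤ c * ((K : ℝ≥0∞) ^ n * Measure.hausdorffMeasure (n : ℝ) A) := by gcongr
    _ = _ := by ring

theorem lintegral_comp_le {n : ℕ} {Ψ : Eu n → Eu n} {K : ℝ≥0} (hΨ : AntilipschitzWith K Ψ)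
    (hc : Continuous Ψ) {f : Eu n → ℝ≥0∞} (hf : Measurable f) :
    ∫⁻ x, f (Ψ x) ≤ (K : ℝ≥0∞) ^ n * ∫⁻ x, f x := by
  have h1 : Measure.map Ψ volume ≤ ((K : ℝ≥0∞) ^ n) • (volume : Measure (Eu n)) := by
    refine Measure.le_iff.2 fun A hA => ?_
    rw [Measure.map_apply hc.measurable hA]
    exact volume_preimage_le hΨ A
  rw [← lintegral_map hf hc.measurable, ← smul_eq_mul, ← lintegral_smul_measure]
  exact lintegral_mono' h1 le_rfl

/-! ### the function `eps` and the maps `Ψ` -/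

variable {n : ℕ} {C : Set (Eu n)} {θ : ℝ}

/-- `θ min(1, dist(x, C))` -/
noncomputable def eps (C : Set (Eu n)) (θ : ℝ) (x : Eu n) : ℝ := θ * min 1 (infDist x C)

theorem eps_nonneg (hθ : 0 < θ) (x : Eu n) : 0 ≤ eps C θ x :=
  mul_nonneg hθ.le (le_min zero_le_one infDist_nonneg)

theorem eps_lt_one (hθ : 0 < θ) (hθ1 : θ < 1) (x : Eu n) : eps C θ x < 1 := by
  have : min 1 (infDist x C) ≤ 1 := min_le_left _ _
  unfold eps; nlinarith

theorem eps_lip (hθ : 0 < θ) (x y : Eu n) : |eps C θ x - eps C θ y| ≤ θ * ‖x - y‖ := by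
  have h1 : |infDist x C - infDist y C| ≤ ‖x - y‖ := by
    have := (lipschitz_infDist_pt C).dist_le_mul x y
    rw [Real.dist_eq, dist_eq_norm] at this
    simpa using this
  have h2 : |min 1 (infDist x C) - min 1 (infDist y C)| ≤ |infDist x C - infDist y C| := by
    have := abs_min_sub_min_le_max 1 (infDist x C) 1 (infDist y C)
    simpa using this
  unfold eps
  rw [← mul_sub, abs_mul, abs_of_pos hθ]
  exact mul_le_mul_of_nonneg_left (h2.trans h1) hθ.le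

theorem eps_cont (hθ : 0 < θ) : Continuous (eps C θ) := by
  have : LipschitzWith (Real.toNNReal θ) (eps C θ) := by
    refine LipschitzWith.of_dist_le_mul fun x y => ?_
    rw [Real.dist_eq, dist_eq_norm, Real.coe_toNNReal _ hθ.le]
    exact eps_lip hθ x y
  exact this.continuous

theorem eps_zero (x : Eu n) (hx : x ∈ C) : eps C θ x = 0 := by
  simp [eps, infDist_zero_of_mem hx]

theorem eps_pos (hC : IsClosed C) (hC0 : C.Nonempty) (hθ : 0 < θ) (x : Eu n) (hx : x ∉ C) :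
    0 < eps C θ x := by
  have : 0 < infDist x C := (hC.notMem_iff_infDist_pos hC0).1 hx
  exact mul_pos hθ (lt_min zero_lt_one this)

/-- `Ψ_y(x) = x + eps(x) y` -/
noncomputable def Psi (C : Set (Eu n)) (θ : ℝ) (y x : Eu n) : Eu n := x + eps C θ x • y

theorem Psi_lip (hθ : 0 < θ) {y : Eu n} (hy : ‖y‖ ≤ 1) (x x' : Eu n) :
    ‖Psi C θ y x - Psi C θ y x'‖ ≤ (1 + θ) * ‖x - x'‖ := by
  have e : Psi C θ y x - Psi C θ y x' = (x - x') + (eps C θ x - eps C θ x') • y := by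
    simp only [Psi, sub_smul]; abel
  rw [e]
  refine (norm_add_le _ _).trans ?_
  rw [norm_smul, Real.norm_eq_abs]
  have h1 := eps_lip (C := C) hθ x x'
  have h2 : |eps C θ x - eps C θ x'| * ‖y‖ ≤ θ * ‖x - x'‖ * 1 :=
    mul_le_mul h1 hy (norm_nonneg _) (by positivity)
  linarith

theorem Psi_anti (hθ : 0 < θ) {y : Eu n} (hy : ‖y‖ ≤ 1) (x x' : Eu n) :
    (1 - θ) * ‖x - x'‖ ≤ ‖Psi C θ y x - Psi C θ y x'‖ := by
  have e : x - x' = (Psi C θ y x - Psi C θ y x') - (eps C θ x - eps C θ x') • y := by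
    simp only [Psi, sub_smul]; abel
  have h0 : ‖x - x'‖ ≤ ‖Psi C θ y x - Psi C θ y x'‖ + ‖(eps C θ x - eps C θ x') • y‖ := by
    conv_lhs => rw [e]
    exact norm_sub_le _ _
  rw [norm_smul, Real.norm_eq_abs] at h0
  have h1 := eps_lip (C := C) hθ x x'
  have h2 : |eps C θ x - eps C θ x'| * ‖y‖ ≤ θ * ‖x - x'‖ * 1 :=
    mul_le_mul h1 hy (norm_nonneg _) (by positivity)
  linarith

theorem Psi_of_mem (y : Eu n) {x : Eu n} (hx : x ∈ C) : Psi C θ y x = x := by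
  simp [Psi, eps_zero x hx]

theorem Psi_notMem (hC : IsClosed C) (hC0 : C.Nonempty) (hθ : 0 < θ) (hθ1 : θ < 1) {y : Eu n}
    (hy : ‖y‖ ≤ 1) {x : Eu n} (hx : x ∉ C) : Psi C θ y x ∉ C := by
  intro h
  have h1 : infDist x C ≤ dist x (Psi C θ y x) := infDist_le_dist_of_mem h
  have h2 : dist x (Psi C θ y x) ≤ eps C θ x := by
    rw [dist_eq_norm]
    simp only [Psi, sub_add_cancel_left, norm_neg, norm_smul]
    rw [Real.norm_of_nonneg (eps_nonneg hθ x)]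
    have := mul_le_mul_of_nonneg_left hy (eps_nonneg (C := C) hθ x)
    linarith
  have h3 : eps C θ x ≤ θ * infDist x C :=
    mul_le_mul_of_nonneg_left (min_le_right _ _) hθ.le
  have h4 : 0 < infDist x C := (hC.notMem_iff_infDist_pos hC0).1 hx
  nlinarith

theorem Psi_cont (hθ : 0 < θ) : Continuous (fun p : Eu n × Eu n => Psi C θ p.1 p.2) := by
  have := eps_cont (C := C) hθ
  unfold Psi
  fun_prop

theorem Psi_comp_le (hθ : 0 < θ) (hθ1 : θ < 1) {y : Eu n} (hy : ‖y‖ ≤ 1) {f : Eu n → ℝ≥0∞}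
    (hf : Measurable f) :
    ∫⁻ x, f (Psi C θ y x) ≤ ENNReal.ofReal (1 / (1 - θ)) ^ n * ∫⁻ x, f x := by
  have hc : Continuous (Psi C θ y) := (Psi_cont hθ).comp (Continuous.prodMk_right y)
  have ha : AntilipschitzWith (Real.toNNReal (1 / (1 - θ))) (Psi C θ y) := by
    refine AntilipschitzWith.of_le_mul_dist fun x x' => ?_
    have h1 := Psi_anti (C := C) hθ hy x x'
    have h2 : 0 < 1 - θ := by linarith
    rw [Real.coe_toNNReal _ (by positivity), dist_eq_norm, dist_eq_norm, one_div,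
      inv_mul_eq_div, le_div_iff₀ h2]
    linarith
  exact lintegral_comp_le ha hc hf

/-! ### curves -/

theorem curve_bound (hC : IsClosed C) (hC0 : C.Nonempty) {E F₁ F₂ : Set (Eu n)} (hE : E ⊆ C)
    (hF₁ : F₁ ⊆ C) (hF₂ : F₂ ⊆ C) {ρ : Eu n → ℝ≥0∞}
    (hadm : ∀ x ∈ F₁, ∀ y ∈ F₂, ∀ γ ℓ, Crv univ E x y γ ℓ → 1 ≤ cost ρ γ 0 ℓ)
    (hθ : 0 < θ) (hθ1 : θ < 1) {z : Eu n} (hz : ‖z‖ ≤ 1)
    {x y : Eu n} (hx : x ∈ F₁) (hy : y ∈ F₂) {γ : ℝ → Eu n} {ℓ : ℝ} (h : Crv univ E x y γ ℓ) :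
    1 ≤ ENNReal.ofReal (1 + θ) * ∫⁻ s in Icc 0 ℓ, ρ (Psi C θ z (γ s)) := by
  have hθ' : (0 : ℝ) < 1 + θ := by linarith
  let σ : ℝ → Eu n := fun s => Psi C θ z (γ ((1 + θ)⁻¹ * s))
  have hσ : Crv univ E x y σ ((1 + θ) * ℓ) := by
    refine ⟨?_, mul_nonneg hθ'.le h.nonneg, ?_, ?_, fun _ _ => mem_univ _, ?_⟩
    · refine LipschitzWith.of_dist_le_mul fun s t => ?_
      have h1 := Psi_lip (C := C) hθ hz (γ ((1 + θ)⁻¹ * s)) (γ ((1 + θ)⁻¹ * t))
      have h2 := h.lip.dist_le_mul ((1 + θ)⁻¹ * s) ((1 + θ)⁻¹ * t)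
      rw [Real.dist_eq, ← mul_sub, abs_mul, abs_of_pos (inv_pos.2 hθ')] at h2
      rw [Real.dist_eq]
      simp only [NNReal.coe_one, one_mul] at h2 ⊢
      rw [dist_eq_norm] at h2 ⊢
      calc ‖σ s - σ t‖ ≤ (1 + θ) * ‖γ ((1 + θ)⁻¹ * s) - γ ((1 + θ)⁻¹ * t)‖ := h1
        _ ≤ (1 + θ) * ((1 + θ)⁻¹ * |s - t|) := by gcongr
        _ = |s - t| := by rw [← mul_assoc, mul_inv_cancel₀ hθ'.ne', one_mul]
    · simp only [σ, mul_zero, h.left]
      exact Psi_of_mem z (hF₁ hx)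
    · simp only [σ]
      rw [← mul_assoc, inv_mul_cancel₀ hθ'.ne', one_mul, h.right]
      exact Psi_of_mem z (hF₂ hy)
    · refine h.cnt.mono ?_
      rintro _ ⟨⟨s, hs, rfl⟩, hsE⟩
      have hmem : γ ((1 + θ)⁻¹ * s) ∈ C := by
        by_contra hcon
        exact Psi_notMem hC hC0 hθ hθ1 hz hcon (hE hsE)
      have he : σ s = γ ((1 + θ)⁻¹ * s) := Psi_of_mem z hmem
      rw [he] at hsE ⊢
      refine ⟨⟨(1 + θ)⁻¹ * s, ⟨mul_nonneg (inv_pos.2 hθ').le hs.1, ?_⟩, rfl⟩, hsE⟩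
      rw [inv_mul_le_iff₀ hθ']; exact hs.2
  have h1 := hadm x hx y hy σ _ hσ
  refine h1.trans (le_of_eq ?_)
  unfold cost
  -- change of variables
  have hmap := Real.map_volume_mul_left (inv_pos.2 hθ').ne'
  rw [inv_inv, abs_of_pos hθ'] at hmap
  have hemb : MeasurableEmbedding (fun s : ℝ => (1 + θ)⁻¹ * s) :=
    (Homeomorph.mulLeft₀ _ (inv_pos.2 hθ').ne').measurableEmbedding
  have hpre : (fun s : ℝ => (1 + θ)⁻¹ * s) ⁻¹' (Icc 0 ℓ) = Icc 0 ((1 + θ) * ℓ) := by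
    ext s
    simp only [mem_preimage, mem_Icc]
    rw [inv_mul_le_iff₀ hθ', mul_nonneg_iff_of_pos_left (inv_pos.2 hθ')]
  have h2 : ∫⁻ s in Icc 0 ((1 + θ) * ℓ), ρ (σ s)
      = ∫⁻ s in Icc 0 ℓ, ρ (Psi C θ z (γ s)) ∂(Measure.map (fun s : ℝ => (1 + θ)⁻¹ * s) volume) := by
    rw [hemb.restrict_map, hemb.lintegral_map, hpre]
  rw [h2, hmap, Measure.restrict_smul, lintegral_smul_measure, smul_eq_mul]

/-! ### Jensen -/

theorem jensen {α : Type*} [MeasurableSpace α] {μ : Measure α} (hn : 1 ≤ n) {φ g : α → ℝ≥0∞}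
    (hφ : Measurable φ) (hg : Measurable g) (h1 : ∫⁻ y, φ y ∂μ = 1) :
    (∫⁻ y, φ y * g y ∂μ) ^ n ≤ ∫⁻ y, φ y * g y ^ n ∂μ := by
  have hn0 : (n : ℝ) ≠ 0 := by positivity
  have hn1 : (1 : ℝ) ≤ n := by exact_mod_cast hn
  have hp : (0 : ℝ) ≤ 1 - 1 / n := by
    rw [sub_nonneg, div_le_one (by linarith)]; exact hn1
  have h := ENNReal.lintegral_mul_norm_pow_le (μ := μ) (f := φ) (g := fun y => φ y * g y ^ n)
    hφ.aemeasurable (hφ.mul (hg.pow_const n)).aemeasurable hp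
    (by positivity : (0 : ℝ) ≤ 1 / n) (by ring)
  rw [h1, ENNReal.one_rpow, one_mul] at h
  have h2 : ∀ y, φ y ^ (1 - 1 / (n : ℝ)) * (φ y * g y ^ n) ^ (1 / (n : ℝ)) = φ y * g y := by
    intro y
    rw [ENNReal.mul_rpow_of_nonneg _ _ (by positivity), ← mul_assoc,
      ← ENNReal.rpow_add_of_nonneg _ _ hp (by positivity)]
    congr 1
    · rw [sub_add_cancel, ENNReal.rpow_one]
    · rw [← ENNReal.rpow_natCast, ← ENNReal.rpow_mul, mul_one_div_cancel hn0, ENNReal.rpow_one]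
  simp only [h2] at h
  calc (∫⁻ y, φ y * g y ∂μ) ^ n ≤ ((∫⁻ y, φ y * g y ^ n ∂μ) ^ (1 / (n : ℝ))) ^ n := by gcongr
    _ = _ := by
      rw [← ENNReal.rpow_natCast, ← ENNReal.rpow_mul, one_div_mul_cancel hn0, ENNReal.rpow_one]

/-! ### local integrability -/

theorem lintegral_ball_ne_top (hn : 1 ≤ n) {ρ : Eu n → ℝ≥0∞}
    (hfin : ∫⁻ x, ρ x ^ n ≠ ⊤) (x₀ : Eu n) (r : ℝ) : ∫⁻ x in closedBall x₀ r, ρ x ≠ ⊤ := by
  have h1 : ∀ a : ℝ≥0∞, a ≤ 1 + a ^ n := by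
    intro a
    rcases le_total a 1 with h | h
    · exact h.trans le_self_add
    · calc a = a ^ 1 := (pow_one a).symm
        _ ≤ a ^ n := pow_le_pow_right₀ h hn
        _ ≤ _ := le_add_self
  refine ne_top_of_le_ne_top ?_ (lintegral_mono fun x => h1 (ρ x))
  rw [lintegral_add_left measurable_const]
  refine ENNReal.add_ne_top.2 ⟨?_, ne_top_of_le_ne_top hfin (setLIntegral_le_lintegral _ _)⟩
  simp only [lintegral_const, one_mul, Measure.restrict_apply_univ]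
  exact measure_closedBall_lt_top.ne

end J142

open J142 in
/-- smoothing of admissible functions off a closed set `C`, by averaging over the maps
`x ↦ x + θ min(1, dist(x, C)) y`, `|y| ≤ 1`, which fix the points of `C` -/
theorem smoothing {n : ℕ} (hn : 1 ≤ n) {E F₁ F₂ C : Set (Eu n)} (hC : IsClosed C)
    (hC0 : C.Nonempty) (hE : E ⊆ C) (hF₁ : F₁ ⊆ C) (hF₂ : F₂ ⊆ C)
    {ρ : Eu n → ℝ≥0∞} (hρ : Measurable ρ) (hfin : ∫⁻ x, ρ x ^ n ≠ ⊤)
    (hadm : ∀ x ∈ F₁, ∀ y ∈ F₂, ∀ γ ℓ, Crv univ E x y γ ℓ → 1 ≤ cost ρ γ 0 ℓ)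
    {θ : ℝ} (hθ : 0 < θ) (hθ1 : θ < 1) :
    ∃ ρ' : Eu n → ℝ≥0∞, Measurable ρ' ∧ ContinuousOn ρ' Cᶜ ∧ (∀ x ∉ C, ρ' x ≠ ⊤) ∧
      (∀ x ∈ F₁, ∀ y ∈ F₂, ∀ γ ℓ, Crv univ E x y γ ℓ → 1 ≤ cost ρ' γ 0 ℓ) ∧
      ∫⁻ x in Cᶜ, ρ' x ^ n ≤ ENNReal.ofReal ((1 + θ) / (1 - θ)) ^ n * ∫⁻ x, ρ x ^ n := by
  let f : ContDiffBump (0 : Eu n) := ⟨1 / 2, 1, by norm_num, by norm_num⟩
  let φ : Eu n → ℝ := f.normed volume
  have hφc : Continuous φ := f.continuous_normed
  have hφ0 : ∀ y, 0 ≤ φ y := fun y => f.nonneg_normed y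
  have hφs : ∀ y, 1 < ‖y‖ → φ y = 0 := by
    intro y hy
    have : y ∉ Function.support φ := by
      rw [show Function.support φ = ball 0 1 from f.support_normed_eq]
      simp only [mem_ball, dist_zero_right, not_lt]; linarith
    simpa using this
  let Φ : Eu n → ℝ≥0∞ := fun y => ENNReal.ofReal (φ y)
  have hΦc : Continuous Φ := ENNReal.continuous_ofReal.comp hφc
  have hΦm : Measurable Φ := hΦc.measurable
  have hΦs : ∀ y, 1 < ‖y‖ → Φ y = 0 := fun y hy => by simp [Φ, hφs y hy]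
  have hΦ1 : ∫⁻ y, Φ y = 1 := by
    have h1 : Integrable φ volume := f.integrable_normed
    rw [← ofReal_integral_eq_lintegral_ofReal h1 (Eventually.of_forall hφ0)]
    have : ∫ y, φ y = 1 := f.integral_normed
    rw [this, ENNReal.ofReal_one]
  have hpsi := Psi_cont (C := C) hθ
  let ρ' : Eu n → ℝ≥0∞ := fun x => ENNReal.ofReal (1 + θ) * ∫⁻ y, Φ y * ρ (Psi C θ y x)
  have hjm : Measurable (fun p : Eu n × Eu n => Φ p.2 * ρ (Psi C θ p.2 p.1)) :=
    (hΦm.comp measurable_snd).mul (hρ.comp (hpsi.comp continuous_swap).measurable)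
  have hρ'm : Measurable ρ' := (Measurable.lintegral_prod_right' hjm).const_mul _
  -- the substitution off `C`
  have hsub : ∀ x, x ∉ C → ρ' x = ENNReal.ofReal (1 + θ) * (ENNReal.ofReal ((eps C θ x)⁻¹ ^ n) *
      ∫⁻ z, Φ ((eps C θ x)⁻¹ • (z - x)) * ρ z) := by
    intro x hx
    have he := eps_pos hC hC0 hθ x hx
    have hdim : Module.finrank ℝ (Eu n) = n := by simp
    have h1 : ∫⁻ y, Φ y * ρ (Psi C θ y x) = ENNReal.ofReal ((eps C θ x)⁻¹ ^ n) *
        ∫⁻ z, Φ ((eps C θ x)⁻¹ • (z - x)) * ρ z := by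
      have hmap := Measure.map_addHaar_smul (volume : Measure (Eu n)) he.ne'
      rw [hdim] at hmap
      have hemb : MeasurableEmbedding (fun y : Eu n => eps C θ x • y) :=
        (Homeomorph.smulOfNeZero _ he.ne').measurableEmbedding
      have h2 := hemb.lintegral_map (μ := volume)
        (fun y => Φ ((eps C θ x)⁻¹ • y) * ρ (x + y))
      rw [hmap, lintegral_smul_measure, smul_eq_mul] at h2
      have h3 : ∫⁻ z, Φ ((eps C θ x)⁻¹ • (z - x)) * ρ z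
          = ∫⁻ y, Φ ((eps C θ x)⁻¹ • y) * ρ (x + y) := by
        rw [← lintegral_add_left_eq_self _ x]
        simp
      rw [h3]
      have h4 : |(eps C θ x ^ n)⁻¹| = (eps C θ x)⁻¹ ^ n := by
        rw [abs_of_pos (by positivity), inv_pow]
      rw [h4] at h2
      rw [h2]
      refine lintegral_congr fun y => ?_
      rw [smul_smul, inv_mul_cancel₀ he.ne', one_smul]
      rfl
    simp only [ρ']
    rw [h1]
  -- a bound for Φ
  obtain ⟨M, hM⟩ : ∃ M : ℝ≥0∞, M ≠ ⊤ ∧ ∀ y, Φ y ≤ M := by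
    obtain ⟨M, hM⟩ := f.hasCompactSupport_normed (μ := volume).exists_bound_of_continuous hφc
    refine ⟨ENNReal.ofReal M, ENNReal.ofReal_ne_top, fun y => ENNReal.ofReal_le_ofReal ?_⟩
    have := hM y
    rw [Real.norm_eq_abs, abs_of_nonneg (hφ0 y)] at this
    exact this
  have hbound : ∀ x₀ x z : Eu n, x ∉ C → ‖x - x₀‖ ≤ 1 →
      Φ ((eps C θ x)⁻¹ • (z - x)) * ρ z ≤ (closedBall x₀ 2).indicator (fun z => M * ρ z) z := by
    intro x₀ x z hx hxx
    by_cases hz : z ∈ closedBall x₀ 2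
    · rw [indicator_of_mem hz]
      gcongr
      exact hM.2 _
    · rw [indicator_of_notMem hz, hΦs, zero_mul]
      have he := eps_pos hC hC0 hθ x hx
      have he1 := eps_lt_one (C := C) hθ hθ1 x
      rw [norm_smul, norm_inv, Real.norm_of_nonneg he.le, ← div_eq_inv_mul, one_lt_div he]
      rw [mem_closedBall, not_le, dist_eq_norm] at hz
      have : ‖z - x₀‖ ≤ ‖z - x‖ + ‖x - x₀‖ := by
        calc ‖z - x₀‖ = ‖(z - x) + (x - x₀)‖ := by congr 1; abel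
          _ ≤ _ := norm_add_le _ _
      linarith
  have hbfin : ∀ x₀ : Eu n, ∫⁻ z, (closedBall x₀ 2).indicator (fun z => M * ρ z) z ≠ ⊤ := by
    intro x₀
    rw [lintegral_indicator measurableSet_closedBall, lintegral_const_mul _ hρ]
    exact ENNReal.mul_ne_top hM.1 (lintegral_ball_ne_top hn hfin x₀ 2)
  have hIfin : ∀ x, x ∉ C → ∫⁻ z, Φ ((eps C θ x)⁻¹ • (z - x)) * ρ z ≠ ⊤ := by
    intro x hx
    refine ne_top_of_le_ne_top (hbfin x) (lintegral_mono fun z => hbound x x z hx ?_)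
    simp
  have hfin' : ∀ x ∉ C, ρ' x ≠ ⊤ := by
    intro x hx
    rw [hsub x hx]
    exact ENNReal.mul_ne_top ENNReal.ofReal_ne_top
      (ENNReal.mul_ne_top ENNReal.ofReal_ne_top (hIfin x hx))
  have hρae : ∀ᵐ z : Eu n, ρ z ≠ ⊤ := by
    filter_upwards [ae_lt_top (hρ.pow_const n) hfin] with z hz h
    rw [h, ENNReal.top_pow (by omega)] at hz
    exact lt_irrefl _ hz
  have hcont : ContinuousOn ρ' Cᶜ := by
    intro x₀ hx₀
    have hx₀' : x₀ ∉ C := hx₀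
    have he₀ := eps_pos hC hC0 hθ x₀ hx₀'
    refine ContinuousAt.continuousWithinAt ?_
    have hnhds : Cᶜ ∈ 𝓝 x₀ := hC.isOpen_compl.mem_nhds hx₀
    have hnhds' : closedBall x₀ 1 ∈ 𝓝 x₀ := closedBall_mem_nhds _ one_pos
    have hev : ρ' =ᶠ[𝓝 x₀] fun x => ENNReal.ofReal (1 + θ) * (ENNReal.ofReal ((eps C θ x)⁻¹ ^ n) *
        ∫⁻ z, Φ ((eps C θ x)⁻¹ • (z - x)) * ρ z) := by
      filter_upwards [hnhds] with x hx
      exact hsub x hx
    have hee : ContinuousAt (fun x => (eps C θ x)⁻¹) x₀ :=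
      (eps_cont hθ).continuousAt.inv₀ he₀.ne'
    have hI : Tendsto (fun x => ∫⁻ z, Φ ((eps C θ x)⁻¹ • (z - x)) * ρ z) (𝓝 x₀)
        (𝓝 (∫⁻ z, Φ ((eps C θ x₀)⁻¹ • (z - x₀)) * ρ z)) := by
      refine tendsto_lintegral_filter_of_dominated_convergence
        ((closedBall x₀ 2).indicator (fun z => M * ρ z)) ?_ ?_ (hbfin x₀) ?_
      · refine Eventually.of_forall fun x => ?_
        refine (hΦm.comp ?_).mul hρ
        fun_prop
      · filter_upwards [hnhds, hnhds'] with x hx hx'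
        refine Eventually.of_forall fun z => hbound x₀ x z hx ?_
        rwa [mem_closedBall, dist_eq_norm] at hx'
      · filter_upwards [hρae] with z hz
        refine ENNReal.Tendsto.mul_const ?_ (Or.inr hz)
        refine (hΦc.tendsto _).comp ?_
        exact hee.tendsto.smul (tendsto_const_nhds.sub tendsto_id)
    have h5 : ContinuousAt (fun x => ENNReal.ofReal (1 + θ) * (ENNReal.ofReal ((eps C θ x)⁻¹ ^ n) *
        ∫⁻ z, Φ ((eps C θ x)⁻¹ • (z - x)) * ρ z)) x₀ := by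
      refine ENNReal.Tendsto.const_mul ?_ (Or.inr ENNReal.ofReal_ne_top)
      refine ENNReal.Tendsto.mul ?_ (Or.inr (hIfin x₀ hx₀')) hI (Or.inr ENNReal.ofReal_ne_top)
      exact (ENNReal.continuous_ofReal.tendsto _).comp (hee.tendsto.pow n)
    exact h5.congr hev.symm
  refine ⟨ρ', hρ'm, hcont, hfin', ?_, ?_⟩
  · -- admissibility
    intro x hx y hy γ ℓ hγ
    unfold cost
    have hγc : Continuous γ := hγ.lip.continuous
    have hjm2 : Measurable (fun p : ℝ × Eu n => Φ p.2 * ρ (Psi C θ p.2 (γ p.1))) :=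
      (hΦm.comp measurable_snd).mul (hρ.comp
        (hpsi.comp (continuous_snd.prodMk (hγc.comp continuous_fst))).measurable)
    have hjm3 : ∀ z, Measurable (fun s => ρ (Psi C θ z (γ s))) := fun z =>
      hρ.comp (hpsi.comp (continuous_const.prodMk hγc)).measurable
    have hjm4 : Measurable (fun p : Eu n × ℝ => Φ p.1 * ρ (Psi C θ p.1 (γ p.2))) :=
      (hΦm.comp measurable_fst).mul (hρ.comp
        (hpsi.comp (continuous_fst.prodMk (hγc.comp continuous_snd))).measurable)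
    have hm5 : Measurable (fun z => ∫⁻ s in Icc 0 ℓ, Φ z * ρ (Psi C θ z (γ s))) :=
      Measurable.lintegral_prod_right' hjm4
    have hm6 : Measurable (fun s => ∫⁻ z, Φ z * ρ (Psi C θ z (γ s))) :=
      Measurable.lintegral_prod_right' hjm2
    have hswap : ∫⁻ z, ∫⁻ s in Icc 0 ℓ, Φ z * ρ (Psi C θ z (γ s))
        = ∫⁻ s in Icc 0 ℓ, ∫⁻ z, Φ z * ρ (Psi C θ z (γ s)) :=
      lintegral_lintegral_swap (f := fun z s => Φ z * ρ (Psi C θ z (γ s))) hjm4.aemeasurable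
    have hone : ∀ z, Φ z * 1 ≤ ENNReal.ofReal (1 + θ) *
        ∫⁻ s in Icc 0 ℓ, Φ z * ρ (Psi C θ z (γ s)) := by
      intro z
      rw [lintegral_const_mul _ (hjm3 z), mul_left_comm]
      rcases le_or_gt ‖z‖ 1 with hz | hz
      · exact mul_le_mul_right
          (curve_bound hC hC0 hE hF₁ hF₂ hadm hθ hθ1 hz hx hy hγ) _
      · rw [hΦs z hz, zero_mul, zero_mul]
    calc (1 : ℝ≥0∞) = ∫⁻ z, Φ z * 1 := by simp [hΦ1]
      _ ≤ ∫⁻ z, ENNReal.ofReal (1 + θ) * ∫⁻ s in Icc 0 ℓ, Φ z * ρ (Psi C θ z (γ s)) :=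
          lintegral_mono hone
      _ = ENNReal.ofReal (1 + θ) * ∫⁻ z, ∫⁻ s in Icc 0 ℓ, Φ z * ρ (Psi C θ z (γ s)) :=
          lintegral_const_mul _ hm5
      _ = ENNReal.ofReal (1 + θ) * ∫⁻ s in Icc 0 ℓ, ∫⁻ z, Φ z * ρ (Psi C θ z (γ s)) := by
          rw [hswap]
      _ = ∫⁻ s in Icc 0 ℓ, ρ' (γ s) := (lintegral_const_mul _ hm6).symm
  · -- energy
    have hm1 : ∀ x, Measurable (fun y => ρ (Psi C θ y x)) := fun x =>
      hρ.comp (hpsi.comp (continuous_id.prodMk continuous_const)).measurable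
    have hm2 : ∀ y, Measurable (fun x => ρ (Psi C θ y x) ^ n) := fun y =>
      (hρ.comp (hpsi.comp (continuous_const.prodMk continuous_id)).measurable).pow_const n
    have hm3 : Measurable (fun p : Eu n × Eu n => Φ p.2 * ρ (Psi C θ p.2 p.1) ^ n) :=
      (hΦm.comp measurable_snd).mul
        ((hρ.comp (hpsi.comp continuous_swap).measurable).pow_const n)
    have hm4 : Measurable (fun x => ∫⁻ y, Φ y * ρ (Psi C θ y x) ^ n) :=
      Measurable.lintegral_prod_right' hm3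
    have hJ : ∀ x, (∫⁻ y, Φ y * ρ (Psi C θ y x)) ^ n ≤ ∫⁻ y, Φ y * ρ (Psi C θ y x) ^ n :=
      fun x => jensen hn hΦm (hm1 x) hΦ1
    have hΨ : ∀ y, ∫⁻ x, Φ y * ρ (Psi C θ y x) ^ n ≤
        Φ y * (ENNReal.ofReal (1 / (1 - θ)) ^ n * ∫⁻ x, ρ x ^ n) := by
      intro y
      rw [lintegral_const_mul _ (hm2 y)]
      rcases le_or_gt ‖y‖ 1 with hy | hy
      · exact mul_le_mul_right (Psi_comp_le hθ hθ1 hy (hρ.pow_const n)) _
      · rw [hΦs y hy, zero_mul, zero_mul]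
    have hρ'J : ∀ x, ρ' x ^ n ≤ ENNReal.ofReal (1 + θ) ^ n * ∫⁻ y, Φ y * ρ (Psi C θ y x) ^ n := by
      intro x
      simp only [ρ', mul_pow]
      exact mul_le_mul_right (hJ x) _
    have hswap : ∫⁻ x, ∫⁻ y, Φ y * ρ (Psi C θ y x) ^ n = ∫⁻ y, ∫⁻ x, Φ y * ρ (Psi C θ y x) ^ n :=
      lintegral_lintegral_swap (f := fun x y => Φ y * ρ (Psi C θ y x) ^ n) hm3.aemeasurable
    have hconst : ENNReal.ofReal (1 + θ) ^ n * ENNReal.ofReal (1 / (1 - θ)) ^ n
        = ENNReal.ofReal ((1 + θ) / (1 - θ)) ^ n := by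
      rw [← mul_pow, ← ENNReal.ofReal_mul (by linarith)]
      congr 2
      ring
    calc ∫⁻ x in Cᶜ, ρ' x ^ n ≤ ∫⁻ x, ρ' x ^ n := setLIntegral_le_lintegral _ _
      _ ≤ ∫⁻ x, ENNReal.ofReal (1 + θ) ^ n * ∫⁻ y, Φ y * ρ (Psi C θ y x) ^ n :=
          lintegral_mono hρ'J
      _ = ENNReal.ofReal (1 + θ) ^ n * ∫⁻ x, ∫⁻ y, Φ y * ρ (Psi C θ y x) ^ n :=
          lintegral_const_mul _ hm4
      _ = ENNReal.ofReal (1 + θ) ^ n * ∫⁻ y, ∫⁻ x, Φ y * ρ (Psi C θ y x) ^ n := by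
          rw [hswap]
      _ ≤ ENNReal.ofReal (1 + θ) ^ n * ∫⁻ y, Φ y *
          (ENNReal.ofReal (1 / (1 - θ)) ^ n * ∫⁻ x, ρ x ^ n) :=
          mul_le_mul_right (lintegral_mono hΨ) _
      _ = ENNReal.ofReal ((1 + θ) / (1 - θ)) ^ n * ∫⁻ x, ρ x ^ n := by
          rw [lintegral_mul_const _ hΦm, hΦ1, one_mul, ← mul_assoc, hconst]

end Pool.Agent.TH221
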