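import Pool.Agent.TH317.CC.Alg

set_option autoImplicit false

namespace Pool.Agent.TH317.CC

open Finset

namespace H55A3a

variable {D Λ R : Type*} [LinearOrder Λ] [CommRing R] [Inhabited D] (i o : D → Λ)

/-- the antisymmetric product -/
def Fb (Y Z : List D → R) (A B : List D) : R := Y A * Z B - Z A * Y B

theorem br_eq (Y Z : List D → R) (w : List D) : br i o Y Z w =
    ∑ k ∈ range w.length, ∑ j ∈ range k, (cf i o w j k : R) * Fb Y Z (leaf w j k) (rest w j k) := by
  unfold br L Fb
  rw [← Finset.sum_sub_distrib]
  apply Finset.sum_congr rfl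
  intro k _
  rw [← Finset.sum_sub_distrib]
  apply Finset.sum_congr rfl
  intro j _
  ring

theorem i1 (x y : Λ) : ((if x ≤ y then 1 else 0 : ℤ)) + (if y ≤ x then 1 else 0) =
    1 + (if x = y then 1 else 0) := by
  rcases lt_trichotomy x y with h | h | h
  · rw [if_pos h.le, if_neg h.not_ge, if_neg h.ne]
  · subst h; simp
  · rw [if_neg h.not_ge, if_pos h.le, if_neg h.ne']; ring

theorem i2 (x y : Λ) : ((if x ≤ y then 1 else 0 : ℤ)) + (if y < x then 1 else 0) = 1 := by
  rcases lt_or_ge y x with h | h
  · rw [if_neg h.not_ge, if_pos h]; ring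
  · rw [if_pos h, if_neg h.not_gt]; ring

theorem lk_add (a b : Λ × Λ) : lkb a b + lk b a = if a.2 = b.2 then 1 else 0 := by
  unfold lkb lk
  have e1 := i1 a.2 b.2
  have e2 := i2 a.2 b.1
  have e3 := i2 b.2 a.1
  have e4 := i2 a.1 b.1
  linarith

theorem lkb_lk (a b : Λ × Λ) : lkb a b = lk a b + if a.1 = b.1 then 1 else 0 := by
  unfold lkb lk
  have e1 := i1 a.1 b.1
  have e2 := i2 b.1 a.1
  linarith

theorem getD_w (a : D) (u : List D) (k : ℕ) : (a :: u).getD (k + 1) default = u.getD k default := by
  simp

theorem getD_r1 (a : D) (u : List D) {k : ℕ} (hk : k < u.length) :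
    (u ++ [a]).getD k default = u.getD k default := by
  rw [List.getD_append _ _ _ _ hk]

theorem getD_r2 (a : D) (u : List D) : (u ++ [a]).getD u.length default = a := by
  rw [List.getD_append_right _ _ _ _ le_rfl]; simp

theorem pass_r (a : D) (u : List D) (hu : u ≠ []) {k : ℕ} (hk : k < u.length) :
    pass i o (u ++ [a]) k = pass i o (a :: u) (k + 1) := by
  unfold pass
  rw [getD_w, getD_r1 a u hk]
  cases k with
  | zero =>
    simp
  | succ k =>
    simp only [Nat.add_one_ne_zero, if_false, Nat.add_sub_cancel]
    rw [getD_w, getD_r1 a u (by omega)]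

theorem pass_l (a : D) (u : List D) (hu : u ≠ []) :
    pass i o (u ++ [a]) u.length = pass i o (a :: u) 0 := by
  unfold pass
  have h0 : u.length ≠ 0 := by simpa using hu
  obtain ⟨m, hm⟩ := Nat.exists_eq_succ_of_ne_zero h0
  rw [if_neg h0, if_pos rfl, getD_r2]
  have e1 : (a :: u).length - 1 = m + 1 := by simp [hm]
  have e2 : u.length - 1 = m := by omega
  rw [e1, e2, getD_w, getD_r1 a u (by omega)]
  simp

theorem leaf_w (a : D) (u : List D) (j k : ℕ) : leaf (a :: u) (j + 1) (k + 1) = leaf u j k := by
  simp [leaf]

theorem leaf_r (a : D) (u : List D) (j : ℕ) {k : ℕ} (hk : k ≤ u.length) :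
    leaf (u ++ [a]) j k = leaf u j k := by
  unfold leaf
  rw [List.take_append_of_le_length hk]

theorem rest_w (a : D) (u : List D) (j k : ℕ) :
    rest (a :: u) (j + 1) (k + 1) = a :: (rest u j k) := by
  simp [rest]

theorem rest_r (a : D) (u : List D) {j k : ℕ} (hj : j ≤ u.length) (hk : k ≤ u.length) :
    rest (u ++ [a]) j k = rest u j k ++ [a] := by
  unfold rest
  rw [List.take_append_of_le_length hj, List.drop_append_of_le_length hk, List.append_assoc]

end H55A3a

open H55A3a in
theorem br_rot_letter {D Λ R : Type*} [LinearOrder Λ] [CommRing R] [Inhabited D] (i o : D → Λ)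
    (a : D) (hi : ∀ b, i b = i a → b = a) (ho : ∀ b, o b = o a → b = a)
    (Y Z : List D → R) (hY : ∀ u, Y (a :: u) = Y (u ++ [a])) (hZ : ∀ u, Z (a :: u) = Z (u ++ [a]))
    (u : List D) : br i o Y Z (a :: u) = br i o Y Z (u ++ [a]) := by
  classical
  by_cases hu : u = []
  · subst hu; rfl
  have hm0 : u.length ≠ 0 := by simpa using hu
  obtain ⟨m, hm⟩ := Nat.exists_eq_succ_of_ne_zero hm0
  rw [br_eq, br_eq]
  have e1 : (a :: u).length = u.length + 1 := by simp
  have e2 : (u ++ [a]).length = u.length + 1 := by simp
  rw [e1, e2, Finset.sum_range_succ' _ u.length, Finset.sum_range_succ _ u.length]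
  simp only [Finset.range_zero, Finset.sum_empty, add_zero]
  -- rotation invariance of the antisymmetric product
  have rotL : ∀ A B, Fb Y Z (a :: A) B = Fb Y Z (A ++ [a]) B := by
    intro A B; unfold Fb; rw [hY, hZ]
  have rotR : ∀ A B, Fb Y Z A (a :: B) = Fb Y Z A (B ++ [a]) := by
    intro A B; unfold Fb; rw [hY, hZ]
  have anti : ∀ A B, Fb Y Z A B = - Fb Y Z B A := by
    intro A B; unfold Fb; ring
  set g : ℕ → R := fun k => Fb Y Z (a :: u.take k) (u.drop k) with hg
  set χ : ℕ → R := fun k => if u.getD k default = a then 1 else 0 with hχ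
  -- the inner terms
  have hin : ∀ k ∈ range u.length, (∑ j ∈ range (k + 1), (cf i o (a :: u) j (k + 1) : R) *
      Fb Y Z (leaf (a :: u) j (k + 1)) (rest (a :: u) j (k + 1))) =
      (∑ j ∈ range k, (cf i o (u ++ [a]) j k : R) *
        Fb Y Z (leaf (u ++ [a]) j k) (rest (u ++ [a]) j k)) +
      (if k = 0 then 0 else - (χ (k - 1) * g (k - 1))) +
      (lkb (pass i o (a :: u) 0) (pass i o (a :: u) (k + 1)) : R) * g k := by
    intro k hk
    have hk' : k < u.length := Finset.mem_range.1 hk
    rw [Finset.sum_range_succ']
    congr 1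
    · cases k with
      | zero => simp
      | succ k =>
        rw [if_neg (by omega), Finset.sum_range_succ' _ k, Finset.sum_range_succ' _ k]
        have h0 : ∀ j ∈ range k, (cf i o (a :: u) (j + 1 + 1) (k + 1 + 1) : R) *
            Fb Y Z (leaf (a :: u) (j + 1 + 1) (k + 1 + 1)) (rest (a :: u) (j + 1 + 1) (k + 1 + 1)) =
            (cf i o (u ++ [a]) (j + 1) (k + 1) : R) *
            Fb Y Z (leaf (u ++ [a]) (j + 1) (k + 1)) (rest (u ++ [a]) (j + 1) (k + 1)) := by
          intro j hj
          have hj' : j < k := Finset.mem_range.1 hj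
          rw [leaf_w, rest_w, leaf_r a u _ (by omega), rest_r a u (by omega) (by omega), rotR]
          congr 2
          unfold cf
          rw [if_neg (by omega), if_neg (by omega), pass_r i o a u hu (by omega),
            pass_r i o a u hu (by omega)]
        rw [Finset.sum_congr rfl h0, add_assoc (Finset.sum _ _), add_right_inj]
        rw [leaf_w, rest_w, leaf_r a u _ (by omega), rest_r a u (by omega) (by omega), rotR]
        unfold cf
        rw [if_neg (by omega), if_pos rfl, pass_r i o a u hu (by omega),
            pass_r i o a u hu (by omega), lkb_lk]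
        push_cast
        rw [add_mul]
        have h5 : (if (pass i o (a :: u) (0 + 1)).1 = (pass i o (a :: u) (k + 1 + 1)).1 then 1 else 0 : R) *
            Fb Y Z (leaf u 0 (k + 1)) (rest u 0 (k + 1) ++ [a]) = χ k * g k := by
          have h6 : (pass i o (a :: u) (0 + 1)).1 = i a := by simp [pass]
          have h7 : (pass i o (a :: u) (k + 1 + 1)).1 = i (u.getD k default) := by
            simp [pass]
          rw [h6, h7]
          simp only [hχ]
          by_cases h8 : u.getD k default = a
          · rw [if_pos h8, if_pos (by rw [h8]), one_mul, one_mul]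
            have hkl : k < u.length := by omega
            have h9 : u[k] = a := by
              rw [← h8, List.getD_eq_getElem _ _ hkl]
            have h10 : leaf u 0 (k + 1) = u.take k ++ [a] := by
              unfold leaf
              rw [List.drop_zero, List.take_succ_eq_append_getElem hkl, h9]
            have h11 : rest u 0 (k + 1) = u.drop (k + 1) := by simp [rest]
            rw [h10, h11, ← rotR, ← rotL]
            simp only [hg]
            rw [← h9, ← List.drop_eq_getElem_cons hkl]
          · rw [if_neg h8, if_neg (fun h => h8 (hi _ h.symm)), zero_mul, zero_mul]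
        rw [← h5]
        ring
  rw [Finset.sum_congr rfl hin]
  -- the terms of the last column
  have hlast : (∑ j ∈ range u.length, (cf i o (u ++ [a]) j u.length : R) *
      Fb Y Z (leaf (u ++ [a]) j u.length) (rest (u ++ [a]) j u.length)) =
      - ∑ k ∈ range u.length, ((lk (pass i o (a :: u) (k + 1)) (pass i o (a :: u) 0) : R) * g k +
        (if k = 0 then χ m * g 0 else 0)) := by
    rw [← Finset.sum_neg_distrib]
    apply Finset.sum_congr rfl
    intro k hk
    have hk' : k < u.length := Finset.mem_range.1 hk
    have h1 : leaf (u ++ [a]) k u.length = u.drop k := by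
      rw [leaf_r a u _ le_rfl]; simp [leaf]
    have h2 : rest (u ++ [a]) k u.length = u.take k ++ [a] := by
      rw [rest_r a u hk'.le le_rfl]; simp [rest]
    rw [h1, h2, ← rotR, anti]
    have h3 : Fb Y Z (a :: u.take k) (u.drop k) = g k := rfl
    rw [h3]
    unfold cf
    rw [pass_r i o a u hu hk', pass_l i o a u hu]
    by_cases hk0 : k = 0
    · subst hk0
      rw [if_pos rfl, if_pos rfl, lkb_lk]
      have h6 : (pass i o (a :: u) (0 + 1)).1 = i a := by simp [pass]
      have h7 : (pass i o (a :: u) 0).1 = i (u.getD m default) := by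
        unfold pass
        have e1 : (a :: u).length - 1 = m + 1 := by simp [hm]
        rw [if_pos rfl, e1, getD_w]
      rw [h6, h7]
      have h8 : (if i a = i (u.getD m default) then 1 else 0 : R) = χ m := by
        simp only [hχ]
        by_cases h9 : u.getD m default = a
        · rw [if_pos h9, if_pos (by rw [h9])]
        · rw [if_neg h9, if_neg (fun h => h9 (hi _ h.symm))]
      push_cast
      rw [h8]
      ring
    · rw [if_neg hk0, if_neg hk0]
      ring
  rw [hlast]
  -- total
  have hsum : ∀ k ∈ range u.length, (∑ j ∈ range k, (cf i o (u ++ [a]) j k : R) *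
        Fb Y Z (leaf (u ++ [a]) j k) (rest (u ++ [a]) j k)) +
      (if k = 0 then 0 else - (χ (k - 1) * g (k - 1))) +
      (lkb (pass i o (a :: u) 0) (pass i o (a :: u) (k + 1)) : R) * g k +
      ((lk (pass i o (a :: u) (k + 1)) (pass i o (a :: u) 0) : R) * g k +
        (if k = 0 then χ m * g 0 else 0)) =
      (∑ j ∈ range k, (cf i o (u ++ [a]) j k : R) *
        Fb Y Z (leaf (u ++ [a]) j k) (rest (u ++ [a]) j k)) +
      ((if k = 0 then 0 else - (χ (k - 1) * g (k - 1))) + χ k * g k +
        (if k = 0 then χ m * g 0 else 0)) := by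
    intro k hk
    have hk' : k < u.length := Finset.mem_range.1 hk
    have h1 : (lkb (pass i o (a :: u) 0) (pass i o (a :: u) (k + 1)) : R) +
        (lk (pass i o (a :: u) (k + 1)) (pass i o (a :: u) 0) : R) = χ k := by
      rw [← Int.cast_add, lk_add]
      have h6 : (pass i o (a :: u) 0).2 = o a := by simp [pass]
      have h7 : (pass i o (a :: u) (k + 1)).2 = o (u.getD k default) := by
        unfold pass
        rw [getD_w]
      rw [h6, h7]
      simp only [hχ]
      by_cases h9 : u.getD k default = a
      · rw [if_pos h9, if_pos (by rw [h9])]; simp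
      · rw [if_neg h9, if_neg (fun h => h9 (ho _ h.symm))]; simp
    rw [← h1]
    ring
  rw [← sub_eq_zero]
  have hfin : ∀ S1 S2 S3 : R, S1 - (S2 + -S3) = (S1 + S3) - S2 := by intros; ring
  rw [hfin, ← Finset.sum_add_distrib, Finset.sum_congr rfl hsum, Finset.sum_add_distrib,
    add_sub_cancel_left, Finset.sum_add_distrib, Finset.sum_add_distrib]
  have hS1 : (∑ k ∈ range u.length, (if k = 0 then 0 else - (χ (k - 1) * g (k - 1)))) =
      - ∑ k ∈ range m, χ k * g k := by
    rw [hm, Finset.sum_range_succ']
    simp
  have hS2 : (∑ k ∈ range u.length, (if k = 0 then χ m * g 0 else 0)) = χ m * g 0 := by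
    rw [Finset.sum_ite_eq' (range u.length) 0 (fun _ => χ m * g 0)]
    rw [if_pos (Finset.mem_range.2 (by omega))]
  rw [hS1, hS2, hm, Finset.sum_range_succ]
  have hgm : χ m * g m = - (χ m * g 0) := by
    simp only [hχ]
    by_cases h9 : u.getD m default = a
    · rw [if_pos h9, one_mul, one_mul]
      have hml : m < u.length := by omega
      have h10 : u[m] = a := by rw [← h9, List.getD_eq_getElem _ _ hml]
      have h11 : u.drop m = [a] := by
        rw [List.drop_eq_getElem_cons hml, h10]
        congr 1
        apply List.drop_eq_nil_of_le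
        omega
      have h12 : u.take m ++ [a] = u := by
        rw [← h11, List.take_append_drop]
      simp only [hg]
      rw [rotL, h12, h11, anti]
      simp
    · rw [if_neg h9]; simp
  rw [hgm]
  ring

end Pool.Agent.TH317.CC
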