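import Pool.Agent.TH317.CC.Geo

set_option autoImplicit false

universe u

namespace Pool.Agent.TH317.CC

namespace H55G1

section Walks

variable {D V Λ : Type*} [LinearOrder Λ] (G : Rib D V Λ)

theorem walk_append {x z : V} {w1 w2 : List D} :
    Walk G x z (w1 ++ w2) ↔ ∃ y, Walk G x y w1 ∧ Walk G y z w2 := by
  induction w1 generalizing x with
  | nil => simp [Walk]
  | cons a l ih =>
    simp only [List.cons_append, Walk, ih]
    constructor
    · rintro ⟨h1, y, h2, h3⟩; exact ⟨y, ⟨h1, h2⟩, h3⟩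
    · rintro ⟨y, ⟨h1, h2⟩, h3⟩; exact ⟨h1, y, h2, h3⟩

theorem walk_unique {x y x' y' : V} {w : List D} (hw : w ≠ []) (h : Walk G x y w)
    (h' : Walk G x' y' w) : x = x' ∧ y = y' := by
  induction w generalizing x x' with
  | nil => exact absurd rfl hw
  | cons a l ih =>
    obtain ⟨h1, h2⟩ := h
    obtain ⟨h1', h2'⟩ := h'
    refine ⟨h1.symm.trans h1', ?_⟩
    by_cases hl : l = []
    · subst hl
      simp only [Walk] at h2 h2'
      rw [← h2, ← h2']
    · exact (ih hl h2 h2').2

theorem closed_unique {B : List D} {y1 y2 : V} (hB : CW G B) (h : Walk G y1 y2 B) : y1 = y2 := by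
  by_cases hb : B = []
  · subst hb; exact h
  · obtain ⟨v, hv⟩ := hB
    obtain ⟨h1, h2⟩ := walk_unique G hb h hv
    rw [h1, h2]

theorem mem_of_walk {x y : V} {w : List D} (h : Walk G x y w) : y ∈ x :: w.map G.hd := by
  induction w generalizing x with
  | nil => simp only [Walk] at h; simp [h]
  | cons a l ih =>
    have := ih h.2
    simp only [List.map_cons, List.mem_cons] at this ⊢
    tauto

theorem hd_mem {x y : V} {w : List D} (h : Walk G x y w) : ∀ a ∈ w.map G.hd,
    a ∈ w.map G.tl ∨ a = y := by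
  induction w generalizing x with
  | nil => simp
  | cons b l ih =>
    intro a ha
    rw [List.map_cons, List.mem_cons] at ha
    rcases ha with ha | ha
    · subst ha
      cases l with
      | nil =>
        right
        exact h.2
      | cons c l =>
        left
        have h2 := h.2.1
        rw [← h2]
        simp
    · rcases ih h.2 a ha with h1 | h1
      · left
        rw [List.map_cons, List.mem_cons]
        exact Or.inr h1
      · exact Or.inr h1

theorem cw_rot {A B : List D} (h : CW G (A ++ B)) : CW G (B ++ A) := by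
  obtain ⟨v, hv⟩ := h
  obtain ⟨y, h1, h2⟩ := (walk_append G).1 hv
  exact ⟨y, (walk_append G).2 ⟨v, h2, h1⟩⟩

end Walks

/-- rotations as splittings -/
theorem rot_split {D : Type*} {W w : List D} (h : W.IsRotated w) :
    ∃ A B, w = A ++ B ∧ W = B ++ A := by
  obtain ⟨n, hn⟩ := h.symm
  refine ⟨w.take (n % w.length), w.drop (n % w.length), (List.take_append_drop _ _).symm, ?_⟩
  rw [← hn, List.rotate_eq_drop_append_take_mod]

theorem rot_append {D : Type*} (A B : List D) : (A ++ B).IsRotated (B ++ A) :=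
  ⟨A.length, by rw [List.rotate_append_length_eq]⟩

section Chl

variable {M : Type u} [MetricSpace M]

theorem chl_nonneg (P : List M) : 0 ≤ chl P := by
  induction P with
  | nil => exact le_rfl
  | cons x l ih =>
    cases l with
    | nil => exact le_rfl
    | cons y l => exact add_nonneg dist_nonneg ih

theorem chl_append (A : List M) (y : M) (B : List M) :
    chl (A ++ y :: B) = chl (A ++ [y]) + chl (y :: B) := by
  induction A with
  | nil => simp [chl]
  | cons a A ih =>
    cases A with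
    | nil => simp [chl]
    | cons b A =>
      simp only [List.cons_append, chl] at ih ⊢
      rw [ih]; ring

end Chl

section BWs

variable {M : Type u} [MetricSpace M] {D Λ : Type u} [LinearOrder Λ] (G : Rib D M Λ) {r : ℝ}

theorem BW.walk {x z : M} {w : List D} {P : List M} (h : BW G r x z w P) : Walk G x z w := by
  induction h with
  | nil x => rfl
  | cons x y z b w P hb _ _ ih => exact (walk_append G).2 ⟨y, hb, ih⟩

theorem BW.start {x z : M} {w : List D} {P : List M} (h : BW G r x z w P) :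
    (P = [] ∧ x = z) ∨ ∃ P', P = x :: P' := by
  cases h with
  | nil => exact Or.inl ⟨rfl, rfl⟩
  | cons y _ b w P hb _ _ => exact Or.inr ⟨_, rfl⟩

theorem BW.chl_cons {x z : M} {w : List D} {P : List M} (h : BW G r x z w P) (a : M) :
    chl (a :: (P ++ [z])) = dist a x + chl (P ++ [z]) := by
  rcases BW.start G h with ⟨h1, h2⟩ | ⟨P', h1⟩
  · subst h1; subst h2; simp [chl]
  · subst h1; simp [chl]

theorem BW.append {x y z : M} {w1 w2 : List D} {P1 P2 : List M} (h1 : BW G r x y w1 P1)
    (h2 : BW G r y z w2 P2) : BW G r x z (w1 ++ w2) (P1 ++ P2) ∧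
      chl (P1 ++ P2 ++ [z]) = chl (P1 ++ [y]) + chl (P2 ++ [z]) := by
  constructor
  · induction h1 with
    | nil x => simpa using h2
    | cons x y' y b w P hb hs _ ih =>
      rw [List.append_assoc, List.cons_append]
      exact BW.cons x y' z b _ _ hb hs (ih h2)
  · rcases BW.start G h2 with ⟨h3, h4⟩ | ⟨P', h3⟩
    · subst h3; subst h4; simp [chl]
    · subst h3
      rw [List.append_assoc, List.cons_append, chl_append]

theorem smallW_prefix {x : M} {b c : List D} (h : SmallW G r x (b ++ c)) : SmallW G r x b := by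
  intro a ha a' ha'
  apply h
  · simp only [List.map_append, List.mem_cons, List.mem_append] at ha ⊢; tauto
  · simp only [List.map_append, List.mem_cons, List.mem_append] at ha' ⊢; tauto

theorem smallW_suffix {x y : M} {b c : List D} (h : SmallW G r x (b ++ c))
    (hb : Walk G x y b) : SmallW G r y c := by
  have hy := mem_of_walk G hb
  intro a ha a' ha'
  apply h
  · simp only [List.map_append, List.mem_cons, List.mem_append] at ha hy ⊢
    rcases ha with rfl | ha
    · tauto
    · tauto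
  · simp only [List.map_append, List.mem_cons, List.mem_append] at ha' hy ⊢
    rcases ha' with rfl | ha'
    · tauto
    · tauto

theorem BW.single {x y : M} {b : List D} (hb : Walk G x y b) (hs : SmallW G r x b) :
    BW G r x y b [x] := by
  have := BW.cons x y y b [] [] hb hs (BW.nil y)
  rwa [List.append_nil] at this

theorem BW.split {x z : M} {w : List D} {P : List M} (hr : 0 ≤ r) (h : BW G r x z w P) :
    ∀ w1 w2, w = w1 ++ w2 → ∃ y P1 P2, BW G r x y w1 P1 ∧ BW G r y z w2 P2 ∧
      chl (P1 ++ [y]) + chl (P2 ++ [z]) ≤ chl (P ++ [z]) + 2 * r := by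
  induction h with
  | nil x =>
    intro w1 w2 hw
    obtain ⟨rfl, rfl⟩ := List.append_eq_nil_iff.1 hw.symm
    refine ⟨x, [], [], BW.nil x, BW.nil x, ?_⟩
    simp [chl]
    exact hr
  | cons x y z b w P hb hs hw ih =>
    intro w1 w2 hww
    rcases List.append_eq_append_iff.1 hww with ⟨c, h1, h2⟩ | ⟨c, h1, h2⟩
    · -- `w1 = b ++ c`
      subst h1
      obtain ⟨y', P1, P2, h3, h4, h5⟩ := ih c w2 h2
      refine ⟨y', x :: P1, P2, BW.cons x y y' b c P1 hb hs h3, h4, ?_⟩
      rw [List.cons_append, List.cons_append, BW.chl_cons G h3, BW.chl_cons G hw]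
      linarith
    · -- `b = w1 ++ c`
      subst h1
      subst h2
      obtain ⟨y', h3, h4⟩ := (walk_append G).1 hb
      refine ⟨y', [x], y' :: P, BW.single G h3 (smallW_prefix G hs),
        BW.cons y' y z c w P h4 (smallW_suffix G hs h3) hw, ?_⟩
      have q1 : chl (y' :: P ++ [z]) = dist y' y + chl (P ++ [z]) := BW.chl_cons G hw y'
      have q2 : chl (x :: P ++ [z]) = dist x y + chl (P ++ [z]) := BW.chl_cons G hw x
      rw [q1, q2]
      have hy' : y' ∈ x :: (w1 ++ c).map G.hd := by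
        have := mem_of_walk G h3
        simp only [List.map_append, List.mem_cons, List.mem_append] at this ⊢; tauto
      have h5 : dist x y' ≤ r := hs _ (by simp) _ hy'
      have h6 : dist y' y ≤ r := hs _ hy' _ (mem_of_walk G hb)
      have h7 : chl ([x] ++ [y']) = dist x y' := by simp [chl]
      rw [h7]
      have := dist_nonneg (x := x) (y := y)
      linarith

/-- `Rl` in terms of rotations -/
theorem Rl_iff {ℓ : ℝ} {n : ℕ} {w : List D} : Rl G r ℓ n w ↔ ∃ (W : List D) (x : M) (P : List M),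
    W.IsRotated w ∧ BW G r x x W P ∧ chl (P ++ [x]) < ℓ - n * (4 * r) := by
  constructor
  · rintro ⟨k, x, P, h1, h2⟩
    exact ⟨_, x, P, (List.IsRotated.refl w).symm.trans ⟨k, rfl⟩ |>.symm, h1, h2⟩
  · rintro ⟨W, x, P, h1, h2, h3⟩
    obtain ⟨k, hk⟩ := h1.symm
    exact ⟨k, x, P, by rw [hk]; exact h2, h3⟩

theorem Rl_rot {ℓ : ℝ} {n : ℕ} {w w' : List D} (h : w.IsRotated w') (hw : Rl G r ℓ n w) :
    Rl G r ℓ n w' := by
  rw [Rl_iff] at *
  obtain ⟨W, x, P, h1, h2, h3⟩ := hw
  exact ⟨W, x, P, h1.trans h, h2, h3⟩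

theorem Rl_cw {ℓ : ℝ} {n : ℕ} {w : List D} (hw : Rl G r ℓ n w) : CW G w := by
  rw [Rl_iff] at hw
  obtain ⟨W, x, P, h1, h2, h3⟩ := hw
  obtain ⟨A, B, rfl, rfl⟩ := rot_split h1
  exact cw_rot G ⟨x, BW.walk G h2⟩

theorem cut_aux {ℓ : ℝ} {n : ℕ} (hr : 0 ≤ r) {B C1 C2 : List D} {x : M} {P : List M}
    (hB : CW G B) (h : BW G r x x (C2 ++ (B ++ C1)) P)
    (hP : chl (P ++ [x]) < ℓ - (n + 1 : ℕ) * (4 * r)) :
    Rl G r ℓ n B ∧ Rl G r ℓ n (C1 ++ C2) := by
  obtain ⟨y1, P1, P2, h1, h2, h3⟩ := BW.split G hr h _ _ rfl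
  obtain ⟨y2, P3, P4, h4, h5, h6⟩ := BW.split G hr h2 _ _ rfl
  have hy : y1 = y2 := closed_unique G hB (BW.walk G h4)
  subst hy
  have e1 := chl_nonneg (P1 ++ [y1])
  have e2 := chl_nonneg (P3 ++ [y1])
  have e3 := chl_nonneg (P4 ++ [x])
  push_cast at hP
  constructor
  · rw [Rl_iff]
    refine ⟨B, y1, P3, List.IsRotated.refl _, h4, ?_⟩
    linarith
  · obtain ⟨h7, h8⟩ := BW.append G h5 h1
    rw [Rl_iff]
    refine ⟨_, y1, P4 ++ P1, List.IsRotated.refl _, h7, ?_⟩
    rw [h8]
    linarith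

theorem cut {ℓ : ℝ} {n : ℕ} (hr : 0 ≤ r) {w B C : List D} (hB : CW G B) (hC : CW G C)
    (h : w.IsRotated (B ++ C)) (hw : Rl G r ℓ (n + 1) w) : Rl G r ℓ n B ∧ Rl G r ℓ n C := by
  rw [Rl_iff] at hw
  obtain ⟨W, x, P, h1, h2, h3⟩ := hw
  obtain ⟨A, A', hA, rfl⟩ := rot_split (h1.trans h)
  rcases List.append_eq_append_iff.1 hA with ⟨c, h4, h5⟩ | ⟨c, h4, h5⟩
  · -- `A = B ++ c`, `C = c ++ A'`
    subst h4
    subst h5
    exact cut_aux G hr hB h2 h3
  · -- `B = A ++ c`, `A' = c ++ C`
    subst h4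
    subst h5
    have h6 := cut_aux G hr (C1 := A) (C2 := c) (B := C) hC (by rwa [List.append_assoc] at h2) h3
    exact ⟨h6.2, h6.1⟩

theorem small_face (hr : 0 ≤ r) {f : List D} {y : M} (hy : Walk G y y f)
    (hf : ∀ c ∈ f, ∀ c' ∈ f, dist (G.tl c) (G.tl c') ≤ r) : SmallW G r y f := by
  by_cases hf0 : f = []
  · subst hf0
    intro a ha a' ha'
    simp only [List.map_nil, List.mem_singleton] at ha ha'
    rw [ha, ha', dist_self]; exact hr
  · have hyf : y ∈ f.map G.tl := by
      cases f with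
      | nil => exact absurd rfl hf0
      | cons c l =>
        have := hy.1
        rw [← this]; simp
    have h1 : ∀ a ∈ y :: f.map G.hd, a ∈ f.map G.tl := by
      intro a ha
      rw [List.mem_cons] at ha
      rcases ha with rfl | ha
      · exact hyf
      · rcases hd_mem G hy a ha with h | h
        · exact h
        · rw [h]; exact hyf
    intro a ha a' ha'
    obtain ⟨c, hc, rfl⟩ := List.mem_map.1 (h1 a ha)
    obtain ⟨c', hc', rfl⟩ := List.mem_map.1 (h1 a' ha')
    exact hf c hc c' hc'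

theorem small_spur (hr : 0 ≤ r) (hm : ∀ d, dist (G.tl d) (G.hd d) ≤ r) {a : D} {y : M}
    (hy : Walk G y y [a, G.inv a]) : SmallW G r y [a, G.inv a] := by
  apply small_face G hr hy
  have h2 : G.tl (G.inv a) = G.hd a := rfl
  intro c hc c' hc'
  simp only [List.mem_cons, List.not_mem_nil, or_false] at hc hc'
  rcases hc with rfl | rfl <;> rcases hc' with rfl | rfl
  · rw [dist_self]; exact hr
  · exact hm _
  · rw [dist_comm]; exact hm _
  · rw [dist_self]; exact hr

omit [MetricSpace M] in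
theorem cw_mid {u z v : List D} (h : CW G (u ++ z ++ v)) (hz : CW G z) : CW G (u ++ v) ∧
    ∃ y, Walk G y y z ∧ Walk G y y (v ++ u) := by
  obtain ⟨x, hx⟩ := h
  obtain ⟨y, h1, h2⟩ := (walk_append G).1 hx
  obtain ⟨y', h3, h4⟩ := (walk_append G).1 h1
  have hy : y' = y := closed_unique G hz h4
  subst hy
  exact ⟨⟨x, (walk_append G).2 ⟨y', h3, h2⟩⟩, y', h4, (walk_append G).2 ⟨x, h2, h3⟩⟩

theorem del_aux {ℓ : ℝ} {n : ℕ} (hr : 0 ≤ r) {u z v : List D} (hz : CW G z)
    (hw : Rl G r ℓ (n + 1) (u ++ z ++ v)) : Rl G r ℓ n (u ++ v) := by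
  have h1 := Rl_cw G hw
  obtain ⟨h2, y, h3, h4⟩ := cw_mid G h1 hz
  have h5 : (u ++ z ++ v).IsRotated (z ++ (v ++ u)) := by
    rw [List.append_assoc, ← List.append_assoc z]
    exact rot_append _ _
  exact Rl_rot G (rot_append v u) (cut G hr hz ⟨y, h4⟩ h5 hw).2

theorem ins_aux {ℓ : ℝ} {n : ℕ} (hr : 0 ≤ r) {u z v : List D} (hz : CW G z)
    (hs : ∀ y, Walk G y y z → SmallW G r y z)
    (hw : Rl G r ℓ (n + 1) (u ++ v)) (hc : CW G (u ++ z ++ v)) : Rl G r ℓ n (u ++ z ++ v) := by
  obtain ⟨h2, y, h3, h4⟩ := cw_mid G hc hz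
  have hyz := BW.single G h3 (hs y h3)
  have h5 : (z ++ (v ++ u)).IsRotated (u ++ z ++ v) := by
    rw [List.append_assoc, ← List.append_assoc z]
    exact rot_append _ _
  apply Rl_rot G h5
  rw [Rl_iff] at hw
  obtain ⟨W, x, P, h6, h7, h8⟩ := hw
  obtain ⟨C1, C2, hC, rfl⟩ := rot_split (h6.trans (rot_append u v))
  rw [hC] at h4 ⊢
  obtain ⟨y1, P1, P2, h9, h10, h11⟩ := BW.split G hr h7 _ _ rfl
  have e0 := chl_nonneg (P ++ [x])
  have e1 := chl_nonneg (P1 ++ [y1])
  have e2 := chl_nonneg (P2 ++ [x])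
  push_cast at h8
  by_cases hC0 : C1 ++ C2 = []
  · rw [hC0, List.append_nil, Rl_iff]
    refine ⟨z, y, [y], List.IsRotated.refl _, hyz, ?_⟩
    have : chl ([y] ++ [y]) = 0 := by simp [chl]
    rw [this]
    linarith
  · have hy1 : y1 = y := by
      have h12 : Walk G y1 y1 (C1 ++ C2) :=
        (walk_append G).2 ⟨x, BW.walk G h10, BW.walk G h9⟩
      exact (walk_unique G hC0 h12 h4).1
    subst hy1
    obtain ⟨h13, h14⟩ := BW.append G hyz h10
    obtain ⟨h15, h16⟩ := BW.append G h9 h13
    rw [Rl_iff]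
    refine ⟨_, x, _, ?_, h15, ?_⟩
    · rw [← List.append_assoc z]
      exact rot_append _ _
    · rw [h16, h14]
      have : chl ([y1] ++ [y1]) = 0 := by simp [chl]
      rw [this]
      linarith

end BWs

end H55G1

open H55G1 in
theorem lev_Rl {M : Type u} [MetricSpace M] [Nonempty M] {D Λ : Type u} [LinearOrder Λ]
    [Inhabited D] (G : Rib D M Λ) (Fc : Set (List D)) (r ℓ : ℝ) (hr : 0 ≤ r)
    (hm : ∀ d, dist (G.tl d) (G.hd d) ≤ r) (hF : ∀ f ∈ Fc, CW G f)
    (hf : ∀ f ∈ Fc, ∀ c ∈ f, ∀ c' ∈ f, dist (G.tl c) (G.tl c') ≤ r) :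
    Lev G Fc (Rl G r ℓ) := by
  have hspur : ∀ a, CW G [a, G.inv a] := fun a => ⟨G.tl a, rfl, rfl, by
    simp only [Walk, Rib.hd]; rw [G.inv_inv]⟩
  have hcut : ∀ n w j k, Rl G r ℓ (n + 1) w → j < k → k < w.length →
      G.tl (w.getD j default) = G.tl (w.getD k default) →
      Rl G r ℓ n (leaf w j k) ∧ Rl G r ℓ n (rest w j k) := by
    intro n w j k hw hjk hk htl
    obtain ⟨v, hv⟩ := Rl_cw G hw
    have e1 : w = w.take j ++ (leaf w j k ++ w.drop k) := by
      unfold leaf
      have h1 : w.take k = w.take j ++ (w.take k).drop j := by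
        conv_lhs => rw [← List.take_append_drop j (w.take k)]
        rw [List.take_take, min_eq_left hjk.le]
      rw [← List.append_assoc, ← h1, List.take_append_drop]
    have hC : w.drop k = w.getD k default :: w.drop (k + 1) := by
      rw [List.getD_eq_getElem _ _ hk, ← List.drop_eq_getElem_cons hk]
    have hB : ∃ l, leaf w j k = w.getD j default :: l := by
      unfold leaf
      have h1 : j < (w.take k).length := by rw [List.length_take]; omega
      rw [List.drop_eq_getElem_cons h1, List.getElem_take,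
        List.getD_eq_getElem _ _ (hjk.trans hk)]
      exact ⟨_, rfl⟩
    rw [e1] at hv
    obtain ⟨y, h1, h2⟩ := (walk_append G).1 hv
    obtain ⟨y', h3, h4⟩ := (walk_append G).1 h2
    have hy : y = G.tl (w.getD j default) := by
      obtain ⟨l, hl⟩ := hB
      rw [hl] at h3
      exact h3.1.symm
    have hy' : y' = G.tl (w.getD k default) := by
      rw [hC] at h4
      exact h4.1.symm
    have hyy : y = y' := by rw [hy, hy', htl]
    subst hyy
    have hcB : CW G (leaf w j k) := ⟨y, h3⟩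
    have hcC : CW G (w.drop k ++ w.take j) := ⟨y, (walk_append G).2 ⟨v, h4, h1⟩⟩
    have hrot : w.IsRotated (leaf w j k ++ (w.drop k ++ w.take j)) := by
      conv_lhs => rw [e1]
      rw [← List.append_assoc (leaf w j k)]
      exact rot_append _ _
    obtain ⟨h5, h6⟩ := cut G hr hcB hcC hrot hw
    exact ⟨h5, Rl_rot G (rot_append _ _) h6⟩
  refine ⟨fun n w hw => Rl_cw G hw, ?_, fun n w j k h1 h2 h3 h4 => (hcut n w j k h1 h2 h3 h4).1,
    fun n w j k h1 h2 h3 h4 => (hcut n w j k h1 h2 h3 h4).2, ?_, ?_, ?_⟩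
  · rintro n w ⟨k, x, P, h1, h2⟩
    refine ⟨k, x, P, h1, ?_⟩
    push_cast at h2
    linarith
  · intro n w w' hw hd hc
    cases hd with
    | spur u a v => exact ins_aux G hr (hspur a) (fun y hy => small_spur G hr hm hy) hw hc
    | face u f v hfF =>
      exact ins_aux G hr (hF f hfF) (fun y hy => small_face G hr hy (hf f hfF)) hw hc
  · intro n w w' hw hd
    cases hd with
    | spur u a v => exact del_aux G hr (hspur a) hw
    | face u f v hfF => exact del_aux G hr (hF f hfF) hw
  · intro n a l hw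
    exact Rl_rot G (rot_append [a] l) hw

end Pool.Agent.TH317.CC
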