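import Pool.Agent.TH32.H.Stmts

set_option autoImplicit false

namespace Pool.Agent.TH55.TZ

open Pool.Agent.H260TZ Pool.Agent.TH32

/-! ### Sums over the antidiagonal -/

lemma tsum_anti (Φ : ℕ → ℕ → ENNReal) :
    (∑' k : ℕ, ∑ p ∈ Finset.HasAntidiagonal.antidiagonal k, Φ p.1 p.2) =
      ∑' g : ℕ, ∑' h : ℕ, Φ g h := by
  rw [← ENNReal.tsum_prod (f := Φ)]
  rw [← (Finset.HasAntidiagonal.sigmaAntidiagonalEquivProd (A := ℕ)).tsum_eq]
  rw [ENNReal.tsum_sigma']
  congr 1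
  funext k
  rw [tsum_fintype]
  rw [← Finset.sum_coe_sort]
  rfl

lemma sum_Icc_anti (k : ℕ) (φ : ℕ → ℕ → ENNReal) :
    (∑ g ∈ Finset.Icc 1 (k + 1), φ g (k + 1 - g)) =
      ∑ p ∈ Finset.HasAntidiagonal.antidiagonal k, φ (p.1 + 1) p.2 := by
  rw [Finset.Nat.sum_antidiagonal_eq_sum_range_succ (fun i j => φ (i + 1) j) k]
  have h1 := Finset.sum_Ico_add' (fun g => φ g (k + 1 - g)) 0 (k + 1) 1
  have h2 : Finset.Ico (0 + 1) (k + 1 + 1) = Finset.Icc 1 (k + 1) := by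
    ext a; simp only [Finset.mem_Ico, Finset.mem_Icc]; omega
  rw [h2] at h1
  rw [← h1, Finset.range_eq_Ico]
  apply Finset.sum_congr rfl
  intro i _
  have : k + 1 - (i + 1) = k - i := by omega
  simp only [this]

/-! ### The local function cut at `n` -/

/-- the function of the four levels -/
noncomputable def GG (q b n : ℕ) (mc md Mc Md Je : ℤ) : ℕ → ℕ → ℕ → ℕ → ENNReal :=
  fun s Y X Z => ENNReal.ofReal (Fv q b n mc md Mc Md Je s Y X Z)

/-- exchange of the last two levels -/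
noncomputable def GS (q b n : ℕ) (mc md Mc Md Je : ℤ) : ℕ → ℕ → ℕ → ℕ → ENNReal :=
  fun s Y X Z => ENNReal.ofReal (Fv q b n mc md Mc Md Je s Y Z X)

lemma Fv_min (q : ℝ) (b : ℤ) (n : ℕ) (mc md Mc Md Je : ℤ) (s c d e : ℕ) :
    Fv q b n mc md Mc Md Je ((min s n : ℕ) : ℤ) ((min c n : ℕ) : ℤ) ((min d n : ℕ) : ℤ)
      ((min e n : ℕ) : ℤ) = Fv q b n mc md Mc Md Je s c d e := by
  unfold Fv F1 F2
  push_cast
  simp only [min_assoc, min_self]

lemma cap_GG (q b n : ℕ) (mc md Mc Md Je : ℤ) :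
    cap n (GG q b n mc md Mc Md Je) = GG q b n mc md Mc Md Je := by
  funext s Y X Z
  unfold cap GG
  rw [Fv_min]

lemma cap_GS (q b n : ℕ) (mc md Mc Md Je : ℤ) :
    cap n (GS q b n mc md Mc Md Je) = GS q b n mc md Mc Md Je := by
  funext s Y X Z
  unfold cap GS
  rw [Fv_min]

/-! ### The values of the inner sums -/

noncomputable def Ld (q b m n g h : ℕ) : ENNReal :=
  if h = 0 then E0 q g (GG q b n (m + g) m (m + g) m (m + g))
  else E1 q g h (GG q b n (m + g) m (m + g + h) (m + h) (m + g + h))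

noncomputable def Le (q b m n g h : ℕ) : ENNReal :=
  if h = 0 then E0 q g (GS q b n m m (m + g) (m + g) m)
  else E1 q g h (GS q b n m m (m + g + h) (m + g + h) (m + h))

noncomputable def Cn (q b m n k : ℕ) : ENNReal :=
  if k = 0 then E0 q 0 (GG q b n m m m m m) else Ec q k (GG q b n m m (m + k) (m + k) (m + k))

noncomputable def ff (q b m n k l l' : ℕ) : ENNReal :=
  if l = 0 then (if l' = 0 then Cn q b m n k else Le q b m n l' (k - l')) else
    Ld q b m n l (k - l)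

section
variable {R : Type} [CommRing R] [IsDomain R] (D : DV R)

noncomputable def Inn (b m n k : ℕ) (z : R) : ENNReal :=
  ∑ τ₁ : D.Q n, ∑ τ₂ : D.Q n, (cntC D b (NN D m k z n (D.lift τ₁) (D.lift τ₂)) : ENNReal)

lemma TS_swap (n : ℕ) (c₁ α c₂ β : R) (q b : ℕ) (mc md Mc Md Je : ℤ) :
    TS D n c₁ α c₂ β (GG q b n mc md Mc Md Je) = TS D n c₂ β c₁ α (GS q b n mc md Mc Md Je) :=
  rfl

lemma lev_spec (k : ℕ) (z : R) : ∃ z₁ : R, z = D.t ^ (D.lev k z) * z₁ ∧
    (D.lev k z < k → IsUnit z₁) := by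
  obtain ⟨z₁, hz⟩ := D.lev_dvd k z
  refine ⟨z₁, hz, fun h => ?_⟩
  rw [← D.not_dvd_iff]
  rintro ⟨w, hw⟩
  have h1 : D.t ^ (D.lev k z + 1) ∣ z := ⟨w, by rw [pow_succ, mul_assoc, ← hw]; exact hz⟩
  have := (D.dvd_iff_lev (n := k) (i := D.lev k z + 1) (by omega) z).1 h1
  omega

lemma Inn_TS (hLP : LPStmt) (b m n k : ℕ) (z z₁ z₂ : R) (l l' : ℕ) (hl : l ≤ k) (hl' : l' ≤ k)
    (hz : z = D.t ^ l * z₁) (hz' : 1 + z = D.t ^ l' * z₂) (hu : l < k → IsUnit z₁)
    (hu' : l' < k → IsUnit z₂) :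
    Inn D b m n k z = ENNReal.ofReal ((D.q : ℝ) ^ (n + 2 * m + k)) *
      TS D n (D.t ^ (k - l)) z₁ (D.t ^ (k - l')) z₂
        (GG D.q b n (m + l) m (m + k) (m + k - l) (m + k - l')) := by
  unfold Inn TS
  rw [Finset.mul_sum]
  apply Finset.sum_congr rfl
  intro τ₁ _
  rw [Finset.mul_sum]
  apply Finset.sum_congr rfl
  intro τ₂ _
  have h := hLP R D b m k z n (D.lift τ₁) (D.lift τ₂) l l' z₁ z₂ hl hl' hz hz' hu hu'
  unfold GG
  rw [← ENNReal.ofReal_mul (by positivity), ← h, ENNReal.ofReal_natCast]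

lemma Inn_val (hLP : LPStmt) (hD0 : D0Stmt) (hD1 : D1Stmt) (hDc : DcStmt) (hq : 3 ≤ D.q)
    (b m n k : ℕ) (z : R) :
    Inn D b m n k z = ENNReal.ofReal ((D.q : ℝ) ^ (n + 2 * m + k)) * ((D.q : ENNReal) ^ (2 * n) *
      ff D.q b m n k (D.lev k z) (D.lev k (1 + z))) := by
  obtain ⟨z₁, hz, hu⟩ := lev_spec D k z
  obtain ⟨z₂, hz', hu'⟩ := lev_spec D k (1 + z)
  have hl := D.lev_le k z
  have hl' := D.lev_le k (1 + z)
  rw [Inn_TS D hLP b m n k z z₁ z₂ _ _ hl hl' hz hz' hu hu']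
  congr 1
  set l := D.lev k z with hld
  set l' := D.lev k (1 + z) with hld'
  have hnot : l = 0 ∨ l' = 0 := by
    by_contra hcon
    push Not at hcon
    have h1 : D.t ∣ z := by
      rw [hz]; exact Dvd.dvd.mul_right (dvd_pow_self _ hcon.1) _
    have h2 : D.t ∣ 1 + z := by
      rw [hz']; exact Dvd.dvd.mul_right (dvd_pow_self _ hcon.2) _
    have h3 : D.t ∣ 1 := by
      have := dvd_sub h2 h1
      simpa using this
    exact D.not_dvd_one h3
  unfold ff
  by_cases hl0 : l = 0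
  · rw [if_pos hl0]
    rw [hl0] at hz hu ⊢
    have hz1 : z = z₁ := by simpa using hz
    by_cases hl0' : l' = 0
    · rw [if_pos hl0']
      rw [hl0'] at hz' hu' ⊢
      have hz2 : 1 + z = z₂ := by simpa using hz'
      unfold Cn
      by_cases hk : k = 0
      · rw [if_pos hk]
        subst hk
        have h0 := hD0 R D n 0 z₁ z₂ (by
          rw [← hz2, ← hz1]; simp) (GG D.q b n m m m m m)
        rw [cap_GG] at h0
        rw [← h0]
        simp
      · rw [if_neg hk]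
        have hk1 : 0 < k := Nat.pos_of_ne_zero hk
        have h0 := hDc R D n k z₁ z₂ hk1 hq (hu hk1) (hu' hk1) (by
          rw [← hz2, ← hz1]; simp) (GG D.q b n m m (m + k) (m + k) (m + k))
        rw [cap_GG] at h0
        rw [← h0]
        simp
    · rw [if_neg hl0']
      unfold Le
      obtain ⟨h, hh⟩ : ∃ h, k = l' + h := ⟨k - l', by omega⟩
      have hk1 : 0 < k := by omega
      have e1 : k - l' = h := by omega
      rw [e1]
      by_cases hh0 : h = 0
      · rw [if_pos hh0]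
        have h0 := hD0 R D n l' z₂ z₁ (by
          rw [← hz1, ← hz']; 
          have : z - (1 + z) = -1 := by ring
          rw [this]; exact isUnit_one.neg) (GS D.q b n m m (m + l') (m + l') m)
        rw [cap_GS] at h0
        rw [← h0, TS_swap]
        rw [hh0, add_zero] at hh
        rw [hh0, hh]
        simp
      · rw [if_neg hh0]
        have h0 := hD1 R D n l' h z₂ z₁ (by omega) (by omega) (hu' (by omega)) (hu hk1)
          (GS D.q b n m m (m + l' + h) (m + l' + h) (m + h))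
        rw [cap_GS] at h0
        have e2 : (m : ℤ) + ((l' : ℤ) + h) - l' = m + h := by ring
        rw [← h0, TS_swap, hh]
        simp [add_assoc, e2]
  · rw [if_neg hl0]
    have hl0' : l' = 0 := by tauto
    rw [hl0'] at hz' hu' ⊢
    have hz2 : 1 + z = z₂ := by simpa using hz'
    unfold Ld
    obtain ⟨h, hh⟩ : ∃ h, k = l + h := ⟨k - l, by omega⟩
    have hk1 : 0 < k := by omega
    have e1 : k - l = h := by omega
    rw [e1]
    by_cases hh0 : h = 0
    · rw [if_pos hh0]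
      have h0 := hD0 R D n l z₁ z₂ (by
        rw [← hz2, ← hz]
        have : 1 + z - z = 1 := by ring
        rw [this]; exact isUnit_one) (GG D.q b n (m + l) m (m + l) m (m + l))
      rw [cap_GG] at h0
      rw [← h0]
      rw [hh0, add_zero] at hh
      rw [hh0, hh]
      simp
    · rw [if_neg hh0]
      have h0 := hD1 R D n l h z₁ z₂ (by omega) (by omega) (hu (by omega)) (hu' hk1)
        (GG D.q b n (m + l) m (m + l + h) (m + h) (m + l + h))
      rw [cap_GG] at h0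
      have e2 : (m : ℤ) + ((l : ℤ) + h) - l = m + h := by ring
      rw [← h0, hh]
      simp [add_assoc, e2]

lemma sumA (hLP : LPStmt) (hD0 : D0Stmt) (hD1 : D1Stmt) (hDc : DcStmt) (hCZ : CZStmt)
    (hq : 3 ≤ D.q) (b m n k : ℕ) :
    (∑ z : D.Q k, Inn D b m n k (D.lift z)) =
      ENNReal.ofReal ((D.q : ℝ) ^ (n + 2 * m + k)) * ((D.q : ENNReal) ^ (2 * n) *
      (if k = 0 then Cn D.q b m n 0 else
        (∑ g ∈ Finset.Icc 1 k, cz D.q (k - g) * (Ld D.q b m n g (k - g) + Le D.q b m n g (k - g))) +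
          ENNReal.ofReal ((1 - 2 * (D.q : ℝ)⁻¹) * (D.q : ℝ) ^ k) * Cn D.q b m n k)) := by
  simp only [Inn_val D hLP hD0 hD1 hDc hq]
  rw [← Finset.mul_sum, ← Finset.mul_sum, hCZ.1 R D k (ff D.q b m n k)]
  congr 2
  by_cases hk : k = 0
  · subst hk; simp [ff]
  · rw [if_neg hk, if_neg hk]
    congr 1
    apply Finset.sum_congr rfl
    intro g hg
    have hg1 : g ≠ 0 := by
      have := (Finset.mem_Icc.1 hg).1; omega
    simp [ff, hg1]

lemma sumB (hLP : LPStmt) (hD0 : D0Stmt) (hD1 : D1Stmt) (hDc : DcStmt) (hCZ : CZStmt)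
    (hq : 3 ≤ D.q) (b m n k : ℕ) :
    (∑ z : D.Q k, Inn D b m n (k + 1) (D.t * D.lift z)) =
      ENNReal.ofReal ((D.q : ℝ) ^ (n + 2 * m + (k + 1))) * ((D.q : ENNReal) ^ (2 * n) *
      (∑ g ∈ Finset.Icc 1 (k + 1), cz D.q (k + 1 - g) * Ld D.q b m n g (k + 1 - g))) := by
  simp only [Inn_val D hLP hD0 hD1 hDc hq]
  rw [← Finset.mul_sum, ← Finset.mul_sum, hCZ.2 R D k (ff D.q b m n (k + 1))]
  congr 2
  apply Finset.sum_congr rfl
  intro g hg
  have hg1 : g ≠ 0 := by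
    have := (Finset.mem_Icc.1 hg).1; omega
  simp [ff, hg1]

end

/-- the series in `k` -/
lemma tsum_k (q : ℕ) (hq : 3 ≤ q) (x : ℝ) (hx : 0 < x) (b m n : ℕ) :
    (∑' k : ℕ, (ENNReal.ofReal (x ^ (b + (2 * m + k + n))) *
        (ENNReal.ofReal ((q : ℝ) ^ (n + 2 * m + k)) * ((q : ENNReal) ^ (2 * n) *
          (if k = 0 then Cn q b m n 0 else
            (∑ g ∈ Finset.Icc 1 k, cz q (k - g) * (Ld q b m n g (k - g) + Le q b m n g (k - g))) +
            ENNReal.ofReal ((1 - 2 * (q : ℝ)⁻¹) * (q : ℝ) ^ k) * Cn q b m n k))) +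
      ENNReal.ofReal (x ^ (b + (2 * m + (k + 1) + n))) *
        (ENNReal.ofReal ((q : ℝ) ^ (n + 2 * m + (k + 1))) * ((q : ENNReal) ^ (2 * n) *
          (∑ g ∈ Finset.Icc 1 (k + 1), cz q (k + 1 - g) * Ld q b m n g (k + 1 - g)))))) =
    ENNReal.ofReal (x ^ (b + n + 2 * m) * (q : ℝ) ^ (3 * n + 2 * m)) *
    (E0 q 0 (fun s Y X Z => ENNReal.ofReal (Fv q b n m m m m m s Y X Z)) +
     (∑' g' : ℕ, ENNReal.ofReal ((x * q) ^ (g' + 1)) *
       (2 * E0 q (g' + 1) (fun s Y X Z => ENNReal.ofReal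
          (Fv q b n (m + g' + 1) m (m + g' + 1) m (m + g' + 1) s Y X Z)) +
        E0 q (g' + 1) (fun s Y X Z => ENNReal.ofReal
          (Fv q b n m m (m + g' + 1) (m + g' + 1) m s Y Z X)))) +
     (∑' g' : ℕ, ∑' h' : ℕ, ENNReal.ofReal ((1 - (q : ℝ)⁻¹) * (x * q) ^ (g' + h' + 2) *
          (q : ℝ) ^ (h' + 1)) *
       (2 * E1 q (g' + 1) (h' + 1) (fun s Y X Z => ENNReal.ofReal
          (Fv q b n (m + g' + 1) m (m + g' + h' + 2) (m + h' + 1) (m + g' + h' + 2) s Y X Z)) +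
        E1 q (g' + 1) (h' + 1) (fun s Y X Z => ENNReal.ofReal
          (Fv q b n m m (m + g' + h' + 2) (m + g' + h' + 2) (m + h' + 1) s Y Z X)))) +
     ∑' h' : ℕ, ENNReal.ofReal ((1 - 2 * (q : ℝ)⁻¹) * (x * q) ^ (h' + 1) * (q : ℝ) ^ (h' + 1)) *
       Ec q (h' + 1) (fun s Y X Z => ENNReal.ofReal
          (Fv q b n m m (m + h' + 1) (m + h' + 1) (m + h' + 1) s Y X Z))) := by
  have hq0 : (0 : ℝ) < q := by positivity
  have hq1 : (0 : ℝ) ≤ 1 - (q : ℝ)⁻¹ := by
    have : (q : ℝ)⁻¹ ≤ 1 := inv_le_one_of_one_le₀ (by exact_mod_cast (by omega : 1 ≤ q))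
    linarith
  have hq2 : (0 : ℝ) ≤ 1 - 2 * (q : ℝ)⁻¹ := by
    have h3 : (3 : ℝ) ≤ q := by exact_mod_cast hq
    have : (q : ℝ)⁻¹ ≤ 3⁻¹ := inv_anti₀ (by norm_num) h3
    linarith
  set K0 : ENNReal := ENNReal.ofReal (x ^ (b + n + 2 * m) * (q : ℝ) ^ (3 * n + 2 * m)) with hK0
  have hqE : ∀ j : ℕ, (q : ENNReal) ^ j = ENNReal.ofReal ((q : ℝ) ^ j) := by
    intro j
    rw [ENNReal.ofReal_pow hq0.le, ENNReal.ofReal_natCast]
  -- the constant
  have hc : ∀ (k : ℕ) (S : ENNReal), ENNReal.ofReal (x ^ (b + (2 * m + k + n))) *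
      (ENNReal.ofReal ((q : ℝ) ^ (n + 2 * m + k)) * ((q : ENNReal) ^ (2 * n) * S)) =
      K0 * (ENNReal.ofReal ((x * q) ^ k) * S) := by
    intro k S
    rw [hqE, ← mul_assoc, ← mul_assoc, ← mul_assoc, hK0, ← ENNReal.ofReal_mul (by positivity),
      ← ENNReal.ofReal_mul (by positivity), ← ENNReal.ofReal_mul (by positivity)]
    congr 2
    rw [mul_pow]
    ring
  simp only [hc]
  rw [ENNReal.tsum_add, ENNReal.tsum_mul_left, ENNReal.tsum_mul_left, ← mul_add]
  congr 1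
  set Φ : ℕ → ℕ → ENNReal := fun g' h => ENNReal.ofReal ((x * q) ^ (g' + 1 + h)) *
    (cz q h * (2 * Ld q b m n (g' + 1) h + Le q b m n (g' + 1) h)) with hΦ
  set Ψ : ℕ → ENNReal := fun k => ENNReal.ofReal ((x * q) ^ (k + 1)) *
    (ENNReal.ofReal ((1 - 2 * (q : ℝ)⁻¹) * (q : ℝ) ^ (k + 1)) * Cn q b m n (k + 1)) with hΨ
  have hA : ∀ k : ℕ, ENNReal.ofReal ((x * q) ^ (k + 1)) *
      (if k + 1 = 0 then Cn q b m n 0 else
        (∑ g ∈ Finset.Icc 1 (k + 1), cz q (k + 1 - g) *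
          (Ld q b m n g (k + 1 - g) + Le q b m n g (k + 1 - g))) +
        ENNReal.ofReal ((1 - 2 * (q : ℝ)⁻¹) * (q : ℝ) ^ (k + 1)) * Cn q b m n (k + 1)) +
      ENNReal.ofReal ((x * q) ^ (k + 1)) *
        (∑ g ∈ Finset.Icc 1 (k + 1), cz q (k + 1 - g) * Ld q b m n g (k + 1 - g)) =
      (∑ p ∈ Finset.HasAntidiagonal.antidiagonal k, Φ p.1 p.2) + Ψ k := by
    intro k
    rw [if_neg (by omega)]
    have e1 : (∑ g ∈ Finset.Icc 1 (k + 1), cz q (k + 1 - g) *
          (Ld q b m n g (k + 1 - g) + Le q b m n g (k + 1 - g))) +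
        (∑ g ∈ Finset.Icc 1 (k + 1), cz q (k + 1 - g) * Ld q b m n g (k + 1 - g)) =
        ∑ p ∈ Finset.HasAntidiagonal.antidiagonal k,
          cz q p.2 * (2 * Ld q b m n (p.1 + 1) p.2 + Le q b m n (p.1 + 1) p.2) := by
      rw [← sum_Icc_anti k (fun g h => cz q h * (2 * Ld q b m n g h + Le q b m n g h)),
        ← Finset.sum_add_distrib]
      apply Finset.sum_congr rfl
      intro g _
      ring
    have e2 : (∑ p ∈ Finset.HasAntidiagonal.antidiagonal k, Φ p.1 p.2) =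
        ENNReal.ofReal ((x * q) ^ (k + 1)) * ∑ p ∈ Finset.HasAntidiagonal.antidiagonal k,
          cz q p.2 * (2 * Ld q b m n (p.1 + 1) p.2 + Le q b m n (p.1 + 1) p.2) := by
      rw [Finset.mul_sum]
      apply Finset.sum_congr rfl
      intro p hp
      have hp' : p.1 + p.2 = k := by simpa using hp
      have hp2 : p.1 + 1 + p.2 = k + 1 := by omega
      simp only [hΦ, hp2]
    rw [e2, ← e1]
    simp only [hΨ]
    ring
  rw [tsum_eq_zero_add' (f := fun k : ℕ => ENNReal.ofReal ((x * q) ^ k) *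
    (if k = 0 then Cn q b m n 0 else
            (∑ g ∈ Finset.Icc 1 k, cz q (k - g) * (Ld q b m n g (k - g) + Le q b m n g (k - g))) +
            ENNReal.ofReal ((1 - 2 * (q : ℝ)⁻¹) * (q : ℝ) ^ k) * Cn q b m n k)) ENNReal.summable,
    add_assoc, ← ENNReal.tsum_add]
  simp only [hA]
  rw [ENNReal.tsum_add, tsum_anti]
  have hsplit : (∑' g : ℕ, ∑' h : ℕ, Φ g h) = (∑' g, Φ g 0) + ∑' g, ∑' h, Φ g (h + 1) := by
    rw [← ENNReal.tsum_add]
    congr 1
    funext g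
    rw [tsum_eq_zero_add' (f := fun h => Φ g h) ENNReal.summable]
  rw [hsplit, ← add_assoc, ← add_assoc]
  congr 1
  · congr 1
    · congr 1
      · simp [Cn]
        rfl
      · apply tsum_congr
        intro g'
        simp only [hΦ, add_zero]
        congr 1
        simp [cz, Ld, Le, add_assoc]
        rfl
    · apply tsum_congr
      intro g'
      apply tsum_congr
      intro h'
      simp only [hΦ]
      rw [← mul_assoc]
      congr 1
      · simp only [cz]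
        rw [if_neg (by omega), ← ENNReal.ofReal_mul (by positivity)]
        congr 1
        ring
      · unfold Ld Le
        rw [if_neg (by omega), if_neg (by omega)]
        have e1 : (m : ℤ) + ((g' + 1 : ℕ) : ℤ) = m + g' + 1 := by push_cast; ring
        have e2 : (m : ℤ) + g' + 1 + ((h' + 1 : ℕ) : ℤ) = m + g' + h' + 2 := by push_cast; ring
        have e3 : (m : ℤ) + ((h' + 1 : ℕ) : ℤ) = m + h' + 1 := by push_cast; ring
        rw [e1, e2, e3]
        rfl
  · apply tsum_congr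
    intro h'
    simp only [hΨ]
    rw [← mul_assoc, ← ENNReal.ofReal_mul (by positivity)]
    have e3 : (m : ℤ) + ((h' + 1 : ℕ) : ℤ) = m + h' + 1 := by push_cast; ring
    unfold Cn
    rw [if_neg (by omega), e3]
    congr 1
    congr 1
    ring

theorem s2Asm : S2AsmStmt := by
  intro hA hB hC hLP hD0 hD1 hDc hCZ R _ _ D x hx hq
  rw [hA R D x hx]
  unfold ZS
  apply tsum_congr
  intro b
  rw [hB R D (fun N => ENNReal.ofReal (x ^ (b + Nat.log D.q (idx N))) * (cntC D b N : ENNReal))]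
  apply tsum_congr
  intro m
  apply tsum_congr
  intro n
  rw [← tsum_k D.q hq x hx b m n]
  apply tsum_congr
  intro k
  have hlog : ∀ w : ℕ, Nat.log D.q (D.q ^ w) = w := fun w => Nat.log_pow (by omega) w
  congr 1
  · simp only [hC.2.2, hlog]
    rw [← sumA D hLP hD0 hD1 hDc hCZ hq b m n k]
    unfold Inn
    simp only [Finset.mul_sum]
  · have hidx : ∀ (z τ₁ τ₂ : R), idx ((NN D m (k + 1) z n τ₁ τ₂).map (swM R).toLinearMap) =
        D.q ^ (2 * m + (k + 1) + n) := fun z τ₁ τ₂ =>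
      (hC.2.1 R D _).trans (hC.2.2 R D m (k + 1) z n τ₁ τ₂)
    simp only [hC.1, hidx, hlog]
    rw [← sumB D hLP hD0 hD1 hDc hCZ hq b m n k]
    unfold Inn
    simp only [Finset.mul_sum]

end Pool.Agent.TH55.TZ
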