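import Pool.Agent.TH32.H.Tool

set_option autoImplicit false

namespace Pool.Agent.TH55.TL

open Pool.Agent.TH32

lemma okd_lt {q x : ℝ} (hq : 1 < q) (hx : 0 < x) (hx5 : x ≤ q⁻¹ ^ 5) {a b : ℤ}
    (h : okd (a, b) = true) : q ^ a * x ^ b < 1 := by
  have hq0 : 0 < q := by linarith
  unfold okd at h
  simp only [Bool.or_eq_true, Bool.and_eq_true, decide_eq_true_eq] at h
  rcases h with ⟨hb, ha⟩ | ⟨hb, ha⟩
  · rw [hb, zpow_zero, mul_one]
    exact zpow_lt_one_of_neg₀ hq ha
  · have h1 : x ^ b ≤ (q⁻¹ ^ 5) ^ b := zpow_le_zpow_left₀ (by omega) hx.le hx5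
    have h2 : (q⁻¹ ^ 5 : ℝ) ^ b = q ^ (-(5 * b)) := by
      rw [inv_pow, inv_zpow, zpow_neg, zpow_mul]
      norm_cast
    have h3 : q ^ a * q ^ (-(5 * b)) = q ^ (a - 5 * b) := by
      rw [← zpow_add₀ hq0.ne']; ring_nf
    calc q ^ a * x ^ b ≤ q ^ a * (q⁻¹ ^ 5) ^ b := by
          apply mul_le_mul_of_nonneg_left h1 (by positivity)
      _ = q ^ (a - 5 * b) := by rw [h2, h3]
      _ < 1 := zpow_lt_one_of_neg₀ hq (by omega)

lemma tsum_pi : ∀ (K : ℕ) (g : Fin K → ℕ → ENNReal),
    (∑' v : Fin K → ℕ, ∏ i, g i (v i)) = ∏ i, ∑' n, g i n := by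
  intro K
  induction K with
  | zero =>
    intro g
    simp
  | succ K ih =>
    intro g
    rw [← (Fin.consEquiv (fun _ => ℕ)).tsum_eq, ENNReal.tsum_prod', Fin.prod_univ_succ]
    simp only [Fin.consEquiv_apply, Fin.prod_univ_succ, Fin.cons_zero, Fin.cons_succ]
    simp only [ENNReal.tsum_mul_left, ih, ENNReal.tsum_mul_right]

/-! ### The lists -/

lemma shift_prod (F : ℕ → ℝ) (n k : ℕ) : (∏ i ∈ Finset.range (n + 1), F (k + i)) =
    (∏ i ∈ Finset.range n, F (k + 1 + i)) * F k := by
  rw [Finset.prod_range_succ', add_zero]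
  congr 1
  apply Finset.prod_congr rfl
  intro i _
  congr 1
  ring

lemma shift_sum (F : ℕ → ℝ) (n k : ℕ) : (∑ i ∈ Finset.range (n + 1), F (k + i)) =
    (∑ i ∈ Finset.range n, F (k + 1 + i)) + F k := by
  rw [Finset.sum_range_succ', add_zero]
  congr 1
  apply Finset.sum_congr rfl
  intro i _
  congr 1
  ring

lemma dss_prod (q x : ℝ) (M : List ℕ) (e f : Fm) : ∀ n k : ℕ,
    ((dss M e f k n).map (fun d : ℤ × ℤ => 1 - q ^ d.1 * x ^ d.2)).prod =
      ∏ i ∈ Finset.range n, (if k + i ∈ M then 1 else
        1 - q ^ (e.getD (k + i) 0) * x ^ (f.getD (k + i) 0)) := by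
  intro n
  induction n with
  | zero => intro k; simp [dss]
  | succ n ih =>
    intro k
    refine Eq.trans ?_ (shift_prod (fun j => if j ∈ M then 1 else
        1 - q ^ (e.getD j 0) * x ^ (f.getD j 0)) n k).symm
    unfold dss
    by_cases hk : k ∈ M
    · have : M.contains k = true := by simpa using hk
      rw [if_pos this, ih, if_pos hk, mul_one]
    · have : ¬ (M.contains k = true) := by simpa using hk
      rw [if_neg this, List.map_cons, List.prod_cons, ih, if_neg hk, mul_comm]

lemma dss_ok (M : List ℕ) (e f : Fm) : ∀ n k : ℕ, (dss M e f k n).all okd = true →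
    ∀ i, i < n → k + i ∉ M → okd (e.getD (k + i) 0, f.getD (k + i) 0) = true := by
  intro n
  induction n with
  | zero => intro k _ i hi; omega
  | succ n ih =>
    intro k h i hi hM
    unfold dss at h
    by_cases hk : k ∈ M
    · have : M.contains k = true := by simpa using hk
      rw [if_pos this] at h
      rcases Nat.eq_zero_or_pos i with h0 | h0
      · subst h0; exact absurd hk (by simpa using hM)
      · have := ih (k + 1) h (i - 1) (by omega) (by
          have : k + 1 + (i - 1) = k + i := by omega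
          rw [this]; exact hM)
        have e1 : k + 1 + (i - 1) = k + i := by omega
        rw [e1] at this
        exact this
    · have : ¬ (M.contains k = true) := by simpa using hk
      rw [if_neg this, List.all_cons, Bool.and_eq_true] at h
      rcases Nat.eq_zero_or_pos i with h0 | h0
      · subst h0; exact h.1
      · have := ih (k + 1) h.2 (i - 1) (by omega) (by
          have : k + 1 + (i - 1) = k + i := by omega
          rw [this]; exact hM)
        have e1 : k + 1 + (i - 1) = k + i := by omega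
        rw [e1] at this
        exact this

lemma wts_mem (M : List ℕ) (w e f : Fm) (ds : List (ℤ × ℤ)) : ∀ n k : ℕ,
    ∀ t ∈ wts M w e f ds k n, ∃ i, i < n ∧ k + i ∉ M ∧
      t.c = w.getD (k + i) 0 ∧ t.ds = (e.getD (k + i) 0, f.getD (k + i) 0) :: ds := by
  intro n
  induction n with
  | zero => intro k t ht; simp [wts] at ht
  | succ n ih =>
    intro k t ht
    unfold wts at ht
    simp only at ht
    have hrec : t ∈ wts M w e f ds (k + 1) n → ∃ i, i < n + 1 ∧ k + i ∉ M ∧
      t.c = w.getD (k + i) 0 ∧ t.ds = (e.getD (k + i) 0, f.getD (k + i) 0) :: ds := by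
      intro h
      obtain ⟨i, hi, h1, h2, h3⟩ := ih (k + 1) t h
      have e1 : k + 1 + i = k + (i + 1) := by ring
      rw [e1] at h1 h2 h3
      exact ⟨i + 1, by omega, h1, h2, h3⟩
    split_ifs at ht with hc
    · exact hrec ht
    · rcases List.mem_cons.1 ht with h | h
      · refine ⟨0, by omega, ?_, ?_, ?_⟩
        · intro hcon
          apply hc
          simp only [add_zero] at hcon
          simp [hcon]
        · rw [h, add_zero]
        · rw [h, add_zero]
      · exact hrec h

lemma wts_sum (q x : ℝ) (M : List ℕ) (w e f : Fm) (ds : List (ℤ × ℤ)) : ∀ n k : ℕ,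
    ((wts M w e f ds k n).map (fun t => t.val q x)).sum =
      ∑ i ∈ Finset.range n, (if k + i ∈ M then 0 else
        ((w.getD (k + i) 0 : ℤ) : ℝ) * q ^ (e.getD 0 0 + e.getD (k + i) 0) *
          x ^ (f.getD 0 0 + f.getD (k + i) 0) /
          ((1 - q ^ (e.getD (k + i) 0) * x ^ (f.getD (k + i) 0)) *
            (ds.map (fun d : ℤ × ℤ => 1 - q ^ d.1 * x ^ d.2)).prod)) := by
  intro n
  induction n with
  | zero => intro k; simp [wts]
  | succ n ih =>
    intro k
    refine Eq.trans ?_ (shift_sum (fun j => if j ∈ M then 0 else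
        ((w.getD j 0 : ℤ) : ℝ) * q ^ (e.getD 0 0 + e.getD j 0) *
          x ^ (f.getD 0 0 + f.getD j 0) /
          ((1 - q ^ (e.getD j 0) * x ^ (f.getD j 0)) *
            (ds.map (fun d : ℤ × ℤ => 1 - q ^ d.1 * x ^ d.2)).prod)) n k).symm
    unfold wts
    by_cases hk : k ∈ M
    · have : (M.contains k || decide (w.getD k 0 = 0)) = true := by simp [hk]
      rw [if_pos this, ih, if_pos hk, add_zero]
    · by_cases hw : w.getD k 0 = 0
      · have : (M.contains k || decide (w.getD k 0 = 0)) = true := by simp only [hw]; simp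
        rw [if_pos this, ih, if_neg hk, hw]
        simp
      · have : ¬ ((M.contains k || decide (w.getD k 0 = 0)) = true) := by
          simp only [Bool.or_eq_true, decide_eq_true_eq, not_or]
          exact ⟨by simpa using hk, hw⟩
        rw [if_neg this, List.map_cons, List.sum_cons, ih, if_neg hk, add_comm]
        congr 1

lemma allNN_getD : ∀ (w : Fm), allNN w = true → ∀ i, 0 ≤ w.getD i 0 := by
  intro w
  induction w with
  | nil => intro _ i; simp
  | cons a w ih =>
    intro h i
    unfold allNN at h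
    rw [Bool.and_eq_true, decide_eq_true_eq] at h
    cases i with
    | zero => simpa using h.1
    | succ i => simpa using ih h.2 i

lemma zpow_sum {K : ℕ} {q : ℝ} (hq : q ≠ 0) (a : Fin K → ℤ) (s : Finset (Fin K)) :
    q ^ (∑ i ∈ s, a i) = ∏ i ∈ s, q ^ (a i) := by
  classical
  induction s using Finset.induction_on with
  | empty => simp
  | insert i s hi ih => rw [Finset.sum_insert hi, Finset.prod_insert hi, zpow_add₀ hq, ih]

theorem leafT_sound : LeafStmt := by
  classical
  intro K M w e f L hL
  unfold leafT at hL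
  simp only at hL
  by_cases hc : (allNN w && (dss M e f 1 K).all okd) = true
  swap
  · rw [if_neg hc] at hL
    exact absurd hL (by simp)
  rw [if_pos hc] at hL
  rw [Bool.and_eq_true] at hc
  obtain ⟨hw, hds⟩ := hc
  have hL' := (Option.some.inj hL).symm
  have hW : ∀ i, 0 ≤ w.getD i 0 := allNN_getD w hw
  have hokd := dss_ok M e f K 1 hds
  refine ⟨?_, ?_⟩
  · intro t ht
    rw [hL'] at ht
    rcases List.mem_append.1 ht with h | h
    · split_ifs at h with h0
      · simp at h
      · rw [List.mem_singleton] at h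
        rw [h]
        exact ⟨hW 0, hds⟩
    · obtain ⟨i, hi, h1, h2, h3⟩ := wts_mem M w e f _ K 1 t h
      rw [h2, h3]
      refine ⟨hW _, ?_⟩
      rw [List.all_cons, Bool.and_eq_true]
      exact ⟨hokd i hi h1, hds⟩
  intro q x hq hx hx5
  have hq0 : 0 < q := by linarith
  set r : Fin K → ℝ := fun i => q ^ (e.getD (i.1 + 1) 0) * x ^ (f.getD (i.1 + 1) 0) with hr
  have hrpos : ∀ i, 0 < r i := fun i => by simp only [hr]; positivity
  have hrlt : ∀ i : Fin K, i.1 + 1 ∉ M → r i < 1 := by
    intro i hi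
    have := okd_lt hq hx hx5 (hokd i.1 i.2 (by rw [add_comm]; exact hi))
    rw [add_comm] at this
    exact this
  set C : ℝ := q ^ (e.getD 0 0) * x ^ (f.getD 0 0) with hC
  have hC0 : 0 < C := by positivity
  set P : ℝ := ∏ i : Fin K, (if i.1 + 1 ∈ M then 1 else (1 - r i)) with hPdef
  have hP0 : 0 < P := by
    apply Finset.prod_pos
    intro i _
    split_ifs with h
    · norm_num
    · linarith [hrlt i h]
  set W0 : ℝ := ((w.getD 0 0 : ℤ) : ℝ) with hW0
  have hW00 : 0 ≤ W0 := by rw [hW0]; exact_mod_cast hW 0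
  set W : Fin K → ℝ := fun i => ((w.getD (i.1 + 1) 0 : ℤ) : ℝ) with hWd
  have hWn : ∀ i, 0 ≤ W i := fun i => by simp only [hWd]; exact_mod_cast hW _
  set c : Fin K → ℝ := fun i => if i.1 + 1 ∈ M then 0 else r i / (1 - r i) with hcd
  have hcn : ∀ i, 0 ≤ c i := by
    intro i
    simp only [hcd]
    split_ifs with h
    · exact le_rfl
    · exact div_nonneg (hrpos i).le (by linarith [hrlt i h])
  have hP : ((dss M e f 1 K).map (fun d : ℤ × ℤ => 1 - q ^ d.1 * x ^ d.2)).prod = P := by
    rw [dss_prod, Finset.prod_range]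
    apply Finset.prod_congr rfl
    intro i _
    rw [add_comm]
  have hsv : sv q x L = C * P⁻¹ * (W0 + ∑ i, W i * c i) := by
    rw [hL']
    unfold sv
    rw [List.map_append, List.sum_append, wts_sum, hP, Finset.sum_range]
    have h1 : (List.map (fun t : Tm => t.val q x) (if w.getD 0 0 = 0 then [] else
        [⟨w.getD 0 0, e.getD 0 0, f.getD 0 0, dss M e f 1 K⟩])).sum = C * P⁻¹ * W0 := by
      split_ifs with h0
      · have : W0 = 0 := by rw [hW0, h0]; simp
        rw [this]; simp
      · simp only [List.map_cons, List.map_nil, List.sum_cons, List.sum_nil, add_zero, Tm.val]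
        rw [hP, hC, hW0]
        field_simp
    rw [h1, mul_add, Finset.mul_sum]
    congr 1
    apply Finset.sum_congr rfl
    intro i _
    have e1 : 1 + i.1 = i.1 + 1 := add_comm _ _
    rw [e1]
    simp only [hcd, hWd]
    split_ifs with h
    · simp
    · have h2 : 1 - r i ≠ 0 := by linarith [hrlt i h]
      have h3 : q ^ (e.getD 0 0 + e.getD (i.1 + 1) 0) * x ^ (f.getD 0 0 + f.getD (i.1 + 1) 0) =
          C * r i := by
        rw [hC, zpow_add₀ hq0.ne', zpow_add₀ hx.ne']
        simp only [hr]
        ring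
      have h4 : 1 - q ^ (e.getD (i.1 + 1) 0) * x ^ (f.getD (i.1 + 1) 0) = 1 - r i := rfl
      rw [h4, mul_assoc, h3]
      field_simp
  have hsvn : 0 ≤ sv q x L := by
    rw [hsv]
    have : 0 ≤ ∑ i, W i * c i := Finset.sum_nonneg fun i _ => mul_nonneg (hWn i) (hcn i)
    positivity
  refine ⟨hsvn, ?_⟩
  set g : Fin K → ℕ → ENNReal := fun i n =>
    if i.1 + 1 ∈ M ∧ n ≠ 0 then 0 else ENNReal.ofReal (r i ^ n) with hg
  have hterm : ∀ v : Fin K → ℕ, (if Msk M v then
      ENNReal.ofReal ((ev w v : ℝ) * q ^ ev e v * x ^ ev f v) else 0) =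
      ENNReal.ofReal C * (ENNReal.ofReal W0 * ∏ i, g i (v i) +
        ∑ j, ENNReal.ofReal (W j) * ∏ i, ((if i = j then (v i : ENNReal) else 1) * g i (v i))) := by
    intro v
    have h1 : ∀ j, (∏ i, ((if i = j then (v i : ENNReal) else 1) * g i (v i))) =
        (v j : ENNReal) * ∏ i, g i (v i) := by
      intro j
      rw [Finset.prod_mul_distrib, Finset.prod_ite_eq' Finset.univ j (fun i => (v i : ENNReal))]
      simp
    simp only [h1]
    by_cases hM : Msk M v
    · rw [if_pos hM]
      have h2 : (∏ i, g i (v i)) = ENNReal.ofReal (∏ i, r i ^ (v i)) := by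
        rw [ENNReal.ofReal_prod_of_nonneg (fun i _ => by have := hrpos i; positivity)]
        apply Finset.prod_congr rfl
        intro i _
        simp only [hg]
        rw [if_neg]
        rintro ⟨h3, h4⟩
        exact h4 (hM i h3)
      have h3 : ENNReal.ofReal W0 * ENNReal.ofReal (∏ i, r i ^ (v i)) +
          ∑ j, ENNReal.ofReal (W j) * ((v j : ENNReal) * ENNReal.ofReal (∏ i, r i ^ (v i))) =
          ENNReal.ofReal ((W0 + ∑ j, W j * (v j : ℝ)) * ∏ i, r i ^ (v i)) := by
        have hpn : 0 ≤ ∏ i, r i ^ (v i) :=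
          Finset.prod_nonneg fun i _ => by have := hrpos i; positivity
        rw [ENNReal.ofReal_mul (add_nonneg hW00 (Finset.sum_nonneg fun i _ =>
            mul_nonneg (hWn i) (Nat.cast_nonneg _))),
          ENNReal.ofReal_add hW00 (Finset.sum_nonneg fun i _ =>
            mul_nonneg (hWn i) (Nat.cast_nonneg _)), add_mul,
          ENNReal.ofReal_sum_of_nonneg (fun i _ => mul_nonneg (hWn i) (Nat.cast_nonneg _)),
          Finset.sum_mul]
        congr 1
        apply Finset.sum_congr rfl
        intro j _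
        rw [ENNReal.ofReal_mul (hWn j), ENNReal.ofReal_natCast, mul_assoc]
      rw [h2, h3, ← ENNReal.ofReal_mul hC0.le]
      congr 1
      have h4 : (ev w v : ℝ) = W0 + ∑ j, W j * (v j : ℝ) := by
        unfold ev
        push_cast
        rfl
      have h5 : q ^ ev e v * x ^ ev f v = C * ∏ i, r i ^ (v i) := by
        unfold ev
        rw [zpow_add₀ hq0.ne', zpow_add₀ hx.ne', zpow_sum hq0.ne', zpow_sum hx.ne']
        have : (∏ i, r i ^ (v i)) = (∏ i : Fin K, q ^ (e.getD (i.1 + 1) 0 * (v i : ℤ))) *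
            ∏ i : Fin K, x ^ (f.getD (i.1 + 1) 0 * (v i : ℤ)) := by
          rw [← Finset.prod_mul_distrib]
          apply Finset.prod_congr rfl
          intro i _
          simp only [hr]
          rw [mul_pow, zpow_mul, zpow_mul, zpow_natCast, zpow_natCast]
        rw [this, hC]
        ring
      rw [mul_assoc, h5, h4]
      ring
    · rw [if_neg hM]
      have h2 : (∏ i, g i (v i)) = 0 := by
        unfold Msk at hM
        push Not at hM
        obtain ⟨i, h3, h4⟩ := hM
        apply Finset.prod_eq_zero (Finset.mem_univ i)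
        simp only [hg]
        rw [if_pos ⟨h3, h4⟩]
      rw [h2]
      simp
  have hG : ∀ i, (∑' n, g i n) = if i.1 + 1 ∈ M then 1 else ENNReal.ofReal ((1 - r i)⁻¹) := by
    intro i
    split_ifs with h
    · rw [tsum_eq_single 0]
      · simp [hg]
      · intro n hn
        simp only [hg]
        rw [if_pos ⟨h, hn⟩]
    · have h1 : ∀ n, g i n = ENNReal.ofReal (r i ^ n) := by
        intro n
        simp only [hg]
        rw [if_neg (fun hh => h hh.1)]
      simp only [h1]
      rw [← ENNReal.ofReal_tsum_of_nonneg (fun n => pow_nonneg (hrpos i).le n)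
        (summable_geometric_of_lt_one (hrpos i).le (hrlt i h)),
        tsum_geometric_of_lt_one (hrpos i).le (hrlt i h)]
  have hH : ∀ i, (∑' n : ℕ, (n : ENNReal) * g i n) = ENNReal.ofReal (c i) * ∑' n, g i n := by
    intro i
    rw [hG i]
    simp only [hcd]
    split_ifs with h
    · simp only [ENNReal.ofReal_zero, zero_mul]
      rw [ENNReal.tsum_eq_zero]
      intro n
      by_cases hn : n = 0
      · simp [hn]
      · simp only [hg]
        rw [if_pos ⟨h, hn⟩, mul_zero]
    · have h1 : ∀ n : ℕ, (n : ENNReal) * g i n = ENNReal.ofReal ((n : ℝ) * r i ^ n) := by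
        intro n
        simp only [hg]
        rw [if_neg (fun hh => h hh.1), ENNReal.ofReal_mul (Nat.cast_nonneg _),
          ENNReal.ofReal_natCast]
      simp only [h1]
      have hn : ‖r i‖ < 1 := by
        rw [Real.norm_eq_abs, abs_of_pos (hrpos i)]; exact hrlt i h
      rw [← ENNReal.ofReal_tsum_of_nonneg
        (fun n => mul_nonneg (Nat.cast_nonneg _) (pow_nonneg (hrpos i).le n))
        (hasSum_coe_mul_geometric_of_norm_lt_one hn).summable,
        tsum_coe_mul_geometric_of_norm_lt_one hn,
        ← ENNReal.ofReal_mul (div_nonneg (hrpos i).le (by linarith [hrlt i h]))]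
      congr 1
      have h2 : 1 - r i ≠ 0 := by linarith [hrlt i h]
      field_simp
  have hPG : (∏ i, ∑' n, g i n) = ENNReal.ofReal P⁻¹ := by
    simp only [hG]
    rw [hPdef, ← Finset.prod_inv_distrib, ENNReal.ofReal_prod_of_nonneg]
    · apply Finset.prod_congr rfl
      intro i _
      split_ifs with h <;> simp
    · intro i _
      split_ifs with h
      · simp
      · exact inv_nonneg.2 (by linarith [hrlt i h])
  have hPH : ∀ j, (∏ i, ∑' n : ℕ, ((if i = j then (n : ENNReal) else 1) * g i n)) =
      ENNReal.ofReal (c j) * ENNReal.ofReal P⁻¹ := by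
    intro j
    have h1 : ∀ i, (∑' n : ℕ, ((if i = j then (n : ENNReal) else 1) * g i n)) =
        (if i = j then ENNReal.ofReal (c i) else 1) * ∑' n, g i n := by
      intro i
      split_ifs with h
      · exact hH i
      · simp
    simp only [h1]
    rw [Finset.prod_mul_distrib, hPG,
      Finset.prod_ite_eq' Finset.univ j (fun i => ENNReal.ofReal (c i))]
    simp
  simp only [hterm]
  rw [ENNReal.tsum_mul_left, ENNReal.tsum_add, ENNReal.tsum_mul_left, tsum_pi, hPG,
    Summable.tsum_finsetSum (fun _ _ => ENNReal.summable)]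
  simp only [ENNReal.tsum_mul_left]
  have h6 : ∀ j, (∑' v : Fin K → ℕ, ∏ i, ((if i = j then (v i : ENNReal) else 1) * g i (v i))) =
      ENNReal.ofReal (c j) * ENNReal.ofReal P⁻¹ := by
    intro j
    rw [← hPH j]
    exact tsum_pi K (fun i n => (if i = j then (n : ENNReal) else 1) * g i n)
  simp only [h6]
  have h7 : ENNReal.ofReal (C * P⁻¹ * (W0 + ∑ i, W i * c i)) = ENNReal.ofReal C *
      (ENNReal.ofReal P⁻¹ * (ENNReal.ofReal W0 + ∑ i, ENNReal.ofReal (W i * c i))) := by
    rw [mul_assoc, ENNReal.ofReal_mul hC0.le, ENNReal.ofReal_mul (inv_nonneg.2 hP0.le),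
      ENNReal.ofReal_add hW00 (Finset.sum_nonneg fun i _ => mul_nonneg (hWn i) (hcn i)),
      ENNReal.ofReal_sum_of_nonneg (fun i _ => mul_nonneg (hWn i) (hcn i))]
  rw [hsv, h7]
  congr 1
  rw [mul_add, mul_comm]
  congr 1
  rw [Finset.mul_sum]
  apply Finset.sum_congr rfl
  intro j _
  rw [ENNReal.ofReal_mul (hWn j)]
  ring

end Pool.Agent.TH55.TL
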