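import Pool.Agent.TH37.HG.Stmts2
import Pool.Agent.H53R2.B1

set_option autoImplicit false

/-!
# Port of `H53R2.lemmaB1` to the universal identity for triples of central type
-/

namespace Pool.Agent.TH55.HGB1

open Pool.Agent.H53R2 Pool.Agent.TH37.HG
open LaurentPolynomial
open scoped commutatorElement

theorem At_map (u : UI) {G H : Type} [Group G] [Group H] (f : G →* H) {b m t : G}
    (h : At u (f b) (f m) (f t)) : f ⁅b, m⁆ = f (List.ofFn fun k : Fin u.n =>
      FreeGroup.lift ![b, m, t] (u.w k) * ⁅b, t ^ (u.i k) * m * t ^ (-(u.i k))⁆ ^ (u.e k) *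
        (FreeGroup.lift ![b, m, t] (u.w k))⁻¹).prod := by
  have h1 : ∀ w : FreeGroup (Fin 3), f (FreeGroup.lift ![b, m, t] w) =
      FreeGroup.lift ![f b, f m, f t] w := by
    intro w
    have h2 : f.comp (FreeGroup.lift ![b, m, t]) = FreeGroup.lift ![f b, f m, f t] := by
      ext i
      fin_cases i <;> simp
    rw [← h2]
    rfl
  rw [map_commutatorElement, h, map_list_prod, List.map_ofFn]
  congr 2
  funext k
  simp only [Function.comp_apply, map_mul, map_inv, map_zpow, map_commutatorElement, h1]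

theorem H_step (W : Set (FreeGroup ℕ)) (u : UI) (hU : UIc W u) {Q : Type} [Group Q] [Group.FG Q]
    (hmax : MaxN Q) (hG : InVar W Q)
    (n : ℕ) (hn0 : 0 < n)
    (hn : ∀ 𝔭 : Ideal ℤ[T;T⁻¹], 𝔭.IsPrime →
      (∀ a : ℕ, 0 < a → ∃ g ∈ ({H_pol u} : Finset ℤ[T;T⁻¹]), (∃ j : ℤ, C (g.coeff j) ∉ 𝔭) ∧
        psi a g ∈ 𝔭) → T n - 1 ∈ 𝔭)
    (F Q' K K' : Subgroup Q) [F.Normal] [Q'.Normal] [Q'.FiniteIndex] [K.Normal] [K'.Normal]
    (hFQ : F ≤ Q') (m : ℕ) (hm : Lw Q' m Q' ≤ F) (hK : ⁅K, Q'⁆ ≤ K') :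
    ∃ Q'' : Subgroup Q, Q''.Normal ∧ Q''.FiniteIndex ∧ F ≤ Q'' ∧
      ∃ k, Lw Q'' k (H_cen F K) ≤ H_cen F K' := by
  have hFY : ∀ x ∈ F, ∀ y ∈ H_cen F K, ⁅x, y⁆ ∈ H_cen F K' := by
    intro x hx y hy
    refine ⟨?_, fun x' hx' => ?_⟩
    · rw [commutatorElement_def]
      exact F.mul_mem (F.mul_mem (F.mul_mem hx hy.1) (F.inv_mem hx)) (F.inv_mem hy.1)
    · rw [← commutatorElement_inv]
      exact K'.inv_mem (hK (Subgroup.commutator_mem_commutator (hy.2 x hx) (hFQ hx')))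
  obtain ⟨E, _, _, ⟨s⟩⟩ := exists_secMod (MonoidHom.id Q) Function.surjective_id (H_cen F K')
    (H_cen F K) (by
      rw [Subgroup.commutator_le]
      intro a ha b hb
      exact hFY a ha.1 b hb) (by
      have : (MonoidHom.id Q).ker = ⊥ := (MonoidHom.ker_eq_bot_iff _).mpr Function.injective_id
      rw [this, Subgroup.commutator_bot_right]
      exact bot_le)
  have hS₀ : ∀ x ∈ F, ∀ e : E, x • e = e := fun x hx => H_triv s x (hFY x hx)
  -- the identity
  have hid : ∀ t ∈ Q', ∀ e : E, e - ∑ k : Fin u.n, u.e k • t ^ (u.i k) • e = 0 := by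
    intro t ht e
    obtain ⟨y, hy⟩ := s.exists_rep e
    have hyY : y ∈ H_cen F K := hy.1
    have hcn : (H_cen F K).Normal := inferInstance
    -- the conjugates
    let yk : Fin u.n → ↥(H_cen F K) := fun k =>
      ⟨t ^ (u.i k) * y * (t ^ (u.i k))⁻¹, hcn.conj_mem y hyY _⟩
    have h1 : s.rep (List.ofFn fun k => ((yk k : ↥(H_cen F K)) : Q) ^ (u.e k)).prod
        (∑ k : Fin u.n, u.e k • t ^ (u.i k) • e) :=
      SecMod.rep_prod _ _ fun k => SecMod.rep_zpow (SecMod.rep_conj hy (t ^ (u.i k))) (u.e k)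
    have h2 := SecMod.rep_mul hy (SecMod.rep_inv h1)
    rw [← sub_eq_add_neg] at h2
    refine SecMod.rep_mem_zero h2 ?_
    have hmemY : y * (List.ofFn fun k => ((yk k : ↥(H_cen F K)) : Q) ^ (u.e k)).prod⁻¹ ∈
        H_cen F K := h2.1
    refine ⟨hmemY.1, fun x hx => ?_⟩
    -- the homomorphism
    have hcentral : ∀ c ∈ K, ∀ g ∈ Q', (QuotientGroup.mk g : Q ⧸ K') * QuotientGroup.mk c =
        QuotientGroup.mk c * QuotientGroup.mk g := by
      intro c hc g hg
      rw [← QuotientGroup.mk_mul, ← QuotientGroup.mk_mul, QuotientGroup.eq]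
      have h3 : ⁅c⁻¹, g⁻¹⁆ ∈ K' :=
        hK (Subgroup.commutator_mem_commutator (K.inv_mem hc) (Q'.inv_mem hg))
      have h4 : (g * c)⁻¹ * (c * g) = ⁅c⁻¹, g⁻¹⁆ := by
        simp only [commutatorElement_def]; group
      rw [h4]
      exact h3
    let θ : ↥(H_cen F K) →* Q ⧸ K' :=
      { toFun := fun y => QuotientGroup.mk ⁅x, (y : Q)⁆
        map_one' := by
          show (QuotientGroup.mk ⁅x, (1 : Q)⁆ : Q ⧸ K') = 1
          rw [commutatorElement_one_right]; rfl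
        map_mul' := by
          intro a b
          show (QuotientGroup.mk ⁅x, (a : Q) * (b : Q)⁆ : Q ⧸ K') = _
          have h5 : ⁅x, (a : Q) * (b : Q)⁆ = ⁅x, (a : Q)⁆ * ((a : Q) * ⁅x, (b : Q)⁆ * (a : Q)⁻¹) := by
            simp only [commutatorElement_def]; group
          rw [h5, QuotientGroup.mk_mul, QuotientGroup.mk_mul, QuotientGroup.mk_mul,
            hcentral _ (b.2.2 x hx) a (hFQ a.2.1), QuotientGroup.mk_inv, mul_inv_cancel_right] }
    have hθ : ∀ y : ↥(H_cen F K), θ y = QuotientGroup.mk ⁅x, (y : Q)⁆ := fun _ => rfl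
    -- the universal identity
    have hxi : ∀ i : ℤ, t ^ i * x * t ^ (-i) ∈ F := by
      intro i
      rw [zpow_neg]
      exact (inferInstance : F.Normal).conj_mem x hx _
    have hyi : ∀ i : ℤ, t ^ i * y * t ^ (-i) ∈ H_cen F K := by
      intro i
      rw [zpow_neg]
      exact hcn.conj_mem y hyY _
    have hmk : ∀ g : Q, (QuotientGroup.mk' K' g : Q ⧸ K') = QuotientGroup.mk g := fun _ => rfl
    have hAt : At u (QuotientGroup.mk' K' x) (QuotientGroup.mk' K' y) (QuotientGroup.mk' K' t) := by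
      refine hU (Q ⧸ K') (hG.quot K') _ _ _ fun i j k => ⟨?_, ?_⟩
      · have h1 : ⁅⁅t ^ i * x * t ^ (-i), t ^ j * y * t ^ (-j)⁆, t ^ k * x * t ^ (-k)⁆ ∈ K' :=
          hK (Subgroup.commutator_mem_commutator ((hyi j).2 _ (hxi i)) (hFQ (hxi k)))
        have h2 := (QuotientGroup.eq_one_iff _).2 h1
        rw [← hmk] at h2
        simpa only [map_commutatorElement, map_mul, map_zpow] using h2
      · have h1 : ⁅⁅t ^ i * x * t ^ (-i), t ^ j * y * t ^ (-j)⁆, t ^ k * y * t ^ (-k)⁆ ∈ K' :=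
          hK (Subgroup.commutator_mem_commutator ((hyi j).2 _ (hxi i)) (hFQ (hyi k).1))
        have h2 := (QuotientGroup.eq_one_iff _).2 h1
        rw [← hmk] at h2
        simpa only [map_commutatorElement, map_mul, map_zpow] using h2
    have h6 := At_map u (QuotientGroup.mk' K') hAt
    have h7 : (QuotientGroup.mk (List.ofFn fun k : Fin u.n =>
        FreeGroup.lift ![x, y, t] (u.w k) * ⁅x, t ^ (u.i k) * y * t ^ (-(u.i k))⁆ ^ (u.e k) *
        (FreeGroup.lift ![x, y, t] (u.w k))⁻¹).prod : Q ⧸ K') =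
        θ (List.ofFn fun k => yk k ^ (u.e k)).prod := by
      rw [← QuotientGroup.mk'_apply, map_list_prod, map_list_prod, List.map_ofFn, List.map_ofFn]
      congr 2
      funext k
      simp only [Function.comp_apply, QuotientGroup.mk'_apply]
      rw [map_zpow, hθ, QuotientGroup.mk_mul, QuotientGroup.mk_mul, QuotientGroup.mk_zpow,
        QuotientGroup.mk_inv]
      have h8 : ⁅x, t ^ (u.i k) * y * t ^ (-(u.i k))⁆ = ⁅x, ((yk k : ↥(H_cen F K)) : Q)⁆ := by
        rw [zpow_neg]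
      rw [h8]
      have hγ : FreeGroup.lift ![x, y, t] (u.w k) ∈ Q' := by
        have h9 : (FreeGroup.lift ![x, y, t]).range ≤ Q' := by
          apply FreeGroup.range_lift_le
          rintro _ ⟨i, rfl⟩
          fin_cases i
          · exact hFQ hx
          · exact hFQ hyY.1
          · exact ht
        exact h9 ⟨_, rfl⟩
      have h10 := hcentral (⁅x, ((yk k : ↥(H_cen F K)) : Q)⁆ ^ (u.e k))
        (K.zpow_mem ((yk k).2.2 x hx) _) _ hγ
      rw [QuotientGroup.mk_zpow] at h10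
      rw [h10, mul_inv_cancel_right]
    have h11 : θ ⟨y, hyY⟩ = θ (List.ofFn fun k => yk k ^ (u.e k)).prod := by
      rw [hθ]
      exact h6.trans h7
    have h12 : θ (⟨y, hyY⟩ * (List.ofFn fun k => yk k ^ (u.e k)).prod⁻¹) = 1 := by
      rw [map_mul, map_inv, h11, mul_inv_cancel]
    rw [hθ, QuotientGroup.eq_one_iff] at h12
    have h13 : ((⟨y, hyY⟩ * (List.ofFn fun k => yk k ^ (u.e k)).prod⁻¹ : ↥(H_cen F K)) : Q) =
        y * (List.ofFn fun k => ((yk k : ↥(H_cen F K)) : Q) ^ (u.e k)).prod⁻¹ := by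
      rw [Subgroup.coe_mul, Subgroup.coe_inv]
      congr 2
      have h14 := map_list_prod (H_cen F K).subtype (List.ofFn fun k => yk k ^ (u.e k))
      rw [List.map_ofFn] at h14
      exact h14
    rw [h13] at h12
    exact h12
  have hstar : ∀ (B : Type) [AddCommGroup B] [DistribMulAction Q B] (φ : B →+ E),
      Function.Injective φ → (∀ (q : Q) (b : B), φ (q • b) = q • φ b) →
      ∀ z ∈ Q', (∀ q ∈ Q', ∀ b : B, z • q • b = q • z • b) → ActNil ({z ^ n} : Set Q) B := by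
    intro B _ _ φ hφ heq z hz _
    apply H_prime (H_pol u) n hn (H_pol_coeff u)
    intro a ha b
    rw [H_pol_ev]
    apply hφ
    rw [map_zero, map_sub, map_sum]
    have h1 := hid (z ^ (a : ℤ)) (Q'.zpow_mem hz _) (φ b)
    rw [← h1]
    congr 1
    refine Finset.sum_congr rfl fun k _ => ?_
    rw [map_zsmul, heq]
  obtain ⟨Q'', h1, h2, h3, k, h4⟩ := lemmaK hmax n hn0 Q' F m hm hFQ hS₀ hstar
  refine ⟨Q'', h1, h2, h3, k, ?_⟩
  have h5 := s.lw_le Q'' k h4
  exact h5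

theorem H_center (hP : P1Stmt) (u : UI) {Q E : Type} [Group Q] [Group.FG Q] [AddCommGroup E]
    [DistribMulAction Q E] (hmax : MaxN Q) (hE : MT u Q E)
    (hN : ∀ N : Subgroup Q, N.Normal → ActNil (N : Set Q) E → N = ⊥)
    (F Q' : Subgroup Q) [F.Normal] [Q'.Normal] [Q'.FiniteIndex] (hFQ : F ≤ Q') (m : ℕ)
    (hm : Lw Q' m Q' ≤ F) :
    ∃ Q'' : Subgroup Q, Q''.Normal ∧ Q''.FiniteIndex ∧ F ≤ Q'' ∧
      ∃ k, Lw Q'' k (H_cen F ⊥) ≤ ⊥ := by
  have hFY : ∀ x ∈ F, ∀ y ∈ H_cen F ⊥, ⁅x, y⁆ ∈ (⊥ : Subgroup Q) := fun x hx y hy => hy.2 x hx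
  obtain ⟨E', _, _, ⟨s⟩⟩ := exists_secMod (MonoidHom.id Q) Function.surjective_id (⊥ : Subgroup Q)
    (H_cen F ⊥) (by
      rw [Subgroup.commutator_le]
      intro a ha b hb
      exact hFY a ha.1 b hb) (by
      have : (MonoidHom.id Q).ker = ⊥ := (MonoidHom.ker_eq_bot_iff _).mpr Function.injective_id
      rw [this, Subgroup.commutator_bot_right])
  have hS₀ : ∀ x ∈ F, ∀ e : E', x • e = e := fun x hx => H_triv s x (hFY x hx)
  obtain ⟨n, hn0, hn⟩ := hP u
  have hinj : Function.Injective s.π := by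
    rw [injective_iff_map_eq_one]
    intro y hy
    have := (s.ker y).mp hy
    exact Subtype.ext this
  let e : ↥(H_cen F ⊥) ≃* Multiplicative E' := MulEquiv.ofBijective s.π ⟨hinj, s.surj⟩
  have hstar : ∀ (B : Type) [AddCommGroup B] [DistribMulAction Q B] (φ : B →+ E'),
      Function.Injective φ → (∀ (q : Q) (b : B), φ (q • b) = q • φ b) →
      ∀ z ∈ Q', (∀ q ∈ Q', ∀ b : B, z • q • b = q • z • b) → ActNil ({z ^ n} : Set Q) B := by
    intro B _ _ φ hφ heq z _ hz2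
    let ι : Multiplicative B →* Q :=
      (H_cen F ⊥).subtype.comp (e.symm.toMonoidHom.comp (AddMonoidHom.toMultiplicative φ))
    refine hn Q E B hE hN ι ?_ ?_ Q' inferInstance inferInstance z hz2
    · intro a b hab
      have h1 := e.symm.injective (Subtype.val_injective hab)
      exact hφ h1
    · intro q b
      show ((e.symm (Multiplicative.ofAdd (φ (q • b)))) : Q) =
        q * (e.symm (Multiplicative.ofAdd (φ b)) : Q) * q⁻¹
      have hn1 : (H_cen F (⊥ : Subgroup Q)).Normal := inferInstance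
      have h2 : e.symm (Multiplicative.ofAdd (φ (q • b))) =
          ⟨q * (e.symm (Multiplicative.ofAdd (φ b)) : Q) * q⁻¹, hn1.conj_mem _ (Subtype.mem _) q⟩ := by
        rw [MulEquiv.symm_apply_eq]
        show _ = s.π _
        rw [s.act q (e.symm (Multiplicative.ofAdd (φ b))) _ rfl]
        have h3 : s.π (e.symm (Multiplicative.ofAdd (φ b))) = Multiplicative.ofAdd (φ b) :=
          e.apply_symm_apply _
        rw [h3, heq]
        rfl
      rw [h2]
  obtain ⟨Q'', h1, h2, h3, k, h4⟩ := lemmaK hmax n hn0 Q' F m hm hFQ hS₀ hstar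
  exact ⟨Q'', h1, h2, h3, k, s.lw_le Q'' k h4⟩

theorem b1 (hP : P1Stmt) : B1Stmt := by
  intro W u v hU Q E _ _ _ _ hG hmax hvn hE hN
  obtain ⟨Q1, hQ1n, hQ1f, m, c, hc⟩ := hvn
  set F : Subgroup Q := Lw Q1 m Q1 with hF
  have hFn : F.Normal := Lw_normal Q1 m Q1
  have hFQ1 : F ≤ Q1 := Lw_le Q1 Q1 m
  obtain ⟨n, hn0, hn⟩ := roots {H_pol u}
  obtain ⟨QZ, hZ1, hZ2, hZ3, kZ, hZ4⟩ := H_center hP v hmax hE hN F Q1 hFQ1 m le_rfl
  -- all terms of the upper central series are good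
  have good : ∀ i, ∃ Q' : Subgroup Q, Q'.Normal ∧ Q'.FiniteIndex ∧ F ≤ Q' ∧ Q' ≤ Q1 ∧
      ∃ l, Lw Q' l (H_C F i).1 = ⊥ := by
    intro i
    induction i with
    | zero => exact ⟨Q1, hQ1n, hQ1f, hFQ1, le_rfl, 0, rfl⟩
    | succ i ih =>
      obtain ⟨Q', h1, h2, h3, h4, l, h5⟩ := ih
      have hCn := (H_C F i).2
      set K : Subgroup Q := (H_C F i).1 with hK
      have hm' : Lw Q' m Q' ≤ F := Lw_mono h4 h4 m
      have key : ∀ j, ∃ Q'' : Subgroup Q, Q''.Normal ∧ Q''.FiniteIndex ∧ F ≤ Q'' ∧ Q'' ≤ Q' ∧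
          ∃ k, Lw Q'' k (H_cen F K) ≤ H_cen F (Lw Q' j K) := by
        intro j
        induction j with
        | zero => exact ⟨Q', h1, h2, h3, le_rfl, 0, le_rfl⟩
        | succ j ihj =>
          obtain ⟨Q'', g1, g2, g3, g4, k, g5⟩ := ihj
          obtain ⟨Q3, e1, e2, e3, k', e5⟩ := H_step W u hU hmax hG n hn0 hn F Q' (Lw Q' j K)
            (Lw Q' (j + 1) K) h3 m hm' (by rw [Lw_succ])
          refine ⟨Q'' ⊓ Q3, inferInstance, inferInstance, le_inf g3 e3, inf_le_left.trans g4,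
            k' + k, ?_⟩
          rw [Lw_add]
          exact (Lw_mono inf_le_right ((Lw_mono inf_le_left le_rfl k).trans g5) k').trans e5
      obtain ⟨Q'', g1, g2, g3, g4, k, g5⟩ := key l
      refine ⟨Q'' ⊓ QZ, inferInstance, inferInstance, le_inf g3 hZ3,
        (inf_le_left.trans g4).trans h4, kZ + k, ?_⟩
      rw [Lw_add, eq_bot_iff]
      refine le_trans (Lw_mono inf_le_right ?_ kZ) hZ4
      refine (Lw_mono inf_le_left le_rfl k).trans (g5.trans ?_)
      exact H_cen_mono h5.le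
  -- the series reaches `F`
  have hreach : ∀ j i, i + j = c → Lw F i F ≤ (H_C F j).1 := by
    intro j
    induction j with
    | zero =>
      intro i hi
      have : i = c := by omega
      subst this
      rw [hc]
      exact bot_le
    | succ j ih =>
      intro i hi y hy
      refine ⟨Lw_le F F i hy, fun x hx => ?_⟩
      rw [← commutatorElement_inv]
      apply Subgroup.inv_mem
      apply ih (i + 1) (by omega)
      rw [Lw_succ]
      exact Subgroup.commutator_mem_commutator hy hx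
  obtain ⟨Q2, h1, h2, h3, h4, l, h5⟩ := good c
  refine ⟨Q2, h1, h2, l + m, ?_⟩
  rw [Lw_add, eq_bot_iff]
  calc Lw Q2 l (Lw Q2 m Q2) ≤ Lw Q2 l F := Lw_mono le_rfl (Lw_mono h4 h4 m) l
    _ ≤ Lw Q2 l (H_C F c).1 := Lw_mono le_rfl (hreach c 0 (Nat.zero_add c)) l
    _ ≤ ⊥ := h5.le

end Pool.Agent.TH55.HGB1
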