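import Pool.Agent.TH371.Harm.Defs

/-!
# Behaviour of `FF` along its level curves (job 2812, HARM2)
-/

set_option autoImplicit false

namespace Pool.Agent.TH371.Harm

open Complex Filter Topology Set

theorem lev55_im (A B X h : ℝ) :
    (FF A B (X + h * I)).im = h * (B - A * X) + Complex.arg ((X : ℂ) + h * I + 1) := by
  simp [FF, Complex.log_im, pow_two]
  ring

theorem lev55_re (A B X h : ℝ) :
    (FF A B (X + h * I)).re =
      -(A / 2) * (X ^ 2 - h ^ 2) + B * X + Real.log ‖(X : ℂ) + h * I + 1‖ := by
  simp [FF, Complex.log_re, pow_two]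

theorem lev55_arg_pos (X h : ℝ) (hh : 0 < h) :
    0 < Complex.arg ((X : ℂ) + h * I + 1) ∧ Complex.arg ((X : ℂ) + h * I + 1) < Real.pi := by
  have him : ((X : ℂ) + h * I + 1).im = h := by simp
  have h1 : 0 ≤ Complex.arg ((X : ℂ) + h * I + 1) := by
    rw [Complex.arg_nonneg_iff, him]; exact hh.le
  have h2 : Complex.arg ((X : ℂ) + h * I + 1) ≠ 0 := by
    intro h0
    rw [Complex.arg_eq_zero_iff] at h0
    rw [him] at h0
    exact hh.ne' h0.2
  have h3 : Complex.arg ((X : ℂ) + h * I + 1) ≠ Real.pi := by
    intro h0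
    rw [Complex.arg_eq_pi_iff] at h0
    rw [him] at h0
    exact hh.ne' h0.2
  exact ⟨lt_of_le_of_ne h1 (Ne.symm h2), lt_of_le_of_ne (Complex.arg_le_pi _) h3⟩

theorem lev55_norm_ge (X h : ℝ) (hh : 0 < h) : h ≤ ‖(X : ℂ) + h * I + 1‖ := by
  have him : ((X : ℂ) + h * I + 1).im = h := by simp
  have := Complex.abs_im_le_norm ((X : ℂ) + h * I + 1)
  rw [him, abs_of_pos hh] at this
  exact this

theorem lev55_norm_le (X h : ℝ) (hh : 0 < h) (h1 : h ≤ 1) : ‖(X : ℂ) + h * I + 1‖ ≤ |X| + 2 := by
  calc ‖(X : ℂ) + h * I + 1‖ ≤ ‖(X : ℂ)‖ + ‖(h : ℂ) * I‖ + ‖(1 : ℂ)‖ :=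
        (norm_add_le _ _).trans (add_le_add (norm_add_le _ _) le_rfl)
    _ = |X| + h + 1 := by
        rw [norm_mul, Complex.norm_I, mul_one, norm_one, Complex.norm_real, Complex.norm_real,
          Real.norm_eq_abs, Real.norm_eq_abs, abs_of_pos hh]
    _ ≤ |X| + 2 := by linarith

theorem level_atTop (A B : ℝ) (hA : 0 < A) (y : ℝ) (X : ℝ → ℝ)
    (hX : ∀ h : ℝ, 0 < h → (FF A B (X h + h * I)).im = y) :
    Tendsto (fun h : ℝ => (FF A B (X h + h * I)).re) atTop atTop := by
  set C0 : ℝ := |y| + Real.pi with hC0
  set M : ℝ := (C0 + |B|) / A with hM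
  have hC0pos : 0 < C0 := by have := Real.pi_pos; have := abs_nonneg y; linarith
  have hMpos : 0 ≤ M := by
    rw [hM]; apply div_nonneg _ hA.le
    have := abs_nonneg B; linarith
  have hlow : ∀ᶠ h : ℝ in atTop,
      A / 2 * h ^ 2 + (-(A / 2 * M ^ 2) - |B| * M) ≤ (FF A B (X h + h * I)).re := by
    filter_upwards [eventually_ge_atTop (1 : ℝ)] with h hh1
    have hh0 : 0 < h := by linarith
    have e1 := hX h hh0
    rw [lev55_im] at e1
    obtain ⟨ha1, ha2⟩ := lev55_arg_pos (X h) h hh0
    set θ := Complex.arg ((X h : ℂ) + h * I + 1) with hθ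
    have hb : |B - A * X h| ≤ C0 := by
      have e2 : h * |B - A * X h| = |y - θ| := by
        rw [← abs_of_pos hh0, ← abs_mul, abs_of_pos hh0]
        congr 1; linarith
      have e3 : |y - θ| ≤ C0 := by
        have := abs_sub y θ
        rw [abs_of_pos ha1] at this
        have h4 : |y - θ| ≤ |y| + |θ| := abs_sub _ _
        rw [abs_of_pos ha1] at h4
        linarith
      have e4 : |B - A * X h| ≤ h * |B - A * X h| := by
        have := abs_nonneg (B - A * X h)
        nlinarith
      linarith
    have hXM : |X h| ≤ M := by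
      rw [hM, le_div_iff₀ hA]
      have e5 : |X h| * A = |A * X h| := by
        rw [abs_mul, abs_of_pos hA]; ring
      rw [e5]
      have e6 : |A * X h| ≤ |B - A * X h| + |B| := by
        have := abs_sub (B - A * X h) B
        have e7 : A * X h = -((B - A * X h) - B) := by ring
        calc |A * X h| = |(B - A * X h) - B| := by rw [e7, abs_neg]; congr 1; ring
          _ ≤ |B - A * X h| + |B| := abs_sub _ _
      linarith
    rw [lev55_re]
    have hlog : 0 ≤ Real.log ‖(X h : ℂ) + h * I + 1‖ := by
      apply Real.log_nonneg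
      exact hh1.trans (lev55_norm_ge (X h) h hh0)
    have hX2 : X h ^ 2 ≤ M ^ 2 := by
      rw [← sq_abs (X h)]
      exact pow_le_pow_left₀ (abs_nonneg _) hXM 2
    have hBX : -(|B| * M) ≤ B * X h := by
      have : |B * X h| ≤ |B| * M := by
        rw [abs_mul]; exact mul_le_mul_of_nonneg_left hXM (abs_nonneg _)
      exact (abs_le.mp this).1
    nlinarith
  refine tendsto_atTop_mono' _ hlow ?_
  apply tendsto_atTop_add_const_right
  apply Tendsto.const_mul_atTop (by linarith)
  exact tendsto_pow_atTop (by norm_num)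

theorem lev55_re_upper (A B X h : ℝ) (hA : 0 < A) (hh : 0 < h) (h1 : h ≤ 1) :
    (FF A B (X + h * I)).re ≤ A / 2 + 1 + |X| * ((|B| + 1) - A / 2 * |X|) := by
  rw [lev55_re]
  have hn := lev55_norm_le X h hh h1
  have hg := lev55_norm_ge X h hh
  have hlog : Real.log ‖(X : ℂ) + h * I + 1‖ ≤ |X| + 1 := by
    have := Real.log_le_sub_one_of_pos (lt_of_lt_of_le hh hg)
    linarith
  have hBX : B * X ≤ |B| * |X| := by
    rw [← abs_mul]; exact le_abs_self _
  have hX2 : X ^ 2 = |X| ^ 2 := (sq_abs X).symm
  have hh2 : h ^ 2 ≤ 1 := by nlinarith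
  nlinarith

theorem lev55_bot_of_large (A B : ℝ) (hA : 0 < A) (X : ℝ → ℝ)
    (hX : Tendsto (fun h : ℝ => |X h|) (𝓝[>] 0) atTop) :
    Tendsto (fun h : ℝ => (FF A B (X h + h * I)).re) (𝓝[>] 0) atBot := by
  have h01 : ∀ᶠ h : ℝ in 𝓝[>] 0, 0 < h ∧ h ≤ 1 := by
    filter_upwards [Ioc_mem_nhdsGT (show (0 : ℝ) < 1 by norm_num)] with h hh
    exact ⟨hh.1, hh.2⟩
  have hup : ∀ᶠ h : ℝ in 𝓝[>] 0, (FF A B (X h + h * I)).re ≤
      A / 2 + 1 + |X h| * ((|B| + 1) - A / 2 * |X h|) := by
    filter_upwards [h01] with h hh
    exact lev55_re_upper A B (X h) h hA hh.1 hh.2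
  refine tendsto_atBot_mono' _ hup ?_
  apply tendsto_atBot_add_const_left
  refine Tendsto.atTop_mul_atBot₀ hX ?_
  have h2 : Tendsto (fun h : ℝ => A / 2 * |X h|) (𝓝[>] 0) atTop :=
    Tendsto.const_mul_atTop (by linarith) hX
  have h3 : Tendsto (fun h : ℝ => (|B| + 1) + -(A / 2 * |X h|)) (𝓝[>] 0) atBot :=
    tendsto_atBot_add_const_left _ _ (tendsto_neg_atTop_atBot.comp h2)
  refine h3.congr ?_
  intro h; ring

theorem level_zero_bot (A B : ℝ) (hA : 0 < A) (y : ℝ) (hy0 : y ≠ 0) (hyp : y ≠ Real.pi)
    (X : ℝ → ℝ) (hX : ∀ h : ℝ, 0 < h → (FF A B (X h + h * I)).im = y) :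
    Tendsto (fun h : ℝ => (FF A B (X h + h * I)).re) (𝓝[>] 0) atBot := by
  have hpi := Real.pi_pos
  have hinv : Tendsto (fun h : ℝ => h⁻¹) (𝓝[>] 0) atTop := tendsto_inv_nhdsGT_zero
  rcases lt_or_gt_of_ne hy0 with hy | hy
  · -- `y < 0`
    apply lev55_bot_of_large A B hA X
    have hlow : ∀ᶠ h : ℝ in 𝓝[>] 0, (-y / A) * h⁻¹ + -(|B| / A) ≤ |X h| := by
      filter_upwards [self_mem_nhdsWithin] with h hh
      have hh0 : 0 < h := hh
      have e1 := hX h hh0
      rw [lev55_im] at e1
      obtain ⟨ha1, ha2⟩ := lev55_arg_pos (X h) h hh0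
      set θ := Complex.arg ((X h : ℂ) + h * I + 1) with hθ
      have e2 : -y ≤ h * (A * X h - B) := by linarith
      have e3 : -y * h⁻¹ ≤ A * X h - B := by
        rw [← div_eq_mul_inv, div_le_iff₀ hh0]; linarith
      have e4 : (-y / A) * h⁻¹ + -(|B| / A) = (-y * h⁻¹ - |B|) / A := by field_simp; ring
      rw [e4, div_le_iff₀ hA]
      have e5 : A * X h ≤ |X h| * A := by
        have := le_abs_self (X h); nlinarith
      have e6 : -|B| ≤ B := neg_abs_le B
      linarith
    refine tendsto_atTop_mono' _ hlow ?_
    apply tendsto_atTop_add_const_right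
    exact Tendsto.const_mul_atTop (div_pos (by linarith) hA) hinv
  · rcases lt_or_gt_of_ne hyp with hy2 | hy2
    · -- `0 < y < π`
      have hsin : 0 < Real.sin y := Real.sin_pos_of_pos_of_lt_pi hy hy2
      set M0 : ℝ := |B| / A + 2 with hM0
      have hM0pos : 0 < M0 := by
        have : 0 ≤ |B| / A := div_nonneg (abs_nonneg _) hA.le
        linarith
      set C : ℝ := |B| + A * M0 with hC
      have hCpos : 0 < C := by
        have := abs_nonneg B
        have := mul_pos hA hM0pos
        linarith
      set δ : ℝ := min (min (y / 2) ((Real.pi - y) / 2)) (min 1 (Real.sin y / 2 / C)) with hδ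
      have hδpos : 0 < δ := by
        rw [hδ]
        refine lt_min (lt_min (by linarith) (by linarith)) (lt_min one_pos ?_)
        exact div_pos (by linarith) hCpos
      have hup : ∀ᶠ h : ℝ in 𝓝[>] 0, (FF A B (X h + h * I)).re ≤
          (A / 2 + |B| * M0 + Real.log (2 / Real.sin y)) + Real.log h := by
        filter_upwards [Ioo_mem_nhdsGT hδpos] with h hh
        have hh0 : 0 < h := hh.1
        have hhy : h < y / 2 := lt_of_lt_of_le hh.2 ((min_le_left _ _).trans (min_le_left _ _))
        have hhpy : h < (Real.pi - y) / 2 :=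
          lt_of_lt_of_le hh.2 ((min_le_left _ _).trans (min_le_right _ _))
        have hh1 : h < 1 := lt_of_lt_of_le hh.2 ((min_le_right _ _).trans (min_le_left _ _))
        have hhC : h < Real.sin y / 2 / C :=
          lt_of_lt_of_le hh.2 ((min_le_right _ _).trans (min_le_right _ _))
        have e1 := hX h hh0
        rw [lev55_im] at e1
        rw [lev55_re]
        obtain ⟨ha1, ha2⟩ := lev55_arg_pos (X h) h hh0
        have hr := lev55_norm_ge (X h) h hh0
        have hrsin : ‖(X h : ℂ) + h * I + 1‖ * Real.sin (Complex.arg ((X h : ℂ) + h * I + 1)) = h := by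
          rw [Complex.norm_mul_sin_arg]; simp
        have hrcos : ‖(X h : ℂ) + h * I + 1‖ * Real.cos (Complex.arg ((X h : ℂ) + h * I + 1))
            = X h + 1 := by
          rw [Complex.norm_mul_cos_arg]; simp
        set θ := Complex.arg ((X h : ℂ) + h * I + 1) with hθ
        set r := ‖(X h : ℂ) + h * I + 1‖ with hr'
        have hrpos : 0 < r := lt_of_lt_of_le hh0 hr
        have hAB : A * M0 = |B| + 2 * A := by rw [hM0]; field_simp
        have hXup : X h ≤ M0 := by
          by_contra hcon
          push Not at hcon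
          have k1 : B - A * X h ≤ 0 := by
            have := le_abs_self B
            nlinarith
          have k2 : y ≤ θ := by nlinarith
          have hX1 : 1 ≤ X h + 1 := by linarith
          have hcos : 0 < Real.cos θ := by
            by_contra hc
            push Not at hc
            nlinarith
          have hθ2 : θ ≤ Real.pi / 2 := by
            by_contra hc
            push Not at hc
            have := Real.cos_neg_of_pi_div_two_lt_of_lt hc (by linarith)
            linarith
          have hr1 : 1 ≤ r := by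
            have := Real.cos_le_one θ
            nlinarith
          have hs : Real.sin θ ≤ h := by
            have hs0 : 0 ≤ Real.sin θ := Real.sin_nonneg_of_nonneg_of_le_pi ha1.le ha2.le
            nlinarith
          have hj := Real.mul_le_sin ha1.le hθ2
          have hp4 : Real.pi < 4 := by linarith [Real.pi_lt_d2]
          have k3 : 2 / Real.pi * θ ≤ h := hj.trans hs
          have k4 : 2 * θ ≤ h * Real.pi := by
            have : 2 / Real.pi * θ * Real.pi ≤ h * Real.pi :=
              mul_le_mul_of_nonneg_right k3 hpi.le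
            have e : 2 / Real.pi * θ * Real.pi = 2 * θ := by field_simp
            linarith
          nlinarith
        have hXlow : -M0 ≤ X h := by
          by_contra hcon
          push Not at hcon
          have k1 : 0 ≤ B - A * X h := by
            have := neg_abs_le B
            nlinarith
          have k2 : θ ≤ y := by nlinarith
          have hX1 : X h + 1 ≤ -1 := by
            have : 0 ≤ |B| / A := div_nonneg (abs_nonneg _) hA.le
            linarith
          have hcos : Real.cos θ < 0 := by
            by_contra hc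
            push Not at hc
            nlinarith
          have hθ2 : Real.pi / 2 ≤ θ := by
            by_contra hc
            push Not at hc
            have := Real.cos_pos_of_mem_Ioo (⟨by linarith, hc⟩ : θ ∈ Set.Ioo (-(Real.pi / 2)) (Real.pi / 2))
            linarith
          have hr1 : 1 ≤ r := by
            have := Real.neg_one_le_cos θ
            nlinarith
          have hs : Real.sin θ ≤ h := by
            have hs0 : 0 ≤ Real.sin θ := Real.sin_nonneg_of_nonneg_of_le_pi ha1.le ha2.le
            nlinarith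
          have hj := Real.mul_le_sin (show 0 ≤ Real.pi - θ by linarith)
            (show Real.pi - θ ≤ Real.pi / 2 by linarith)
          rw [Real.sin_pi_sub] at hj
          have hp4 : Real.pi < 4 := by linarith [Real.pi_lt_d2]
          have k3 : 2 / Real.pi * (Real.pi - θ) ≤ h := hj.trans hs
          have k4 : 2 * (Real.pi - θ) ≤ h * Real.pi := by
            have : 2 / Real.pi * (Real.pi - θ) * Real.pi ≤ h * Real.pi :=
              mul_le_mul_of_nonneg_right k3 hpi.le
            have e : 2 / Real.pi * (Real.pi - θ) * Real.pi = 2 * (Real.pi - θ) := by field_simp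
            linarith
          nlinarith
        have hXabs : |X h| ≤ M0 := abs_le.mpr ⟨hXlow, hXup⟩
        have hdist : |θ - y| ≤ h * C := by
          have e2 : θ - y = -(h * (B - A * X h)) := by linarith
          rw [e2, abs_neg, abs_mul, abs_of_pos hh0]
          apply mul_le_mul_of_nonneg_left _ hh0.le
          calc |B - A * X h| ≤ |B| + |A * X h| := abs_sub _ _
            _ = |B| + A * |X h| := by rw [abs_mul, abs_of_pos hA]
            _ ≤ C := by rw [hC]; nlinarith
        have hCh : h * C ≤ Real.sin y / 2 := by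
          have := (lt_div_iff₀ hCpos).mp hhC
          linarith
        have hsd : |Real.sin θ - Real.sin y| ≤ |θ - y| := Real.abs_sin_sub_sin_le θ y
        have hsinθ : Real.sin y / 2 ≤ Real.sin θ := by
          have := (abs_le.mp (hsd.trans (hdist.trans hCh))).1
          linarith
        have hrle : r ≤ 2 / Real.sin y * h := by
          have : r * (Real.sin y / 2) ≤ h := by nlinarith
          rw [div_mul_eq_mul_div, le_div_iff₀ hsin]
          linarith
        have hlog : Real.log r ≤ Real.log (2 / Real.sin y) + Real.log h := by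
          rw [← Real.log_mul (by positivity) hh0.ne']
          exact Real.log_le_log hrpos hrle
        have hBX : B * X h ≤ |B| * M0 := by
          calc B * X h ≤ |B * X h| := le_abs_self _
            _ = |B| * |X h| := abs_mul _ _
            _ ≤ |B| * M0 := mul_le_mul_of_nonneg_left hXabs (abs_nonneg _)
        have hh2 : h ^ 2 ≤ 1 := by nlinarith
        have hx2 : 0 ≤ X h ^ 2 := sq_nonneg _
        nlinarith
      refine tendsto_atBot_mono' _ hup ?_
      apply tendsto_atBot_add_const_left
      exact Real.tendsto_log_nhdsGT_zero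
    · -- `π < y`
      apply lev55_bot_of_large A B hA X
      have hlow : ∀ᶠ h : ℝ in 𝓝[>] 0, ((y - Real.pi) / A) * h⁻¹ + -(|B| / A) ≤ |X h| := by
        filter_upwards [self_mem_nhdsWithin] with h hh
        have hh0 : 0 < h := hh
        have e1 := hX h hh0
        rw [lev55_im] at e1
        obtain ⟨ha1, ha2⟩ := lev55_arg_pos (X h) h hh0
        set θ := Complex.arg ((X h : ℂ) + h * I + 1) with hθ
        have e2 : y - Real.pi ≤ h * (B - A * X h) := by linarith
        have e3 : (y - Real.pi) * h⁻¹ ≤ B - A * X h := by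
          rw [← div_eq_mul_inv, div_le_iff₀ hh0]; linarith
        have e4 : ((y - Real.pi) / A) * h⁻¹ + -(|B| / A) = ((y - Real.pi) * h⁻¹ - |B|) / A := by
          field_simp; ring
        rw [e4, div_le_iff₀ hA]
        have e5 : -(A * X h) ≤ |X h| * A := by
          have := neg_abs_le (X h); nlinarith
        have e6 : B ≤ |B| := le_abs_self B
        linarith
      refine tendsto_atTop_mono' _ hlow ?_
      apply tendsto_atTop_add_const_right
      exact Tendsto.const_mul_atTop (div_pos (by linarith) hA) hinv

end Pool.Agent.TH371.Harm
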