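import Pool.Agent.TH444.ML.Defs

/-!
# ML-H: uniform count of the principal ideals divisible by a given ideal (job 3092)
-/

set_option autoImplicit false

namespace Pool.Agent.TH55.J3092

open NumberField Module NumberField.InfinitePlace NumberField.mixedEmbedding
open scoped NNReal ENNReal

/-- Minkowski's theorem for the boxes `w a < f w` -/
theorem mink (M : Type) [Field M] [NumberField M] (f : InfinitePlace M → ℝ≥0)
    (hf : 2 ^ (finrank ℚ M) * Real.sqrt ((|discr M| : ℤ) : ℝ) < ∏ w, (f w : ℝ) ^ (mult w)) :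
    ∃ a : 𝓞 M, a ≠ 0 ∧ ∀ w : InfinitePlace M, w a < f w := by
  classical
  apply exists_ne_zero_mem_ringOfIntegers_lt M
  have h1 : minkowskiBound M ↑1 ≤ (2 : ℝ≥0∞) ^ (finrank ℚ M) * (NNReal.sqrt ‖discr M‖₊ : ℝ≥0∞) := by
    rw [minkowskiBound, volume_fundamentalDomain_fractionalIdealLatticeBasis,
      volume_fundamentalDomain_latticeBasis, mixedEmbedding.finrank]
    rw [Units.val_one, FractionalIdeal.absNorm_one]
    simp only [Rat.cast_one, ENNReal.ofReal_one, one_mul]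
    rw [mul_comm]
    gcongr
    calc (2 : ℝ≥0∞)⁻¹ ^ nrComplexPlaces M * (NNReal.sqrt ‖discr M‖₊ : ℝ≥0∞)
        ≤ 1 * (NNReal.sqrt ‖discr M‖₊ : ℝ≥0∞) := by
          gcongr
          apply pow_le_one₀ (by positivity)
          exact ENNReal.inv_le_one.mpr (by norm_num)
      _ = _ := one_mul _
  refine lt_of_le_of_lt h1 ?_
  rw [convexBodyLT_volume]
  have h2 : (2 : ℝ≥0∞) ^ (finrank ℚ M) * (NNReal.sqrt ‖discr M‖₊ : ℝ≥0∞) <
      ((∏ w, (f w) ^ (mult w) : ℝ≥0) : ℝ≥0∞) := by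
    have : (2 : ℝ≥0∞) ^ (finrank ℚ M) * (NNReal.sqrt ‖discr M‖₊ : ℝ≥0∞) =
      (((2 : ℝ≥0) ^ (finrank ℚ M) * NNReal.sqrt ‖discr M‖₊ : ℝ≥0) : ℝ≥0∞) := by
      push_cast; rfl
    rw [this, ENNReal.coe_lt_coe, ← NNReal.coe_lt_coe]
    push_cast
    convert hf using 2
    rw [Int.norm_eq_abs]
    push_cast
    rfl
  refine h2.trans_le ?_
  have h3 : (1 : ℝ≥0∞) ≤ (convexBodyLTFactor M : ℝ≥0∞) := by
    exact_mod_cast one_le_convexBodyLTFactor M
  calc ((∏ w, (f w) ^ (mult w) : ℝ≥0) : ℝ≥0∞)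
      = 1 * ((∏ w, (f w) ^ (mult w) : ℝ≥0) : ℝ≥0∞) := (one_mul _).symm
    _ ≤ _ := by gcongr

theorem prod_places (M : Type) [Field M] [NumberField M] (x : 𝓞 M) :
    ∏ w : InfinitePlace M, w (x : M) ^ mult w = (Ideal.absNorm (Ideal.span {x}) : ℝ) := by
  rw [prod_eq_abs_norm, Ideal.absNorm_span_singleton, ← Algebra.coe_norm_int]
  push_cast
  rw [Nat.cast_natAbs]
  simp

theorem absNorm_pos' (M : Type) [Field M] [NumberField M] {x : 𝓞 M} (hx : x ≠ 0) :
    0 < (Ideal.absNorm (Ideal.span {x}) : ℝ) := by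
  rw [← prod_places]
  apply Finset.prod_pos
  intro w _
  apply pow_pos
  rw [InfinitePlace.pos_iff]
  exact fun h => hx (by exact_mod_cast h)

/-- every nonzero integer has a multiple, by a number of small norm, which is small at all the
places -/
theorem balance (M : Type) [Field M] [NumberField M] (C1 : ℝ)
    (hC1 : 2 ^ (finrank ℚ M) * Real.sqrt ((|discr M| : ℤ) : ℝ) < C1) (x : 𝓞 M) (hx : x ≠ 0) :
    ∃ β : 𝓞 M, β ≠ 0 ∧ (Ideal.absNorm (Ideal.span {β}) : ℝ) ≤ C1 ∧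
      ∀ w : InfinitePlace M, w ((β * x : 𝓞 M) : M) <
        (C1 * (Ideal.absNorm (Ideal.span {x}) : ℝ)) ^ ((1 : ℝ) / (finrank ℚ M : ℝ)) := by
  have hC0 : 0 < C1 := lt_of_le_of_lt (by positivity) hC1
  have hN : 0 < (Ideal.absNorm (Ideal.span {x}) : ℝ) := absNorm_pos' M hx
  set N : ℝ := (Ideal.absNorm (Ideal.span {x}) : ℝ) with hNdef
  set D := finrank ℚ M with hD
  have hDpos : (0 : ℝ) < D := by
    have : 0 < finrank ℚ M := finrank_pos
    exact_mod_cast this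
  set B : ℝ := (C1 * N) ^ ((1 : ℝ) / (D : ℝ)) with hB
  have hBpos : 0 < B := Real.rpow_pos_of_pos (mul_pos hC0 hN) _
  have hwpos : ∀ w : InfinitePlace M, 0 < w (x : M) := by
    intro w
    rw [InfinitePlace.pos_iff]
    exact fun h => hx (by exact_mod_cast h)
  set f : InfinitePlace M → ℝ≥0 := fun w => ⟨B / w (x : M), (div_pos hBpos (hwpos w)).le⟩ with hf
  have hprod : ∏ w, (f w : ℝ) ^ (mult w) = C1 := by
    have e1 : ∀ w, (f w : ℝ) ^ (mult w) = B ^ (mult w) / w (x : M) ^ (mult w) := by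
      intro w
      show (B / w (x : M)) ^ (mult w) = _
      rw [div_pow]
    rw [Finset.prod_congr rfl fun w _ => e1 w, Finset.prod_div_distrib, prod_places,
      Finset.prod_pow_eq_pow_sum, sum_mult_eq, ← hD, hB, ← Real.rpow_natCast,
      ← Real.rpow_mul (mul_pos hC0 hN).le, one_div, inv_mul_cancel₀ hDpos.ne', Real.rpow_one]
    rw [← hNdef]
    field_simp
  obtain ⟨β, hβ0, hβ⟩ := mink M f (by rw [hprod]; exact hC1)
  refine ⟨β, hβ0, ?_, ?_⟩
  · rw [← prod_places, ← hprod]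
    apply Finset.prod_le_prod
    · intro w _
      exact pow_nonneg (apply_nonneg _ _) _
    · intro w _
      exact pow_le_pow_left₀ (apply_nonneg _ _) (hβ w).le _
  · intro w
    have h := hβ w
    have h2 : w ((β : M)) < B / w (x : M) := h
    rw [lt_div_iff₀ (hwpos w)] at h2
    have h3 : w ((β * x : 𝓞 M) : M) = w (β : M) * w (x : M) := by
      rw [← map_mul]; congr 1
    rw [h3]
    exact h2

/-- the real number attached to an embedding -/
noncomputable def tt {M : Type} [Field M] (φ : M →+* ℂ) (z : M) : ℝ := (φ z).re + (φ z).im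

theorem tt_sub {M : Type} [Field M] (φ : M →+* ℂ) (z z' : M) :
    tt φ (z - z') = tt φ z - tt φ z' := by
  unfold tt
  rw [map_sub, Complex.sub_re, Complex.sub_im]
  ring

theorem tt_lt {M : Type} [Field M] (φ : M →+* ℂ) (z : M) (B : ℝ) (h : ‖φ z‖ < B) :
    |tt φ z| < Real.sqrt 2 * B := by
  have h0 : 0 ≤ ‖φ z‖ := norm_nonneg _
  have hB : 0 < B := lt_of_le_of_lt h0 h
  have h1 : (tt φ z) ^ 2 < (Real.sqrt 2 * B) ^ 2 := by
    have h2 : ‖φ z‖ ^ 2 = (φ z).re ^ 2 + (φ z).im ^ 2 := by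
      rw [Complex.sq_norm, Complex.normSq_apply]; ring
    have h3 : ‖φ z‖ ^ 2 < B ^ 2 := pow_lt_pow_left₀ h h0 (by norm_num)
    rw [mul_pow, Real.sq_sqrt (by norm_num)]
    unfold tt
    nlinarith [sq_nonneg ((φ z).re - (φ z).im)]
  exact abs_lt_of_sq_lt_sq h1 (by positivity)

theorem norm_le_of_tt {M : Type} [Field M] (z : M) (δ : ℝ) (hδ : 0 ≤ δ)
    (h : ∀ φ : M →+* ℂ, |tt φ z| ≤ δ) (φ : M →+* ℂ) : ‖φ z‖ ≤ δ := by
  have h1 := h φ
  have h2 := h (ComplexEmbedding.conjugate φ)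
  have h3 : tt (ComplexEmbedding.conjugate φ) z = (φ z).re - (φ z).im := by
    unfold tt
    rw [ComplexEmbedding.conjugate_coe_eq, Complex.conj_re, Complex.conj_im]
    ring
  rw [h3] at h2
  have h4 : ‖φ z‖ ^ 2 ≤ δ ^ 2 := by
    rw [Complex.sq_norm, Complex.normSq_apply]
    unfold tt at h1
    have h5 := sq_le_sq' (abs_le.mp h1).1 (abs_le.mp h1).2
    have h6 := sq_le_sq' (abs_le.mp h2).1 (abs_le.mp h2).2
    nlinarith
  exact le_of_sq_le_sq h4 hδ

theorem princUnif : Pool.Agent.TH444.ML.PrincUnif := by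
  classical
  intro D
  refine ⟨2 ^ (3 * D + 1), ?_, ?_⟩
  · exact one_le_pow₀ (by norm_num)
  intro M _ _ hD 𝔟 h𝔟 Y hY
  set d : ℝ := ((|discr M| : ℤ) : ℝ) with hd
  have hd1 : 1 ≤ d := by
    rw [hd]
    have h := discr_ne_zero M
    have : (1 : ℤ) ≤ |discr M| := Int.one_le_abs h
    exact_mod_cast this
  have hsq : d ^ (1 / 2 : ℝ) = Real.sqrt d := (Real.sqrt_eq_rpow d).symm
  rw [hsq]
  have hsd1 : 1 ≤ Real.sqrt d := Real.one_le_sqrt.mpr hd1
  have hDpos : 0 < D := by rw [← hD]; exact finrank_pos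
  have hDR : (0 : ℝ) < D := by exact_mod_cast hDpos
  set C1 : ℝ := 2 ^ (D + 1) * Real.sqrt d with hC1
  have hC1lt : 2 ^ (finrank ℚ M) * Real.sqrt ((|discr M| : ℤ) : ℝ) < C1 := by
    rw [hD, hC1, ← hd, pow_succ]
    have : (0 : ℝ) < 2 ^ D * Real.sqrt d := by positivity
    linarith
  have hC1one : 1 ≤ C1 := by
    rw [hC1]
    have : (1 : ℝ) ≤ 2 ^ (D + 1) := one_le_pow₀ (by norm_num)
    nlinarith
  set N𝔟 : ℝ := (Ideal.absNorm 𝔟 : ℝ) with hN𝔟
  have hN𝔟pos : 0 < N𝔟 := by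
    rw [hN𝔟]
    have : Ideal.absNorm 𝔟 ≠ 0 := by
      rw [Ne, Ideal.absNorm_eq_zero_iff]; exact h𝔟
    exact_mod_cast Nat.pos_of_ne_zero this
  set B : ℝ := (C1 * (N𝔟 * Y)) ^ ((1 : ℝ) / (D : ℝ)) with hB
  have hBpos : 0 < B := Real.rpow_pos_of_pos (by positivity) _
  set A : ℝ := (C1 * Y) ^ ((1 : ℝ) / (D : ℝ)) with hA
  have hCY : 1 ≤ C1 * Y := by nlinarith
  have hA1 : 1 ≤ A := Real.one_le_rpow hCY (by positivity)
  have hAD : A ^ D = C1 * Y := by
    rw [hA, ← Real.rpow_natCast, ← Real.rpow_mul (by linarith), one_div,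
      inv_mul_cancel₀ hDR.ne', Real.rpow_one]
  have hBD : B ^ D = C1 * (N𝔟 * Y) := by
    rw [hB, ← Real.rpow_natCast, ← Real.rpow_mul (by positivity), one_div,
      inv_mul_cancel₀ hDR.ne', Real.rpow_one]
  set m : ℕ := ⌊2 * Real.sqrt 2 * A⌋₊ + 1 with hm
  have hs2 : Real.sqrt 2 < 3 / 2 := by
    rw [Real.sqrt_lt' (by norm_num)]; norm_num
  have hs2' : 0 < Real.sqrt 2 := by positivity
  have hm1 : 2 * Real.sqrt 2 * A < m := by
    rw [hm]; push_cast; exact Nat.lt_floor_add_one _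
  have hm2 : (m : ℝ) ≤ 4 * A := by
    rw [hm]; push_cast
    have := Nat.floor_le (show 0 ≤ 2 * Real.sqrt 2 * A by positivity)
    nlinarith
  have hmpos : (0 : ℝ) < m := lt_trans (by positivity) hm1
  have hmpos' : 0 < m := by exact_mod_cast hmpos
  set δ : ℝ := 2 * Real.sqrt 2 * B / m with hδ
  have hδpos : 0 < δ := by positivity
  have hδD : δ ^ D < N𝔟 := by
    have e1 : δ ^ D = (2 * Real.sqrt 2 * A) ^ D / m ^ D * N𝔟 := by
      rw [hδ, div_pow, mul_pow (2 * Real.sqrt 2) B, hBD, mul_pow (2 * Real.sqrt 2) A, hAD]; ring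
    rw [e1]
    have h1 : (2 * Real.sqrt 2 * A) ^ D / (m : ℝ) ^ D < 1 := by
      rw [div_lt_one (by positivity)]
      exact pow_lt_pow_left₀ hm1 (by positivity) hDpos.ne'
    calc (2 * Real.sqrt 2 * A) ^ D / (m : ℝ) ^ D * N𝔟 < 1 * N𝔟 :=
          mul_lt_mul_of_pos_right h1 hN𝔟pos
      _ = N𝔟 := one_mul _
  -- the set and the choice of the generators
  set S : Set (Ideal (𝓞 M)) := {I : Ideal (𝓞 M) | I ≠ ⊥ ∧ 𝔟 ∣ I ∧ (∃ x, I = Ideal.span {x}) ∧
        (Ideal.absNorm I : ℝ) ≤ N𝔟 * Y} with hS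
  set T : Set (Ideal (𝓞 M)) := {I : Ideal (𝓞 M) | I ≠ ⊥ ∧
          (Ideal.absNorm I : ℝ) ≤ 2 ^ (3 * D + 1) * Real.sqrt d} with hT
  have hTfin : T.Finite := by
    refine (Ideal.finite_setOfPred_absNorm_le (S := 𝓞 M) ⌊2 ^ (3 * D + 1) * Real.sqrt d⌋₊).subset ?_
    intro I hI
    exact Nat.le_floor hI.2
  have hch : ∀ I : Ideal (𝓞 M), ∃ q : 𝓞 M × 𝓞 M, I ∈ S → q.1 ≠ 0 ∧ q.2 ≠ 0 ∧
      I = Ideal.span {q.1} ∧ (Ideal.absNorm (Ideal.span {q.2}) : ℝ) ≤ C1 ∧
      ∀ w : InfinitePlace M, w ((q.2 * q.1 : 𝓞 M) : M) < B := by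
    intro I
    by_cases hI : I ∈ S
    · obtain ⟨h0, hdv, ⟨x, hx⟩, hN⟩ := hI
      have hx0 : x ≠ 0 := by
        rintro rfl
        apply h0
        rw [hx]; simp
      obtain ⟨β, hβ0, hβN, hβ⟩ := balance M C1 hC1lt x hx0
      refine ⟨(x, β), fun _ => ⟨hx0, hβ0, hx, hβN, fun w => lt_of_lt_of_le (hβ w) ?_⟩⟩
      rw [hD, hB]
      apply Real.rpow_le_rpow (by positivity) _ (by positivity)
      rw [hx] at hN
      exact mul_le_mul_of_nonneg_left hN (by linarith)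
    · exact ⟨(0, 0), fun h => absurd h hI⟩
  choose q hq using hch
  set z : Ideal (𝓞 M) → 𝓞 M := fun I => (q I).2 * (q I).1 with hz
  have hrange : ∀ I ∈ S, ∀ φ : M →+* ℂ, 0 ≤ (tt φ (z I : M) + Real.sqrt 2 * B) / δ ∧
      (tt φ (z I : M) + Real.sqrt 2 * B) / δ < m := by
    intro I hI φ
    have h1 : ‖φ (z I : M)‖ < B := by
      have := (hq I hI).2.2.2.2 (InfinitePlace.mk φ)
      rwa [InfinitePlace.apply] at this
    have h2 := abs_lt.mp (tt_lt φ _ B h1)
    constructor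
    · apply div_nonneg _ hδpos.le
      linarith [h2.1]
    · rw [div_lt_iff₀ hδpos]
      have : (m : ℝ) * δ = 2 * Real.sqrt 2 * B := by
        rw [hδ]; field_simp
      rw [this]
      linarith [h2.2]
  set g : Ideal (𝓞 M) → ((M →+* ℂ) → Fin m) × Ideal (𝓞 M) := fun I =>
    (fun φ => ⟨⌊(tt φ (z I : M) + Real.sqrt 2 * B) / δ⌋₊ % m, Nat.mod_lt _ hmpos'⟩,
      Ideal.span {(q I).2}) with hg
  have hmaps : ∀ I ∈ S, g I ∈ (Set.univ : Set ((M →+* ℂ) → Fin m)) ×ˢ T := by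
    intro I hI
    refine Set.mk_mem_prod (Set.mem_univ _) ⟨?_, ?_⟩
    · intro h
      exact (hq I hI).2.1 (Ideal.span_singleton_eq_bot.mp h)
    · refine (hq I hI).2.2.2.1.trans ?_
      rw [hC1]
      apply mul_le_mul_of_nonneg_right _ (by positivity)
      exact pow_le_pow_right₀ (by norm_num) (by omega)
  have hinj : Set.InjOn g S := by
    intro I hI J hJ hIJ
    have h1 : ∀ φ : M →+* ℂ, |tt φ (((z I - z J : 𝓞 M)) : M)| ≤ δ := by
      intro φ
      have h2 := congrArg (fun p => (p.1 φ : Fin m).val) hIJ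
      simp only [hg] at h2
      obtain ⟨a1, a2⟩ := hrange I hI φ
      obtain ⟨b1, b2⟩ := hrange J hJ φ
      rw [Nat.mod_eq_of_lt ((Nat.floor_lt a1).mpr a2), Nat.mod_eq_of_lt ((Nat.floor_lt b1).mpr b2)]
        at h2
      have c1 := Nat.floor_le a1
      have c2 := Nat.lt_floor_add_one ((tt φ (z I : M) + Real.sqrt 2 * B) / δ)
      have c3 := Nat.floor_le b1
      have c4 := Nat.lt_floor_add_one ((tt φ (z J : M) + Real.sqrt 2 * B) / δ)
      rw [h2] at c1 c2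
      have e : tt φ (((z I - z J : 𝓞 M)) : M) = tt φ (z I : M) - tt φ (z J : M) := by
        rw [← tt_sub]; congr 1
      rw [e]
      have c5 : |(tt φ (z I : M) + Real.sqrt 2 * B) / δ - (tt φ (z J : M) + Real.sqrt 2 * B) / δ|
          ≤ 1 := by
        rw [abs_le]; constructor <;> linarith
      rw [← sub_div, abs_div, abs_of_pos hδpos, div_le_one hδpos] at c5
      have e2 : tt φ (z I : M) + Real.sqrt 2 * B - (tt φ (z J : M) + Real.sqrt 2 * B) =
          tt φ (z I : M) - tt φ (z J : M) := by ring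
      rwa [e2] at c5
    have hz' : z I = z J := by
      by_contra hne
      have hne0 : z I - z J ≠ 0 := sub_ne_zero.mpr hne
      have h3 : (Ideal.absNorm (Ideal.span {z I - z J}) : ℝ) ≤ δ ^ D := by
        rw [← prod_places, ← hD, ← sum_mult_eq, ← Finset.prod_pow_eq_pow_sum]
        apply Finset.prod_le_prod
        · intro w _; exact pow_nonneg (apply_nonneg _ _) _
        · intro w _
          apply pow_le_pow_left₀ (apply_nonneg _ _)
          rw [← InfinitePlace.norm_embedding_eq]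
          exact norm_le_of_tt _ δ hδpos.le h1 _
      have hmem : ∀ I ∈ S, z I ∈ 𝔟 := by
        intro I hI
        have h4 : (q I).1 ∈ 𝔟 := by
          have h5 : I ≤ 𝔟 := Ideal.dvd_iff_le.mp hI.2.1
          have h6 := (hq I hI).2.2.1
          have h7 : (q I).1 ∈ Ideal.span {(q I).1} := Ideal.mem_span_singleton_self _
          rw [← h6] at h7
          exact h5 h7
        exact Ideal.mul_mem_left _ _ h4
      have h5 : Ideal.absNorm 𝔟 ∣ Ideal.absNorm (Ideal.span {z I - z J}) := by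
        apply Ideal.absNorm_dvd_absNorm_of_le
        rw [Ideal.span_singleton_le_iff_mem]
        exact 𝔟.sub_mem (hmem I hI) (hmem J hJ)
      have h6 : 0 < (Ideal.absNorm (Ideal.span {z I - z J}) : ℝ) := absNorm_pos' M hne0
      have h7 : Ideal.absNorm 𝔟 ≤ Ideal.absNorm (Ideal.span {z I - z J}) :=
        Nat.le_of_dvd (by exact_mod_cast h6) h5
      have h8 : N𝔟 ≤ (Ideal.absNorm (Ideal.span {z I - z J}) : ℝ) := by
        rw [hN𝔟]; exact_mod_cast h7
      linarith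
    have hsp : Ideal.span {(q I).2} = Ideal.span {(q J).2} := congrArg Prod.snd hIJ
    have e1 : Ideal.span {(q I).2} * Ideal.span {(q I).1} =
        Ideal.span {(q I).2} * Ideal.span {(q J).1} := by
      rw [Ideal.span_singleton_mul_span_singleton]
      show Ideal.span {z I} = _
      rw [hz', hsp, Ideal.span_singleton_mul_span_singleton]
    have hne : Ideal.span {(q I).2} ≠ 0 := by
      intro h
      exact (hq I hI).2.1 (Ideal.span_singleton_eq_bot.mp h)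
    have e2 := mul_left_cancel₀ hne e1
    rw [(hq I hI).2.2.1, (hq J hJ).2.2.1, e2]
  have hcard : S.ncard ≤ ((Set.univ : Set ((M →+* ℂ) → Fin m)) ×ˢ T).ncard :=
    Set.ncard_le_ncard_of_injOn g hmaps hinj (Set.finite_univ.prod hTfin)
  rw [Set.ncard_prod, Set.ncard_univ, Nat.card_eq_fintype_card, Fintype.card_fun, Fintype.card_fin,
    Embeddings.card, hD] at hcard
  have hmD : (m : ℝ) ^ D ≤ 2 ^ (3 * D + 1) * Real.sqrt d * Y := by
    calc (m : ℝ) ^ D ≤ (4 * A) ^ D := pow_le_pow_left₀ hmpos.le hm2 D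
      _ = 4 ^ D * (C1 * Y) := by rw [mul_pow, hAD]
      _ = 2 ^ (3 * D + 1) * Real.sqrt d * Y := by
          rw [hC1]
          have : (4 : ℝ) ^ D = 2 ^ (2 * D) := by
            rw [pow_mul]; norm_num
          rw [this]
          ring
  calc (S.ncard : ℝ) ≤ ((m ^ D * T.ncard : ℕ) : ℝ) := by exact_mod_cast hcard
    _ = (m : ℝ) ^ D * (T.ncard : ℝ) := by push_cast; ring
    _ ≤ 2 ^ (3 * D + 1) * Real.sqrt d * Y * (T.ncard : ℝ) :=
        mul_le_mul_of_nonneg_right hmD (Nat.cast_nonneg _)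

end Pool.Agent.TH55.J3092
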