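import Pool.Agent.TH55.J122h

/-!
# KG-H: positivity of `Phi` on rotation invariant Kähler forms
-/

set_option autoImplicit false

open scoped Manifold ContDiff Topology ComplexConjugate MatrixGroups UpperHalfPlane Matrix
open MeasureTheory Set Filter

namespace Pool.Agent.TH55.J122

open Pool.Agent.TH598.KG
open Pool.Agent.W549.CY (Cn dz dzbar HermitianMetric chernRicci chernScalar)
open Pool.Agent.W711.KC (jj nn jj_ne im_mob det_eq)

section cut

variable {Γ : Subgroup SL(2, ℝ)} {φ : ℂ → ℝ} (hφ : Cutoff Γ φ)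
include hφ

theorem integrable_phiR {F : ℂ → ℝ} (hF : ContinuousOn F {z | 0 < z.im}) :
    Integrable fun z => φ z * F z := by
  have h := (integrable_phi hφ (F := fun z => (F z : ℂ))
    (Complex.continuous_ofReal.comp_continuousOn hF)).re
  refine h.congr (Filter.Eventually.of_forall fun z => ?_)
  simp

theorem phi_mono {F G : ℂ → ℝ} (hF : ContinuousOn F {z | 0 < z.im})
    (hG : ContinuousOn G {z | 0 < z.im}) (hle : ∀ z ∈ tsupport φ, F z ≤ G z) :
    ∫ z, φ z * F z ≤ ∫ z, φ z * G z := by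
  refine integral_mono (integrable_phiR hφ hF) (integrable_phiR hφ hG) fun z => ?_
  by_cases hz : z ∈ tsupport φ
  · exact mul_le_mul_of_nonneg_left (hle z hz) (hφ.nonneg z)
  · simp [phi_zero hφ hz]

theorem exists_phi_pos : ∃ z, 0 < φ z := by
  by_contra hcon
  push Not at hcon
  have h0 : ∀ z, φ z = 0 := fun z => le_antisymm (hcon z) (hφ.nonneg z)
  have := hφ.sum UpperHalfPlane.I
  simp [h0] at this

/-- weight `1 / (4 y²)` -/
theorem V_pos : 0 < ∫ z, φ z * (1 / (4 * z.im ^ 2)) := by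
  obtain ⟨z0, hz0⟩ := exists_phi_pos hφ
  have hcont : ContinuousOn (fun z : ℂ => 1 / (4 * z.im ^ 2)) {z | 0 < z.im} := by
    refine continuousOn_const.div ?_ ?_
    · exact (continuous_const.mul (Complex.continuous_im.pow 2)).continuousOn
    · intro z hz
      have : 0 < z.im := hz
      positivity
  rw [integral_pos_iff_support_of_nonneg_ae]
  · have ho : IsOpen {z : ℂ | 0 < φ z} := isOpen_lt continuous_const hφ.smooth.continuous
    refine lt_of_lt_of_le (ho.measure_pos volume ⟨z0, hz0⟩) (measure_mono ?_)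
    intro z hz
    have hz' : 0 < φ z := hz
    have hzi : 0 < z.im := by
      by_contra hn
      rw [phi_zero' hφ hn] at hz'
      exact lt_irrefl _ hz'
    have : 0 < φ z * (1 / (4 * z.im ^ 2)) := by positivity
    exact this.ne'
  · refine Filter.Eventually.of_forall fun z => ?_
    have := hφ.nonneg z
    show 0 ≤ φ z * (1 / (4 * z.im ^ 2))
    positivity
  · exact integrable_phiR hφ hcont

theorem wt_cont : ContinuousOn (fun z : ℂ => 1 / (4 * z.im ^ 2)) {z | 0 < z.im} := by
  refine continuousOn_const.div ?_ ?_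
  · exact (continuous_const.mul (Complex.continuous_im.pow 2)).continuousOn
  · intro z hz
    have : 0 < z.im := hz
    positivity

end cut

theorem nunub_re {z : ℂ} {t : ℝ} (hz : 0 < z.im) :
    nu (z, t) * nub (z, t) = ((1 / (4 * z.im ^ 2) : ℝ) : ℂ) := by
  rw [nu_nub (q := (z, t)) hz]; push_cast; rfl

end Pool.Agent.TH55.J122

namespace Pool.Agent.TH598.KG

open Pool.Agent.W549.CY (Cn dz dzbar HermitianMetric chernRicci chernScalar)
open Pool.Agent.W711.KC (jj nn)
open Pool.Agent.TH55.J122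

/-- For a rotation invariant closed positive form the functional `Phi` is positive. `hBL` is Stokes'
theorem on the quotient curve. -/
theorem phi_pos_of_rotInv {Γ : Subgroup SL(2, ℝ)} {φ : ℂ → ℝ} (hφ : Cutoff Γ φ)
    (hBL : ∀ β : ℂ → ℂ, ContinuousOn β {z | 0 < z.im} →
      (∀ g ∈ Γ, ∀ z : ℂ, 0 < z.im → β (nn g z / jj g z) = conj (jj g z) ^ 2 * β z) →
      ∫ z in {z : ℂ | 0 < z.im}, β z * d1 (fun w => (φ w : ℂ)) z = 0)
    {a : Cn 3 → M3} {C : ℝ} (ha : IsForm Γ a C) (hrot : RotInv a)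
    (hpos : ∀ p ∈ UU, ∀ v : Cn 3, v ≠ 0 → 0 < (hf (a p) v).re) :
    0 < (Phi φ a a).re := by
  have hc1 := ha.c1
  have hherm := ha.herm
  have hcl := ha.closed
  have he := ha.equi
  have hb := ha.bdd
  have hC : 0 ≤ C := C_nonneg hrot hb
  -- continuity of slices
  have cB : ∀ T : ℝ, ContinuousOn (fun z => (BB a (z, T)).re) {z : ℂ | 0 < z.im} := fun T =>
    Complex.continuous_re.comp_continuousOn (slice_cont (BB_contDiffOn hc1).continuousOn T)
  have cC : ∀ T : ℝ, ContinuousOn (fun z => (CC a (z, T)).re) {z : ℂ | 0 < z.im} := fun T =>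
    Complex.continuous_re.comp_continuousOn (slice_cont (CC_contDiffOn hc1).continuousOn T)
  have cw := wt_cont hφ
  -- the real integrals
  set V : ℝ := ∫ z, φ z * (1 / (4 * z.im ^ 2)) with hV
  have hVpos : 0 < V := V_pos hφ
  set X : ℝ → ℝ := fun T => ∫ z, φ z * ((BB a (z, T)).re * (CC a (z, T)).re) with hX
  set Y : ℝ → ℝ := fun T => ∫ z, φ z * (1 / (4 * z.im ^ 2) * (BB a (z, T)).re ^ 2) with hY
  set cb : ℝ → ℝ := fun T => ∫ z, φ z * (CC a (z, T)).re with hcb
  set lb : ℝ → ℝ := fun T => ∫ z, φ z * (1 / (4 * z.im ^ 2) * (BB a (z, T)).re) with hlb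
  have iX : ∀ T, Integrable fun z => φ z * ((BB a (z, T)).re * (CC a (z, T)).re) := fun T =>
    integrable_phiR hφ ((cB T).mul (cC T))
  have iY : ∀ T, Integrable fun z => φ z * (1 / (4 * z.im ^ 2) * (BB a (z, T)).re ^ 2) := fun T =>
    integrable_phiR hφ (cw.mul ((cB T).pow 2))
  have icb : ∀ T, Integrable fun z => φ z * (CC a (z, T)).re := fun T =>
    integrable_phiR hφ (cC T)
  have ilb : ∀ T, Integrable fun z => φ z * (1 / (4 * z.im ^ 2) * (BB a (z, T)).re) := fun T =>
    integrable_phiR hφ (cw.mul (cB T))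
  -- `FF` and `HH` in real terms
  have eFF : ∀ T, Integrable (fun z => (φ z : ℂ) * FF a (z, T)) ∧
      ∫ z, (φ z : ℂ) * FF a (z, T) = ((cb T - lb T : ℝ) : ℂ) := by
    intro T
    refine ⟨integrable_phi hφ (slice_cont (FF_contDiffOn hc1).continuousOn T), ?_⟩
    have e1 : (fun z => (φ z : ℂ) * FF a (z, T)) = fun z => ((φ z * (CC a (z, T)).re
        - φ z * (1 / (4 * z.im ^ 2) * (BB a (z, T)).re) : ℝ) : ℂ) := by
      funext z
      by_cases hz : 0 < z.im
      · simp only [FF]
        rw [nunub_re hz, re_of_conj (conj_BB hherm (q := (z, T)) hz),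
          re_of_conj (conj_CC hherm (q := (z, T)) hz)]
        push_cast
        simp only [Complex.ofReal_re]
        ring
      · rw [phi_zero' hφ hz]; simp
    rw [e1, integral_complex_ofReal, integral_sub (icb T) (ilb T)]
  have eHH : ∀ T, Integrable (fun z => (φ z : ℂ) * HH a (z, T)) ∧
      ∫ z, (φ z : ℂ) * HH a (z, T) = ((6 * F1 T * X T - 4 * Y T : ℝ) : ℂ) := by
    intro T
    refine ⟨integrable_phi hφ (slice_cont (HH_contDiffOn hc1).continuousOn T), ?_⟩
    have e1 : (fun z => (φ z : ℂ) * HH a (z, T)) = fun z =>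
        ((6 * F1 T * (φ z * ((BB a (z, T)).re * (CC a (z, T)).re))
        - 4 * (φ z * (1 / (4 * z.im ^ 2) * (BB a (z, T)).re ^ 2)) : ℝ) : ℂ) := by
      funext z
      by_cases hz : 0 < z.im
      · simp only [HH]
        rw [nunub_re hz, re_of_conj (conj_BB hherm (q := (z, T)) hz),
          re_of_conj (conj_CC hherm (q := (z, T)) hz)]
        push_cast
        simp only [Complex.ofReal_re]
        ring
      · rw [phi_zero' hφ hz]; simp
    rw [e1, integral_complex_ofReal, integral_sub ((iX T).const_mul _) ((iY T).const_mul _),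
      integral_const_mul, integral_const_mul]
  -- the vanishing
  have v1 : ∀ t, ∫ z, (φ z : ℂ) * Dz (EhB a) (z, t) = 0 := fun t =>
    van hφ hBL (EhB_contDiffOn hc1) (fun g hg q hq => EhB_equi hrot he hherm hg hq) t
  have hBE : ContDiffOn ℝ 1 (fun q => BB a q * EhB a q) Om :=
    (BB_contDiffOn hc1).mul (EhB_contDiffOn hc1)
  have v2 : ∀ t, ∫ z, (φ z : ℂ) * Dz (fun q => BB a q * EhB a q) (z, t) = 0 := fun t =>
    van hφ hBL hBE (fun g hg q hq => by
      show BB a (mq g q) * EhB a (mq g q) = conj (jj g q.1) ^ 2 * (BB a q * EhB a q)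
      rw [EhB_equi hrot he hherm hg hq, BB_equi hrot he hg hq]; ring) t
  -- chain 1
  have ch1 : ∀ S T : ℝ, S ≤ T → cb T - lb T = cb S - lb S := by
    intro S T hST
    have h1 := ftc_fub hφ (FF_contDiffOn hc1) hST
    have h2 : ∀ t : ℝ, ∫ z, (φ z : ℂ) * Dt (FF a) (z, t) = 0 := by
      intro t
      rw [← v1 t]
      congr 1
      funext z
      by_cases hz : 0 < z.im
      · rw [Dt_FF hrot hc1 hcl (q := (z, t)) hz]
      · rw [phi_zero' hφ hz]; simp
    simp only [h2, intervalIntegral.integral_zero] at h1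
    have h3 : ∫ z, (φ z : ℂ) * (FF a (z, T) - FF a (z, S))
        = ((cb T - lb T : ℝ) : ℂ) - ((cb S - lb S : ℝ) : ℂ) := by
      rw [← (eFF T).2, ← (eFF S).2, ← integral_sub (eFF T).1 (eFF S).1]
      congr 1
      funext z
      ring
    rw [h3] at h1
    have h4 : ((cb T - lb T : ℝ) : ℂ) = ((cb S - lb S : ℝ) : ℂ) := (sub_eq_zero.1 h1.symm)
    exact_mod_cast h4
  -- chain 2
  have ch2 : ∀ S T : ℝ, S ≤ T → ∫ t in S..T, ∫ z, (φ z : ℂ) * GG a (z, t)
      = ((6 * F1 T * X T - 4 * Y T : ℝ) : ℂ) - ((6 * F1 S * X S - 4 * Y S : ℝ) : ℂ) := by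
    intro S T hST
    have h1 := ftc_fub hφ (HH_contDiffOn hc1) hST
    have h2 : ∀ t : ℝ, ∫ z, (φ z : ℂ) * Dt (HH a) (z, t) = ∫ z, (φ z : ℂ) * GG a (z, t) := by
      intro t
      have e1 : (fun z => (φ z : ℂ) * Dt (HH a) (z, t)) = fun z => (φ z : ℂ) * GG a (z, t)
          + (6 * (F1 t : ℂ)) * ((φ z : ℂ) * Dz (fun q => BB a q * EhB a q) (z, t)) := by
        funext z
        by_cases hz : 0 < z.im
        · rw [Dt_HH hrot hc1 hcl (q := (z, t)) hz]; ring
        · rw [phi_zero' hφ hz]; simp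
      have i1 : Integrable fun z => (φ z : ℂ) * GG a (z, t) :=
        integrable_phi hφ (slice_cont (GG_cont hc1) t)
      have i2 : Integrable fun z => (φ z : ℂ) * Dz (fun q => BB a q * EhB a q) (z, t) :=
        integrable_phi hφ (slice_cont (Dz_continuousOn hBE) t)
      rw [e1, integral_add i1 (i2.const_mul _), integral_const_mul, v2 t, mul_zero, add_zero]
    simp only [h2] at h1
    rw [h1, ← (eHH T).2, ← (eHH S).2, ← integral_sub (eHH T).1 (eHH S).1]
    congr 1
    funext z
    ring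
  -- support
  obtain ⟨z0, hz0⟩ := exists_phi_pos hφ
  have hz0s : z0 ∈ tsupport φ := subset_tsupport _ hz0.ne'
  have hK : IsCompact (tsupport φ) := hφ.compact
  obtain ⟨zm, hzm, hmin⟩ := hK.exists_isMinOn ⟨z0, hz0s⟩ Complex.continuous_im.continuousOn
  have hm : 0 < zm.im := hφ.supp hzm
  have hmle : ∀ z ∈ tsupport φ, zm.im ≤ z.im := fun z hz => hmin hz
  obtain ⟨R, hR⟩ := hK.isBounded.exists_norm_le
  have hR0 : 0 ≤ R := (norm_nonneg _).trans (hR z0 hz0s)
  -- the limit
  obtain ⟨b, hb0, hblim⟩ := exists_lim hrot hc1 hcl hb hpos (z := z0) (hφ.supp hz0s)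
  set ep : ℝ → ℝ := fun T => 4 * (C / zm.im * Real.sqrt (F2 T)) * (2 * R)
    + |(BB a (z0, T)).re - b| with hep
  have hep0 : Tendsto ep atTop (𝓝 0) := by
    have h1 : Tendsto (fun T => 4 * (C / zm.im * Real.sqrt (F2 T)) * (2 * R)) atTop (𝓝 0) := by
      have h2 : Tendsto (fun T => Real.sqrt (F2 T)) atTop (𝓝 0) := by
        have := (Real.continuous_sqrt.tendsto 0).comp F2_tendsto
        rw [Real.sqrt_zero] at this
        exact this
      have := ((h2.const_mul (C / zm.im)).const_mul 4).mul_const (2 * R)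
      simpa using this
    have h3 : Tendsto (fun T => |(BB a (z0, T)).re - b|) atTop (𝓝 0) := by
      have := (hblim.sub_const b).abs
      simpa using this
    simpa using h1.add h3
  have hep_nn : ∀ T, 0 ≤ ep T := fun T => by
    have := F2_pos T
    simp only [hep]; positivity
  have hosc : ∀ T, ∀ z ∈ tsupport φ, |(BB a (z, T)).re - b| ≤ ep T := by
    intro T z hz
    have h1 := osc hrot hc1 hcl hherm hb hpos hm (hmle z hz) (hmle z0 hz0s) T
    have h2 : |(BB a (z, T)).re - (BB a (z0, T)).re| ≤ ‖BB a (z, T) - BB a (z0, T)‖ := by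
      rw [← Complex.sub_re]; exact Complex.abs_re_le_norm _
    have h3 : ‖z - z0‖ ≤ 2 * R := by
      refine (norm_sub_le _ _).trans ?_
      linarith [hR z hz, hR z0 hz0s]
    have h4 : 4 * (C / zm.im * Real.sqrt (F2 T)) * ‖z - z0‖
        ≤ 4 * (C / zm.im * Real.sqrt (F2 T)) * (2 * R) :=
      mul_le_mul_of_nonneg_left h3 (by positivity)
    have h5 := abs_sub_le (BB a (z, T)).re (BB a (z0, T)).re b
    simp only [hep]
    linarith
  -- pointwise facts on the support
  have pB : ∀ T, ∀ z ∈ tsupport φ, 0 < (BB a (z, T)).re := fun T z hz =>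
    BB_pos hrot hpos (q := (z, T)) (hφ.supp hz)
  have pC : ∀ T, ∀ z ∈ tsupport φ, 0 < (CC a (z, T)).re := fun T z hz =>
    CC_pos hrot hpos (q := (z, T)) (hφ.supp hz)
  have uB : ∀ T, ∀ z ∈ tsupport φ, (BB a (z, T)).re ≤ C * F1 T := fun T z hz =>
    (le_abs_self _).trans (BB_le hrot hb (q := (z, T)) (hφ.supp hz))
  have uC : ∀ T, ∀ z ∈ tsupport φ, (CC a (z, T)).re ≤ 2 * C * (1 / (4 * z.im ^ 2)) := by
    intro T z hz
    have hzi : 0 < z.im := hφ.supp hz
    refine (le_abs_self _).trans ((CC_le hrot hb (q := (z, T)) (hφ.supp hz)).trans ?_)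
    have h1 := (F1_lt T).le
    have h2 : (1 + F1 T) / (4 * z.im ^ 2) ≤ 2 / (4 * z.im ^ 2) := by
      apply div_le_div_of_nonneg_right _ (by positivity); linarith
    calc C * ((1 + F1 T) / (4 * z.im ^ 2)) ≤ C * (2 / (4 * z.im ^ 2)) :=
          mul_le_mul_of_nonneg_left h2 hC
      _ = 2 * C * (1 / (4 * z.im ^ 2)) := by ring
  have pw : ∀ z ∈ tsupport φ, 0 < 1 / (4 * z.im ^ 2) := fun z hz => by
    have hzi : 0 < z.im := hφ.supp hz
    positivity
  -- integral inequalities
  have Vc : ∀ c : ℝ, ∫ z, φ z * (c * (1 / (4 * z.im ^ 2))) = c * V := by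
    intro c
    rw [hV, ← integral_const_mul]
    congr 1
    funext z
    ring
  have q1 : ∀ T, (b - ep T) * V ≤ lb T := by
    intro T
    rw [← Vc]
    refine phi_mono hφ (continuousOn_const.mul cw) (cw.mul (cB T)) fun z hz => ?_
    rw [mul_comm]
    refine mul_le_mul_of_nonneg_left ?_ (pw z hz).le
    have := (abs_le.1 (hosc T z hz)).1
    linarith
  have q2 : ∀ T, lb T ≤ (C * F1 T) * V := by
    intro T
    rw [← Vc]
    refine phi_mono hφ (cw.mul (cB T)) (continuousOn_const.mul cw) fun z hz => ?_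
    rw [mul_comm]
    exact mul_le_mul_of_nonneg_right (uB T z hz) (pw z hz).le
  have q3 : ∀ T, 0 ≤ cb T := by
    intro T
    have := phi_mono hφ (F := fun _ => 0) continuousOn_const (cC T) fun z hz => (pC T z hz).le
    simpa using this
  have q4 : ∀ T, cb T ≤ 2 * C * V := by
    intro T
    rw [← Vc]
    exact phi_mono hφ (cC T) (continuousOn_const.mul cw) fun z hz => uC T z hz
  have q5 : ∀ T, (b - ep T) * cb T ≤ X T := by
    intro T
    have e : (b - ep T) * cb T = ∫ z, φ z * ((b - ep T) * (CC a (z, T)).re) := by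
      rw [hcb, ← integral_const_mul]
      congr 1
      funext z
      ring
    rw [e]
    refine phi_mono hφ (continuousOn_const.mul (cC T)) ((cB T).mul (cC T)) fun z hz => ?_
    refine mul_le_mul_of_nonneg_right ?_ (pC T z hz).le
    have := (abs_le.1 (hosc T z hz)).1
    linarith
  have q6 : ∀ T, X T ≤ (C * F1 T) * (2 * C * V) := by
    intro T
    have e : (C * F1 T) * (2 * C * V)
        = ∫ z, φ z * ((C * F1 T * (2 * C)) * (1 / (4 * z.im ^ 2))) := by
      rw [Vc]; ring
    rw [e]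
    refine phi_mono hφ ((cB T).mul (cC T)) (continuousOn_const.mul cw) fun z hz => ?_
    rw [mul_assoc]
    have := F1_pos T
    exact mul_le_mul (uB T z hz) (uC T z hz) (pC T z hz).le (by positivity)
  have q7 : ∀ T, Y T ≤ (b + ep T) ^ 2 * V := by
    intro T
    rw [← Vc]
    refine phi_mono hφ (cw.mul ((cB T).pow 2)) (continuousOn_const.mul cw) fun z hz => ?_
    rw [mul_comm]
    refine mul_le_mul_of_nonneg_right ?_ (pw z hz).le
    refine pow_le_pow_left₀ (pB T z hz).le ?_ 2
    have := (abs_le.1 (hosc T z hz)).2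
    linarith
  have q8 : ∀ T, 0 ≤ Y T := by
    intro T
    have := phi_mono hφ (F := fun _ => 0) continuousOn_const (cw.mul ((cB T).pow 2))
      fun z hz => mul_nonneg (pw z hz).le (sq_nonneg _)
    simp only [mul_zero, integral_zero] at this
    exact this
  -- lower bound of the truncated integral
  have low : ∀ T : ℝ, 0 ≤ T → 6 * F1 T * (b * ((b - ep T) * V - (C * F1 (-T)) * V)
      - ep T * (2 * C * V)) - 4 * ((b + ep T) ^ 2 * V) - 6 * F1 (-T) * (C * 1 * (2 * C * V))
      ≤ (∫ t in (-T)..T, ∫ z, (φ z : ℂ) * GG a (z, t)).re := by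
    intro T hT
    rw [ch2 (-T) T (by linarith), ← Complex.ofReal_sub, Complex.ofReal_re]
    have f1 := F1_pos T
    have f1' := F1_pos (-T)
    have f1'' := (F1_lt (-T)).le
    have s1 := ch1 (-T) T (by linarith)
    have s2 : (b - ep T) * V - (C * F1 (-T)) * V ≤ cb T := by
      have := q1 T
      have := q2 (-T)
      have := q3 (-T)
      linarith
    have s3 : b * ((b - ep T) * V - (C * F1 (-T)) * V) - ep T * (2 * C * V) ≤ X T := by
      have t1 := q5 T
      have t2 := mul_le_mul_of_nonneg_left s2 hb0.le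
      have t3 := mul_le_mul_of_nonneg_left (q4 T) (hep_nn T)
      nlinarith
    have s4 := mul_le_mul_of_nonneg_left s3 (by positivity : 0 ≤ 6 * F1 T)
    have s5 : X (-T) ≤ C * 1 * (2 * C * V) := by
      refine (q6 (-T)).trans ?_
      exact mul_le_mul_of_nonneg_right (mul_le_mul_of_nonneg_left f1'' hC) (by positivity)
    have s6 := mul_le_mul_of_nonneg_left s5 (by positivity : 0 ≤ 6 * F1 (-T))
    have s7 := q7 T
    have s8 := q8 (-T)
    linarith
  -- limit
  have hGI := phiGG_integrable hφ hrot hc1 hherm hb hpos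
  have hgI : Integrable fun t : ℝ => ∫ z, (φ z : ℂ) * GG a (z, t) := hGI.integral_prod_right
  have lim1 : Tendsto (fun T : ℝ => (∫ t in (-T)..T, ∫ z, (φ z : ℂ) * GG a (z, t)).re) atTop
      (𝓝 (∫ t : ℝ, ∫ z, (φ z : ℂ) * GG a (z, t)).re) :=
    (Complex.continuous_re.tendsto _).comp
      (intervalIntegral_tendsto_integral hgI tendsto_neg_atTop_atBot tendsto_id)
  have lim2 : Tendsto (fun T : ℝ => 6 * F1 T * (b * ((b - ep T) * V - (C * F1 (-T)) * V)
      - ep T * (2 * C * V)) - 4 * ((b + ep T) ^ 2 * V) - 6 * F1 (-T) * (C * 1 * (2 * C * V)))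
      atTop (𝓝 (6 * 1 * (b * ((b - 0) * V - (C * 0) * V)
      - 0 * (2 * C * V)) - 4 * ((b + 0) ^ 2 * V) - 6 * 0 * (C * 1 * (2 * C * V)))) := by
    refine (((F1_tendsto.const_mul 6).mul ((Tendsto.const_mul b
      (((hep0.const_sub b).mul_const V).sub ((F1_tendsto_neg.const_mul C).mul_const V))).sub
      (hep0.mul_const _))).sub ((((hep0.const_add b).pow 2).mul_const V).const_mul 4)).sub
      ((F1_tendsto_neg.const_mul 6).mul_const _)
  have key : 2 * b ^ 2 * V ≤ (∫ t : ℝ, ∫ z, (φ z : ℂ) * GG a (z, t)).re := by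
    have e : 6 * 1 * (b * ((b - 0) * V - (C * 0) * V)
      - 0 * (2 * C * V)) - 4 * ((b + 0) ^ 2 * V) - 6 * 0 * (C * 1 * (2 * C * V))
      = 2 * b ^ 2 * V := by ring
    rw [e] at lim2
    refine le_of_tendsto_of_tendsto lim2 lim1 ?_
    filter_upwards [eventually_ge_atTop 0] with T hT
    exact low T hT
  rw [Phi_eq hφ hrot hc1 hherm hb hpos, Complex.smul_re, smul_eq_mul]
  have hk := kap_pos
  have : 0 < 2 * b ^ 2 * V := by positivity
  have h2 : 0 < (∫ t : ℝ, ∫ z, (φ z : ℂ) * GG a (z, t)).re := lt_of_lt_of_le this key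
  positivity

end Pool.Agent.TH598.KG
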