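import Pool.Agent.TH598.KG.Base

/-!
# KG-H, part a: rotation invariant closed forms at the points `(z, (r, 0))`
-/

set_option autoImplicit false

open scoped Manifold ContDiff Topology ComplexConjugate MatrixGroups UpperHalfPlane Matrix
open MeasureTheory Set Filter

namespace Pool.Agent.TH55.J122

open Pool.Agent.TH598.KG
open Pool.Agent.W549.CY (Cn dz dzbar HermitianMetric chernRicci chernScalar)
open Pool.Agent.W711.KC (jj nn)

/-! ### sesquilinear forms -/

/-- Sesquilinear form. -/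
noncomputable def sf {n : ℕ} (A : Matrix (Fin n) (Fin n) ℂ) (v w : Cn n) : ℂ :=
  ∑ j, ∑ k, A j k * v j * conj (w k)

theorem hf_eq {n : ℕ} (A : Matrix (Fin n) (Fin n) ℂ) (v : Cn n) : hf A v = sf A v v := rfl

theorem sf_add_left {n : ℕ} (A : Matrix (Fin n) (Fin n) ℂ) (v v' w : Cn n) :
    sf A (v + v') w = sf A v w + sf A v' w := by
  simp only [sf, Pi.add_apply, mul_add, add_mul, Finset.sum_add_distrib]

theorem sf_add_right {n : ℕ} (A : Matrix (Fin n) (Fin n) ℂ) (v w w' : Cn n) :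
    sf A v (w + w') = sf A v w + sf A v w' := by
  simp only [sf, Pi.add_apply, map_add, mul_add, Finset.sum_add_distrib]

theorem sf_single {n : ℕ} (A : Matrix (Fin n) (Fin n) ℂ) (j k : Fin n) (x y : ℂ) :
    sf A (Pi.single j x) (Pi.single k y) = A j k * x * conj y := by
  simp only [sf]
  rw [Finset.sum_eq_single j, Finset.sum_eq_single k]
  · simp
  · intro b _ hb; simp [hb]
  · simp
  · intro b _ hb; simp [hb]
  · simp

theorem hf_ext {n : ℕ} {A B : Matrix (Fin n) (Fin n) ℂ} (h : ∀ v : Cn n, hf A v = hf B v) :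
    A = B := by
  have h' : ∀ v w : Cn n, sf A v w + sf A w v = sf B v w + sf B w v := by
    intro v w
    have h1 := h (v + w)
    simp only [hf_eq, sf_add_left, sf_add_right] at h1
    have h2 := h v
    have h3 := h w
    simp only [hf_eq] at h2 h3
    linear_combination h1 - h2 - h3
  ext j k
  have h1 := h' (Pi.single j 1) (Pi.single k 1)
  have h2 := h' (Pi.single j 1) (Pi.single k Complex.I)
  simp only [sf_single, map_one, mul_one, Complex.conj_I] at h1 h2
  have h3 : Complex.I * (A j k - B j k) = Complex.I * (A k j - B k j) := by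
    linear_combination -h2
  have h4 := mul_left_cancel₀ Complex.I_ne_zero h3
  linear_combination (1 / 2 : ℂ) * h1 + (1 / 2 : ℂ) * h4

theorem ru_eq (W : Matrix (Fin 2) (Fin 2) ℂ) (v : Cn 3) : ru W v = (RM W).mulVec v := by
  ext i
  fin_cases i <;> simp [ru, RM, Matrix.mulVec, dotProduct, Fin.sum_univ_three]

theorem hf_mul (U A : M3) (v : Cn 3) :
    hf (Uᵀ * A * U.map conj) v = hf A (U.mulVec v) := by
  simp only [hf, Matrix.mul_apply, Matrix.mulVec, dotProduct, Fin.sum_univ_three,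
    Matrix.transpose_apply, Matrix.map_apply, map_add, map_mul]
  ring

theorem RM_unitary {W : Matrix (Fin 2) (Fin 2) ℂ} (hW : W ∈ Matrix.unitaryGroup (Fin 2) ℂ) :
    (RM W).map conj * (RM W)ᵀ = 1 ∧ (RM W)ᵀ * (RM W).map conj = 1 := by
  have h1 : W * star W = 1 := Matrix.mem_unitaryGroup_iff.1 hW
  have h2 : star W * W = 1 := Matrix.mem_unitaryGroup_iff'.1 hW
  have e1 : ∀ i j, (W * star W) i j = (1 : Matrix (Fin 2) (Fin 2) ℂ) i j := fun i j => by rw [h1]
  have e2 : ∀ i j, (star W * W) i j = (1 : Matrix (Fin 2) (Fin 2) ℂ) i j := fun i j => by rw [h2]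
  have hA : (RM W).map conj * (RM W)ᵀ = 1 := by
    have a00 := e1 0 0
    have a01 := e1 0 1
    have a10 := e1 1 0
    have a11 := e1 1 1
    simp only [Matrix.mul_apply, Fin.sum_univ_two, Matrix.star_apply, RCLike.star_def,
      Matrix.one_apply_eq, Matrix.one_apply_ne (show (0 : Fin 2) ≠ 1 by decide),
      Matrix.one_apply_ne (show (1 : Fin 2) ≠ 0 by decide)] at a00 a01 a10 a11
    ext i j
    fin_cases i <;> fin_cases j <;>
      simp [RM, Matrix.mul_apply, Fin.sum_univ_three]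
    · linear_combination a00
    · linear_combination a10
    · linear_combination a01
    · linear_combination a11
  exact ⟨hA, mul_eq_one_comm.1 hA⟩

theorem RotInv.eq1 {a : Cn 3 → M3} (h : RotInv a) {W : Matrix (Fin 2) (Fin 2) ℂ}
    (hW : W ∈ Matrix.unitaryGroup (Fin 2) ℂ) {p : Cn 3} (hp : p ∈ UU) :
    a (ru W p) = (RM W).map conj * a p * (RM W)ᵀ := by
  have h1 : (RM W)ᵀ * a (ru W p) * (RM W).map conj = a p := by
    refine hf_ext fun v => ?_
    rw [hf_mul, ← ru_eq]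
    exact h W hW p hp v
  obtain ⟨u1, u2⟩ := RM_unitary hW
  calc a (ru W p) = ((RM W).map conj * (RM W)ᵀ) * a (ru W p) * ((RM W).map conj * (RM W)ᵀ) := by
        rw [u1, one_mul, mul_one]
    _ = (RM W).map conj * ((RM W)ᵀ * a (ru W p) * (RM W).map conj) * (RM W)ᵀ := by
        simp only [mul_assoc]
    _ = _ := by rw [h1]

/-- Components. -/
theorem RotInv.eq2 {a : Cn 3 → M3} (h : RotInv a) {W : Matrix (Fin 2) (Fin 2) ℂ}
    (hW : W ∈ Matrix.unitaryGroup (Fin 2) ℂ) {p : Cn 3} (hp : p ∈ UU) (j k : Fin 3) :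
    a (ru W p) j k = ∑ m, (∑ l, conj (RM W j l) * a p l m) * RM W k m := by
  rw [RotInv.eq1 h hW hp]
  simp only [Matrix.mul_apply, Matrix.transpose_apply, Matrix.map_apply]

/-! ### special unitary matrices -/

theorem mem_diag {w w' : ℂ} (hw : w * conj w = 1) (hw' : w' * conj w' = 1) :
    !![w, 0; 0, w'] ∈ Matrix.unitaryGroup (Fin 2) ℂ := by
  rw [Matrix.mem_unitaryGroup_iff]
  ext i j
  fin_cases i <;> fin_cases j <;> simp [Matrix.mul_apply, Fin.sum_univ_two, Matrix.star_apply, hw, hw']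

theorem mem_rot (x y : ℝ) (h : x ^ 2 + y ^ 2 = 1) :
    !![(x : ℂ), -(y : ℂ); (y : ℂ), (x : ℂ)] ∈ Matrix.unitaryGroup (Fin 2) ℂ := by
  have h' : (x : ℂ) ^ 2 + (y : ℂ) ^ 2 = 1 := by exact_mod_cast h
  rw [Matrix.mem_unitaryGroup_iff]
  ext i j
  fin_cases i <;> fin_cases j <;>
    simp [Matrix.mul_apply, Fin.sum_univ_two, Matrix.star_apply]
  · linear_combination h'
  · ring
  · ring
  · linear_combination h'

theorem mem_rot' (x y : ℝ) (h : x ^ 2 + y ^ 2 = 1) :
    !![(x : ℂ), Complex.I * y; Complex.I * y, (x : ℂ)] ∈ Matrix.unitaryGroup (Fin 2) ℂ := by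
  have h' : (x : ℂ) ^ 2 + (y : ℂ) ^ 2 = 1 := by exact_mod_cast h
  rw [Matrix.mem_unitaryGroup_iff]
  ext i j
  fin_cases i <;> fin_cases j <;>
    simp [Matrix.mul_apply, Fin.sum_univ_two, Matrix.star_apply]
  · linear_combination h' - (y : ℂ) ^ 2 * Complex.I_sq
  · ring
  · ring
  · linear_combination h' - (y : ℂ) ^ 2 * Complex.I_sq

/-- The base point. -/
noncomputable def pt (z : ℂ) (r : ℝ) : Cn 3 := ![z, (r : ℂ), 0]

theorem pt_mem {z : ℂ} (hz : 0 < z.im) (r : ℝ) : pt z r ∈ UU := hz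

section point

variable {a : Cn 3 → M3} (h : RotInv a) {z : ℂ} (hz : 0 < z.im) (r : ℝ)

include h hz

theorem off_diag : a (pt z r) 0 2 = 0 ∧ a (pt z r) 1 2 = 0 ∧ a (pt z r) 2 0 = 0 ∧
    a (pt z r) 2 1 = 0 := by
  have hW : !![(1 : ℂ), 0; 0, -1] ∈ Matrix.unitaryGroup (Fin 2) ℂ := mem_diag (by simp) (by simp)
  have hp : ru !![(1 : ℂ), 0; 0, -1] (pt z r) = pt z r := by
    ext i; fin_cases i <;> simp [ru, pt]
  have e := fun j k => RotInv.eq2 h hW (pt_mem hz r) j k
  rw [hp] at e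
  have e02 := e 0 2
  have e12 := e 1 2
  have e20 := e 2 0
  have e21 := e 2 1
  simp [RM, Fin.sum_univ_three] at e02 e12 e20 e21
  refine ⟨?_, ?_, ?_, ?_⟩
  · linear_combination (1 / 2 : ℂ) * e02
  · linear_combination (1 / 2 : ℂ) * e12
  · linear_combination (1 / 2 : ℂ) * e20
  · linear_combination (1 / 2 : ℂ) * e21

/-- Phase rotation of the first fibre coordinate. -/
theorem phase {w : ℂ} (hw : w * conj w = 1) :
    a ![z, w * r, 0] 0 0 = a (pt z r) 0 0 ∧ a ![z, w * r, 0] 1 1 = a (pt z r) 1 1 ∧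
      a ![z, w * r, 0] 2 2 = a (pt z r) 2 2 ∧ a ![z, w * r, 0] 0 1 = w * a (pt z r) 0 1 ∧
      a ![z, w * r, 0] 1 0 = conj w * a (pt z r) 1 0 := by
  have hW : !![w, 0; 0, 1] ∈ Matrix.unitaryGroup (Fin 2) ℂ := mem_diag hw (by simp)
  have hp : ru !![w, 0; 0, 1] (pt z r) = ![z, w * r, 0] := by
    ext i; fin_cases i <;> simp [ru, pt]
  have e := fun j k => RotInv.eq2 h hW (pt_mem hz r) j k
  rw [hp] at e
  refine ⟨?_, ?_, ?_, ?_, ?_⟩
  · rw [e]; simp [RM, Fin.sum_univ_three]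
  · rw [e]; simp [RM, Fin.sum_univ_three]
    linear_combination (a (pt z r) 1 1) * hw
  · rw [e]; simp [RM, Fin.sum_univ_three]
  · rw [e]; simp [RM, Fin.sum_univ_three]; ring
  · rw [e]; simp [RM, Fin.sum_univ_three]

theorem rot1 (x y : ℝ) (hxy : x ^ 2 + y ^ 2 = 1) :
    a ![z, x * r, y * r] 1 2 = y * x * (a (pt z r) 1 1 - a (pt z r) 2 2) ∧
      a ![z, x * r, y * r] 0 2 = y * a (pt z r) 0 1 := by
  have hW := mem_rot x y hxy
  have hp : ru !![(x : ℂ), -(y : ℂ); (y : ℂ), (x : ℂ)] (pt z r) = ![z, x * r, y * r] := by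
    ext i; fin_cases i <;> simp [ru, pt]
  have e := fun j k => RotInv.eq2 h hW (pt_mem hz r) j k
  rw [hp] at e
  obtain ⟨o1, o2, o3, o4⟩ := off_diag h hz r
  refine ⟨?_, ?_⟩
  · rw [e]; simp [RM, Fin.sum_univ_three, o2, o4]; ring
  · rw [e]; simp [RM, Fin.sum_univ_three, o1]; ring

theorem rot2 (x y : ℝ) (hxy : x ^ 2 + y ^ 2 = 1) :
    a ![z, x * r, Complex.I * y * r] 1 2
        = Complex.I * y * x * (a (pt z r) 1 1 - a (pt z r) 2 2) ∧
      a ![z, x * r, Complex.I * y * r] 0 2 = Complex.I * y * a (pt z r) 0 1 := by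
  have hW := mem_rot' x y hxy
  have hp : ru !![(x : ℂ), Complex.I * y; Complex.I * y, (x : ℂ)] (pt z r)
      = ![z, x * r, Complex.I * y * r] := by
    ext i; fin_cases i <;> simp [ru, pt]
  have e := fun j k => RotInv.eq2 h hW (pt_mem hz r) j k
  rw [hp] at e
  obtain ⟨o1, o2, o3, o4⟩ := off_diag h hz r
  refine ⟨?_, ?_⟩
  · rw [e]; simp [RM, Fin.sum_univ_three, o2, o4]; ring
  · rw [e]; simp [RM, Fin.sum_univ_three, o1]; ring

end point

/-! ### derivative relations -/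

theorem deriv_curve {f : Cn 3 → ℂ} {p v : Cn 3} {c : ℝ → Cn 3} {g : ℝ → ℂ} {g' : ℂ}
    (hf : DifferentiableAt ℝ f p) (hc : HasDerivAt c v 0) (hc0 : c 0 = p)
    (hg : HasDerivAt g g' 0) (hfg : ∀ t, f (c t) = g t) : fderiv ℝ f p v = g' := by
  have hf' : HasFDerivAt f (fderiv ℝ f p) (c 0) := by rw [hc0]; exact hf.hasFDerivAt
  have h1 : HasDerivAt (f ∘ c) (fderiv ℝ f p v) 0 := hf'.comp_hasDerivAt 0 hc
  have h2 : f ∘ c = g := funext hfg
  rw [h2] at h1
  exact h1.unique hg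

theorem isOpen_UU : IsOpen UU :=
  isOpen_lt continuous_const (Complex.continuous_im.comp (continuous_apply 0))

theorem hcos : HasDerivAt (fun t : ℝ => ((Real.cos t : ℝ) : ℂ)) 0 0 := by
  have := (Real.hasDerivAt_cos 0).ofReal_comp
  simpa using this

theorem hsin : HasDerivAt (fun t : ℝ => ((Real.sin t : ℝ) : ℂ)) 1 0 := by
  have := (Real.hasDerivAt_sin 0).ofReal_comp
  simpa using this

theorem curve1 (z : ℂ) (r : ℝ) : HasDerivAt
    (fun t : ℝ => (![z, (Real.cos t : ℂ) * r, (Real.sin t : ℂ) * r] : Cn 3))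
    (Pi.single 2 (r : ℂ)) 0 := by
  rw [hasDerivAt_pi]
  intro i
  fin_cases i
  · simpa using hasDerivAt_const (0 : ℝ) z
  · have := hcos.mul_const (r : ℂ)
    simpa using this
  · have := hsin.mul_const (r : ℂ)
    simpa using this

theorem curve2 (z : ℂ) (r : ℝ) : HasDerivAt
    (fun t : ℝ => (![z, (Real.cos t : ℂ) * r, Complex.I * (Real.sin t : ℂ) * r] : Cn 3))
    (Pi.single 2 (Complex.I * r)) 0 := by
  rw [hasDerivAt_pi]
  intro i
  fin_cases i
  · simpa using hasDerivAt_const (0 : ℝ) z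
  · have := hcos.mul_const (r : ℂ)
    simpa using this
  · have := (hsin.const_mul Complex.I).mul_const (r : ℂ)
    simpa using this

/-- The phase. -/
noncomputable def ph (t : ℝ) : ℂ := (Real.cos t : ℂ) + Complex.I * (Real.sin t : ℂ)

theorem ph_mul (t : ℝ) : ph t * conj (ph t) = 1 := by
  have h : (Real.cos t : ℂ) ^ 2 + (Real.sin t : ℂ) ^ 2 = 1 := by
    exact_mod_cast Real.cos_sq_add_sin_sq t
  simp only [ph, map_add, map_mul, Complex.conj_I, Complex.conj_ofReal]
  linear_combination h - (Real.sin t : ℂ) ^ 2 * Complex.I_sq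

theorem hph : HasDerivAt ph Complex.I 0 := by
  show HasDerivAt (fun t : ℝ => (Real.cos t : ℂ) + Complex.I * (Real.sin t : ℂ)) Complex.I 0
  exact (HasDerivAt.fun_add hcos (hsin.const_mul Complex.I)).congr_deriv (by simp)

theorem curve3 (z : ℂ) (r : ℝ) : HasDerivAt
    (fun t : ℝ => (![z, ph t * r, 0] : Cn 3)) (Pi.single 1 (Complex.I * r)) 0 := by
  rw [hasDerivAt_pi]
  intro i
  fin_cases i
  · simpa using hasDerivAt_const (0 : ℝ) z
  · have := hph.mul_const (r : ℂ)
    simpa using this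
  · simpa using hasDerivAt_const (0 : ℝ) (0 : ℂ)

section relations

variable {a : Cn 3 → M3} (h : RotInv a) (hc1 : ∀ j k, ContDiffOn ℝ 1 (fun p => a p j k) UU)
  (hcl : Closed a) {z : ℂ} (hz : 0 < z.im) {r : ℝ} (hr : 0 < r)

theorem diffAt {a : Cn 3 → M3} (hc1 : ∀ j k, ContDiffOn ℝ 1 (fun p => a p j k) UU) (j k : Fin 3)
    {p : Cn 3} (hp : p ∈ UU) : DifferentiableAt ℝ (fun p => a p j k) p :=
  ((hc1 j k).differentiableOn one_ne_zero).differentiableAt (isOpen_UU.mem_nhds hp)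

theorem single_smul (f : Cn 3 →L[ℝ] ℂ) (j : Fin 3) (r : ℝ) (x : ℂ) :
    f (Pi.single j ((r : ℂ) * x)) = r * f (Pi.single j x) := by
  have : (Pi.single j ((r : ℂ) * x) : Cn 3) = r • Pi.single j x := by
    ext i
    by_cases hi : i = j
    · subst hi; simp
    · simp [hi]
  rw [this, map_smul]; simp

include h hc1 hz

theorem L12 : r * fderiv ℝ (fun p => a p 1 2) (pt z r) (Pi.single 2 1)
      = a (pt z r) 1 1 - a (pt z r) 2 2 ∧
    r * fderiv ℝ (fun p => a p 1 2) (pt z r) (Pi.single 2 Complex.I)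
      = Complex.I * (a (pt z r) 1 1 - a (pt z r) 2 2) := by
  constructor
  · rw [← single_smul, mul_one]
    refine deriv_curve (diffAt hc1 1 2 (pt_mem hz r)) (curve1 z r) (by simp [pt])
      (g := fun t => (Real.sin t : ℂ) * (Real.cos t : ℂ) * (a (pt z r) 1 1 - a (pt z r) 2 2)) ?_ ?_
    · have := (hsin.mul hcos).mul_const (a (pt z r) 1 1 - a (pt z r) 2 2)
      simpa using this
    · intro t
      exact (rot1 h hz r _ _ (Real.cos_sq_add_sin_sq t)).1
  · rw [← single_smul, mul_comm (r : ℂ)]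
    refine deriv_curve (diffAt hc1 1 2 (pt_mem hz r)) (curve2 z r) (by simp [pt])
      (g := fun t => Complex.I * (Real.sin t : ℂ) * (Real.cos t : ℂ) *
        (a (pt z r) 1 1 - a (pt z r) 2 2)) ?_ ?_
    · have := ((hsin.const_mul Complex.I).mul hcos).mul_const (a (pt z r) 1 1 - a (pt z r) 2 2)
      simpa using this
    · intro t
      exact (rot2 h hz r _ _ (Real.cos_sq_add_sin_sq t)).1

theorem L02 : r * fderiv ℝ (fun p => a p 0 2) (pt z r) (Pi.single 2 1) = a (pt z r) 0 1 ∧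
    r * fderiv ℝ (fun p => a p 0 2) (pt z r) (Pi.single 2 Complex.I)
      = Complex.I * a (pt z r) 0 1 := by
  constructor
  · rw [← single_smul, mul_one]
    refine deriv_curve (diffAt hc1 0 2 (pt_mem hz r)) (curve1 z r) (by simp [pt])
      (g := fun t => (Real.sin t : ℂ) * a (pt z r) 0 1) ?_ ?_
    · have := hsin.mul_const (a (pt z r) 0 1)
      simpa using this
    · intro t
      exact (rot1 h hz r _ _ (Real.cos_sq_add_sin_sq t)).2
  · rw [← single_smul, mul_comm (r : ℂ)]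
    refine deriv_curve (diffAt hc1 0 2 (pt_mem hz r)) (curve2 z r) (by simp [pt])
      (g := fun t => Complex.I * (Real.sin t : ℂ) * a (pt z r) 0 1) ?_ ?_
    · have := (hsin.const_mul Complex.I).mul_const (a (pt z r) 0 1)
      simpa using this
    · intro t
      exact (rot2 h hz r _ _ (Real.cos_sq_add_sin_sq t)).2

theorem L_phase : r * fderiv ℝ (fun p => a p 0 0) (pt z r) (Pi.single 1 Complex.I) = 0 ∧
    r * fderiv ℝ (fun p => a p 2 2) (pt z r) (Pi.single 1 Complex.I) = 0 ∧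
    r * fderiv ℝ (fun p => a p 0 1) (pt z r) (Pi.single 1 Complex.I)
      = Complex.I * a (pt z r) 0 1 := by
  refine ⟨?_, ?_, ?_⟩
  · rw [← single_smul, mul_comm (r : ℂ)]
    refine deriv_curve (diffAt hc1 0 0 (pt_mem hz r)) (curve3 z r) (by simp [pt, ph])
      (g := fun t => a (pt z r) 0 0) (hasDerivAt_const _ _) ?_
    intro t
    exact (phase h hz r (ph_mul t)).1
  · rw [← single_smul, mul_comm (r : ℂ)]
    refine deriv_curve (diffAt hc1 2 2 (pt_mem hz r)) (curve3 z r) (by simp [pt, ph])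
      (g := fun t => a (pt z r) 2 2) (hasDerivAt_const _ _) ?_
    intro t
    exact (phase h hz r (ph_mul t)).2.2.1
  · rw [← single_smul, mul_comm (r : ℂ)]
    refine deriv_curve (diffAt hc1 0 1 (pt_mem hz r)) (curve3 z r) (by simp [pt, ph])
      (g := fun t => ph t * a (pt z r) 0 1) (hph.mul_const _) ?_
    intro t
    exact (phase h hz r (ph_mul t)).2.2.2.1

include hcl hr

/-- The four relations. -/
theorem relations :
    r * fderiv ℝ (fun p => a p 2 2) (pt z r) (Pi.single 1 1)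
      = 2 * (a (pt z r) 1 1 - a (pt z r) 2 2) ∧
    r * dz 0 (fun p => a p 2 2) (pt z r) = a (pt z r) 0 1 ∧
    fderiv ℝ (fun p => a p 0 0) (pt z r) (Pi.single 1 1) = 2 * dz 0 (fun p => a p 1 0) (pt z r) ∧
    2 * r * dz 0 (fun p => a p 1 1) (pt z r)
      = r * fderiv ℝ (fun p => a p 0 1) (pt z r) (Pi.single 1 1) + a (pt z r) 0 1 := by
  have hr0 : (r : ℂ) ≠ 0 := by exact_mod_cast hr.ne'
  obtain ⟨l1, l2⟩ := L12 (r := r) h hc1 hz
  obtain ⟨l3, l4⟩ := L02 (r := r) h hc1 hz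
  obtain ⟨l5, l6, l7⟩ := L_phase (r := r) h hc1 hz
  have c1 := hcl (pt z r) (pt_mem hz r) 1 2 2
  have c2 := hcl (pt z r) (pt_mem hz r) 0 2 2
  have c3 := hcl (pt z r) (pt_mem hz r) 1 0 0
  have c4 := hcl (pt z r) (pt_mem hz r) 0 1 1
  have l5' := (mul_eq_zero.1 l5).resolve_left hr0
  have l6' := (mul_eq_zero.1 l6).resolve_left hr0
  have d1 : r * dz 2 (fun p => a p 1 2) (pt z r) = a (pt z r) 1 1 - a (pt z r) 2 2 := by
    simp only [dz]
    linear_combination (1 / 2 : ℂ) * l1 - (1 / 2 : ℂ) * Complex.I * l2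
      - (1 / 2 : ℂ) * (a (pt z r) 1 1 - a (pt z r) 2 2) * Complex.I_sq
  have d2 : r * dz 2 (fun p => a p 0 2) (pt z r) = a (pt z r) 0 1 := by
    simp only [dz]
    linear_combination (1 / 2 : ℂ) * l3 - (1 / 2 : ℂ) * Complex.I * l4
      - (1 / 2 : ℂ) * (a (pt z r) 0 1) * Complex.I_sq
  refine ⟨?_, ?_, ?_, ?_⟩
  · have e1 : 2 * dz 1 (fun p => a p 2 2) (pt z r)
        = fderiv ℝ (fun p => a p 2 2) (pt z r) (Pi.single 1 1) := by
      simp only [dz]; rw [l6']; ring
    rw [← e1, c1]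
    linear_combination 2 * d1
  · rw [c2]; exact d2
  · have e1 : 2 * dz 1 (fun p => a p 0 0) (pt z r)
        = fderiv ℝ (fun p => a p 0 0) (pt z r) (Pi.single 1 1) := by
      simp only [dz]; rw [l5']; ring
    rw [← e1, c3]
  · rw [c4]
    simp only [dz]
    linear_combination -Complex.I * l7 - (a (pt z r) 0 1) * Complex.I_sq

end relations

end Pool.Agent.TH55.J122
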