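import Pool.Agent.TH55.J122a

/-!
# KG-H, part b: the functions `b, A, E, C` of `(z, t)` and their derivatives
-/

set_option autoImplicit false

open scoped Manifold ContDiff Topology ComplexConjugate MatrixGroups UpperHalfPlane Matrix
open MeasureTheory Set Filter

namespace Pool.Agent.TH55.J122

open Pool.Agent.TH598.KG
open Pool.Agent.W549.CY (Cn dz dzbar HermitianMetric chernRicci chernScalar)
open Pool.Agent.W711.KC (jj nn)

/-- The domain. -/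
def Om : Set (ℂ × ℝ) := {q | 0 < q.1.im}

theorem isOpen_Om : IsOpen Om :=
  isOpen_lt continuous_const (Complex.continuous_im.comp continuous_fst)

/-- `r = sqrt (y e^t)` -/
noncomputable def rr (q : ℂ × ℝ) : ℝ := Real.exp ((q.2 + Real.log q.1.im) / 2)

theorem rr_pos (q : ℂ × ℝ) : 0 < rr q := Real.exp_pos _

theorem rr_sq {q : ℂ × ℝ} (hq : q ∈ Om) : rr q ^ 2 = q.1.im * Real.exp q.2 := by
  have hy : 0 < q.1.im := hq
  rw [rr, ← Real.exp_nat_mul]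
  have : ((2 : ℕ) : ℝ) * ((q.2 + Real.log q.1.im) / 2) = Real.log q.1.im + q.2 := by
    push_cast; ring
  rw [this, Real.exp_add, Real.exp_log hy]

/-- The point. -/
noncomputable def PP (q : ℂ × ℝ) : Cn 3 := pt q.1 (rr q)

theorem PP_mem {q : ℂ × ℝ} (hq : q ∈ Om) : PP q ∈ UU := hq

/-- `∂_t` -/
noncomputable def Dt (F : ℂ × ℝ → ℂ) (q : ℂ × ℝ) : ℂ := fderiv ℝ F q (0, 1)

/-- `∂_z` at fixed `t`. -/
noncomputable def Dz (F : ℂ × ℝ → ℂ) (q : ℂ × ℝ) : ℂ :=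
  (1 / 2) * (fderiv ℝ F q (1, 0) - Complex.I * fderiv ℝ F q (Complex.I, 0))

section rules
variable {F G : ℂ × ℝ → ℂ} {q : ℂ × ℝ} (hF : DifferentiableAt ℝ F q) (hG : DifferentiableAt ℝ G q)
include hF hG

theorem Dt_mul : Dt (fun q => F q * G q) q = F q * Dt G q + G q * Dt F q := by
  simp only [Dt]
  rw [fderiv_fun_mul hF hG]
  simp

theorem Dt_add : Dt (fun q => F q + G q) q = Dt F q + Dt G q := by
  simp only [Dt]
  rw [fderiv_fun_add hF hG]
  simp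

theorem Dz_mul : Dz (fun q => F q * G q) q = F q * Dz G q + G q * Dz F q := by
  simp only [Dz]
  rw [fderiv_fun_mul hF hG]
  simp
  ring

theorem Dz_add : Dz (fun q => F q + G q) q = Dz F q + Dz G q := by
  simp only [Dz]
  rw [fderiv_fun_add hF hG]
  simp
  ring

end rules

/-- slices -/
theorem hasDerivAt_slice {F : ℂ × ℝ → ℂ} {z : ℂ} {t : ℝ} (hF : DifferentiableAt ℝ F (z, t)) :
    HasDerivAt (fun s => F (z, s)) (Dt F (z, t)) t := by
  have h1 : HasDerivAt (fun s : ℝ => ((z, s) : ℂ × ℝ)) (0, 1) t :=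
    (hasDerivAt_const t z).prodMk (hasDerivAt_id t)
  exact hF.hasFDerivAt.comp_hasDerivAt t h1

theorem hasFDerivAt_slice {F : ℂ × ℝ → ℂ} {z : ℂ} {t : ℝ} (hF : DifferentiableAt ℝ F (z, t)) :
    HasFDerivAt (fun w => F (w, t)) ((fderiv ℝ F (z, t)).comp (ContinuousLinearMap.inl ℝ ℂ ℝ)) z := by
  have h1 : HasFDerivAt (fun w : ℂ => ((w, t) : ℂ × ℝ)) (ContinuousLinearMap.inl ℝ ℂ ℝ) z := by
    refine (((ContinuousLinearMap.inl ℝ ℂ ℝ).hasFDerivAt (x := z)).add_const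
      ((0 : ℂ), t)).congr_of_eventuallyEq (Filter.Eventually.of_forall fun w => ?_)
    simp
  exact hF.hasFDerivAt.comp z h1

theorem d1_slice {F : ℂ × ℝ → ℂ} {z : ℂ} {t : ℝ} (hF : DifferentiableAt ℝ F (z, t)) :
    d1 (fun w => F (w, t)) z = Dz F (z, t) := by
  simp only [d1, Dz]
  rw [(hasFDerivAt_slice hF).fderiv]
  simp

/-! ### derivatives of the building blocks -/

theorem rr_hasFDerivAt {q : ℂ × ℝ} (hq : q ∈ Om) :
    HasFDerivAt rr ((rr q / 2) • (ContinuousLinearMap.snd ℝ ℂ ℝ +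
      (q.1.im)⁻¹ • (Complex.imCLM.comp (ContinuousLinearMap.fst ℝ ℂ ℝ)))) q := by
  have hy : 0 < q.1.im := hq
  have h1 : HasFDerivAt (fun q : ℂ × ℝ => q.1.im)
      (Complex.imCLM.comp (ContinuousLinearMap.fst ℝ ℂ ℝ)) q :=
    (Complex.imCLM.comp (ContinuousLinearMap.fst ℝ ℂ ℝ)).hasFDerivAt
  have h2 : HasFDerivAt (fun q : ℂ × ℝ => q.2) (ContinuousLinearMap.snd ℝ ℂ ℝ) q :=
    (ContinuousLinearMap.snd ℝ ℂ ℝ).hasFDerivAt
  have h3 := h1.log hy.ne'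
  have h4 := ((h2.add h3).const_mul (2⁻¹ : ℝ)).exp
  refine (h4.congr_fderiv ?_).congr_of_eventuallyEq (Filter.Eventually.of_forall fun x => ?_)
  · ext ⟨ζ, τ⟩ <;> simp [rr] <;> ring_nf
  · simp only [rr]; congr 1; simp; ring

theorem rr_contDiffOn : ContDiffOn ℝ 1 rr Om := by
  have h1 : ContDiffOn ℝ 1 (fun q : ℂ × ℝ => Real.log q.1.im) Om := by
    refine ContDiffOn.log ?_ fun q hq => (show (0:ℝ) < q.1.im from hq).ne'
    exact (Complex.imCLM.contDiff.comp contDiff_fst).contDiffOn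
  have h2 : ContDiffOn ℝ 1 (fun q : ℂ × ℝ => (q.2 + Real.log q.1.im) / 2) Om :=
    (contDiff_snd.contDiffOn.add h1).div_const 2
  exact h2.exp

/-- the complex function `r` -/
noncomputable def rc (q : ℂ × ℝ) : ℂ := (rr q : ℂ)

theorem rc_contDiffOn : ContDiffOn ℝ 1 rc Om :=
  Complex.ofRealCLM.contDiff.comp_contDiffOn rr_contDiffOn

theorem PP_contDiffOn : ContDiffOn ℝ 1 PP Om := by
  rw [contDiffOn_pi]
  intro i
  fin_cases i
  · exact contDiff_fst.contDiffOn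
  · exact rc_contDiffOn
  · exact contDiff_const.contDiffOn

theorem rc_hasFDerivAt {q : ℂ × ℝ} (hq : q ∈ Om) :
    HasFDerivAt rc (Complex.ofRealCLM.comp ((rr q / 2) • (ContinuousLinearMap.snd ℝ ℂ ℝ +
      (q.1.im)⁻¹ • (Complex.imCLM.comp (ContinuousLinearMap.fst ℝ ℂ ℝ))))) q :=
  HasFDerivAt.comp q Complex.ofRealCLM.hasFDerivAt (rr_hasFDerivAt hq)

/-- `ν = ∂_z log y` -/
noncomputable def nu (q : ℂ × ℝ) : ℂ := -Complex.I / (2 * (q.1.im : ℂ))

/-- `conj ν` -/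
noncomputable def nub (q : ℂ × ℝ) : ℂ := Complex.I / (2 * (q.1.im : ℂ))

theorem nu_nub {q : ℂ × ℝ} (hq : q ∈ Om) : nu q * nub q = 1 / (4 * (q.1.im : ℂ) ^ 2) := by
  have hy : (q.1.im : ℂ) ≠ 0 := by
    have : 0 < q.1.im := hq
    exact_mod_cast this.ne'
  simp only [nu, nub]
  field_simp
  linear_combination (-4 : ℂ) * Complex.I_sq

theorem Dt_rc {q : ℂ × ℝ} (hq : q ∈ Om) : Dt rc q = rc q / 2 := by
  simp only [Dt]
  rw [(rc_hasFDerivAt hq).fderiv]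
  simp [rc]

theorem Dz_rc {q : ℂ × ℝ} (hq : q ∈ Om) : Dz rc q = nu q * rc q / 2 := by
  have hy : (q.1.im : ℂ) ≠ 0 := by
    have : 0 < q.1.im := hq
    exact_mod_cast this.ne'
  simp only [Dz]
  rw [(rc_hasFDerivAt hq).fderiv]
  simp [rc, nu]
  field_simp

theorem nub_contDiffOn : ContDiffOn ℝ 1 nub Om := by
  have h1 : ContDiffOn ℝ 1 (fun q : ℂ × ℝ => (2 * (q.1.im : ℂ))) Om :=
    (contDiff_const.mul (Complex.ofRealCLM.contDiff.comp
      (Complex.imCLM.contDiff.comp contDiff_fst))).contDiffOn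
  have h2 := h1.inv (fun q hq => by
    have : 0 < q.1.im := hq
    simp [this.ne'])
  exact contDiff_const.contDiffOn.mul h2

theorem nu_contDiffOn : ContDiffOn ℝ 1 nu Om := by
  have h1 : ContDiffOn ℝ 1 (fun q : ℂ × ℝ => (2 * (q.1.im : ℂ))) Om :=
    (contDiff_const.mul (Complex.ofRealCLM.contDiff.comp
      (Complex.imCLM.contDiff.comp contDiff_fst))).contDiffOn
  have h2 := h1.inv (fun q hq => by
    have : 0 < q.1.im := hq
    simp [this.ne'])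
  exact contDiff_const.contDiffOn.mul h2

theorem im_hasFDerivAt (q : ℂ × ℝ) : HasFDerivAt (fun q : ℂ × ℝ => (q.1.im : ℂ))
    (Complex.ofRealCLM.comp (Complex.imCLM.comp (ContinuousLinearMap.fst ℝ ℂ ℝ))) q :=
  (Complex.ofRealCLM.comp (Complex.imCLM.comp (ContinuousLinearMap.fst ℝ ℂ ℝ))).hasFDerivAt

theorem inv_hasFDerivAt {q : ℂ × ℝ} (hq : q ∈ Om) (c : ℂ) :
    HasFDerivAt (fun q : ℂ × ℝ => c / (2 * (q.1.im : ℂ)))
    ((-c / (2 * (q.1.im : ℂ) ^ 2)) • (Complex.ofRealCLM.comp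
      (Complex.imCLM.comp (ContinuousLinearMap.fst ℝ ℂ ℝ)))) q := by
  have hy : (q.1.im : ℂ) ≠ 0 := by
    have : 0 < q.1.im := hq
    exact_mod_cast this.ne'
  have h1 := (hasDerivAt_inv hy).comp_hasFDerivAt q (im_hasFDerivAt q)
  have h2 := h1.const_mul (c / 2)
  refine (h2.congr_fderiv ?_).congr_of_eventuallyEq (Filter.Eventually.of_forall fun x => ?_)
  · ext ⟨ζ, τ⟩ <;> simp <;> ring
  · simp; ring

theorem Dt_nu {q : ℂ × ℝ} (hq : q ∈ Om) : Dt nu q = 0 := by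
  simp only [Dt]
  rw [show nu = fun q : ℂ × ℝ => -Complex.I / (2 * (q.1.im : ℂ)) from rfl,
    (inv_hasFDerivAt hq _).fderiv]
  simp

theorem Dt_nub {q : ℂ × ℝ} (hq : q ∈ Om) : Dt nub q = 0 := by
  simp only [Dt]
  rw [show nub = fun q : ℂ × ℝ => Complex.I / (2 * (q.1.im : ℂ)) from rfl,
    (inv_hasFDerivAt hq _).fderiv]
  simp

theorem Dz_nub {q : ℂ × ℝ} (hq : q ∈ Om) : Dz nub q = -(nu q * nub q) := by
  have hy : (q.1.im : ℂ) ≠ 0 := by
    have : 0 < q.1.im := hq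
    exact_mod_cast this.ne'
  rw [nu_nub hq]
  simp only [Dz]
  rw [show nub = fun q : ℂ × ℝ => Complex.I / (2 * (q.1.im : ℂ)) from rfl,
    (inv_hasFDerivAt hq _).fderiv]
  simp
  field_simp
  linear_combination (-4 : ℂ) * Complex.I_sq

/-! ### the coefficients -/

/-- The coefficient functions along `PP`. -/
noncomputable def aa (a : Cn 3 → M3) (j k : Fin 3) (q : ℂ × ℝ) : ℂ := a (PP q) j k

section coeff

variable {a : Cn 3 → M3} (hc1 : ∀ j k, ContDiffOn ℝ 1 (fun p => a p j k) UU)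

include hc1 in
theorem aa_contDiffOn (j k : Fin 3) : ContDiffOn ℝ 1 (aa a j k) Om :=
  (hc1 j k).comp PP_contDiffOn fun _ hq => hq

theorem PP_fderiv {q : ℂ × ℝ} (hq : q ∈ Om) (ζ : ℂ) (τ : ℝ) :
    fderiv ℝ PP q (ζ, τ) = Pi.single 0 ζ + Pi.single 1
      (((rr q / 2 * (τ + (q.1.im)⁻¹ * ζ.im) : ℝ)) : ℂ) := by
  have h0 : HasFDerivAt (fun q : ℂ × ℝ => q.1) (ContinuousLinearMap.fst ℝ ℂ ℝ) q :=
    (ContinuousLinearMap.fst ℝ ℂ ℝ).hasFDerivAt
  have h : ∀ i, DifferentiableAt ℝ (fun q => PP q i) q := by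
    intro i
    fin_cases i
    · exact h0.differentiableAt
    · exact (rc_hasFDerivAt hq).differentiableAt
    · exact differentiableAt_const _
  ext i
  rw [fderiv_pi h]
  fin_cases i
  · simp only [ContinuousLinearMap.coe_pi']
    show fderiv ℝ (fun q : ℂ × ℝ => q.1) q (ζ, τ) = _
    rw [h0.fderiv]; simp
  · simp only [ContinuousLinearMap.coe_pi']
    show fderiv ℝ rc q (ζ, τ) = _
    rw [(rc_hasFDerivAt hq).fderiv]; simp; ring
  · simp only [ContinuousLinearMap.coe_pi']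
    show fderiv ℝ (fun q : ℂ × ℝ => (0 : ℂ)) q (ζ, τ) = _
    simp

include hc1 in
theorem aa_fderiv (j k : Fin 3) {q : ℂ × ℝ} (hq : q ∈ Om) (ζ : ℂ) (τ : ℝ) :
    fderiv ℝ (aa a j k) q (ζ, τ) = fderiv ℝ (fun p => a p j k) (PP q) (Pi.single 0 ζ)
      + ((rr q / 2 * (τ + (q.1.im)⁻¹ * ζ.im) : ℝ) : ℂ) *
        fderiv ℝ (fun p => a p j k) (PP q) (Pi.single 1 1) := by
  have h1 : DifferentiableAt ℝ PP q :=
    (PP_contDiffOn.differentiableOn one_ne_zero).differentiableAt (isOpen_Om.mem_nhds hq)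
  have h2 := diffAt hc1 j k (PP_mem hq)
  have h3 : fderiv ℝ (aa a j k) q = (fderiv ℝ (fun p => a p j k) (PP q)).comp (fderiv ℝ PP q) :=
    fderiv_comp q h2 h1
  rw [h3, ContinuousLinearMap.comp_apply, PP_fderiv hq, map_add]
  congr 1
  have := single_smul (fderiv ℝ (fun p => a p j k) (PP q)) 1
    (rr q / 2 * (τ + (q.1.im)⁻¹ * ζ.im)) 1
  rw [mul_one] at this
  exact this

include hc1 in
theorem Dt_aa (j k : Fin 3) {q : ℂ × ℝ} (hq : q ∈ Om) :
    Dt (aa a j k) q = rc q / 2 * fderiv ℝ (fun p => a p j k) (PP q) (Pi.single 1 1) := by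
  simp only [Dt]
  rw [aa_fderiv hc1 j k hq]
  simp [rc]

include hc1 in
theorem Dz_aa (j k : Fin 3) {q : ℂ × ℝ} (hq : q ∈ Om) :
    Dz (aa a j k) q = dz 0 (fun p => a p j k) (PP q)
      + nu q * (rc q / 2) * fderiv ℝ (fun p => a p j k) (PP q) (Pi.single 1 1) := by
  have hy : (q.1.im : ℂ) ≠ 0 := by
    have : 0 < q.1.im := hq
    exact_mod_cast this.ne'
  simp only [Dz, dz]
  rw [aa_fderiv hc1 j k hq, aa_fderiv hc1 j k hq]
  simp [rc, nu]
  field_simp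
  ring

end coeff

/-- `b = r² a₂₂` -/
noncomputable def BB (a : Cn 3 → M3) (q : ℂ × ℝ) : ℂ := (rc q * rc q) * aa a 2 2 q
/-- `A = r² a₁₁` -/
noncomputable def AA (a : Cn 3 → M3) (q : ℂ × ℝ) : ℂ := (rc q * rc q) * aa a 1 1 q
/-- `E = r a₀₁` -/
noncomputable def EE (a : Cn 3 → M3) (q : ℂ × ℝ) : ℂ := rc q * aa a 0 1 q
/-- `conj E = r a₁₀` -/
noncomputable def EB (a : Cn 3 → M3) (q : ℂ × ℝ) : ℂ := rc q * aa a 1 0 q
/-- `Ê = E + ν A` -/
noncomputable def Eh (a : Cn 3 → M3) (q : ℂ × ℝ) : ℂ := EE a q + nu q * AA a q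
/-- conjugate of `Ê` -/
noncomputable def EhB (a : Cn 3 → M3) (q : ℂ × ℝ) : ℂ := EB a q + nub q * AA a q
/-- `C`, the form on the horizontal lift -/
noncomputable def CC (a : Cn 3 → M3) (q : ℂ × ℝ) : ℂ :=
  aa a 0 0 q + nub q * EE a q + nu q * EB a q + (nu q * nub q) * AA a q

section main

variable {a : Cn 3 → M3} (h : RotInv a) (hc1 : ∀ j k, ContDiffOn ℝ 1 (fun p => a p j k) UU)
  (hcl : Closed a)

section smooth
include hc1

theorem BB_contDiffOn : ContDiffOn ℝ 1 (BB a) Om :=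
  (rc_contDiffOn.mul rc_contDiffOn).mul (aa_contDiffOn hc1 2 2)
theorem AA_contDiffOn : ContDiffOn ℝ 1 (AA a) Om :=
  (rc_contDiffOn.mul rc_contDiffOn).mul (aa_contDiffOn hc1 1 1)
theorem EE_contDiffOn : ContDiffOn ℝ 1 (EE a) Om := rc_contDiffOn.mul (aa_contDiffOn hc1 0 1)
theorem EB_contDiffOn : ContDiffOn ℝ 1 (EB a) Om := rc_contDiffOn.mul (aa_contDiffOn hc1 1 0)
theorem Eh_contDiffOn : ContDiffOn ℝ 1 (Eh a) Om :=
  (EE_contDiffOn hc1).add (nu_contDiffOn.mul (AA_contDiffOn hc1))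
theorem EhB_contDiffOn : ContDiffOn ℝ 1 (EhB a) Om :=
  (EB_contDiffOn hc1).add (nub_contDiffOn.mul (AA_contDiffOn hc1))
theorem CC_contDiffOn : ContDiffOn ℝ 1 (CC a) Om :=
  (((aa_contDiffOn hc1 0 0).add (nub_contDiffOn.mul (EE_contDiffOn hc1))).add
    (nu_contDiffOn.mul (EB_contDiffOn hc1))).add
    ((nu_contDiffOn.mul nub_contDiffOn).mul (AA_contDiffOn hc1))

end smooth

theorem dAt {F : ℂ × ℝ → ℂ} (hF : ContDiffOn ℝ 1 F Om) {q : ℂ × ℝ} (hq : q ∈ Om) :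
    DifferentiableAt ℝ F q :=
  (hF.differentiableOn one_ne_zero).differentiableAt (isOpen_Om.mem_nhds hq)

include h hc1 hcl

theorem Dt_BB {q : ℂ × ℝ} (hq : q ∈ Om) : Dt (BB a) q = AA a q := by
  obtain ⟨r1, r2, r3, r4⟩ := relations h hc1 hcl hq (rr_pos q)
  have d1 := dAt rc_contDiffOn hq
  have d2 := dAt (aa_contDiffOn hc1 2 2) hq
  have t1 : Dt (BB a) q = (rc q * rc q) * Dt (aa a 2 2) q
      + aa a 2 2 q * Dt (fun q => rc q * rc q) q := Dt_mul (d1.mul d1) d2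
  have t2 : Dt (fun q => rc q * rc q) q = rc q * Dt rc q + rc q * Dt rc q := Dt_mul d1 d1
  rw [t1, t2, Dt_rc hq, Dt_aa hc1 2 2 hq]
  have r1' : rc q * fderiv ℝ (fun p => a p 2 2) (PP q) (Pi.single 1 1)
    = 2 * (aa a 1 1 q - aa a 2 2 q) := r1
  simp only [AA]
  linear_combination (rc q ^ 2 / 2) * r1'

theorem Dz_BB {q : ℂ × ℝ} (hq : q ∈ Om) : Dz (BB a) q = Eh a q := by
  obtain ⟨r1, r2, r3, r4⟩ := relations h hc1 hcl hq (rr_pos q)
  have d1 := dAt rc_contDiffOn hq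
  have d2 := dAt (aa_contDiffOn hc1 2 2) hq
  have t1 : Dz (BB a) q = (rc q * rc q) * Dz (aa a 2 2) q
      + aa a 2 2 q * Dz (fun q => rc q * rc q) q := Dz_mul (d1.mul d1) d2
  have t2 : Dz (fun q => rc q * rc q) q = rc q * Dz rc q + rc q * Dz rc q := Dz_mul d1 d1
  rw [t1, t2, Dz_rc hq, Dz_aa hc1 2 2 hq]
  have r1' : rc q * fderiv ℝ (fun p => a p 2 2) (PP q) (Pi.single 1 1)
    = 2 * (aa a 1 1 q - aa a 2 2 q) := r1
  have r2' : rc q * dz 0 (fun p => a p 2 2) (PP q) = aa a 0 1 q := r2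
  simp only [Eh, EE, AA]
  linear_combination (nu q * rc q ^ 2 / 2) * r1' + rc q * r2'

theorem Dt_CC {q : ℂ × ℝ} (hq : q ∈ Om) :
    Dt (CC a) q = (nu q * nub q) * AA a q + Dz (EhB a) q := by
  obtain ⟨r1, r2, r3, r4⟩ := relations h hc1 hcl hq (rr_pos q)
  have dr := dAt rc_contDiffOn hq
  have d00 := dAt (aa_contDiffOn hc1 0 0) hq
  have d01 := dAt (aa_contDiffOn hc1 0 1) hq
  have d10 := dAt (aa_contDiffOn hc1 1 0) hq
  have d11 := dAt (aa_contDiffOn hc1 1 1) hq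
  have dnu := dAt nu_contDiffOn hq
  have dnub := dAt nub_contDiffOn hq
  have dEE := dAt (EE_contDiffOn hc1) hq
  have dEB := dAt (EB_contDiffOn hc1) hq
  have dAA := dAt (AA_contDiffOn hc1) hq
  have tEE : Dt (EE a) q = rc q * Dt (aa a 0 1) q + aa a 0 1 q * Dt rc q := Dt_mul dr d01
  have tEB : Dt (EB a) q = rc q * Dt (aa a 1 0) q + aa a 1 0 q * Dt rc q := Dt_mul dr d10
  have tAA : Dt (AA a) q = (rc q * rc q) * Dt (aa a 1 1) q
      + aa a 1 1 q * Dt (fun q => rc q * rc q) q := Dt_mul (dr.mul dr) d11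
  have trr : Dt (fun q => rc q * rc q) q = rc q * Dt rc q + rc q * Dt rc q := Dt_mul dr dr
  have tnn : Dt (fun q => nu q * nub q) q = nu q * Dt nub q + nub q * Dt nu q := Dt_mul dnu dnub
  have t1 : Dt (fun q => nub q * EE a q) q = nub q * Dt (EE a) q + EE a q * Dt nub q :=
    Dt_mul dnub dEE
  have t2 : Dt (fun q => nu q * EB a q) q = nu q * Dt (EB a) q + EB a q * Dt nu q :=
    Dt_mul dnu dEB
  have t3 : Dt (fun q => (nu q * nub q) * AA a q) q = (nu q * nub q) * Dt (AA a) q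
      + AA a q * Dt (fun q => nu q * nub q) q := Dt_mul (dnu.mul dnub) dAA
  have t4 : Dt (CC a) q = Dt (aa a 0 0) q + Dt (fun q => nub q * EE a q) q
      + Dt (fun q => nu q * EB a q) q + Dt (fun q => (nu q * nub q) * AA a q) q := by
    have e1 : Dt (fun q => aa a 0 0 q + nub q * EE a q) q
        = Dt (aa a 0 0) q + Dt (fun q => nub q * EE a q) q := Dt_add d00 (dnub.mul dEE)
    have e2 : Dt (fun q => aa a 0 0 q + nub q * EE a q + nu q * EB a q) q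
        = Dt (fun q => aa a 0 0 q + nub q * EE a q) q + Dt (fun q => nu q * EB a q) q :=
      Dt_add (d00.add (dnub.mul dEE)) (dnu.mul dEB)
    have e3 : Dt (CC a) q = Dt (fun q => aa a 0 0 q + nub q * EE a q + nu q * EB a q) q
        + Dt (fun q => (nu q * nub q) * AA a q) q :=
      Dt_add ((d00.add (dnub.mul dEE)).add (dnu.mul dEB)) ((dnu.mul dnub).mul dAA)
    rw [e3, e2, e1]
  have z1 : Dz (EB a) q = rc q * Dz (aa a 1 0) q + aa a 1 0 q * Dz rc q := Dz_mul dr d10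
  have z2 : Dz (AA a) q = (rc q * rc q) * Dz (aa a 1 1) q
      + aa a 1 1 q * Dz (fun q => rc q * rc q) q := Dz_mul (dr.mul dr) d11
  have z3 : Dz (fun q => rc q * rc q) q = rc q * Dz rc q + rc q * Dz rc q := Dz_mul dr dr
  have z4 : Dz (fun q => nub q * AA a q) q = nub q * Dz (AA a) q + AA a q * Dz nub q :=
    Dz_mul dnub dAA
  have z5 : Dz (EhB a) q = Dz (EB a) q + Dz (fun q => nub q * AA a q) q :=
    Dz_add dEB (dnub.mul dAA)
  rw [t4, t3, t2, t1, tnn, tAA, trr, tEB, tEE, z5, z4, z2, z3, z1, Dt_rc hq, Dz_rc hq, Dt_nu hq,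
    Dt_nub hq, Dz_nub hq, Dt_aa hc1 0 0 hq, Dt_aa hc1 0 1 hq, Dt_aa hc1 1 0 hq, Dt_aa hc1 1 1 hq,
    Dz_aa hc1 1 0 hq, Dz_aa hc1 1 1 hq]
  have r3' : fderiv ℝ (fun p => a p 0 0) (PP q) (Pi.single 1 1)
    = 2 * dz 0 (fun p => a p 1 0) (PP q) := r3
  have r4' : 2 * rc q * dz 0 (fun p => a p 1 1) (PP q)
      = rc q * fderiv ℝ (fun p => a p 0 1) (PP q) (Pi.single 1 1) + aa a 0 1 q := r4
  simp only [EE, AA, EB]
  linear_combination (rc q / 2) * r3' - (nub q * rc q / 2) * r4'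

end main

end Pool.Agent.TH55.J122
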