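import Pool.Agent.TH55.J122b

/-!
# KG-H, part c: the algebraic identity, positivity, bounds and equivariance
-/

set_option autoImplicit false

open scoped Manifold ContDiff Topology ComplexConjugate MatrixGroups UpperHalfPlane Matrix
open MeasureTheory Set Filter

namespace Pool.Agent.TH55.J122

open Pool.Agent.TH598.KG
open Pool.Agent.W549.CY (Cn dz dzbar HermitianMetric chernRicci chernScalar)
open Pool.Agent.W711.KC (jj nn jj_ne im_mob det_eq)

/-- `F' = s / (1 + s)` -/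
noncomputable def F1 (t : ℝ) : ℝ := Real.exp t / (1 + Real.exp t)
/-- `F'' = s / (1 + s)²` -/
noncomputable def F2 (t : ℝ) : ℝ := Real.exp t / (1 + Real.exp t) ^ 2

theorem F1_pos (t : ℝ) : 0 < F1 t := by unfold F1; positivity
theorem F2_pos (t : ℝ) : 0 < F2 t := by unfold F2; positivity
theorem F1_lt (t : ℝ) : F1 t < 1 := by
  unfold F1
  rw [div_lt_one (by positivity)]; linarith [Real.exp_pos t]

theorem F1_deriv (t : ℝ) : HasDerivAt F1 (F2 t) t := by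
  have h1 : HasDerivAt (fun t : ℝ => 1 + Real.exp t) (Real.exp t) t := by
    simpa using (Real.hasDerivAt_exp t).const_add 1
  have h2 := (Real.hasDerivAt_exp t).div h1 (by positivity)
  refine h2.congr_deriv ?_
  unfold F2
  congr 1
  ring

theorem a_block {a : Cn 3 → M3} (h : RotInv a) {q : ℂ × ℝ} (hq : q ∈ Om) :
    a (PP q) = !![aa a 0 0 q, aa a 0 1 q, 0; aa a 1 0 q, aa a 1 1 q, 0; 0, 0, aa a 2 2 q] := by
  obtain ⟨o1, o2, o3, o4⟩ := off_diag h hq (rr q)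
  ext i j
  fin_cases i <;> fin_cases j
  · rfl
  · rfl
  · exact o1
  · rfl
  · rfl
  · exact o2
  · exact o3
  · exact o4
  · rfl

theorem DD_block (x : M3) (S R R' P Q : ℂ) :
    DD x !![S, R, 0; R', P, 0; 0, 0, Q] !![S, R, 0; R', P, 0; 0, 0, Q]
      = 2 * (x 0 0 * (P * Q) - x 0 1 * (R' * Q) - x 1 0 * (R * Q) + x 1 1 * (S * Q)
        + x 2 2 * (S * P - R * R')) := by
  simp only [DD, padj, Matrix.adjugate_fin_three, Matrix.trace, Matrix.diag, Fin.sum_univ_three,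
    Matrix.mul_apply, Matrix.sub_apply, Matrix.add_apply]
  simp
  ring

theorem Nn_PP (q : ℂ × ℝ) : Nn (PP q) = q.1.im + rr q ^ 2 := by
  simp [Nn, nsq, PP, pt, Complex.normSq_ofReal]
  ring

theorem main_identity {a : Cn 3 → M3} (h : RotInv a) {q : ℂ × ℝ} (hq : q ∈ Om) :
    rc q ^ 4 * DD (rho0 (PP q)) (a (PP q)) (a (PP q)) =
      6 * (F2 q.2 : ℂ) * (BB a q * CC a q) + 6 * (F1 q.2 : ℂ) * (AA a q * CC a q - Eh a q * EhB a q)
        + ((3 / 2 : ℂ) * (F1 q.2 : ℂ) - 2) * (BB a q * AA a q) / (q.1.im : ℂ) ^ 2 := by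
  have hy : 0 < q.1.im := hq
  have hyc : (q.1.im : ℂ) ≠ 0 := by exact_mod_cast hy.ne'
  have hr := rr_pos q
  have hN : q.1.im + rr q ^ 2 ≠ 0 := by positivity
  have hNc : (q.1.im : ℂ) + rc q ^ 2 ≠ 0 := by
    have : ((q.1.im + rr q ^ 2 : ℝ) : ℂ) ≠ 0 := by exact_mod_cast hN
    simpa [rc] using this
  have hexp : Real.exp q.2 = rr q ^ 2 / q.1.im := by
    rw [rr_sq hq]; field_simp
  have hF1 : (F1 q.2 : ℂ) = rc q ^ 2 / ((q.1.im : ℂ) + rc q ^ 2) := by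
    have : F1 q.2 = rr q ^ 2 / (q.1.im + rr q ^ 2) := by
      unfold F1; rw [hexp]; field_simp
    rw [this]; simp [rc]
  have hF2 : (F2 q.2 : ℂ) = (q.1.im : ℂ) * rc q ^ 2 / ((q.1.im : ℂ) + rc q ^ 2) ^ 2 := by
    have : F2 q.2 = q.1.im * rr q ^ 2 / (q.1.im + rr q ^ 2) ^ 2 := by
      unfold F2; rw [hexp]; field_simp
    rw [this]; simp [rc]
  have hNq : (Nn (PP q) : ℂ) = (q.1.im : ℂ) + rc q ^ 2 := by
    rw [Nn_PP]; simp [rc]
  have h0 : (PP q) 0 = q.1 := rfl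
  have h1 : (PP q) 1 = rc q := rfl
  have h2 : (PP q) 2 = 0 := rfl
  have hcr : conj (rc q) = rc q := by simp [rc]
  rw [a_block h hq, DD_block, hF1, hF2]
  simp only [rho0, Th, omC, Matrix.sub_apply, Matrix.smul_apply, smul_eq_mul, hNq, h0, h1, h2, hcr,
    BB, AA, CC, Eh, EhB, EE, EB, nu, nub]
  simp
  field_simp
  ring_nf
  simp only [Complex.I_sq]
  ring

/-! ### the sesquilinear form -/

/-- The horizontal lift. -/
noncomputable def hv (q : ℂ × ℝ) : Cn 3 := ![1, nu q * rc q, 0]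

theorem conj_nu (q : ℂ × ℝ) : conj (nu q) = nub q := by
  have : conj (2 : ℂ) = 2 := map_ofNat _ 2
  simp [nu, nub, map_div₀, this]

theorem conj_nub (q : ℂ × ℝ) : conj (nub q) = nu q := by
  have : conj (2 : ℂ) = 2 := map_ofNat _ 2
  simp [nu, nub, map_div₀, this]

theorem conj_rc (q : ℂ × ℝ) : conj (rc q) = rc q := by simp [rc]

theorem hf_hv {a : Cn 3 → M3} (h : RotInv a) {q : ℂ × ℝ} (hq : q ∈ Om) (c : ℂ) :
    hf (a (PP q)) (hv q + Pi.single 1 (c * rc q)) =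
      CC a q + conj c * Eh a q + c * EhB a q + c * conj c * AA a q := by
  rw [a_block h hq]
  simp only [hf, Fin.sum_univ_three, hv]
  simp [conj_nu, conj_rc, CC, Eh, EhB, AA, EE, EB]
  ring

theorem hf_two {a : Cn 3 → M3} (h : RotInv a) {q : ℂ × ℝ} (hq : q ∈ Om) :
    hf (a (PP q)) (Pi.single 2 (rc q)) = BB a q := by
  rw [a_block h hq]
  simp only [hf, Fin.sum_univ_three]
  simp [conj_rc, BB]
  ring

theorem hf_one {a : Cn 3 → M3} (h : RotInv a) {q : ℂ × ℝ} (hq : q ∈ Om) :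
    hf (a (PP q)) (Pi.single 1 (rc q)) = AA a q := by
  rw [a_block h hq]
  simp only [hf, Fin.sum_univ_three]
  simp [conj_rc, AA]
  ring

section herm

variable {a : Cn 3 → M3} (hherm : ∀ p ∈ UU, (a p).IsHermitian)
include hherm

theorem conj_aa {q : ℂ × ℝ} (hq : q ∈ Om) (j k : Fin 3) : conj (aa a j k q) = aa a k j q := by
  have := (hherm (PP q) (PP_mem hq)).apply k j
  simpa [aa] using this

theorem conj_BB {q : ℂ × ℝ} (hq : q ∈ Om) : conj (BB a q) = BB a q := by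
  simp only [BB, map_mul, conj_rc, conj_aa hherm hq]

theorem conj_AA {q : ℂ × ℝ} (hq : q ∈ Om) : conj (AA a q) = AA a q := by
  simp only [AA, map_mul, conj_rc, conj_aa hherm hq]

theorem conj_Eh {q : ℂ × ℝ} (hq : q ∈ Om) : conj (Eh a q) = EhB a q := by
  simp only [Eh, EhB, EE, EB, map_mul, map_add, conj_rc, conj_aa hherm hq, conj_nu,
    conj_AA hherm hq]

theorem conj_CC {q : ℂ × ℝ} (hq : q ∈ Om) : conj (CC a q) = CC a q := by
  simp only [CC, EE, EB, map_mul, map_add, conj_rc, conj_aa hherm hq, conj_nu, conj_nub,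
    conj_AA hherm hq]
  ring

end herm

theorem re_of_conj {x : ℂ} (h : conj x = x) : x = (x.re : ℂ) :=
  (Complex.conj_eq_iff_re.1 h).symm

section pos

variable {a : Cn 3 → M3} (h : RotInv a) (hherm : ∀ p ∈ UU, (a p).IsHermitian)
  (hpos : ∀ p ∈ UU, ∀ v : Cn 3, v ≠ 0 → 0 < (hf (a p) v).re)

include h hpos

theorem BB_pos {q : ℂ × ℝ} (hq : q ∈ Om) : 0 < (BB a q).re := by
  rw [← hf_two h hq]
  refine hpos _ (PP_mem hq) _ ?_
  intro h0
  have := congrFun h0 2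
  simp [rc, (rr_pos q).ne'] at this

theorem AA_pos {q : ℂ × ℝ} (hq : q ∈ Om) : 0 < (AA a q).re := by
  rw [← hf_one h hq]
  refine hpos _ (PP_mem hq) _ ?_
  intro h0
  have := congrFun h0 1
  simp [rc, (rr_pos q).ne'] at this

theorem CC_pos {q : ℂ × ℝ} (hq : q ∈ Om) : 0 < (CC a q).re := by
  have := hf_hv h hq 0
  simp only [zero_mul, map_zero, add_zero, Pi.single_zero] at this
  rw [← this]
  refine hpos _ (PP_mem hq) _ ?_
  intro h0
  have := congrFun h0 0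
  simp [hv] at this

include hherm

theorem Eh_sq_le {q : ℂ × ℝ} (hq : q ∈ Om) :
    ‖Eh a q‖ ^ 2 ≤ (AA a q).re * (CC a q).re := by
  have hA := AA_pos h hpos hq
  have hAr := re_of_conj (conj_AA hherm hq)
  have hCr := re_of_conj (conj_CC hherm hq)
  have hEB := (conj_Eh hherm hq).symm
  set A := (AA a q).re with hAd
  set C := (CC a q).re with hCd
  have hAc : (A : ℂ) ≠ 0 := by exact_mod_cast hA.ne'
  set c : ℂ := -Eh a q / A with hc
  have h1 := hf_hv h hq c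
  have h2 : 0 < (hf (a (PP q)) (hv q + Pi.single 1 (c * rc q))).re := by
    refine hpos _ (PP_mem hq) _ ?_
    intro h0
    have := congrFun h0 0
    simp [hv] at this
  rw [h1, hAr, hCr, hEB] at h2
  have h3 : (C : ℂ) + conj c * Eh a q + c * conj (Eh a q) + c * conj c * A
      = ((C - ‖Eh a q‖ ^ 2 / A : ℝ) : ℂ) := by
    have e1 : Eh a q * conj (Eh a q) = ((‖Eh a q‖ ^ 2 : ℝ) : ℂ) := by
      rw [Complex.mul_conj, Complex.normSq_eq_norm_sq]
    rw [hc]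
    simp only [map_div₀, map_neg, Complex.conj_ofReal]
    push_cast at e1 ⊢
    field_simp
    linear_combination (-1 : ℂ) * e1
  rw [h3, Complex.ofReal_re, sub_pos, div_lt_iff₀ hA] at h2
  linarith

end pos

section bounds

theorem hf_g0_two {q : ℂ × ℝ} (hq : q ∈ Om) :
    hf (g0 (PP q)) (Pi.single 2 (rc q)) = (F1 q.2 : ℂ) := by
  have hy : 0 < q.1.im := hq
  have hr := rr_pos q
  have hN : q.1.im + rr q ^ 2 ≠ 0 := by positivity
  have hNc : (q.1.im : ℂ) + rc q ^ 2 ≠ 0 := by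
    have : ((q.1.im + rr q ^ 2 : ℝ) : ℂ) ≠ 0 := by exact_mod_cast hN
    simpa [rc] using this
  have hexp : Real.exp q.2 = rr q ^ 2 / q.1.im := by
    rw [rr_sq hq]; field_simp
  have hF1 : (F1 q.2 : ℂ) = rc q ^ 2 / ((q.1.im : ℂ) + rc q ^ 2) := by
    have : F1 q.2 = rr q ^ 2 / (q.1.im + rr q ^ 2) := by
      unfold F1; rw [hexp]; field_simp
    rw [this]; simp [rc]
  have hNq : (Nn (PP q) : ℂ) = (q.1.im : ℂ) + rc q ^ 2 := by
    rw [Nn_PP]; simp [rc]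
  have h2 : (PP q) 2 = 0 := rfl
  rw [hF1]
  simp only [hf, Fin.sum_univ_three, g0, Th, omC, Matrix.add_apply, Matrix.smul_apply, smul_eq_mul,
    hNq, h2]
  simp [conj_rc]
  field_simp

theorem hf_g0_one {q : ℂ × ℝ} (hq : q ∈ Om) :
    hf (g0 (PP q)) (Pi.single 1 (rc q)) = (F2 q.2 : ℂ) := by
  have hy : 0 < q.1.im := hq
  have hr := rr_pos q
  have hN : q.1.im + rr q ^ 2 ≠ 0 := by positivity
  have hNc : (q.1.im : ℂ) + rc q ^ 2 ≠ 0 := by
    have : ((q.1.im + rr q ^ 2 : ℝ) : ℂ) ≠ 0 := by exact_mod_cast hN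
    simpa [rc] using this
  have hexp : Real.exp q.2 = rr q ^ 2 / q.1.im := by
    rw [rr_sq hq]; field_simp
  have hF2 : (F2 q.2 : ℂ) = (q.1.im : ℂ) * rc q ^ 2 / ((q.1.im : ℂ) + rc q ^ 2) ^ 2 := by
    have : F2 q.2 = q.1.im * rr q ^ 2 / (q.1.im + rr q ^ 2) ^ 2 := by
      unfold F2; rw [hexp]; field_simp
    rw [this]; simp [rc]
  have hNq : (Nn (PP q) : ℂ) = (q.1.im : ℂ) + rc q ^ 2 := by
    rw [Nn_PP]; simp [rc]
  have h1 : (PP q) 1 = rc q := rfl
  rw [hF2]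
  simp only [hf, Fin.sum_univ_three, g0, Th, omC, Matrix.add_apply, Matrix.smul_apply, smul_eq_mul,
    hNq, h1]
  simp [conj_rc]
  field_simp
  ring

theorem hf_g0_hv {q : ℂ × ℝ} (hq : q ∈ Om) :
    hf (g0 (PP q)) (hv q) = (((1 + F1 q.2) / (4 * q.1.im ^ 2) : ℝ) : ℂ) := by
  have hy : 0 < q.1.im := hq
  have hyc : (q.1.im : ℂ) ≠ 0 := by exact_mod_cast hy.ne'
  have hr := rr_pos q
  have hN : q.1.im + rr q ^ 2 ≠ 0 := by positivity
  have hNc : (q.1.im : ℂ) + rc q ^ 2 ≠ 0 := by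
    have : ((q.1.im + rr q ^ 2 : ℝ) : ℂ) ≠ 0 := by exact_mod_cast hN
    simpa [rc] using this
  have hexp : Real.exp q.2 = rr q ^ 2 / q.1.im := by
    rw [rr_sq hq]; field_simp
  have hF1 : F1 q.2 = rr q ^ 2 / (q.1.im + rr q ^ 2) := by
      unfold F1; rw [hexp]; field_simp
  have hNq : (Nn (PP q) : ℂ) = (q.1.im : ℂ) + rc q ^ 2 := by
    rw [Nn_PP]; simp [rc]
  have h0 : (PP q) 0 = q.1 := rfl
  have h1 : (PP q) 1 = rc q := rfl
  have h2 : (PP q) 2 = 0 := rfl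
  rw [hF1]
  have hR : (((1 + rr q ^ 2 / (q.1.im + rr q ^ 2)) / (4 * q.1.im ^ 2) : ℝ) : ℂ)
      = (1 + rc q ^ 2 / ((q.1.im : ℂ) + rc q ^ 2)) / (4 * (q.1.im : ℂ) ^ 2) := by
    simp [rc]
  rw [hR]
  simp only [hf, Fin.sum_univ_three, g0, Th, omC, Matrix.add_apply, Matrix.smul_apply, smul_eq_mul,
    hNq, h0, h1, h2, hv]
  simp [conj_rc, conj_nu]
  simp only [nu, nub]
  field_simp
  ring_nf
  simp only [Complex.I_sq]
  ring

variable {a : Cn 3 → M3} {C : ℝ} (h : RotInv a) (hb : Bdd a C)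
include h hb

theorem BB_le {q : ℂ × ℝ} (hq : q ∈ Om) : |(BB a q).re| ≤ C * F1 q.2 := by
  have := hb (PP q) (PP_mem hq) (Pi.single 2 (rc q))
  rwa [hf_two h hq, hf_g0_two hq, Complex.ofReal_re] at this

theorem AA_le {q : ℂ × ℝ} (hq : q ∈ Om) : |(AA a q).re| ≤ C * F2 q.2 := by
  have := hb (PP q) (PP_mem hq) (Pi.single 1 (rc q))
  rwa [hf_one h hq, hf_g0_one hq, Complex.ofReal_re] at this

theorem CC_le {q : ℂ × ℝ} (hq : q ∈ Om) :
    |(CC a q).re| ≤ C * ((1 + F1 q.2) / (4 * q.1.im ^ 2)) := by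
  have := hb (PP q) (PP_mem hq) (hv q)
  rw [hf_g0_hv hq, Complex.ofReal_re] at this
  have h1 := hf_hv h hq 0
  simp only [zero_mul, map_zero, add_zero, Pi.single_zero] at h1
  rwa [h1] at this

end bounds

/-! ### equivariance -/

/-- The Jacobian of `Fa g`. -/
noncomputable def JM (g : SL(2, ℝ)) (p : Cn 3) : M3 :=
  !![1 / jj g (p 0) ^ 2, 0, 0;
    -((g 1 0 : ℂ) * p 1) / jj g (p 0) ^ 2, 1 / jj g (p 0), 0;
    -((g 1 0 : ℂ) * p 2) / jj g (p 0) ^ 2, 0, 1 / jj g (p 0)]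

theorem Fa_fderiv (g : SL(2, ℝ)) {p : Cn 3} (hp : p ∈ UU) (v : Cn 3) :
    fderiv ℂ (Fa g) p v = (JM g p).mulVec v := by
  have hj := jj_ne g (show 0 < (p 0).im from hp)
  have hp0 : HasFDerivAt (fun p : Cn 3 => p 0) (ContinuousLinearMap.proj 0 : Cn 3 →L[ℂ] ℂ) p :=
    (ContinuousLinearMap.proj 0 : Cn 3 →L[ℂ] ℂ).hasFDerivAt
  have hp1 : HasFDerivAt (fun p : Cn 3 => p 1) (ContinuousLinearMap.proj 1 : Cn 3 →L[ℂ] ℂ) p :=
    (ContinuousLinearMap.proj 1 : Cn 3 →L[ℂ] ℂ).hasFDerivAt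
  have hp2 : HasFDerivAt (fun p : Cn 3 => p 2) (ContinuousLinearMap.proj 2 : Cn 3 →L[ℂ] ℂ) p :=
    (ContinuousLinearMap.proj 2 : Cn 3 →L[ℂ] ℂ).hasFDerivAt
  have hjj : HasFDerivAt (fun p : Cn 3 => jj g (p 0))
      ((g 1 0 : ℂ) • (ContinuousLinearMap.proj 0 : Cn 3 →L[ℂ] ℂ)) p := by
    have := (hp0.const_mul (g 1 0 : ℂ)).add_const (g 1 1 : ℂ)
    exact this
  have hnn : HasFDerivAt (fun p : Cn 3 => nn g (p 0))
      ((g 0 0 : ℂ) • (ContinuousLinearMap.proj 0 : Cn 3 →L[ℂ] ℂ)) p := by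
    have := (hp0.const_mul (g 0 0 : ℂ)).add_const (g 0 1 : ℂ)
    exact this
  have hinv : HasFDerivAt (fun p : Cn 3 => (jj g (p 0))⁻¹)
      ((-(jj g (p 0) ^ 2)⁻¹) • ((g 1 0 : ℂ) • (ContinuousLinearMap.proj 0 : Cn 3 →L[ℂ] ℂ))) p :=
    (hasDerivAt_inv hj).comp_hasFDerivAt p hjj
  have d0 : HasFDerivAt (fun p : Cn 3 => nn g (p 0) * (jj g (p 0))⁻¹) _ p := hnn.mul hinv
  have d1 : HasFDerivAt (fun p : Cn 3 => p 1 * (jj g (p 0))⁻¹) _ p := hp1.mul hinv
  have d2 : HasFDerivAt (fun p : Cn 3 => p 2 * (jj g (p 0))⁻¹) _ p := hp2.mul hinv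
  have hdet : (g 0 0 : ℂ) * (g 1 1 : ℂ) - (g 0 1 : ℂ) * (g 1 0 : ℂ) = 1 := by
    exact_mod_cast det_eq g
  have hall : ∀ i, DifferentiableAt ℂ (fun p => Fa g p i) p := by
    intro i
    fin_cases i
    · exact d0.differentiableAt
    · exact d1.differentiableAt
    · exact d2.differentiableAt
  ext i
  have hpi : fderiv ℂ (Fa g) p v i = fderiv ℂ (fun p => Fa g p i) p v := by
    rw [fderiv_pi hall]; rfl
  rw [hpi]
  fin_cases i
  · show fderiv ℂ (fun p : Cn 3 => nn g (p 0) * (jj g (p 0))⁻¹) p v = _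
    rw [d0.fderiv]
    simp [JM, Matrix.mulVec, dotProduct, Fin.sum_univ_three]
    field_simp
    simp only [nn, jj]
    linear_combination (v 0) * hdet
  · show fderiv ℂ (fun p : Cn 3 => p 1 * (jj g (p 0))⁻¹) p v = _
    rw [d1.fderiv]
    simp [JM, Matrix.mulVec, dotProduct, Fin.sum_univ_three]
    field_simp
  · show fderiv ℂ (fun p : Cn 3 => p 2 * (jj g (p 0))⁻¹) p v = _
    rw [d2.fderiv]
    simp [JM, Matrix.mulVec, dotProduct, Fin.sum_univ_three]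
    field_simp

theorem Equi.eq {Γ : Subgroup SL(2, ℝ)} {a : Cn 3 → M3} (he : Equi Γ a) {g : SL(2, ℝ)}
    (hg : g ∈ Γ) {p : Cn 3} (hp : p ∈ UU) :
    a p = (JM g p)ᵀ * a (Fa g p) * (JM g p).map conj := by
  refine hf_ext fun v => ?_
  rw [hf_mul, ← Fa_fderiv g hp]
  exact he g hg p hp v

/-- The moved point. -/
noncomputable def mq (g : SL(2, ℝ)) (q : ℂ × ℝ) : ℂ × ℝ := (nn g q.1 / jj g q.1, q.2)

theorem mq_mem (g : SL(2, ℝ)) {q : ℂ × ℝ} (hq : q ∈ Om) : mq g q ∈ Om := by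
  have hy : 0 < q.1.im := hq
  show 0 < (nn g q.1 / jj g q.1).im
  rw [im_mob g hy]
  have : 0 < Complex.normSq (jj g q.1) := Complex.normSq_pos.2 (jj_ne g hy)
  positivity

theorem rr_mq (g : SL(2, ℝ)) {q : ℂ × ℝ} (hq : q ∈ Om) : rr q = ‖jj g q.1‖ * rr (mq g q) := by
  have hy : 0 < q.1.im := hq
  have hj := jj_ne g hy
  have hn : 0 < Complex.normSq (jj g q.1) := Complex.normSq_pos.2 hj
  have h1 := rr_sq hq
  have h2 := rr_sq (mq_mem g hq)
  have h3 : (mq g q).1.im = q.1.im / Complex.normSq (jj g q.1) := im_mob g hy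
  have h4 : (mq g q).2 = q.2 := rfl
  rw [h3, h4] at h2
  have h5 : rr q ^ 2 = (‖jj g q.1‖ * rr (mq g q)) ^ 2 := by
    rw [mul_pow, h2, ← Complex.normSq_eq_norm_sq, h1]; field_simp
  exact (pow_left_inj₀ (rr_pos q).le (mul_nonneg (norm_nonneg _) (rr_pos _).le) two_ne_zero).1 h5

section equi

variable {Γ : Subgroup SL(2, ℝ)} {a : Cn 3 → M3} (h : RotInv a) (he : Equi Γ a) {g : SL(2, ℝ)}
    (hg : g ∈ Γ) {q : ℂ × ℝ} (hq : q ∈ Om)
include h he hg hq

theorem equi_entries :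
    aa a 2 2 q = aa a 2 2 (mq g q) / (jj g q.1 * conj (jj g q.1)) ∧
    aa a 1 1 q = aa a 1 1 (mq g q) / (jj g q.1 * conj (jj g q.1)) ∧
    aa a 0 1 q = ((‖jj g q.1‖ : ℂ) / jj g q.1 * aa a 0 1 (mq g q) / jj g q.1 ^ 2
      - (g 1 0 : ℂ) * rc q / jj g q.1 ^ 2 * aa a 1 1 (mq g q)) / conj (jj g q.1) := by
  have hy : 0 < q.1.im := hq
  have hj := jj_ne g hy
  have hj' : conj (jj g q.1) ≠ 0 := by simpa using hj
  have hnj : (‖jj g q.1‖ : ℂ) ≠ 0 := by simpa using hj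
  set om : ℂ := (‖jj g q.1‖ : ℂ) / jj g q.1 with hom
  have homom : om * conj om = 1 := by
    have e1 : jj g q.1 * conj (jj g q.1) = (‖jj g q.1‖ : ℂ) ^ 2 := by
      rw [Complex.mul_conj, Complex.normSq_eq_norm_sq]; push_cast; rfl
    rw [hom]
    simp only [map_div₀, Complex.conj_ofReal]
    field_simp
    rw [e1]
  have hrr : rc q = (‖jj g q.1‖ : ℂ) * rc (mq g q) := by
    simp only [rc]; exact_mod_cast rr_mq g hq
  have hpt : Fa g (PP q) = ![(mq g q).1, om * (rr (mq g q) : ℂ), 0] := by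
    ext i
    fin_cases i
    · rfl
    · show rc q / jj g q.1 = om * (rr (mq g q) : ℂ)
      rw [hrr, hom]; simp only [rc]; ring
    · show (0 : ℂ) / jj g q.1 = 0
      simp
  have hE := Equi.eq he hg (PP_mem hq)
  obtain ⟨p00, p11, p22, p01, p10⟩ := phase h (mq_mem g hq) (rr (mq g q)) homom
  rw [← hpt] at p00 p11 p22 p01 p10
  have h1 : (PP q) 1 = rc q := rfl
  have h2 : (PP q) 2 = 0 := rfl
  have h0 : (PP q) 0 = q.1 := rfl
  refine ⟨?_, ?_, ?_⟩
  · show a (PP q) 2 2 = _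
    rw [hE]
    simp only [Matrix.mul_apply, Matrix.transpose_apply, Matrix.map_apply, Fin.sum_univ_three, JM,
      h0, h1, h2]
    simp
    rw [p22]
    simp only [aa, PP]
    field_simp
  · show a (PP q) 1 1 = _
    rw [hE]
    simp only [Matrix.mul_apply, Matrix.transpose_apply, Matrix.map_apply, Fin.sum_univ_three, JM,
      h0, h1, h2]
    simp
    rw [p11]
    simp only [aa, PP]
    field_simp
  · show a (PP q) 0 1 = _
    rw [hE]
    simp only [Matrix.mul_apply, Matrix.transpose_apply, Matrix.map_apply, Fin.sum_univ_three, JM,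
      h0, h1, h2]
    simp
    rw [p01, p11]
    simp only [aa, PP]
    field_simp
    ring

theorem BB_equi : BB a (mq g q) = BB a q := by
  have hy : 0 < q.1.im := hq
  have hj := jj_ne g hy
  have hj' : conj (jj g q.1) ≠ 0 := by simpa using hj
  obtain ⟨e22, e11, e01⟩ := equi_entries h he hg hq
  have hrr : rc q = (‖jj g q.1‖ : ℂ) * rc (mq g q) := by
    simp only [rc]; exact_mod_cast rr_mq g hq
  have e1 : jj g q.1 * conj (jj g q.1) = (‖jj g q.1‖ : ℂ) ^ 2 := by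
    rw [Complex.mul_conj, Complex.normSq_eq_norm_sq]; push_cast; rfl
  have hnj : (‖jj g q.1‖ : ℂ) ≠ 0 := by simpa using hj
  simp only [BB]
  rw [e22, hrr, e1]
  field_simp

theorem Eh_equi : Eh a (mq g q) = jj g q.1 ^ 2 * Eh a q := by
  have hy : 0 < q.1.im := hq
  have hyc : (q.1.im : ℂ) ≠ 0 := by exact_mod_cast hy.ne'
  have hj := jj_ne g hy
  have hj' : conj (jj g q.1) ≠ 0 := by simpa using hj
  obtain ⟨e22, e11, e01⟩ := equi_entries h he hg hq
  have hrr : rc q = (‖jj g q.1‖ : ℂ) * rc (mq g q) := by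
    simp only [rc]; exact_mod_cast rr_mq g hq
  have e1 : (‖jj g q.1‖ : ℂ) ^ 2 = jj g q.1 * conj (jj g q.1) := by
    rw [Complex.mul_conj, Complex.normSq_eq_norm_sq]; push_cast; rfl
  have hnj : (‖jj g q.1‖ : ℂ) ≠ 0 := by simpa using hj
  have hnu : nu (mq g q) = nu q * jj g q.1 ^ 2 - (g 1 0 : ℂ) * jj g q.1 := by
    have h3 : (mq g q).1.im = q.1.im / Complex.normSq (jj g q.1) := im_mob g hy
    have h4 : (Complex.normSq (jj g q.1) : ℂ) = jj g q.1 * conj (jj g q.1) := by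
      rw [Complex.mul_conj]
    have h5 : jj g q.1 - conj (jj g q.1) = 2 * Complex.I * ((g 1 0 : ℂ) * q.1.im) := by
      rw [Complex.sub_conj]
      simp [jj]
      ring
    simp only [nu, h3]
    push_cast
    rw [h4]
    field_simp
    linear_combination Complex.I * h5 + (2 * (g 1 0 : ℂ) * q.1.im) * Complex.I_sq
  simp only [Eh, EE, AA]
  rw [hnu, e01, e11, hrr]
  field_simp
  linear_combination (-(rc (mq g q) * aa a 0 1 (mq g q))
    + rc (mq g q) ^ 2 * aa a 1 1 (mq g q) * jj g q.1 * (g 1 0 : ℂ)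
    - rc (mq g q) ^ 2 * jj g q.1 ^ 2 * nu q * aa a 1 1 (mq g q)) * e1

end equi

end Pool.Agent.TH55.J122
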