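import Pool.Agent.TH55.J122c

/-!
# KG-H, part d: reduction of the integral over `ℍ × ℂ²` to an integral over `ℍ × ℝ`
-/

set_option autoImplicit false

open scoped Manifold ContDiff Topology ComplexConjugate MatrixGroups UpperHalfPlane Matrix
open MeasureTheory Set Filter

namespace Pool.Agent.TH55.J122

open Pool.Agent.TH598.KG
open Pool.Agent.W549.CY (Cn dz dzbar HermitianMetric chernRicci chernScalar)
open Pool.Agent.W711.KC (jj nn jj_ne im_mob det_eq)

/-! ### rotation invariance of the mixed discriminant -/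

theorem adj_conj {V V' : M3} (h1 : V * V' = 1) (b : M3) :
    (V * b * V').adjugate = V * b.adjugate * V' := by
  have h2 : V' * V = 1 := mul_eq_one_comm.1 h1
  have hV : V.adjugate = V.det • V' := by
    calc V.adjugate = V.adjugate * (V * V') := by rw [h1, mul_one]
      _ = V.det • V' := by rw [← mul_assoc, Matrix.adjugate_mul, smul_mul_assoc, one_mul]
  have hV' : V'.adjugate = V'.det • V := by
    calc V'.adjugate = V'.adjugate * (V' * V) := by rw [h2, mul_one]
      _ = V'.det • V := by rw [← mul_assoc, Matrix.adjugate_mul, smul_mul_assoc, one_mul]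
  have hd : V.det * V'.det = 1 := by rw [← Matrix.det_mul, h1, Matrix.det_one]
  rw [Matrix.adjugate_mul_distrib, Matrix.adjugate_mul_distrib, hV, hV']
  simp only [smul_mul_assoc, mul_smul_comm, smul_smul]
  rw [hd, one_smul, mul_assoc]

theorem DD_conj {V V' : M3} (h1 : V * V' = 1) (x b c : M3) :
    DD (V * x * V') (V * b * V') (V * c * V') = DD x b c := by
  have h2 : V' * V = 1 := mul_eq_one_comm.1 h1
  have hp : padj (V * b * V') (V * c * V') = V * padj b c * V' := by
    simp only [padj]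
    have : V * b * V' + V * c * V' = V * (b + c) * V' := by
      rw [mul_add, add_mul]
    rw [this, adj_conj h1, adj_conj h1, adj_conj h1]
    simp only [mul_sub, sub_mul]
  simp only [DD]
  rw [hp]
  calc (V * x * V' * (V * padj b c * V')).trace
      = (V * (x * (V' * V) * padj b c) * V').trace := by simp only [mul_assoc]
    _ = (V * (x * padj b c) * V').trace := by rw [h2, mul_one]
    _ = (V' * (V * (x * padj b c))).trace := Matrix.trace_mul_comm _ _
    _ = (x * padj b c).trace := by rw [← mul_assoc, h2, one_mul]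

/-- The unitary matrix with first column `(x, y)`. -/
noncomputable def Wu (x y : ℂ) : Matrix (Fin 2) (Fin 2) ℂ := !![x, -conj y; y, conj x]

theorem Wu_mem {x y : ℂ} (h : x * conj x + y * conj y = 1) :
    Wu x y ∈ Matrix.unitaryGroup (Fin 2) ℂ := by
  rw [Matrix.mem_unitaryGroup_iff]
  ext i j
  fin_cases i <;> fin_cases j <;>
    simp [Wu, Matrix.mul_apply, Fin.sum_univ_two, Matrix.star_apply]
  · linear_combination h
  · ring
  · ring
  · linear_combination h

theorem rho0_rot {x y : ℂ} (h : x * conj x + y * conj y = 1) {z : ℂ} (hz : 0 < z.im) (ρ : ℝ) :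
    rho0 ![z, x * ρ, y * ρ] = (RM (Wu x y)).map conj * rho0 (pt z ρ) * (RM (Wu x y))ᵀ := by
  have hN : (z.im : ℂ) + (ρ : ℂ) ^ 2 ≠ 0 := by
    have : (0 : ℝ) < z.im + ρ ^ 2 := by positivity
    exact_mod_cast this.ne'
  have hzc : (z.im : ℂ) ≠ 0 := by exact_mod_cast hz.ne'
  have hn1 : (Nn ![z, x * ρ, y * ρ] : ℂ) = (z.im : ℂ) + (ρ : ℂ) ^ 2 := by
    have e1 : (Complex.normSq (x * ρ) : ℂ) = (x * conj x) * (ρ : ℂ) ^ 2 := by
      rw [Complex.normSq_mul, Complex.normSq_ofReal]; push_cast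
      rw [← Complex.mul_conj]; ring
    have e2 : (Complex.normSq (y * ρ) : ℂ) = (y * conj y) * (ρ : ℂ) ^ 2 := by
      rw [Complex.normSq_mul, Complex.normSq_ofReal]; push_cast
      rw [← Complex.mul_conj]; ring
    have e3 : (Nn ![z, x * ρ, y * ρ] : ℂ)
        = (z.im : ℂ) + ((Complex.normSq (x * ρ) : ℂ) + (Complex.normSq (y * ρ) : ℂ)) := by
      simp only [Nn, nsq]
      push_cast
      rfl
    rw [e3, e1, e2]
    linear_combination (ρ : ℂ) ^ 2 * h
  have hn2 : (Nn (pt z ρ) : ℂ) = (z.im : ℂ) + (ρ : ℂ) ^ 2 := by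
    have : Nn (pt z ρ) = z.im + ρ ^ 2 := by
      simp [Nn, nsq, pt, Complex.normSq_ofReal]; ring
    rw [this]; push_cast; rfl
  have a0 : (![z, x * ρ, y * ρ] : Cn 3) 0 = z := rfl
  have a1 : (![z, x * ρ, y * ρ] : Cn 3) 1 = x * ρ := rfl
  have a2 : (![z, x * ρ, y * ρ] : Cn 3) 2 = y * ρ := rfl
  have b0 : (pt z ρ) 0 = z := rfl
  have b1 : (pt z ρ) 1 = ρ := rfl
  have b2 : (pt z ρ) 2 = 0 := rfl
  ext i j
  simp only [Matrix.mul_apply, Matrix.transpose_apply, Matrix.map_apply, Fin.sum_univ_three]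
  simp only [rho0, Th, omC, Matrix.sub_apply, Matrix.smul_apply, smul_eq_mul, hn1, hn2, a0, a1, a2,
    b0, b1, b2]
  fin_cases i <;> fin_cases j <;> simp [RM, Wu]
  · ring
  · ring
  · ring
  · field_simp
    linear_combination (-1 * ((z.im : ℂ) + (ρ : ℂ) ^ 2)) * h
  · field_simp
    ring
  · ring
  · field_simp
    ring
  · field_simp
    linear_combination (-1 * ((z.im : ℂ) + (ρ : ℂ) ^ 2)) * h

/-- The integrand. -/
noncomputable def Df (a : Cn 3 → M3) (p : Cn 3) : ℂ := DD (rho0 p) (a p) (a p)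

theorem Df_radial {a : Cn 3 → M3} (h : RotInv a) {p : Cn 3} (hp : p ∈ UU) (hu : 0 < nsq p) :
    Df a p = Df a (pt (p 0) (Real.sqrt (nsq p))) := by
  set ρ := Real.sqrt (nsq p) with hρ
  have hρ0 : 0 < ρ := Real.sqrt_pos.2 hu
  have hρc : (ρ : ℂ) ≠ 0 := by exact_mod_cast hρ0.ne'
  have hρ2 : (ρ : ℂ) ^ 2 = p 1 * conj (p 1) + p 2 * conj (p 2) := by
    have : ρ ^ 2 = nsq p := Real.sq_sqrt hu.le
    rw [Complex.mul_conj, Complex.mul_conj]
    have h2 : (ρ : ℂ) ^ 2 = ((nsq p : ℝ) : ℂ) := by rw [← this]; push_cast; rfl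
    rw [h2, nsq]; push_cast; rfl
  set x : ℂ := p 1 / ρ with hx
  set y : ℂ := p 2 / ρ with hy
  have hxy : x * conj x + y * conj y = 1 := by
    rw [hx, hy]
    simp only [map_div₀, Complex.conj_ofReal]
    field_simp
    rw [hρ2]
  have hpe : p = ![p 0, x * ρ, y * ρ] := by
    ext i
    fin_cases i
    · rfl
    · simp [hx, hρc]
    · simp [hy, hρc]
  have hru : ru (Wu x y) (pt (p 0) ρ) = ![p 0, x * ρ, y * ρ] := by
    ext i; fin_cases i <;> simp [ru, pt, Wu]
  have ha := RotInv.eq1 h (Wu_mem hxy) (pt_mem (show 0 < (p 0).im from hp) ρ)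
  have hr := rho0_rot hxy (show 0 < (p 0).im from hp) ρ
  rw [hru] at ha
  have e : Df a p = Df a ![p 0, x * ρ, y * ρ] := by rw [← hpe]
  rw [e, Df, Df, ha, hr]
  exact DD_conj (RM_unitary (Wu_mem hxy)).1 _ _ _

end Pool.Agent.TH55.J122
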