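import Pool.Agent.TH55.J122d

/-!
# KG-H, part e: integration in polar coordinates
-/

set_option autoImplicit false

open scoped Manifold ContDiff Topology ComplexConjugate MatrixGroups UpperHalfPlane Matrix
open MeasureTheory Set Filter

namespace Pool.Agent.TH55.J122

open Pool.Agent.TH598.KG
open Pool.Agent.W549.CY (Cn dz dzbar HermitianMetric chernRicci chernScalar)
open Pool.Agent.W711.KC (jj nn jj_ne im_mob det_eq)

/-! ### radial integration in `ℂ²` -/

/-- the Euclidean norm on `Fin 2 → ℂ` -/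
noncomputable def n2 (u : Fin 2 → ℂ) : ℝ :=
  Real.sqrt (Complex.normSq (u 0) + Complex.normSq (u 1))

/-- `ℂ²` with the Euclidean norm -/
abbrev E2 : Type := PiLp 2 (fun _ : Fin 2 => ℂ)

/-- the identity map -/
noncomputable def L2 : (Fin 2 → ℂ) ≃L[ℝ] E2 :=
  (PiLp.continuousLinearEquiv 2 ℝ (fun _ : Fin 2 => ℂ)).symm

theorem norm_L2 (u : Fin 2 → ℂ) : ‖L2 u‖ = n2 u := by
  rw [PiLp.norm_eq_of_L2]
  simp [L2, n2, Complex.normSq_eq_norm_sq]

/-- the measure -/
noncomputable def mu2 : Measure E2 := Measure.map L2 volume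

instance : mu2.IsAddHaarMeasure := ContinuousLinearEquiv.isAddHaarMeasure_map L2 volume

theorem finrank_E2 : Module.finrank ℝ E2 = 4 := by
  have h := LinearEquiv.finrank_eq L2.symm.toLinearEquiv
  rw [h, Module.finrank_pi_fintype]
  simp [Complex.finrank_real_complex]

/-- the constant -/
noncomputable def kap : ℝ := 4 * mu2.real (Metric.ball 0 1)

theorem kap_pos : 0 < kap := by
  have h : 0 < mu2.real (Metric.ball 0 1) := by
    rw [Measure.real, ENNReal.toReal_pos_iff]
    exact ⟨Metric.measure_ball_pos _ _ one_pos, measure_ball_lt_top⟩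
  unfold kap; positivity

theorem measEmb_L2 : MeasurableEmbedding L2 := L2.toHomeomorph.measurableEmbedding

theorem int_radial {F : Type*} [NormedAddCommGroup F] [NormedSpace ℝ F] (f : ℝ → F) :
    ∫ u : Fin 2 → ℂ, f (n2 u) = kap • ∫ r in Ioi (0 : ℝ), r ^ 3 • f r := by
  have h1 : ∫ u : Fin 2 → ℂ, f (n2 u) = ∫ x, f ‖x‖ ∂mu2 := by
    rw [mu2, measEmb_L2.integral_map]
    simp only [norm_L2]
  rw [h1, integral_fun_norm_addHaar, finrank_E2, kap]
  rw [← Nat.cast_smul_eq_nsmul ℝ, smul_smul]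
  norm_num

theorem integrable_radial {F : Type*} [NormedAddCommGroup F] [NormedSpace ℝ F] {f : ℝ → F} :
    Integrable (fun u : Fin 2 → ℂ => f (n2 u)) ↔
      IntegrableOn (fun r => r ^ 3 • f r) (Ioi (0 : ℝ)) := by
  have h1 : Integrable (fun u : Fin 2 → ℂ => f (n2 u)) ↔ Integrable (fun x => f ‖x‖) mu2 := by
    rw [mu2, measEmb_L2.integrable_map_iff]
    have : (fun u : Fin 2 → ℂ => f (n2 u)) = (fun x => f ‖x‖) ∘ L2 := by
      funext u
      simp only [Function.comp, norm_L2]
    rw [this]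
  rw [h1, integrable_fun_norm_addHaar, finrank_E2]

/-! ### the substitution `r = sqrt (y e^t)` -/

theorem rr_image {z : ℂ} : (fun t : ℝ => rr (z, t)) '' univ = Ioi (0 : ℝ) := by
  ext r
  simp only [image_univ, mem_range, mem_Ioi]
  constructor
  · rintro ⟨t, rfl⟩
    exact rr_pos _
  · intro hr
    refine ⟨2 * Real.log r - Real.log z.im, ?_⟩
    simp only [rr]
    rw [show (2 * Real.log r - Real.log z.im + Real.log z.im) / 2 = Real.log r by ring,
      Real.exp_log hr]

theorem rr_inj {z : ℂ} : InjOn (fun t : ℝ => rr (z, t)) univ := by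
  intro t _ t' _ h
  have := Real.exp_injective h
  linarith

theorem rr_deriv {z : ℂ} (t : ℝ) : HasDerivAt (fun t : ℝ => rr (z, t)) (rr (z, t) / 2) t := by
  have h1 : HasDerivAt (fun t : ℝ => (t + Real.log z.im) / 2) (1 / 2) t :=
    ((hasDerivAt_id t).add_const _).div_const 2
  refine h1.exp.congr_deriv ?_
  simp only [rr]; ring

theorem int_subst {F : Type*} [NormedAddCommGroup F] [NormedSpace ℝ F] (z : ℂ) (f : ℝ → F) :
    ∫ r in Ioi (0 : ℝ), r ^ 3 • f r = ∫ t : ℝ, (rr (z, t) ^ 4 / 2) • f (rr (z, t)) := by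
  have h := integral_image_eq_integral_abs_deriv_smul (f := fun t : ℝ => rr (z, t))
    (f' := fun t => rr (z, t) / 2) MeasurableSet.univ
    (fun x _ => (rr_deriv x).hasDerivWithinAt) rr_inj (fun r => r ^ 3 • f r)
  rw [rr_image, Measure.restrict_univ] at h
  rw [h]
  congr 1
  funext t
  rw [smul_smul, abs_of_pos (by have := rr_pos (z, t); positivity)]
  congr 1
  ring

theorem integrable_subst {F : Type*} [NormedAddCommGroup F] [NormedSpace ℝ F] (z : ℂ)
    {f : ℝ → F} : IntegrableOn (fun r => r ^ 3 • f r) (Ioi (0 : ℝ)) ↔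
      Integrable (fun t : ℝ => (rr (z, t) ^ 4 / 2) • f (rr (z, t))) := by
  have h := integrableOn_image_iff_integrableOn_abs_deriv_smul (f := fun t : ℝ => rr (z, t))
    (f' := fun t => rr (z, t) / 2) MeasurableSet.univ
    (fun x _ => (rr_deriv x).hasDerivWithinAt) rr_inj (fun r => r ^ 3 • f r)
  rw [rr_image, integrableOn_univ] at h
  rw [h]
  have : (fun x => |rr (z, x) / 2| • rr (z, x) ^ 3 • f (rr (z, x)))
      = fun t : ℝ => (rr (z, t) ^ 4 / 2) • f (rr (z, t)) := by
    funext t
    rw [smul_smul, abs_of_pos (by have := rr_pos (z, t); positivity)]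
    congr 1
    ring
  rw [this]

theorem int_polar {F : Type*} [NormedAddCommGroup F] [NormedSpace ℝ F] (z : ℂ) (f : ℝ → F) :
    ∫ u : Fin 2 → ℂ, f (n2 u) = (kap / 2) • ∫ t : ℝ, (rr (z, t) ^ 4) • f (rr (z, t)) := by
  rw [int_radial, int_subst z, ← integral_smul, ← integral_smul]
  congr 1
  funext t
  rw [smul_smul, smul_smul]
  congr 1
  ring

theorem integrable_polar {F : Type*} [NormedAddCommGroup F] [NormedSpace ℝ F] (z : ℂ)
    {f : ℝ → F} : Integrable (fun u : Fin 2 → ℂ => f (n2 u)) ↔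
      Integrable (fun t : ℝ => (rr (z, t) ^ 4) • f (rr (z, t))) := by
  rw [integrable_radial, integrable_subst z]
  have h2 : (fun t : ℝ => (rr (z, t) ^ 4 / 2) • f (rr (z, t)))
      = fun t => (1 / 2 : ℝ) • ((rr (z, t) ^ 4) • f (rr (z, t))) := by
    funext t
    rw [smul_smul]
    congr 1
    ring
  rw [h2]
  constructor
  · intro h
    have := h.smul (2 : ℝ)
    refine this.congr (Filter.Eventually.of_forall fun t => ?_)
    simp [smul_smul]
  · intro h
    exact h.smul (1 / 2 : ℝ)

end Pool.Agent.TH55.J122
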