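import Pool.Agent.TH55.J122e

/-!
# KG-H, part f: the cutoff, Fubini and integration by parts
-/

set_option autoImplicit false

open scoped Manifold ContDiff Topology ComplexConjugate MatrixGroups UpperHalfPlane Matrix
open MeasureTheory Set Filter

namespace Pool.Agent.TH55.J122

open Pool.Agent.TH598.KG
open Pool.Agent.W549.CY (Cn dz dzbar HermitianMetric chernRicci chernScalar)
open Pool.Agent.W711.KC (jj nn jj_ne im_mob det_eq)

/-! ### `F1`, `F2` -/

theorem F1_cont : Continuous F1 := by
  unfold F1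
  exact Real.continuous_exp.div (continuous_const.add Real.continuous_exp) fun t => by positivity

theorem F2_cont : Continuous F2 := by
  unfold F2
  exact Real.continuous_exp.div ((continuous_const.add Real.continuous_exp).pow 2)
    fun t => by positivity

theorem F1_le_exp (t : ℝ) : F1 t ≤ Real.exp t := by
  unfold F1
  exact div_le_self (Real.exp_pos t).le (by linarith [Real.exp_pos t])

theorem F2_le_exp (t : ℝ) : F2 t ≤ Real.exp t := by
  unfold F2
  refine div_le_self (Real.exp_pos t).le ?_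
  nlinarith [Real.exp_pos t]

theorem F2_le_exp_neg (t : ℝ) : F2 t ≤ Real.exp (-t) := by
  unfold F2
  rw [Real.exp_neg, div_le_iff₀ (by positivity)]
  have h := Real.exp_pos t
  have h2 : (Real.exp t)⁻¹ * (1 + Real.exp t) ^ 2 = (Real.exp t)⁻¹ + 2 + Real.exp t := by
    field_simp; ring
  rw [h2]
  have := inv_pos.2 h
  linarith

theorem F2_integrable : Integrable F2 := by
  have h1 : IntegrableOn F2 (Iic 0) := by
    refine (integrableOn_exp_Iic 0).mono' F2_cont.aestronglyMeasurable ?_
    refine Filter.Eventually.of_forall fun t => ?_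
    rw [Real.norm_of_nonneg (F2_pos t).le]
    exact F2_le_exp t
  have h2 : IntegrableOn F2 (Ioi 0) := by
    refine (integrableOn_exp_neg_Ioi 0).mono' F2_cont.aestronglyMeasurable ?_
    refine Filter.Eventually.of_forall fun t => ?_
    rw [Real.norm_of_nonneg (F2_pos t).le]
    exact F2_le_exp_neg t
  have := h1.union h2
  rwa [Iic_union_Ioi, integrableOn_univ] at this

theorem F1_tendsto_neg : Tendsto (fun T : ℝ => F1 (-T)) atTop (𝓝 0) := by
  refine squeeze_zero (fun T => (F1_pos _).le) (fun T => F1_le_exp _) ?_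
  exact Real.tendsto_exp_neg_atTop_nhds_zero

theorem F2_tendsto : Tendsto (fun T : ℝ => F2 T) atTop (𝓝 0) := by
  refine squeeze_zero (fun T => (F2_pos _).le) (fun T => F2_le_exp_neg _) ?_
  exact Real.tendsto_exp_neg_atTop_nhds_zero

theorem F1_tendsto : Tendsto (fun T : ℝ => F1 T) atTop (𝓝 1) := by
  have h : ∀ T, F1 T = 1 - F1 (-T) := by
    intro T
    unfold F1
    rw [Real.exp_neg]
    have := Real.exp_pos T
    field_simp
    ring
  have : Tendsto (fun T : ℝ => 1 - F1 (-T)) atTop (𝓝 (1 - 0)) :=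
    tendsto_const_nhds.sub F1_tendsto_neg
  rw [sub_zero] at this
  exact this.congr fun T => (h T).symm

/-! ### the cutoff -/

section cutoff

variable {Γ : Subgroup SL(2, ℝ)} {φ : ℂ → ℝ} (hφ : Cutoff Γ φ)
include hφ

theorem phi_zero {z : ℂ} (hz : z ∉ tsupport φ) : φ z = 0 := image_eq_zero_of_notMem_tsupport hz

theorem phi_zero' {z : ℂ} (hz : ¬ 0 < z.im) : φ z = 0 :=
  phi_zero hφ fun h => hz (hφ.supp h)

theorem integrable_of_supp {f : ℂ → ℂ} (hf : ContinuousOn f {z | 0 < z.im})
    (hs : ∀ z ∉ tsupport φ, f z = 0) : Integrable f := by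
  have hK : IsCompact (tsupport φ) := hφ.compact
  have h1 : IntegrableOn f (tsupport φ) := (hf.mono hφ.supp).integrableOn_compact hK
  refine (integrableOn_iff_integrable_of_support_subset ?_).1 h1
  intro z hz
  by_contra h
  exact hz (hs z h)

theorem phi_contC : Continuous fun z => (φ z : ℂ) :=
  Complex.continuous_ofReal.comp hφ.smooth.continuous

theorem integrable_phi {F : ℂ → ℂ} (hF : ContinuousOn F {z | 0 < z.im}) :
    Integrable fun z => (φ z : ℂ) * F z := by
  refine integrable_of_supp hφ ((phi_contC hφ).continuousOn.mul hF) fun z hz => ?_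
  rw [phi_zero hφ hz]; simp

theorem setInt_phi (F : ℂ → ℂ) :
    ∫ z in {z : ℂ | 0 < z.im}, (φ z : ℂ) * F z = ∫ z, (φ z : ℂ) * F z := by
  refine setIntegral_eq_integral_of_forall_compl_eq_zero fun z hz => ?_
  rw [phi_zero' hφ hz]; simp

/-- Integrability on a strip. -/
theorem integrable_strip {F : ℂ × ℝ → ℂ} (hF : ContinuousOn F Om) (S T : ℝ) :
    Integrable (fun q : ℂ × ℝ => (φ q.1 : ℂ) * F q)
      ((volume : Measure ℂ).prod (volume.restrict (Ioc S T))) := by
  have hK : IsCompact (tsupport φ) := hφ.compact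
  have hc : ContinuousOn (fun q : ℂ × ℝ => (φ q.1 : ℂ) * F q) Om :=
    ((phi_contC hφ).comp continuous_fst).continuousOn.mul hF
  have hsub : (tsupport φ) ×ˢ (Icc S T) ⊆ Om := fun q hq => hφ.supp hq.1
  have h1 : IntegrableOn (fun q : ℂ × ℝ => (φ q.1 : ℂ) * F q) ((tsupport φ) ×ˢ (Icc S T))
      ((volume : Measure ℂ).prod volume) :=
    (hc.mono hsub).integrableOn_compact (hK.prod isCompact_Icc)
  have h2 : IntegrableOn (fun q : ℂ × ℝ => (φ q.1 : ℂ) * F q) (univ ×ˢ (Ioc S T))
      ((volume : Measure ℂ).prod volume) := by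
    refine h1.of_forall_sdiff_eq_zero (MeasurableSet.univ.prod measurableSet_Ioc) ?_
    rintro q ⟨hq1, hq2⟩
    have : q.1 ∉ tsupport φ := fun h => hq2 ⟨h, Ioc_subset_Icc_self hq1.2⟩
    rw [phi_zero hφ this]; simp
  rw [IntegrableOn, ← Measure.prod_restrict, Measure.restrict_univ] at h2
  exact h2

omit hφ in
theorem Dt_continuousOn {F : ℂ × ℝ → ℂ} (hF : ContDiffOn ℝ 1 F Om) : ContinuousOn (Dt F) Om := by
  have h := hF.continuousOn_fderiv_of_isOpen isOpen_Om le_rfl
  exact h.clm_apply continuousOn_const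

omit hφ in
theorem Dz_continuousOn {F : ℂ × ℝ → ℂ} (hF : ContDiffOn ℝ 1 F Om) : ContinuousOn (Dz F) Om := by
  have h := hF.continuousOn_fderiv_of_isOpen isOpen_Om le_rfl
  exact continuousOn_const.mul ((h.clm_apply continuousOn_const).sub
    (continuousOn_const.mul (h.clm_apply continuousOn_const)))

omit hφ in
theorem slice_cont {F : ℂ × ℝ → ℂ} (hF : ContinuousOn F Om) (t : ℝ) :
    ContinuousOn (fun z => F (z, t)) {z | 0 < z.im} :=
  hF.comp (by fun_prop : Continuous fun z : ℂ => (z, t)).continuousOn fun z hz => hz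

omit hφ in
theorem slice_cont_t {F : ℂ × ℝ → ℂ} (hF : ContinuousOn F Om) {z : ℂ} (hz : 0 < z.im) :
    Continuous (fun t => F (z, t)) := by
  have := hF.comp (s := univ) (by fun_prop : Continuous fun t : ℝ => (z, t)).continuousOn
    fun t _ => hz
  exact continuousOn_univ.1 this

theorem ftc_fub {F : ℂ × ℝ → ℂ} (hF : ContDiffOn ℝ 1 F Om) {S T : ℝ} (hST : S ≤ T) :
    ∫ t in S..T, ∫ z, (φ z : ℂ) * Dt F (z, t) = ∫ z, (φ z : ℂ) * (F (z, T) - F (z, S)) := by
  rw [intervalIntegral.integral_of_le hST]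
  have h := integral_integral_swap (f := fun (z : ℂ) (t : ℝ) => (φ z : ℂ) * Dt F (z, t))
    (μ := volume) (ν := volume.restrict (Ioc S T)) (integrable_strip hφ (Dt_continuousOn hF) S T)
  rw [← h]
  congr 1
  funext z
  by_cases hz : 0 < z.im
  · rw [integral_const_mul]
    congr 1
    rw [← intervalIntegral.integral_of_le hST]
    refine intervalIntegral.integral_eq_sub_of_hasDerivAt (f := fun t => F (z, t)) (fun t _ => ?_) ?_
    · exact hasDerivAt_slice (dAt hF hz)
    · exact (slice_cont_t (Dt_continuousOn hF) hz).intervalIntegrable _ _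
  · rw [phi_zero' hφ hz]; simp

theorem ibp {β : ℂ → ℂ} (hβ : ContDiffOn ℝ 1 β {z | 0 < z.im}) :
    ∫ z, (φ z : ℂ) * d1 β z
      = - ∫ z in {z : ℂ | 0 < z.im}, β z * d1 (fun w => (φ w : ℂ)) z := by
  have hopen : IsOpen {z : ℂ | 0 < z.im} := isOpen_lt continuous_const Complex.continuous_im
  have hφc : ContDiff ℝ 1 (fun w => (φ w : ℂ)) :=
    Complex.ofRealCLM.contDiff.comp (hφ.smooth.of_le (by exact_mod_cast le_top))
  have hφd : Differentiable ℝ (fun w => (φ w : ℂ)) := hφc.differentiable one_ne_zero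
  have hts : tsupport (fun w => (φ w : ℂ)) ⊆ tsupport φ := by
    refine closure_mono fun z hz => ?_
    simpa using hz
  have hfd0 : ∀ z ∉ tsupport φ, fderiv ℝ (fun w => (φ w : ℂ)) z = 0 := by
    intro z hz
    have : z ∉ tsupport (fderiv ℝ (fun w => (φ w : ℂ))) := fun h =>
      hz (hts (tsupport_fderiv_subset ℝ h))
    exact image_eq_zero_of_notMem_tsupport this
  have hcβ : ContinuousOn β {z : ℂ | 0 < z.im} := hβ.continuousOn
  have hcdβ := hβ.continuousOn_fderiv_of_isOpen hopen le_rfl
  have hcdφ : Continuous (fderiv ℝ (fun w => (φ w : ℂ))) := hφc.continuous_fderiv one_ne_zero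
  have key : ∀ v : ℂ, Integrable (fun z => β z * fderiv ℝ (fun w => (φ w : ℂ)) z v) ∧
      Integrable (fun z => fderiv ℝ β z v * (φ z : ℂ)) ∧
      ∫ z, β z * fderiv ℝ (fun w => (φ w : ℂ)) z v = - ∫ z, fderiv ℝ β z v * (φ z : ℂ) := by
    intro v
    have i1 : Integrable (fun z => β z * fderiv ℝ (fun w => (φ w : ℂ)) z v) := by
      refine integrable_of_supp hφ (hcβ.mul (hcdφ.clm_apply continuous_const).continuousOn) ?_
      intro z hz
      rw [hfd0 z hz]; simp
    have i2 : Integrable (fun z => fderiv ℝ β z v * (φ z : ℂ)) := by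
      have := integrable_phi hφ (hcdβ.clm_apply (continuousOn_const (c := v)))
      refine this.congr (Filter.Eventually.of_forall fun z => ?_)
      exact mul_comm _ _
    have i3 : Integrable (fun z => β z * (φ z : ℂ)) := by
      have := integrable_phi hφ hcβ
      refine this.congr (Filter.Eventually.of_forall fun z => ?_)
      exact mul_comm _ _
    refine ⟨i1, i2, ?_⟩
    refine integral_mul_fderiv_eq_neg_fderiv_mul_of_integrable i2 i1 i3 ?_ ?_
    · intro z hz
      exact (hβ.differentiableOn one_ne_zero).differentiableAt (hopen.mem_nhds (hφ.supp (hts hz)))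
    · intro z _
      exact hφd z
  obtain ⟨a1, b1, c1⟩ := key 1
  obtain ⟨a2, b2, c2⟩ := key Complex.I
  have e0 : ∫ z in {z : ℂ | 0 < z.im}, β z * d1 (fun w => (φ w : ℂ)) z
      = ∫ z, β z * d1 (fun w => (φ w : ℂ)) z := by
    refine setIntegral_eq_integral_of_forall_compl_eq_zero fun z hz => ?_
    have : z ∉ tsupport φ := fun h => hz (hφ.supp h)
    simp only [d1]
    rw [hfd0 z this]; simp
  have e1 : ∫ z, β z * d1 (fun w => (φ w : ℂ)) z
      = (1 / 2) * (∫ z, β z * fderiv ℝ (fun w => (φ w : ℂ)) z 1)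
        - (Complex.I / 2) * ∫ z, β z * fderiv ℝ (fun w => (φ w : ℂ)) z Complex.I := by
    rw [← integral_const_mul, ← integral_const_mul, ← integral_sub (a1.const_mul _)
      (a2.const_mul _)]
    congr 1
    funext z
    simp only [d1]
    ring
  have e2 : ∫ z, (φ z : ℂ) * d1 β z
      = (1 / 2) * (∫ z, fderiv ℝ β z 1 * (φ z : ℂ))
        - (Complex.I / 2) * ∫ z, fderiv ℝ β z Complex.I * (φ z : ℂ) := by
    rw [← integral_const_mul, ← integral_const_mul, ← integral_sub (b1.const_mul _)
      (b2.const_mul _)]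
    congr 1
    funext z
    simp only [d1]
    ring
  rw [e0, e1, e2, c1, c2]
  ring

end cutoff

end Pool.Agent.TH55.J122
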