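import Pool.Agent.TH55.J122f

/-!
# KG-H, part g: `Phi` as an integral over `ℝ × ℍ`
-/

set_option autoImplicit false

open scoped Manifold ContDiff Topology ComplexConjugate MatrixGroups UpperHalfPlane Matrix
open MeasureTheory Set Filter

namespace Pool.Agent.TH55.J122

open Pool.Agent.TH598.KG
open Pool.Agent.W549.CY (Cn dz dzbar HermitianMetric chernRicci chernScalar)
open Pool.Agent.W711.KC (jj nn jj_ne im_mob det_eq)

/-- The right hand side of the main identity. -/
noncomputable def GG (a : Cn 3 → M3) (q : ℂ × ℝ) : ℂ :=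
  6 * (F2 q.2 : ℂ) * (BB a q * CC a q) + 6 * (F1 q.2 : ℂ) * (AA a q * CC a q - Eh a q * EhB a q)
    + ((3 / 2 : ℂ) * (F1 q.2 : ℂ) - 2) * (BB a q * AA a q) / (q.1.im : ℂ) ^ 2

theorem GG_eq {a : Cn 3 → M3} (h : RotInv a) {q : ℂ × ℝ} (hq : q ∈ Om) :
    (rr q ^ 4) • Df a (PP q) = GG a q := by
  have := main_identity h hq
  rw [GG, ← this, Df, Complex.real_smul]
  simp [rc]

theorem Df_all {a : Cn 3 → M3} (h : RotInv a) {p : Cn 3} (hp : p ∈ UU) :
    Df a p = Df a (pt (p 0) (Real.sqrt (nsq p))) := by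
  by_cases hu : 0 < nsq p
  · exact Df_radial h hp hu
  · have h0 : nsq p = 0 := by
      refine le_antisymm (not_lt.1 hu) ?_
      exact add_nonneg (Complex.normSq_nonneg _) (Complex.normSq_nonneg _)
    have h1 : Complex.normSq (p 1) = 0 := by
      have := Complex.normSq_nonneg (p 1)
      have := Complex.normSq_nonneg (p 2)
      simp only [nsq] at h0
      linarith
    have h2 : Complex.normSq (p 2) = 0 := by
      have := Complex.normSq_nonneg (p 1)
      have := Complex.normSq_nonneg (p 2)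
      simp only [nsq] at h0
      linarith
    rw [Complex.normSq_eq_zero] at h1 h2
    have : p = pt (p 0) (Real.sqrt (nsq p)) := by
      rw [h0, Real.sqrt_zero]
      ext i
      fin_cases i
      · rfl
      · simp [pt, h1]
      · simp [pt, h2]
    rw [← this]

section smooth

variable {a : Cn 3 → M3} (hc1 : ∀ j k, ContDiffOn ℝ 1 (fun p => a p j k) UU)

theorem imc_contDiffOn : ContDiffOn ℝ 1 (fun q : ℂ × ℝ => (q.1.im : ℂ)) Om :=
  (Complex.ofRealCLM.contDiff.comp (Complex.imCLM.contDiff.comp contDiff_fst)).contDiffOn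

theorem imc_ne {q : ℂ × ℝ} (hq : q ∈ Om) : (q.1.im : ℂ) ≠ 0 := by
  have : 0 < q.1.im := hq
  exact_mod_cast this.ne'

theorem F1_contDiff : ContDiff ℝ 1 F1 := by
  unfold F1
  exact Real.contDiff_exp.div (contDiff_const.add Real.contDiff_exp) fun t => by positivity

theorem F1c_contDiffOn : ContDiffOn ℝ 1 (fun q : ℂ × ℝ => (F1 q.2 : ℂ)) Om :=
  (Complex.ofRealCLM.contDiff.comp (F1_contDiff.comp contDiff_snd)).contDiffOn

theorem F2c_contOn : ContinuousOn (fun q : ℂ × ℝ => (F2 q.2 : ℂ)) Om :=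
  (Complex.continuous_ofReal.comp (F2_cont.comp continuous_snd)).continuousOn

include hc1 in
theorem GG_cont : ContinuousOn (GG a) Om := by
  have hB := (BB_contDiffOn hc1).continuousOn
  have hA := (AA_contDiffOn hc1).continuousOn
  have hC := (CC_contDiffOn hc1).continuousOn
  have hE := (Eh_contDiffOn hc1).continuousOn
  have hEB := (EhB_contDiffOn hc1).continuousOn
  have hF1 := F1c_contDiffOn.continuousOn
  have hF2 := F2c_contOn
  have hi := imc_contDiffOn.continuousOn
  refine (((continuousOn_const.mul hF2).mul (hB.mul hC)).add ((continuousOn_const.mul hF1).mul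
    ((hA.mul hC).sub (hE.mul hEB)))).add ?_
  refine ContinuousOn.div (((continuousOn_const.mul hF1).sub continuousOn_const).mul (hB.mul hA))
    (hi.pow 2) ?_
  intro q hq
  exact pow_ne_zero 2 (imc_ne hq)

end smooth

/-! ### continuity of the integrand -/

theorem DD_continuous : Continuous fun x : M3 × M3 × M3 => DD x.1 x.2.1 x.2.2 := by
  unfold DD padj
  refine Continuous.matrix_trace ?_
  refine Continuous.matrix_mul continuous_fst ?_
  have h1 : Continuous fun x : M3 × M3 × M3 => x.2.1 := continuous_fst.comp continuous_snd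
  have h2 : Continuous fun x : M3 × M3 × M3 => x.2.2 := continuous_snd.comp continuous_snd
  exact ((h1.add h2).matrix_adjugate.sub h1.matrix_adjugate).sub h2.matrix_adjugate

theorem Nn_pos {p : Cn 3} (hp : p ∈ UU) : 0 < Nn p := by
  have h : 0 < (p 0).im := hp
  have h1 : 0 ≤ nsq p := add_nonneg (Complex.normSq_nonneg _) (Complex.normSq_nonneg _)
  unfold Nn; linarith

theorem rho0_cont : ContinuousOn rho0 UU := by
  have hN : ContinuousOn (fun p : Cn 3 => (Nn p : ℂ)) UU := by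
    unfold Nn nsq
    refine (Complex.continuous_ofReal.comp ?_).continuousOn
    exact (Complex.continuous_im.comp (continuous_apply 0)).add
      ((Complex.continuous_normSq.comp (continuous_apply 1)).add
        (Complex.continuous_normSq.comp (continuous_apply 2)))
  have hN0 : ∀ p ∈ UU, (Nn p : ℂ) ≠ 0 := fun p hp => by exact_mod_cast (Nn_pos hp).ne'
  have hN20 : ∀ p ∈ UU, (Nn p : ℂ) ^ 2 ≠ 0 := fun p hp => pow_ne_zero 2 (hN0 p hp)
  have hy : ContinuousOn (fun p : Cn 3 => ((p 0).im : ℂ)) UU :=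
    (Complex.continuous_ofReal.comp (Complex.continuous_im.comp (continuous_apply 0))).continuousOn
  have hy0 : ∀ p ∈ UU, ((p 0).im : ℂ) ≠ 0 := fun p hp => by
    have : 0 < (p 0).im := hp
    exact_mod_cast this.ne'
  have h1 : ContinuousOn (fun p : Cn 3 => p 1) UU := (continuous_apply 1).continuousOn
  have h2 : ContinuousOn (fun p : Cn 3 => p 2) UU := (continuous_apply 2).continuousOn
  have h1' : ContinuousOn (fun p : Cn 3 => conj (p 1)) UU :=
    (Complex.continuous_conj.comp (continuous_apply 1)).continuousOn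
  have h2' : ContinuousOn (fun p : Cn 3 => conj (p 2)) UU :=
    (Complex.continuous_conj.comp (continuous_apply 2)).continuousOn
  have iN : ContinuousOn (fun p : Cn 3 => 1 / (Nn p : ℂ)) UU := continuousOn_const.div hN hN0
  have h4N : ∀ p ∈ UU, 4 * (Nn p : ℂ) ^ 2 ≠ 0 := fun p hp =>
    mul_ne_zero (by norm_num) (hN20 p hp)
  have h4y : ∀ p ∈ UU, 4 * ((p 0).im : ℂ) ^ 2 ≠ 0 := fun p hp =>
    mul_ne_zero (by norm_num) (pow_ne_zero 2 (hy0 p hp))
  have h2y : ∀ p ∈ UU, 2 * ((p 0).im : ℂ) ^ 2 ≠ 0 := fun p hp =>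
    mul_ne_zero (by norm_num) (pow_ne_zero 2 (hy0 p hp))
  have hTh : ∀ i j, ContinuousOn (fun p => Th p i j) UU := by
    intro i j
    fin_cases i <;> fin_cases j
    · exact ((continuousOn_const.div (continuousOn_const.mul (hN.pow 2)) h4N).neg).add
        (continuousOn_const.div (continuousOn_const.mul (hy.pow 2)) h4y)
    · exact (continuousOn_const.mul h1).div (hN.pow 2) hN20
    · exact (continuousOn_const.mul h2).div (hN.pow 2) hN20
    · exact ((continuousOn_const.mul h1').div (hN.pow 2) hN20).neg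
    · exact iN.sub ((h1'.mul h1).div (hN.pow 2) hN20)
    · exact ((h1'.mul h2).div (hN.pow 2) hN20).neg
    · exact ((continuousOn_const.mul h2').div (hN.pow 2) hN20).neg
    · exact ((h2'.mul h1).div (hN.pow 2) hN20).neg
    · exact iN.sub ((h2'.mul h2).div (hN.pow 2) hN20)
  have hom : ∀ i j, ContinuousOn (fun p => omC p i j) UU := by
    intro i j
    fin_cases i <;> fin_cases j
    · exact continuousOn_const.div (continuousOn_const.mul (hy.pow 2)) h2y
    all_goals exact continuousOn_const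
  refine continuousOn_pi.2 fun i => continuousOn_pi.2 fun j => ?_
  exact (continuousOn_const.mul (hTh i j)).sub (continuousOn_const.mul (hom i j))

theorem Df_cont {a : Cn 3 → M3} (hc1 : ∀ j k, ContDiffOn ℝ 1 (fun p => a p j k) UU) :
    ContinuousOn (Df a) UU := by
  have ha : ContinuousOn a UU :=
    continuousOn_pi.2 fun i => continuousOn_pi.2 fun j => (hc1 i j).continuousOn
  have h := DD_continuous.comp_continuousOn (rho0_cont.prodMk (ha.prodMk ha))
  exact h

/-! ### the reduction -/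

/-- The integrand on the product. -/
noncomputable def gg (φ : ℂ → ℝ) (a : Cn 3 → M3) (x : ℂ × (Fin 2 → ℂ)) : ℂ :=
  (φ x.1 : ℂ) * Df a (pt x.1 (n2 x.2))

theorem UU_meas : MeasurableSet UU := isOpen_UU.measurableSet

theorem Phi_eq1 {φ : ℂ → ℝ} {a : Cn 3 → M3} (h : RotInv a) :
    Phi φ a a = ∫ x in {z : ℂ | 0 < z.im} ×ˢ (univ : Set (Fin 2 → ℂ)), gg φ a x := by
  have hmp := volume_preserving_piFinSuccAbove (fun _ : Fin 3 => ℂ) 0
  have h1 := hmp.setIntegral_preimage_emb
    (MeasurableEquiv.measurableEmbedding _) (gg φ a) ({z : ℂ | 0 < z.im} ×ˢ univ)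
  rw [← h1]
  have hs : (⇑(MeasurableEquiv.piFinSuccAbove (fun _ : Fin 3 => ℂ) 0)) ⁻¹'
      ({z : ℂ | 0 < z.im} ×ˢ univ) = UU := by
    ext p
    simp [UU, MeasurableEquiv.piFinSuccAbove, Fin.insertNthEquiv]
  rw [hs, Phi]
  refine setIntegral_congr_fun UU_meas fun p hp => ?_
  have e : Df a p = Df a (pt (p 0) (Real.sqrt (nsq p))) := Df_all h hp
  show (φ (p 0) : ℂ) * Df a p = _
  rw [e]
  rfl

/-! ### bounds -/

theorem C_nonneg {a : Cn 3 → M3} {C : ℝ} (h : RotInv a) (hb : Bdd a C) : 0 ≤ C := by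
  have hq : ((Complex.I, 0) : ℂ × ℝ) ∈ Om := by show 0 < Complex.I.im; simp
  have h1 := BB_le h hb hq
  have h2 := F1_pos 0
  have h3 := abs_nonneg (BB a (Complex.I, 0)).re
  by_contra hC
  push Not at hC
  have : C * F1 0 < 0 := mul_neg_of_neg_of_pos hC h2
  simp only at h1
  linarith

section bnd

variable {a : Cn 3 → M3} {C : ℝ} (h : RotInv a) (hherm : ∀ p ∈ UU, (a p).IsHermitian)
  (hb : Bdd a C) (hpos : ∀ p ∈ UU, ∀ v : Cn 3, v ≠ 0 → 0 < (hf (a p) v).re)

theorem norm_of_re {x : ℂ} (hx : conj x = x) : ‖x‖ = |x.re| := by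
  conv_lhs => rw [re_of_conj hx]
  rw [Complex.norm_real, Real.norm_eq_abs]

include h hherm hb hpos

theorem GG_le {q : ℂ × ℝ} (hq : q ∈ Om) : ‖GG a q‖ ≤ 11 * C ^ 2 / q.1.im ^ 2 * F2 q.2 := by
  have hy : 0 < q.1.im := hq
  have hC := C_nonneg h hb
  have nB := norm_of_re (conj_BB hherm hq)
  have nA := norm_of_re (conj_AA hherm hq)
  have nC := norm_of_re (conj_CC hherm hq)
  have lB := BB_le h hb hq
  have lA := AA_le h hb hq
  have lC := CC_le h hb hq
  have hE := Eh_sq_le h hherm hpos hq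
  have hEB : ‖EhB a q‖ = ‖Eh a q‖ := by rw [← conj_Eh hherm hq]; simp
  have f1 := F1_pos q.2
  have f1' := (F1_lt q.2).le
  have f2 := F2_pos q.2
  rw [← nB] at lB
  rw [← nA] at lA
  rw [← nC] at lC
  set y := q.1.im with hyd
  have lB' : ‖BB a q‖ ≤ C := lB.trans (by nlinarith)
  have lC' : ‖CC a q‖ ≤ C / (2 * y ^ 2) := by
    refine lC.trans ?_
    have : (1 + F1 q.2) / (4 * y ^ 2) ≤ 2 / (4 * y ^ 2) := by
      apply div_le_div_of_nonneg_right _ (by positivity); linarith
    calc C * ((1 + F1 q.2) / (4 * y ^ 2)) ≤ C * (2 / (4 * y ^ 2)) :=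
          mul_le_mul_of_nonneg_left this hC
      _ = C / (2 * y ^ 2) := by field_simp; ring
  have n0B := norm_nonneg (BB a q)
  have n0A := norm_nonneg (AA a q)
  have n0C := norm_nonneg (CC a q)
  have hAC : ‖AA a q‖ * ‖CC a q‖ ≤ C * F2 q.2 * (C / (2 * y ^ 2)) :=
    mul_le_mul lA lC' n0C (by positivity)
  have hEE : ‖Eh a q‖ * ‖EhB a q‖ ≤ C * F2 q.2 * (C / (2 * y ^ 2)) := by
    rw [hEB]
    calc ‖Eh a q‖ * ‖Eh a q‖ = ‖Eh a q‖ ^ 2 := by ring
      _ ≤ (AA a q).re * (CC a q).re := hE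
      _ ≤ |(AA a q).re * (CC a q).re| := le_abs_self _
      _ = ‖AA a q‖ * ‖CC a q‖ := by rw [abs_mul, nA, nC]
      _ ≤ _ := hAC
  have t1 : ‖6 * (F2 q.2 : ℂ) * (BB a q * CC a q)‖ ≤ 6 * F2 q.2 * (C * (C / (2 * y ^ 2))) := by
    rw [norm_mul, norm_mul, norm_mul, Complex.norm_real, Real.norm_of_nonneg f2.le]
    have : ‖(6 : ℂ)‖ = 6 := by norm_num
    rw [this]
    exact mul_le_mul_of_nonneg_left (mul_le_mul lB' lC' n0C hC) (by positivity)
  have t2 : ‖6 * (F1 q.2 : ℂ) * (AA a q * CC a q - Eh a q * EhB a q)‖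
      ≤ 6 * 1 * (2 * (C * F2 q.2 * (C / (2 * y ^ 2)))) := by
    rw [norm_mul, norm_mul, Complex.norm_real, Real.norm_of_nonneg f1.le]
    have : ‖(6 : ℂ)‖ = 6 := by norm_num
    rw [this]
    refine mul_le_mul (by linarith) ?_ (norm_nonneg _) (by norm_num)
    refine (norm_sub_le _ _).trans ?_
    rw [norm_mul, norm_mul]
    linarith
  have t3 : ‖((3 / 2 : ℂ) * (F1 q.2 : ℂ) - 2) * (BB a q * AA a q) / (y : ℂ) ^ 2‖
      ≤ 2 * (C * (C * F2 q.2)) / y ^ 2 := by
    rw [norm_div, norm_mul, norm_mul, norm_pow, Complex.norm_real, Real.norm_of_nonneg hy.le]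
    have e : ‖(3 / 2 : ℂ) * (F1 q.2 : ℂ) - 2‖ ≤ 2 := by
      have : (3 / 2 : ℂ) * (F1 q.2 : ℂ) - 2 = ((3 / 2 * F1 q.2 - 2 : ℝ) : ℂ) := by push_cast; ring
      rw [this, Complex.norm_real, Real.norm_eq_abs, abs_le]
      constructor <;> linarith
    apply div_le_div_of_nonneg_right _ (by positivity)
    exact mul_le_mul e (mul_le_mul lB' lA n0A hC) (by positivity) (by norm_num)
  have t4 : ‖GG a q‖ ≤ 6 * F2 q.2 * (C * (C / (2 * y ^ 2)))
      + 6 * 1 * (2 * (C * F2 q.2 * (C / (2 * y ^ 2)))) + 2 * (C * (C * F2 q.2)) / y ^ 2 := by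
    refine (norm_add_le _ _).trans (add_le_add ((norm_add_le _ _).trans (add_le_add t1 t2)) t3)
  refine t4.trans (le_of_eq ?_)
  field_simp
  ring

end bnd

section red

variable {Γ : Subgroup SL(2, ℝ)} {φ : ℂ → ℝ} (hφ : Cutoff Γ φ)
  {a : Cn 3 → M3} {C : ℝ} (h : RotInv a) (hc1 : ∀ j k, ContDiffOn ℝ 1 (fun p => a p j k) UU)
  (hherm : ∀ p ∈ UU, (a p).IsHermitian)
  (hb : Bdd a C) (hpos : ∀ p ∈ UU, ∀ v : Cn 3, v ≠ 0 → 0 < (hf (a p) v).re)

include hφ h hc1 hherm hb hpos

/-- The domination of `φ GG` -/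
theorem phiGG_integrable :
    Integrable (fun q : ℂ × ℝ => (φ q.1 : ℂ) * GG a q) ((volume : Measure ℂ).prod volume) := by
  have hdom1 : Integrable (fun z : ℂ => (φ z : ℂ) * ((11 * C ^ 2 : ℝ) / (z.im : ℂ) ^ 2)) := by
    refine integrable_phi hφ ?_
    refine continuousOn_const.div ?_ ?_
    · exact ((Complex.continuous_ofReal.comp Complex.continuous_im).pow 2).continuousOn
    · intro z hz
      have : 0 < z.im := hz
      exact pow_ne_zero 2 (by exact_mod_cast this.ne')
  have hdom : Integrable (fun q : ℂ × ℝ => ‖(φ q.1 : ℂ) * ((11 * C ^ 2 : ℝ) / (q.1.im : ℂ) ^ 2)‖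
      * F2 q.2) ((volume : Measure ℂ).prod volume) := hdom1.norm.mul_prod F2_integrable
  have hc : ContinuousOn (fun q : ℂ × ℝ => (φ q.1 : ℂ) * GG a q) Om :=
    ((phi_contC hφ).comp continuous_fst).continuousOn.mul (GG_cont hc1)
  have h1 : IntegrableOn (fun q : ℂ × ℝ => (φ q.1 : ℂ) * GG a q) Om
      ((volume : Measure ℂ).prod volume) := by
    refine hdom.integrableOn.mono' (hc.aestronglyMeasurable isOpen_Om.measurableSet) ?_
    refine (ae_restrict_iff' isOpen_Om.measurableSet).2 (Filter.Eventually.of_forall fun q hq => ?_)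
    have hy : 0 < q.1.im := hq
    rw [norm_mul, norm_mul, mul_assoc]
    refine mul_le_mul_of_nonneg_left ?_ (norm_nonneg _)
    refine (GG_le h hherm hb hpos hq).trans (le_of_eq ?_)
    rw [norm_div, norm_pow, Complex.norm_real, Complex.norm_real, Real.norm_of_nonneg hy.le,
      Real.norm_of_nonneg (by positivity)]
  refine (integrableOn_iff_integrable_of_support_subset ?_).1 h1
  intro q hq
  by_contra hn
  apply hq
  show (φ q.1 : ℂ) * GG a q = 0
  rw [phi_zero' hφ hn]; simp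

theorem gg_integrable (z : ℂ) (hz : 0 < z.im) :
    Integrable (fun t : ℝ => (φ z : ℂ) * GG a (z, t)) := by
  have hdom : Integrable (fun t : ℝ => ‖(φ z : ℂ)‖ * ((11 * C ^ 2 / z.im ^ 2) * F2 t)) :=
    (F2_integrable.const_mul _).const_mul _
  refine hdom.mono' ?_ ?_
  · exact (continuous_const.mul (slice_cont_t (GG_cont hc1) hz)).aestronglyMeasurable
  · refine Filter.Eventually.of_forall fun t => ?_
    rw [norm_mul]
    exact mul_le_mul_of_nonneg_left (GG_le h hherm hb hpos (q := (z, t)) hz) (norm_nonneg _)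

theorem gg_slice (z : ℂ) (hz : 0 < z.im) :
    Integrable (fun u : Fin 2 → ℂ => gg φ a (z, u)) ∧
    (∫ u : Fin 2 → ℂ, gg φ a (z, u) = (kap / 2) • ∫ t : ℝ, (φ z : ℂ) * GG a (z, t)) ∧
    ∫ u : Fin 2 → ℂ, ‖gg φ a (z, u)‖ = (kap / 2) • ∫ t : ℝ, ‖(φ z : ℂ) * GG a (z, t)‖ := by
  have e : ∀ t : ℝ, (rr (z, t) ^ 4) • ((φ z : ℂ) * Df a (pt z (rr (z, t))))
      = (φ z : ℂ) * GG a (z, t) := by
    intro t
    rw [← GG_eq h (q := (z, t)) hz, mul_smul_comm]
    rfl
  refine ⟨?_, ?_, ?_⟩
  · have h1 := integrable_polar z (f := fun r => (φ z : ℂ) * Df a (pt z r))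
    simp only [e] at h1
    exact h1.2 (gg_integrable hφ h hc1 hherm hb hpos z hz)
  · have h1 := int_polar z (f := fun r => (φ z : ℂ) * Df a (pt z r))
    simp only [e] at h1
    exact h1
  · have h1 := int_polar z (f := fun r => ‖(φ z : ℂ) * Df a (pt z r)‖)
    have e2 : ∀ t : ℝ, (rr (z, t) ^ 4) • ‖(φ z : ℂ) * Df a (pt z (rr (z, t)))‖
        = ‖(φ z : ℂ) * GG a (z, t)‖ := by
      intro t
      rw [← e t, norm_smul, Real.norm_of_nonneg (by have := rr_pos (z, t); positivity), smul_eq_mul]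
    simp only [e2] at h1
    exact h1

theorem Phi_eq : Phi φ a a = (kap / 2) • ∫ t : ℝ, ∫ z : ℂ, (φ z : ℂ) * GG a (z, t) := by
  have hmH : MeasurableSet {z : ℂ | 0 < z.im} :=
    (isOpen_lt continuous_const Complex.continuous_im).measurableSet
  rw [Phi_eq1 h]
  have hprod : (volume : Measure (ℂ × (Fin 2 → ℂ))).restrict ({z : ℂ | 0 < z.im} ×ˢ univ)
      = (volume.restrict {z : ℂ | 0 < z.im}).prod volume := by
    have := Measure.prod_restrict (μ := (volume : Measure ℂ))
      (ν := (volume : Measure (Fin 2 → ℂ))) {z : ℂ | 0 < z.im} univ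
    rw [Measure.restrict_univ] at this
    rw [this]
    rfl
  have hn2 : Continuous n2 := by
    unfold n2
    exact ((Complex.continuous_normSq.comp (continuous_apply 0)).add
      (Complex.continuous_normSq.comp (continuous_apply 1))).sqrt
  have hpt : Continuous fun x : ℂ × (Fin 2 → ℂ) => pt x.1 (n2 x.2) := by
    refine continuous_pi fun i => ?_
    fin_cases i
    · exact continuous_fst
    · exact Complex.continuous_ofReal.comp (hn2.comp continuous_snd)
    · exact continuous_const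
  have hgc : ContinuousOn (gg φ a) ({z : ℂ | 0 < z.im} ×ˢ univ) := by
    refine ((phi_contC hφ).comp continuous_fst).continuousOn.mul ?_
    exact (Df_cont hc1).comp hpt.continuousOn fun x hx => hx.1
  have hmeas : AEStronglyMeasurable (gg φ a)
      ((volume.restrict {z : ℂ | 0 < z.im}).prod volume) := by
    rw [← hprod]
    exact hgc.aestronglyMeasurable (hmH.prod MeasurableSet.univ)
  have hGI := phiGG_integrable hφ h hc1 hherm hb hpos
  have hint : Integrable (gg φ a) ((volume.restrict {z : ℂ | 0 < z.im}).prod volume) := by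
    rw [integrable_prod_iff hmeas]
    constructor
    · refine (ae_restrict_iff' hmH).2 (Filter.Eventually.of_forall fun z hz => ?_)
      exact (gg_slice hφ h hc1 hherm hb hpos z hz).1
    · have h2 : Integrable (fun z : ℂ => (kap / 2) • ∫ t : ℝ, ‖(φ z : ℂ) * GG a (z, t)‖)
          (volume.restrict {z : ℂ | 0 < z.im}) := by
        have h5 : Integrable (fun z : ℂ => ∫ t : ℝ, ‖(φ z : ℂ) * GG a (z, t)‖)
            (volume.restrict {z : ℂ | 0 < z.im}) := hGI.integral_norm_prod_left.integrableOn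
        exact h5.smul (kap / 2)
      refine h2.congr ?_
      refine (ae_restrict_iff' hmH).2 (Filter.Eventually.of_forall fun z hz => ?_)
      exact (gg_slice hφ h hc1 hherm hb hpos z hz).2.2.symm
  rw [hprod, integral_prod _ hint]
  have h3 : ∫ z in {z : ℂ | 0 < z.im}, ∫ u : Fin 2 → ℂ, gg φ a (z, u)
      = ∫ z in {z : ℂ | 0 < z.im}, (kap / 2) • ∫ t : ℝ, (φ z : ℂ) * GG a (z, t) :=
    setIntegral_congr_fun hmH fun z hz => (gg_slice hφ h hc1 hherm hb hpos z hz).2.1
  rw [h3, integral_smul]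
  congr 1
  have h4 : ∫ z in {z : ℂ | 0 < z.im}, ∫ t : ℝ, (φ z : ℂ) * GG a (z, t)
      = ∫ z, ∫ t : ℝ, (φ z : ℂ) * GG a (z, t) := by
    refine setIntegral_eq_integral_of_forall_compl_eq_zero fun z hz => ?_
    rw [phi_zero' hφ hz]; simp
  rw [h4]
  exact integral_integral_swap (f := fun (z : ℂ) (t : ℝ) => (φ z : ℂ) * GG a (z, t)) hGI

end red

end Pool.Agent.TH55.J122
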