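import Pool.Agent.TH55.J122g

/-!
# KG-H, part h: vanishing of the divergence terms, monotonicity and oscillation
-/

set_option autoImplicit false

open scoped Manifold ContDiff Topology ComplexConjugate MatrixGroups UpperHalfPlane Matrix
open MeasureTheory Set Filter

namespace Pool.Agent.TH55.J122

open Pool.Agent.TH598.KG
open Pool.Agent.W549.CY (Cn dz dzbar HermitianMetric chernRicci chernScalar)
open Pool.Agent.W711.KC (jj nn jj_ne im_mob det_eq)

theorem EhB_equi {Γ : Subgroup SL(2, ℝ)} {a : Cn 3 → M3} (h : RotInv a) (he : Equi Γ a)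
    (hherm : ∀ p ∈ UU, (a p).IsHermitian) {g : SL(2, ℝ)}
    (hg : g ∈ Γ) {q : ℂ × ℝ} (hq : q ∈ Om) :
    EhB a (mq g q) = conj (jj g q.1) ^ 2 * EhB a q := by
  rw [← conj_Eh hherm (mq_mem g hq), ← conj_Eh hherm hq, Eh_equi h he hg hq, map_mul, map_pow]

/-- `6 F' b C - 2 λ b²` -/
noncomputable def HH (a : Cn 3 → M3) (q : ℂ × ℝ) : ℂ :=
  (6 * (F1 q.2 : ℂ)) * (BB a q * CC a q) + (-4 : ℂ) * ((nu q * nub q) * (BB a q * BB a q))

/-- `C - λ b / 2` -/
noncomputable def FF (a : Cn 3 → M3) (q : ℂ × ℝ) : ℂ :=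
  CC a q + (-1 : ℂ) * ((nu q * nub q) * BB a q)

section deriv

variable {a : Cn 3 → M3} (h : RotInv a) (hc1 : ∀ j k, ContDiffOn ℝ 1 (fun p => a p j k) UU)
  (hcl : Closed a)

include hc1 in
theorem HH_contDiffOn : ContDiffOn ℝ 1 (HH a) Om :=
  ((contDiffOn_const.mul F1c_contDiffOn).mul ((BB_contDiffOn hc1).mul (CC_contDiffOn hc1))).add
    (contDiffOn_const.mul ((nu_contDiffOn.mul nub_contDiffOn).mul
      ((BB_contDiffOn hc1).mul (BB_contDiffOn hc1))))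

include hc1 in
theorem FF_contDiffOn : ContDiffOn ℝ 1 (FF a) Om :=
  (CC_contDiffOn hc1).add
    (contDiffOn_const.mul ((nu_contDiffOn.mul nub_contDiffOn).mul (BB_contDiffOn hc1)))

theorem Dt_const (c : ℂ) (q : ℂ × ℝ) : Dt (fun _ => c) q = 0 := by
  simp [Dt]

theorem Dt_F1 (q : ℂ × ℝ) : Dt (fun q : ℂ × ℝ => (F1 q.2 : ℂ)) q = (F2 q.2 : ℂ) := by
  have h2 : HasFDerivAt (fun q : ℂ × ℝ => q.2) (ContinuousLinearMap.snd ℝ ℂ ℝ) q :=
    (ContinuousLinearMap.snd ℝ ℂ ℝ).hasFDerivAt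
  have h3 := (F1_deriv q.2).comp_hasFDerivAt q h2
  have h4 : HasFDerivAt (fun q : ℂ × ℝ => (F1 q.2 : ℂ)) _ q :=
    HasFDerivAt.comp q Complex.ofRealCLM.hasFDerivAt h3
  simp only [Dt]
  rw [h4.fderiv]
  simp

include hc1 h hcl in
theorem Dt_FF {q : ℂ × ℝ} (hq : q ∈ Om) : Dt (FF a) q = Dz (EhB a) q := by
  have dC := dAt (CC_contDiffOn hc1) hq
  have dB := dAt (BB_contDiffOn hc1) hq
  have dnu := dAt nu_contDiffOn hq
  have dnub := dAt nub_contDiffOn hq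
  have dc : DifferentiableAt ℝ (fun _ : ℂ × ℝ => (-1 : ℂ)) q := differentiableAt_const _
  have tnn : Dt (fun q => nu q * nub q) q = nu q * Dt nub q + nub q * Dt nu q := Dt_mul dnu dnub
  have t1 : Dt (fun q => (nu q * nub q) * BB a q) q
      = (nu q * nub q) * Dt (BB a) q + BB a q * Dt (fun q => nu q * nub q) q :=
    Dt_mul (dnu.mul dnub) dB
  have t2 : Dt (fun q => (-1 : ℂ) * ((nu q * nub q) * BB a q)) q
      = (-1 : ℂ) * Dt (fun q => (nu q * nub q) * BB a q) q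
        + ((nu q * nub q) * BB a q) * Dt (fun _ => (-1 : ℂ)) q :=
    Dt_mul dc ((dnu.mul dnub).mul dB)
  have t3 : Dt (FF a) q = Dt (CC a) q + Dt (fun q => (-1 : ℂ) * ((nu q * nub q) * BB a q)) q :=
    Dt_add dC (dc.mul ((dnu.mul dnub).mul dB))
  rw [t3, t2, t1, tnn, Dt_const, Dt_nu hq, Dt_nub hq, Dt_CC h hc1 hcl hq, Dt_BB h hc1 hcl hq]
  ring

include hc1 h hcl in
theorem Dt_HH {q : ℂ × ℝ} (hq : q ∈ Om) :
    Dt (HH a) q = GG a q + (6 * (F1 q.2 : ℂ)) * Dz (fun q => BB a q * EhB a q) q := by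
  have hy := imc_ne hq
  have dC := dAt (CC_contDiffOn hc1) hq
  have dB := dAt (BB_contDiffOn hc1) hq
  have dE := dAt (EhB_contDiffOn hc1) hq
  have dnu := dAt nu_contDiffOn hq
  have dnub := dAt nub_contDiffOn hq
  have dF := dAt F1c_contDiffOn hq
  have dc : DifferentiableAt ℝ (fun _ : ℂ × ℝ => (-4 : ℂ)) q := differentiableAt_const _
  have dc6 : DifferentiableAt ℝ (fun _ : ℂ × ℝ => (6 : ℂ)) q := differentiableAt_const _
  have tnn : Dt (fun q => nu q * nub q) q = nu q * Dt nub q + nub q * Dt nu q := Dt_mul dnu dnub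
  have tbb : Dt (fun q => BB a q * BB a q) q = BB a q * Dt (BB a) q + BB a q * Dt (BB a) q :=
    Dt_mul dB dB
  have t1 : Dt (fun q => (nu q * nub q) * (BB a q * BB a q)) q
      = (nu q * nub q) * Dt (fun q => BB a q * BB a q) q
        + (BB a q * BB a q) * Dt (fun q => nu q * nub q) q :=
    Dt_mul (dnu.mul dnub) (dB.mul dB)
  have t2 : Dt (fun q => (-4 : ℂ) * ((nu q * nub q) * (BB a q * BB a q))) q
      = (-4 : ℂ) * Dt (fun q => (nu q * nub q) * (BB a q * BB a q)) q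
        + ((nu q * nub q) * (BB a q * BB a q)) * Dt (fun _ => (-4 : ℂ)) q :=
    Dt_mul dc ((dnu.mul dnub).mul (dB.mul dB))
  have t4 : Dt (fun q => BB a q * CC a q) q = BB a q * Dt (CC a) q + CC a q * Dt (BB a) q :=
    Dt_mul dB dC
  have t5 : Dt (fun q => 6 * (F1 q.2 : ℂ)) q = 6 * Dt (fun q : ℂ × ℝ => (F1 q.2 : ℂ)) q
      + (F1 q.2 : ℂ) * Dt (fun _ => (6 : ℂ)) q := Dt_mul dc6 dF
  have t6 : Dt (fun q => (6 * (F1 q.2 : ℂ)) * (BB a q * CC a q)) q
      = (6 * (F1 q.2 : ℂ)) * Dt (fun q => BB a q * CC a q) q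
        + (BB a q * CC a q) * Dt (fun q : ℂ × ℝ => 6 * (F1 q.2 : ℂ)) q :=
    Dt_mul (dc6.mul dF) (dB.mul dC)
  have t3 : Dt (HH a) q = Dt (fun q => (6 * (F1 q.2 : ℂ)) * (BB a q * CC a q)) q
      + Dt (fun q => (-4 : ℂ) * ((nu q * nub q) * (BB a q * BB a q))) q :=
    Dt_add ((dc6.mul dF).mul (dB.mul dC)) (dc.mul ((dnu.mul dnub).mul (dB.mul dB)))
  have t7 : Dz (fun q => BB a q * EhB a q) q = BB a q * Dz (EhB a) q + EhB a q * Dz (BB a) q :=
    Dz_mul dB dE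
  rw [t3, t2, t1, t6, t5, t4, tnn, tbb, t7, Dt_const, Dt_const, Dt_nu hq, Dt_nub hq,
    Dt_CC h hc1 hcl hq, Dt_BB h hc1 hcl hq, Dt_F1, Dz_BB h hc1 hcl hq, nu_nub hq]
  simp only [GG]
  field_simp
  ring

end deriv

section van

variable {Γ : Subgroup SL(2, ℝ)} {φ : ℂ → ℝ} (hφ : Cutoff Γ φ)
    (hBL : ∀ β : ℂ → ℂ, ContinuousOn β {z | 0 < z.im} →
      (∀ g ∈ Γ, ∀ z : ℂ, 0 < z.im → β (nn g z / jj g z) = conj (jj g z) ^ 2 * β z) →
      ∫ z in {z : ℂ | 0 < z.im}, β z * d1 (fun w => (φ w : ℂ)) z = 0)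

include hφ hBL

theorem van {F : ℂ × ℝ → ℂ} (hF : ContDiffOn ℝ 1 F Om)
    (hE : ∀ g ∈ Γ, ∀ q ∈ Om, F (mq g q) = conj (jj g q.1) ^ 2 * F q) (t : ℝ) :
    ∫ z, (φ z : ℂ) * Dz F (z, t) = 0 := by
  have hβ : ContDiffOn ℝ 1 (fun z : ℂ => F (z, t)) {z | 0 < z.im} :=
    hF.comp (contDiff_id.prodMk contDiff_const).contDiffOn fun z hz => hz
  have h1 := ibp hφ hβ
  have h2 := hBL (fun z : ℂ => F (z, t)) hβ.continuousOn fun g hg z hz => hE g hg (z, t) hz
  rw [h2, neg_zero] at h1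
  rw [← h1]
  congr 1
  funext z
  by_cases hz : 0 < z.im
  · rw [d1_slice (dAt hF (q := (z, t)) hz)]
  · rw [phi_zero' hφ hz]; simp

end van

/-! ### monotonicity -/

section mono

variable {a : Cn 3 → M3} {C : ℝ} (h : RotInv a)
  (hc1 : ∀ j k, ContDiffOn ℝ 1 (fun p => a p j k) UU) (hcl : Closed a)
  (hherm : ∀ p ∈ UU, (a p).IsHermitian)
  (hb : Bdd a C) (hpos : ∀ p ∈ UU, ∀ v : Cn 3, v ≠ 0 → 0 < (hf (a p) v).re)

include h hc1 hcl hpos in
theorem BB_mono {z : ℂ} (hz : 0 < z.im) : Monotone fun t => (BB a (z, t)).re := by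
  have hd : ∀ t, HasDerivAt (fun t => (BB a (z, t)).re) (AA a (z, t)).re t := by
    intro t
    have h1 := hasDerivAt_slice (dAt (BB_contDiffOn hc1) (q := (z, t)) hz)
    rw [Dt_BB h hc1 hcl (q := (z, t)) hz] at h1
    exact Complex.reCLM.hasFDerivAt.comp_hasDerivAt t h1
  refine monotone_of_deriv_nonneg (fun t => (hd t).differentiableAt) fun t => ?_
  rw [(hd t).deriv]
  exact (AA_pos h hpos (q := (z, t)) hz).le

include h hb in
theorem BB_le_C {z : ℂ} (hz : 0 < z.im) (t : ℝ) : (BB a (z, t)).re ≤ C := by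
  have h1 := BB_le h hb (q := (z, t)) hz
  have h2 := C_nonneg h hb
  have h3 := (F1_lt t).le
  have h4 := le_abs_self (BB a (z, t)).re
  simp only at h1
  nlinarith

include h hc1 hcl hb hpos in
theorem exists_lim {z : ℂ} (hz : 0 < z.im) : ∃ b : ℝ, 0 < b ∧
    Tendsto (fun t => (BB a (z, t)).re) atTop (𝓝 b) := by
  have hbdd : BddAbove (range fun t => (BB a (z, t)).re) := by
    refine ⟨C, ?_⟩
    rintro _ ⟨t, rfl⟩
    exact BB_le_C h hb hz t
  refine ⟨⨆ t, (BB a (z, t)).re, ?_, tendsto_atTop_ciSup (BB_mono h hc1 hcl hpos hz) hbdd⟩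
  exact lt_of_lt_of_le (BB_pos h hpos (q := (z, 0)) hz) (le_ciSup hbdd 0)

/-! ### oscillation -/

theorem conj_fderiv {f : ℂ → ℂ} {z : ℂ} (hf : DifferentiableAt ℝ f z)
    (hc : ∀ᶠ w in 𝓝 z, conj (f w) = f w) (v : ℂ) :
    conj (fderiv ℝ f z v) = fderiv ℝ f z v := by
  have h1 : HasFDerivAt (fun w => conj (f w))
      ((Complex.conjCLE : ℂ →L[ℝ] ℂ).comp (fderiv ℝ f z)) z :=
    HasFDerivAt.comp z (Complex.conjCLE : ℂ →L[ℝ] ℂ).hasFDerivAt hf.hasFDerivAt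
  have h2 : HasFDerivAt f ((Complex.conjCLE : ℂ →L[ℝ] ℂ).comp (fderiv ℝ f z)) z :=
    h1.congr_of_eventuallyEq (hc.mono fun w hw => hw.symm)
  have h3 := h2.fderiv
  conv_rhs => rw [h3]
  rfl

theorem norm_fderiv_le {f : ℂ → ℂ} {z : ℂ} (hf : DifferentiableAt ℝ f z)
    (hc : ∀ᶠ w in 𝓝 z, conj (f w) = f w) : ‖fderiv ℝ f z‖ ≤ 4 * ‖d1 f z‖ := by
  have r1 := re_of_conj (conj_fderiv hf hc 1)
  have r2 := re_of_conj (conj_fderiv hf hc Complex.I)
  set x := (fderiv ℝ f z 1).re with hx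
  set y := (fderiv ℝ f z Complex.I).re with hy
  have hd : d1 f z = (1 / 2) * ((x : ℂ) - Complex.I * y) := by
    simp only [d1]
    rw [r1, r2]
  have hre : (d1 f z).re = x / 2 := by rw [hd]; simp; ring
  have him : (d1 f z).im = -(y / 2) := by rw [hd]; simp; ring
  have h1 : |x| ≤ 2 * ‖d1 f z‖ := by
    have := Complex.abs_re_le_norm (d1 f z)
    rw [hre, abs_div, abs_of_pos (by norm_num : (0 : ℝ) < 2)] at this
    linarith
  have h2 : |y| ≤ 2 * ‖d1 f z‖ := by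
    have := Complex.abs_im_le_norm (d1 f z)
    rw [him, abs_neg, abs_div, abs_of_pos (by norm_num : (0 : ℝ) < 2)] at this
    linarith
  refine ContinuousLinearMap.opNorm_le_bound _ (by positivity) fun ζ => ?_
  have e : fderiv ℝ f z ζ = ζ.re * x + ζ.im * y := by
    have : ζ = ζ.re • (1 : ℂ) + ζ.im • Complex.I := by
      apply Complex.ext <;> simp
    conv_lhs => rw [this]
    rw [map_add, map_smul, map_smul, r1, r2]
    simp
  rw [e]
  refine (norm_add_le _ _).trans ?_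
  rw [norm_mul, norm_mul, Complex.norm_real, Complex.norm_real, Complex.norm_real,
    Complex.norm_real, Real.norm_eq_abs, Real.norm_eq_abs, Real.norm_eq_abs, Real.norm_eq_abs]
  have g1 := Complex.abs_re_le_norm ζ
  have g2 := Complex.abs_im_le_norm ζ
  have k1 : |ζ.re| * |x| ≤ ‖ζ‖ * (2 * ‖d1 f z‖) :=
    mul_le_mul g1 h1 (abs_nonneg _) (norm_nonneg _)
  have k2 : |ζ.im| * |y| ≤ ‖ζ‖ * (2 * ‖d1 f z‖) :=
    mul_le_mul g2 h2 (abs_nonneg _) (norm_nonneg _)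
  nlinarith

include h hc1 hcl hherm hb hpos in
theorem osc {m : ℝ} (hm : 0 < m) {z w : ℂ} (hz : m ≤ z.im) (hw : m ≤ w.im) (T : ℝ) :
    ‖BB a (z, T) - BB a (w, T)‖ ≤ 4 * (C / m * Real.sqrt (F2 T)) * ‖z - w‖ := by
  have hC := C_nonneg h hb
  have hopen : IsOpen {z : ℂ | 0 < z.im} := isOpen_lt continuous_const Complex.continuous_im
  refine Convex.norm_image_sub_le_of_norm_fderiv_le (𝕜 := ℝ) (f := fun z => BB a (z, T))
    (s := {z : ℂ | m ≤ z.im}) ?_ ?_ (convex_halfSpace_im_ge m) hw hz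
  · intro x hx
    have hx' : 0 < x.im := lt_of_lt_of_le hm hx
    exact (hasFDerivAt_slice (dAt (BB_contDiffOn hc1) (q := (x, T)) hx')).differentiableAt
  · intro x hx
    have hx' : 0 < x.im := lt_of_lt_of_le hm hx
    have hd := (hasFDerivAt_slice (dAt (BB_contDiffOn hc1) (q := (x, T)) hx')).differentiableAt
    have hc : ∀ᶠ w in 𝓝 x, conj (BB a (w, T)) = BB a (w, T) := by
      filter_upwards [hopen.mem_nhds hx'] with w hw
      exact conj_BB hherm (q := (w, T)) hw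
    refine (norm_fderiv_le hd hc).trans ?_
    refine mul_le_mul_of_nonneg_left ?_ (by norm_num)
    rw [d1_slice (dAt (BB_contDiffOn hc1) (q := (x, T)) hx'), Dz_BB h hc1 hcl (q := (x, T)) hx']
    have hE := Eh_sq_le h hherm hpos (q := (x, T)) hx'
    have lA := AA_le h hb (q := (x, T)) hx'
    have lC := CC_le h hb (q := (x, T)) hx'
    simp only at lA lC
    have f2 := F2_pos T
    have f1 := F1_pos T
    have f1' := (F1_lt T).le
    have lC' : |(CC a (x, T)).re| ≤ C / m ^ 2 := by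
      refine lC.trans ?_
      rw [div_eq_mul_inv C]
      refine mul_le_mul_of_nonneg_left ?_ hC
      have hxm : m ^ 2 ≤ x.im ^ 2 := pow_le_pow_left₀ hm.le hx 2
      have hm2 : 0 < m ^ 2 := by positivity
      rw [← one_div, div_le_div_iff₀ (by positivity) hm2]
      nlinarith [mul_le_mul_of_nonneg_right f1' hm2.le]
    have h3 : ‖Eh a (x, T)‖ ^ 2 ≤ (C / m * Real.sqrt (F2 T)) ^ 2 := by
      refine hE.trans ?_
      calc (AA a (x, T)).re * (CC a (x, T)).re ≤ |(AA a (x, T)).re * (CC a (x, T)).re| :=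
            le_abs_self _
        _ = |(AA a (x, T)).re| * |(CC a (x, T)).re| := abs_mul _ _
        _ ≤ (C * F2 T) * (C / m ^ 2) := mul_le_mul lA lC' (abs_nonneg _) (by positivity)
        _ = (C / m * Real.sqrt (F2 T)) ^ 2 := by
            rw [mul_pow, Real.sq_sqrt f2.le]; field_simp
    exact (pow_le_pow_iff_left₀ (norm_nonneg _) (by positivity) two_ne_zero).1 h3

end mono

end Pool.Agent.TH55.J122
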