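import Pool.Agent.TH599.VR.Defs

set_option autoImplicit false

open Pool.Agent.TH599.VR Metric

namespace Pool.Agent.TH55.J2566

/-- greedy choice of signs -/
theorem signs {ι V : Type*} [NormedAddCommGroup V] [InnerProductSpace ℝ V] (s : Finset ι)
    (a : ι → V) : ∃ e : ι → ℝ, (∀ j, |e j| = 1) ∧
      ∑ j ∈ s, ‖a j‖ ^ 2 ≤ ‖∑ j ∈ s, e j • a j‖ ^ 2 := by
  classical
  induction s using Finset.induction_on with
  | empty => exact ⟨fun _ => 1, fun _ => by simp, by simp⟩
  | insert i s hi ih =>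
    obtain ⟨e, he, h⟩ := ih
    set w := ∑ j ∈ s, e j • a j with hw
    have hpar : ‖a i + w‖ ^ 2 + ‖-a i + w‖ ^ 2 = 2 * (‖a i‖ ^ 2 + ‖w‖ ^ 2) := by
      have h1 := parallelogram_law_with_norm ℝ w (a i)
      have e1 : a i + w = w + a i := add_comm _ _
      have e2 : -a i + w = w - a i := by abel
      rw [e1, e2]
      nlinarith [h1]
    rcases le_total (‖a i‖ ^ 2 + ‖w‖ ^ 2) (‖a i + w‖ ^ 2) with h2 | h2
    · refine ⟨Function.update e i 1, ?_, ?_⟩
      · intro j
        by_cases hj : j = i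
        · subst hj; simp
        · rw [Function.update_of_ne hj]; exact he j
      · rw [Finset.sum_insert hi, Finset.sum_insert hi, Function.update_self, one_smul]
        have h3 : ∑ j ∈ s, Function.update e i 1 j • a j = w := by
          apply Finset.sum_congr rfl
          intro j hj
          rw [Function.update_of_ne (fun hji : j = i => hi (by rw [← hji]; exact hj))]
        rw [h3]
        linarith
    · refine ⟨Function.update e i (-1), ?_, ?_⟩
      · intro j
        by_cases hj : j = i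
        · subst hj; simp
        · rw [Function.update_of_ne hj]; exact he j
      · rw [Finset.sum_insert hi, Finset.sum_insert hi, Function.update_self, neg_one_smul]
        have h3 : ∑ j ∈ s, Function.update e i (-1) j • a j = w := by
          apply Finset.sum_congr rfl
          intro j hj
          rw [Function.update_of_ne (fun hji : j = i => hi (by rw [← hji]; exact hj))]
        rw [h3]
        linarith

/-- a determinant bound from the Frobenius norm -/
theorem det_sq_le {I : Type*} [Fintype I] [DecidableEq I] [Nonempty I] (A : Matrix I I ℝ) :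
    A.det ^ 2 ≤ ((∑ p, ∑ q, A p q ^ 2) / Fintype.card I) ^ (Fintype.card I) := by
  have hP := Matrix.posSemidef_self_mul_conjTranspose A
  have hdet : (A * A.conjTranspose).det = A.det ^ 2 := by
    rw [Matrix.det_mul, Matrix.det_conjTranspose]
    simp [sq]
  have htr : (A * A.conjTranspose).trace = ∑ p, ∑ q, A p q ^ 2 := by
    simp [Matrix.trace, Matrix.mul_apply, sq]
  have h1 := hP.isHermitian.det_eq_prod_eigenvalues
  have h2 := hP.isHermitian.trace_eq_sum_eigenvalues
  simp only [RCLike.ofReal_real_eq_id, id_eq] at h1 h2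
  rw [← hdet, ← htr, h1, h2]
  set n := Fintype.card I with hn
  have hn0 : (n : ℝ) ≠ 0 := by
    have : 0 < n := Fintype.card_pos
    positivity
  have h4 := Real.geom_mean_le_arith_mean_weighted (Finset.univ : Finset I)
    (fun _ => (1 / n : ℝ)) hP.isHermitian.eigenvalues (fun _ _ => by positivity)
    (by simp [← hn, hn0]) (fun i _ => hP.eigenvalues_nonneg i)
  have h5 : (∏ i, hP.isHermitian.eigenvalues i) =
      (∏ i, hP.isHermitian.eigenvalues i ^ (1 / n : ℝ)) ^ n := by
    rw [← Finset.prod_pow]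
    apply Finset.prod_congr rfl
    intro i _
    rw [← Real.rpow_natCast, ← Real.rpow_mul (hP.eigenvalues_nonneg i), one_div,
      inv_mul_cancel₀ hn0, Real.rpow_one]
  rw [h5]
  apply pow_le_pow_left₀ (Finset.prod_nonneg fun i _ =>
    Real.rpow_nonneg (hP.eigenvalues_nonneg i) _)
  refine h4.trans (le_of_eq ?_)
  rw [← Finset.mul_sum]
  ring

theorem det_le (J m : ℕ) (hJ : 1 ≤ J) (hm : 1 ≤ m)
    (L : EuclideanSpace ℝ (Fin J × Fin m) ≃ₗ[ℝ] EuclideanSpace ℝ (Fin J × Fin m))
    (c : EuclideanSpace ℝ (Fin J × Fin m))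
    (h : (fun x => L x + c) '' closedBall (0 : EuclideanSpace ℝ (Fin J × Fin m)) 1 ⊆ cubes J m) :
    |LinearMap.det (L : EuclideanSpace ℝ (Fin J × Fin m) →ₗ[ℝ] EuclideanSpace ℝ (Fin J × Fin m))| ^ 2
      * (J : ℝ) ^ (J * m) ≤ 1 := by
  classical
  have : NeZero J := ⟨by omega⟩
  have : NeZero m := ⟨by omega⟩
  set LL : EuclideanSpace ℝ (Fin J × Fin m) →ₗ[ℝ] EuclideanSpace ℝ (Fin J × Fin m) :=
    L.toLinearMap with hLL
  set b := (EuclideanSpace.basisFun (Fin J × Fin m) ℝ).toBasis with hb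
  set A := LinearMap.toMatrix b b LL with hA
  set v : Fin J × Fin m → EuclideanSpace ℝ (Fin J × Fin m) := fun p =>
    LinearMap.adjoint LL (EuclideanSpace.single p 1) with hv
  have hvu : ∀ p u, inner ℝ (v p) u = LL u p := by
    intro p u
    simp only [hv]
    rw [LinearMap.adjoint_inner_left, EuclideanSpace.inner_single_left]
    simp
  have hAv : ∀ p q, A p q = v p q := by
    intro p q
    have h1 : A p q = LL (EuclideanSpace.single q 1) p := by
      rw [hA, LinearMap.toMatrix_apply]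
      simp [hb]
    rw [h1, ← hvu, real_inner_comm, EuclideanSpace.inner_single_left]
    simp
  have hnorm : ∀ p, ∑ q, A p q ^ 2 = ‖v p‖ ^ 2 := by
    intro p
    rw [EuclideanSpace.norm_sq_eq]
    apply Finset.sum_congr rfl
    intro q _
    rw [hAv, Real.norm_eq_abs, sq_abs]
  -- the largest row of each block
  have hmax : ∀ j : Fin J, ∃ i : Fin m, ∀ i', ‖v (j, i')‖ ^ 2 ≤ ‖v (j, i)‖ ^ 2 := fun j =>
    Finite.exists_max fun i => ‖v (j, i)‖ ^ 2
  choose i hi using hmax
  obtain ⟨e, he, hs⟩ := signs (Finset.univ : Finset (Fin J)) fun j => v (j, i j)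
  set w := ∑ j, e j • v (j, i j) with hw
  -- the functional is bounded by `1` on the image
  have hK : ∀ x ∈ cubes J m, |∑ j, e j * x (j, i j)| ≤ 1 := by
    intro x hx
    refine le_trans (Finset.abs_sum_le_sum_abs _ _) (le_trans (Finset.sum_le_sum fun j _ => ?_) hx)
    rw [abs_mul, he, one_mul, ← Real.norm_eq_abs]
    exact norm_le_pi_norm (fun i' : Fin m => x (j, i')) (i j)
  have hwu : ∀ u, inner ℝ w u = ∑ j, e j * LL u (j, i j) := by
    intro u
    rw [hw, sum_inner]
    apply Finset.sum_congr rfl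
    intro j _
    rw [inner_smul_left, hvu]
    simp
  have hu : ∀ u : EuclideanSpace ℝ (Fin J × Fin m), ‖u‖ ≤ 1 → inner ℝ w u ≤ 1 := by
    intro u hu
    have h1 := hK _ (h ⟨u, by simpa using hu, rfl⟩)
    have h2 := hK _ (h ⟨-u, by simpa using hu, rfl⟩)
    rw [hwu]
    have e1 : ∑ j, e j * (L u + c) (j, i j) = ∑ j, e j * LL u (j, i j) + ∑ j, e j * c (j, i j) := by
      rw [← Finset.sum_add_distrib]
      apply Finset.sum_congr rfl
      intro j _
      simp only [PiLp.add_apply, hLL, LinearEquiv.coe_coe]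
      ring
    have e2 : ∑ j, e j * (L (-u) + c) (j, i j) =
        -∑ j, e j * LL u (j, i j) + ∑ j, e j * c (j, i j) := by
      rw [← Finset.sum_neg_distrib, ← Finset.sum_add_distrib]
      apply Finset.sum_congr rfl
      intro j _
      simp only [PiLp.add_apply, hLL, LinearEquiv.coe_coe, map_neg, PiLp.neg_apply]
      ring
    simp only at h1 h2
    rw [e1] at h1
    rw [e2] at h2
    rw [abs_le] at h1 h2
    linarith [h1.2, h2.1]
  have hw1 : ‖w‖ ^ 2 ≤ 1 := by
    by_cases hw0 : w = 0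
    · rw [hw0]; simp
    · have hwn : 0 < ‖w‖ := norm_pos_iff.2 hw0
      have h1 := hu (‖w‖⁻¹ • w) (by rw [norm_smul, norm_inv, norm_norm, inv_mul_cancel₀ hwn.ne'])
      rw [inner_smul_right, real_inner_self_eq_norm_sq, sq, ← mul_assoc,
        inv_mul_cancel₀ hwn.ne', one_mul] at h1
      nlinarith [norm_nonneg w]
  have hsum : ∑ p, ∑ q, A p q ^ 2 ≤ m := by
    simp only [hnorm]
    rw [Fintype.sum_prod_type]
    calc ∑ j, ∑ i', ‖v (j, i')‖ ^ 2 ≤ ∑ j, (m : ℝ) * ‖v (j, i j)‖ ^ 2 := by
          apply Finset.sum_le_sum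
          intro j _
          calc ∑ i', ‖v (j, i')‖ ^ 2 ≤ ∑ _i' : Fin m, ‖v (j, i j)‖ ^ 2 :=
                Finset.sum_le_sum fun i' _ => hi j i'
            _ = (m : ℝ) * ‖v (j, i j)‖ ^ 2 := by simp
      _ = m * ∑ j, ‖v (j, i j)‖ ^ 2 := by rw [Finset.mul_sum]
      _ ≤ m * 1 := by
          apply mul_le_mul_of_nonneg_left (hs.trans hw1)
          positivity
      _ = m := mul_one _
  have hdet : LinearMap.det LL = A.det := by rw [hA, LinearMap.det_toMatrix]
  have hfin := det_sq_le A
  rw [hdet, sq_abs]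
  have hcard : Fintype.card (Fin J × Fin m) = J * m := by simp
  rw [hcard] at hfin
  have hJ0 : (0 : ℝ) < J := by exact_mod_cast hJ
  have hm0 : (0 : ℝ) < m := by exact_mod_cast hm
  have h1 : (∑ p, ∑ q, A p q ^ 2) / ((J * m : ℕ) : ℝ) ≤ 1 / J := by
    rw [div_le_div_iff₀ (by positivity) hJ0]
    push_cast
    nlinarith
  have h2 : 0 ≤ (∑ p, ∑ q, A p q ^ 2) / ((J * m : ℕ) : ℝ) := by positivity
  calc A.det ^ 2 * (J : ℝ) ^ (J * m) ≤ (1 / J) ^ (J * m) * (J : ℝ) ^ (J * m) := by
        apply mul_le_mul_of_nonneg_right _ (by positivity)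
        exact hfin.trans (pow_le_pow_left₀ h2 h1 _)
    _ = 1 := by
        rw [← mul_pow, one_div, inv_mul_cancel₀ hJ0.ne', one_pow]

end Pool.Agent.TH55.J2566
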