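import Mathlib
import Pool.Agent.TH775.AC.Stmts

set_option autoImplicit false

open Complex Metric Set Filter Topology

namespace Pool.Agent.TH775.AC

namespace H55Sub

/-- the local inverse -/
theorem inv_aux {L : ℂ → ℂ} (hL : DifferentiableOn ℂ L (ball 0 1)) (hinj : InjOn L (ball (0 : ℂ) 1))
    (hd : ∀ z ∈ ball (0 : ℂ) 1, deriv L z ≠ 0) {ζ : ℂ} (hζ : ζ ∈ ball (0 : ℂ) 1) :
    (∀ᶠ y in 𝓝 (L ζ), y ∈ L '' ball (0 : ℂ) 1) ∧
      DifferentiableAt ℂ (Function.invFunOn L (ball (0 : ℂ) 1)) (L ζ) := by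
  have han : AnalyticAt ℂ L ζ := hL.analyticAt (isOpen_ball.mem_nhds hζ)
  have hs : HasStrictDerivAt L (deriv L ζ) ζ := han.hasStrictDerivAt
  set g := hs.localInverse L (deriv L ζ) ζ (hd ζ hζ) with hgdef
  have hg : HasStrictDerivAt g (deriv L ζ)⁻¹ (L ζ) := hs.to_localInverse (hd ζ hζ)
  have hgζ : g (L ζ) = ζ := HasStrictFDerivAt.localInverse_apply_image _
  have hr : ∀ᶠ y in 𝓝 (L ζ), L (g y) = y := HasStrictFDerivAt.eventually_right_inverse _
  have hc : ContinuousAt g (L ζ) := hg.hasDerivAt.continuousAt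
  have hm : ∀ᶠ y in 𝓝 (L ζ), g y ∈ ball (0 : ℂ) 1 := by
    apply hc.eventually_mem
    rw [hgζ]
    exact isOpen_ball.mem_nhds hζ
  refine ⟨?_, ?_⟩
  · filter_upwards [hr, hm] with y h1 h2
    exact ⟨g y, h2, h1⟩
  · refine hg.hasDerivAt.differentiableAt.congr_of_eventuallyEq ?_
    filter_upwards [hr, hm] with y h1 h2
    have h3 : ∃ a ∈ ball (0 : ℂ) 1, L a = y := ⟨g y, h2, h1⟩
    exact hinj (Function.invFunOn_mem h3) h2 ((Function.invFunOn_eq h3).trans h1.symm)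

end H55Sub

open H55Sub in
theorem sub_of (hJ : S_JACK) : S_SUB := by
  intro L l hL hinj hd hL0 hl hl0 key
  set G := Function.invFunOn L (ball (0 : ℂ) 1) with hG
  set ω : ℂ → ℂ := fun z => G (l z) with hω
  set U : Set ℂ := {z | z ∈ ball (0 : ℂ) 1 ∧ l z ∈ L '' ball (0 : ℂ) 1} with hU
  have h0D : (0 : ℂ) ∈ ball (0 : ℂ) 1 := mem_ball_self one_pos
  have hmem : ∀ z ∈ U, ω z ∈ ball (0 : ℂ) 1 := fun z hz => Function.invFunOn_mem hz.2
  have heq : ∀ z ∈ U, L (ω z) = l z := fun z hz => Function.invFunOn_eq hz.2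
  have h0U : (0 : ℂ) ∈ U := ⟨h0D, 0, h0D, by rw [hL0, hl0]⟩
  have hω0 : ω 0 = 0 := hinj (hmem 0 h0U) h0D (by rw [heq 0 h0U, hl0, hL0])
  have hUo : ∀ z ∈ U, ∀ᶠ w in 𝓝 z, w ∈ U := by
    intro z hz
    obtain ⟨ζ, hζ, hζz⟩ := hz.2
    have h1 := (inv_aux hL hinj hd hζ).1
    rw [hζz] at h1
    have hlc : ContinuousAt l z := (hl.differentiableAt (isOpen_ball.mem_nhds hz.1)).continuousAt
    filter_upwards [hlc.eventually h1, isOpen_ball.mem_nhds hz.1] with w h2 h3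
    exact ⟨h3, h2⟩
  have hdiff : ∀ z ∈ U, DifferentiableAt ℂ ω z := by
    intro z hz
    obtain ⟨ζ, hζ, hζz⟩ := hz.2
    have h1 := (inv_aux hL hinj hd hζ).2
    rw [hζz] at h1
    exact h1.comp z (hl.differentiableAt (isOpen_ball.mem_nhds hz.1))
  -- (b)
  have hb : ∀ r : ℝ, 0 ≤ r → closedBall (0 : ℂ) r ⊆ U → ∀ z ∈ closedBall (0 : ℂ) r, ‖ω z‖ ≤ r := by
    intro r hr hrU z hz
    have hcont : ContinuousOn (fun z => ‖ω z‖) (closedBall (0 : ℂ) r) := fun w hw =>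
      (hdiff w (hrU hw)).continuousAt.norm.continuousWithinAt
    obtain ⟨z₀, hz₀, hmax⟩ := (isCompact_closedBall (0 : ℂ) r).exists_isMaxOn
      ⟨0, mem_closedBall_self hr⟩ hcont
    have hmax' : ∀ w ∈ closedBall (0 : ℂ) r, ‖ω w‖ ≤ ‖ω z₀‖ := fun w hw => hmax hw
    by_cases hζ0 : ω z₀ = 0
    · have := hmax' z hz
      rw [hζ0, norm_zero] at this
      exact this.trans hr
    · have hz₀0 : z₀ ≠ 0 := by
        intro h
        rw [h] at hζ0
        exact hζ0 hω0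
      have hz₀r : ‖z₀‖ ≤ r := by simpa using hz₀
      have hsub : closedBall (0 : ℂ) ‖z₀‖ ⊆ closedBall (0 : ℂ) r := closedBall_subset_closedBall hz₀r
      obtain ⟨k, hk, hkz⟩ := hJ ω z₀ hz₀0 (fun w hw => hdiff w (hrU (hsub hw))) hω0 hζ0
        (fun w hw => hmax' w (hsub hw))
      have hz₀U := hrU hz₀
      have hchain : deriv l z₀ = deriv L (ω z₀) * deriv ω z₀ := by
        have h1 : (fun w => L (ω w)) =ᶠ[𝓝 z₀] l := by
          filter_upwards [hUo z₀ hz₀U] with w hw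
          exact heq w hw
        rw [← h1.deriv_eq]
        have hLd : DifferentiableAt ℂ L (ω z₀) :=
          hL.differentiableAt (isOpen_ball.mem_nhds (hmem z₀ hz₀U))
        exact (hLd.hasDerivAt.comp z₀ (hdiff z₀ hz₀U).hasDerivAt).deriv
      have h2 : z₀ * deriv l z₀ = k * (ω z₀ * deriv L (ω z₀)) := by
        rw [hchain]
        linear_combination deriv L (ω z₀) * hkz
      have h3 := key z₀ hz₀U.1 hz₀0 (ω z₀) (hmem z₀ hz₀U) hζ0 (heq z₀ hz₀U) k hk h2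
      exact (hmax' z hz).trans (h3.trans hz₀r)
  -- (c)
  have hc : ∀ w ∈ ball (0 : ℂ) 1, w ∈ U := by
    intro w hw
    by_contra hwU
    have hUopen : IsOpen U := isOpen_iff_mem_nhds.2 hUo
    have hcomp : IsCompact (closedBall (0 : ℂ) ‖w‖ \ U) :=
      (isCompact_closedBall (0 : ℂ) ‖w‖).diff hUopen
    obtain ⟨z₁, hz₁, hmin⟩ := hcomp.exists_isMinOn ⟨w, by simp, hwU⟩ continuous_norm.continuousOn
    have hmin' : ∀ z ∈ closedBall (0 : ℂ) ‖w‖ \ U, ‖z₁‖ ≤ ‖z‖ := fun z hz => hmin hz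
    have hw1 : ‖w‖ < 1 := by simpa using hw
    have hz₁w : ‖z₁‖ ≤ ‖w‖ := by simpa using hz₁.1
    have hz₁0 : z₁ ≠ 0 := fun h => hz₁.2 (h ▸ h0U)
    have hz₁n : 0 < ‖z₁‖ := norm_pos_iff.2 hz₁0
    have hin : ∀ z : ℂ, ‖z‖ < ‖z₁‖ → z ∈ U := by
      intro z hz
      by_contra h
      exact absurd (hmin' z ⟨by simpa using (hz.le.trans hz₁w), h⟩) (not_le.2 hz)
    have hLc : ContinuousOn L (closedBall (0 : ℂ) ‖z₁‖) := by
      apply hL.continuousOn.mono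
      exact closedBall_subset_ball (hz₁w.trans_lt hw1)
    have hclosed : IsClosed (L '' closedBall (0 : ℂ) ‖z₁‖) :=
      ((isCompact_closedBall (0 : ℂ) ‖z₁‖).image_of_continuousOn hLc).isClosed
    have hz₁D : z₁ ∈ ball (0 : ℂ) 1 := by simpa using hz₁w.trans_lt hw1
    -- the sequence
    have hlim : Tendsto (fun t : ℝ => l ((t : ℂ) * z₁)) (𝓝[<] 1) (𝓝 (l z₁)) := by
      have h1 : ContinuousAt l (((1 : ℝ) : ℂ) * z₁) := by
        rw [ofReal_one, one_mul]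
        exact (hl.differentiableAt (isOpen_ball.mem_nhds hz₁D)).continuousAt
      have h2 : ContinuousAt (fun t : ℝ => l ((t : ℂ) * z₁)) 1 :=
        ContinuousAt.comp (f := fun t : ℝ => (t : ℂ) * z₁) h1 (by fun_prop)
      have h3 := h2.tendsto
      simp only [ofReal_one, one_mul] at h3
      exact h3.mono_left nhdsWithin_le_nhds
    have hev : ∀ᶠ t : ℝ in 𝓝[<] 1, l ((t : ℂ) * z₁) ∈ L '' closedBall (0 : ℂ) ‖z₁‖ := by
      have h1 : ∀ᶠ t : ℝ in 𝓝[<] (1 : ℝ), t ∈ Ioo (0 : ℝ) 1 := Ioo_mem_nhdsLT one_pos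
      filter_upwards [h1] with t ht
      have hn : ‖(t : ℂ) * z₁‖ < ‖z₁‖ := by
        rw [norm_mul, norm_real, Real.norm_eq_abs, abs_of_pos ht.1]
        nlinarith [ht.2]
      have hsub : closedBall (0 : ℂ) ‖(t : ℂ) * z₁‖ ⊆ U := by
        intro z hz
        apply hin
        have : ‖z‖ ≤ ‖(t : ℂ) * z₁‖ := by simpa using hz
        exact this.trans_lt hn
      have h2 := hb _ (norm_nonneg _) hsub ((t : ℂ) * z₁) (by simp)
      exact ⟨ω ((t : ℂ) * z₁), by simpa using h2.trans hn.le, heq _ (hin _ hn)⟩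
    have hfin : l z₁ ∈ L '' closedBall (0 : ℂ) ‖z₁‖ := hclosed.mem_of_tendsto hlim hev
    obtain ⟨ζ, hζ, hζl⟩ := hfin
    exact hz₁.2 ⟨hz₁D, ζ, closedBall_subset_ball (hz₁w.trans_lt hw1) hζ, hζl⟩
  refine ⟨ω, fun z hz => (hdiff z (hc z hz)).differentiableWithinAt, ?_, fun z hz => heq z (hc z hz)⟩
  intro z hz
  have hz1 : ‖z‖ < 1 := by simpa using hz
  apply hb ‖z‖ (norm_nonneg z) _ z (by simp)
  intro w hw
  apply hc
  exact closedBall_subset_ball hz1 hw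

end Pool.Agent.TH775.AC
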