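import Pool.Agent.TH795.LT.Defs

/-!
# Zeros of the characteristic function of a complex square well
-/

set_option autoImplicit false

open Filter Topology Set

namespace Pool.Agent.TH55.J59

open Pool.Agent.TH795.LT
open Complex (I)

theorem sqrt_sq {q z : ℂ} (hq : 0 < q.re) (h : q ^ 2 = z) : z ^ (1 / 2 : ℂ) = q := by
  rw [← h, one_div]
  exact Complex.sq_cpow_two_inv hq

/-! ### the fixed point equation -/

theorem ball_facts {X x : ℝ} (hx4 : 4 ≤ x) (hxX : x ≤ X) {w : ℂ} (hw : ‖w - x‖ ≤ 1) :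
    3 ≤ w.re ∧ |w.im| ≤ 1 ∧ 3 ≤ ‖w‖ ∧ ‖w‖ ≤ x + 1 ∧ ‖Complex.log w‖ ≤ X + 5 ∧
      Real.log ‖w‖ ≤ X + 5 ∧ 0 ≤ Real.log ‖w‖ := by
  have h1 := (Complex.abs_re_le_norm (w - x)).trans hw
  have h2 := (Complex.abs_im_le_norm (w - x)).trans hw
  simp only [Complex.sub_re, Complex.ofReal_re, Complex.sub_im, Complex.ofReal_im, sub_zero] at h1 h2
  have h3 : 3 ≤ w.re := by linarith [(abs_le.1 h1).1]
  have h4 : 3 ≤ ‖w‖ := h3.trans (Complex.re_le_norm w)
  have h5 : ‖w‖ ≤ x + 1 := by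
    have : ‖w‖ ≤ ‖w - x‖ + ‖(x : ℂ)‖ := by
      calc ‖w‖ = ‖(w - x) + x‖ := by ring_nf
        _ ≤ _ := norm_add_le _ _
    rw [Complex.norm_real, Real.norm_of_nonneg (by linarith)] at this
    linarith
  have h6 : Real.log ‖w‖ ≤ ‖w‖ - 1 := Real.log_le_sub_one_of_pos (by linarith)
  have h7 : 0 ≤ Real.log ‖w‖ := Real.log_nonneg (by linarith)
  refine ⟨h3, h2, h4, h5, ?_, by linarith, h7⟩
  have h8 := Complex.norm_le_abs_re_add_abs_im (Complex.log w)
  rw [Complex.log_re, Complex.log_im, abs_of_nonneg h7] at h8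
  have h9 := Complex.abs_arg_le_pi w
  have h10 := Real.pi_lt_four
  linarith

theorem exists_w {X a x : ℝ} (hx4 : 4 ≤ x) (hxX : x ≤ X) (ha : 16 * (X + 5) * (X + 1) ≤ a) :
    ∃ w : ℂ, ‖w - x‖ ≤ 1 ∧ w = x - (2 * I / a) * Complex.log w + I / w := by
  have ha0 : 0 < a := by nlinarith
  let T : ℂ → ℂ := fun w => x - (2 * I / a) * Complex.log w + I / w
  let T' : ℂ → ℂ := fun w => - ((2 * I / a) * w⁻¹) + - I / w ^ 2
  let s : Set ℂ := Metric.closedBall (x : ℂ) 1
  have hs : ∀ w ∈ s, ‖w - x‖ ≤ 1 := fun w hw => by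
    simpa [s, dist_eq_norm] using hw
  have hna : ‖(2 * I / a : ℂ)‖ = 2 / a := by
    simp [abs_of_pos ha0]
  have hq : 2 / a * (X + 5) ≤ 1 / 3 := by
    rw [div_mul_eq_mul_div, div_le_iff₀ ha0]
    nlinarith
  have hmaps : MapsTo T s s := by
    intro w hw
    have hw' := hs w hw
    obtain ⟨h1, h2, h3, h4, h5, h6, h7⟩ := ball_facts hx4 hxX hw'
    simp only [s, Metric.mem_closedBall, dist_eq_norm, T]
    have e1 : (x : ℂ) - (2 * I / a) * Complex.log w + I / w - x
        = - ((2 * I / a) * Complex.log w) + I / w := by ring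
    rw [e1]
    refine (norm_add_le _ _).trans ?_
    rw [norm_neg, norm_mul, hna, norm_div, Complex.norm_I]
    have h8 : 2 / a * ‖Complex.log w‖ ≤ 2 / a * (X + 5) := by gcongr
    have h9 : 1 / ‖w‖ ≤ 1 / 3 := one_div_le_one_div_of_le (by norm_num) h3
    linarith
  have hder : ∀ w ∈ s, HasDerivWithinAt T (T' w) s w := by
    intro w hw
    have hw' := hs w hw
    obtain ⟨h1, h2, h3, h4, h5, h6, h7⟩ := ball_facts hx4 hxX hw'
    have hw0 : w ≠ 0 := by
      intro h; rw [h] at h3; simp at h3; linarith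
    have hsl : w ∈ Complex.slitPlane := by
      left; linarith
    have d1 : HasDerivAt T (0 - (2 * I / a) * w⁻¹ + (0 * w - I * 1) / w ^ 2) w := by
      refine HasDerivAt.add (HasDerivAt.sub (hasDerivAt_const _ _) ?_) ?_
      · exact (Complex.hasDerivAt_log hsl).const_mul _
      · exact (hasDerivAt_const w I).div (hasDerivAt_id w) hw0
    refine (d1.congr_deriv ?_).hasDerivWithinAt
    simp only [T']
    ring
  have hbd : ∀ w ∈ s, ‖T' w‖ ≤ 1 / 2 := by
    intro w hw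
    have hw' := hs w hw
    obtain ⟨h1, h2, h3, h4, h5, h6, h7⟩ := ball_facts hx4 hxX hw'
    simp only [T']
    refine (norm_add_le _ _).trans ?_
    rw [norm_neg, norm_mul, hna, norm_div, norm_neg, Complex.norm_I, norm_inv, norm_pow]
    have h9 : ‖w‖⁻¹ ≤ 1 / 3 := by
      rw [inv_eq_one_div]; exact one_div_le_one_div_of_le (by norm_num) h3
    have h10 : 1 / ‖w‖ ^ 2 ≤ 1 / 9 := by
      apply one_div_le_one_div_of_le (by norm_num); nlinarith
    have h11 : 2 / a * ‖w‖⁻¹ ≤ 2 / a * (X + 5) := by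
      gcongr; linarith
    linarith
  have hlip : ∀ w ∈ s, ∀ w' ∈ s, ‖T w' - T w‖ ≤ 1 / 2 * ‖w' - w‖ := fun w hw w' hw' =>
    Convex.norm_image_sub_le_of_norm_hasDerivWithin_le hder hbd (convex_closedBall _ _) hw hw'
  have hcon : ContractingWith (1 / 2) (MapsTo.restrict T s s hmaps) := by
    refine ⟨by norm_num, LipschitzWith.of_dist_le_mul ?_⟩
    rintro ⟨w, hw⟩ ⟨w', hw'⟩
    have := hlip w' hw' w hw
    simpa [Subtype.dist_eq, dist_eq_norm] using this
  have hxs : (x : ℂ) ∈ s := by simp [s]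
  obtain ⟨w, hw, hfix, -⟩ := ContractingWith.exists_fixedPoint'
    (Metric.isClosed_closedBall.isComplete) hmaps hcon hxs (edist_ne_top _ _)
  exact ⟨w, hs w hw, hfix.symm⟩

/-! ### the point attached to a solution -/

/-- `q`. -/
noncomputable def qw (w : ℂ) : ℂ := (w - I / w) / 2

/-- `k`. -/
noncomputable def kw (w : ℂ) : ℂ := (w + I / w) / 2

theorem kw_sq (w : ℂ) (hw : w ≠ 0) : kw w ^ 2 - qw w ^ 2 = I := by
  simp only [kw, qw]
  field_simp
  ring

theorem point_facts {X a x : ℝ} (hx4 : 4 ≤ x) (hxX : x ≤ X) (ha : 16 * (X + 5) * (X + 1) ≤ a)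
    {w : ℂ} (hw : ‖w - x‖ ≤ 1) (hfix : w = x - (2 * I / a) * Complex.log w + I / w) :
    0 < (qw w).re ∧ 0 < (kw w).re ∧ 0 < (kw w).im ∧ 1 < (kw w ^ 2).re ∧
      1 / 4 ≤ (kw w ^ 2).im ∧ ‖kw w‖ ≤ x + 1 := by
  have ha0 : 0 < a := by nlinarith
  obtain ⟨h1, h2, h3, h4, h5, h6, h7⟩ := ball_facts hx4 hxX hw
  have hw0 : w ≠ 0 := by
    intro h; rw [h] at h3; simp at h3; linarith
  have hIw : ‖I / w‖ ≤ 1 / 3 := by
    rw [norm_div, Complex.norm_I]; exact one_div_le_one_div_of_le (by norm_num) h3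
  -- the imaginary part of `w`
  have him : -(2 / a * (X + 5)) ≤ w.im := by
    have e1 := congrArg Complex.im hfix
    have e2 : ((2 * I / a : ℂ) * Complex.log w).im = 2 / a * Real.log ‖w‖ := by
      have : (2 * I / a : ℂ) = ((2 / a : ℝ) : ℂ) * I := by push_cast; ring
      rw [this, mul_assoc, Complex.im_ofReal_mul, Complex.I_mul_im, Complex.log_re]
    have e3 : (I / w).im = w.re / Complex.normSq w := by
      rw [div_eq_mul_inv, Complex.mul_im]
      simp [Complex.inv_re]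
    rw [Complex.add_im, Complex.sub_im, e2, e3, Complex.ofReal_im] at e1
    have e4 : 0 ≤ w.re / Complex.normSq w := div_nonneg (by linarith) (Complex.normSq_nonneg _)
    have e5 : 2 / a * Real.log ‖w‖ ≤ 2 / a * (X + 5) := by gcongr
    linarith
  set u := w.re with hu
  set v := w.im with hv
  have hn0 : 0 < Complex.normSq w := Complex.normSq_pos.2 hw0
  have hn : Complex.normSq w = u ^ 2 + v ^ 2 := by rw [Complex.normSq_apply]; ring
  set t := (Complex.normSq w)⁻¹ with ht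
  have ht0 : 0 < t := inv_pos.2 hn0
  have htn : t * (u ^ 2 + v ^ 2) = 1 := by rw [← hn]; exact inv_mul_cancel₀ hn0.ne'
  have hv2 : v ^ 2 ≤ 1 := by
    have := abs_le.1 h2; nlinarith
  have ht9 : t ≤ 1 / 9 := by
    rw [ht, inv_eq_one_div]
    apply one_div_le_one_div_of_le (by norm_num)
    rw [hn]; nlinarith [sq_nonneg v]
  have hIre : (I / w).re = v * t := by
    rw [div_eq_mul_inv, Complex.mul_re]
    simp [Complex.inv_im, ht, div_eq_mul_inv, ← hv]
  have hIim : (I / w).im = u * t := by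
    rw [div_eq_mul_inv, Complex.mul_im]
    simp [Complex.inv_re, ht, div_eq_mul_inv, ← hu]
  have hkre : (kw w).re = (u + v * t) / 2 := by
    have : kw w = ((1 / 2 : ℝ) : ℂ) * (w + I / w) := by simp only [kw]; push_cast; ring
    rw [this, Complex.re_ofReal_mul, Complex.add_re, hIre]; ring
  have hkim : (kw w).im = (v + u * t) / 2 := by
    have : kw w = ((1 / 2 : ℝ) : ℂ) * (w + I / w) := by simp only [kw]; push_cast; ring
    rw [this, Complex.im_ofReal_mul, Complex.add_im, hIim]; ring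
  have hqre : (qw w).re = (u - v * t) / 2 := by
    have : qw w = ((1 / 2 : ℝ) : ℂ) * (w - I / w) := by simp only [qw]; push_cast; ring
    rw [this, Complex.re_ofReal_mul, Complex.sub_re, hIre]; ring
  have hvt : |v * t| ≤ 1 := by
    rw [abs_mul, abs_of_pos ht0]; nlinarith [abs_nonneg v]
  have hvt' := abs_le.1 hvt
  have hq0 : 0 < (qw w).re := by rw [hqre]; linarith
  have hk0 : 0 < (kw w).re := by rw [hkre]; linarith
  have hesq : (kw w ^ 2).re = (kw w).re ^ 2 - (kw w).im ^ 2 := by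
    rw [sq, Complex.mul_re]; ring
  have hesqi : (kw w ^ 2).im = 2 * (kw w).re * (kw w).im := by
    rw [sq, Complex.mul_im]; ring
  have huv : -(1 / 8) ≤ u * v := by
    have e1 : -((X + 1) * (2 / a * (X + 5))) ≤ u * v := by
      have hδ : 0 ≤ 2 / a * (X + 5) := mul_nonneg (by positivity) (by linarith)
      have hu1 : u ≤ X + 1 := by
        have := Complex.re_le_norm w
        linarith
      have e6 : u * (-(2 / a * (X + 5))) ≤ u * v := mul_le_mul_of_nonneg_left him (by linarith)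
      have e7 : u * (2 / a * (X + 5)) ≤ (X + 1) * (2 / a * (X + 5)) :=
        mul_le_mul_of_nonneg_right hu1 hδ
      linarith
    have e2 : (X + 1) * (2 / a * (X + 5)) ≤ 1 / 8 := by
      rw [div_mul_eq_mul_div, mul_div_assoc', div_le_iff₀ ha0]
      nlinarith
    linarith
  have heim : (kw w ^ 2).im = (u * v * (1 + t ^ 2) + 1) / 2 := by
    rw [hesqi, hkre, hkim]
    linear_combination (1 / 2 : ℝ) * htn
  have ht2 : t ^ 2 ≤ 1 / 81 := by
    have : t ^ 2 ≤ (1 / 9) ^ 2 := pow_le_pow_left₀ ht0.le ht9 2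
    linarith
  have heim' : 1 / 4 ≤ (kw w ^ 2).im := by
    rw [heim]
    have e8 : -(1 / 8) * (1 + t ^ 2) ≤ u * v * (1 + t ^ 2) :=
      mul_le_mul_of_nonneg_right huv (by positivity)
    linarith
  have here : (kw w ^ 2).re = (u ^ 2 - v ^ 2) * (1 - t ^ 2) / 4 := by
    rw [hesq, hkre, hkim]; ring
  have hki : 0 < (kw w).im := by
    rw [hesqi] at heim'
    by_contra hcon
    push Not at hcon
    have := mul_nonneg_of_nonpos_of_nonpos (show -(2 * (kw w).re) ≤ 0 by linarith) hcon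
    linarith
  refine ⟨hq0, hk0, hki, ?_, heim', ?_⟩
  · rw [here]
    have e0 : 3 ^ 2 ≤ u ^ 2 := pow_le_pow_left₀ (by norm_num) h1 2
    have e1 : 8 ≤ u ^ 2 - v ^ 2 := by linarith
    have e2 : 8 / 9 ≤ 1 - t ^ 2 := by linarith
    have e3 : 8 * (8 / 9) ≤ (u ^ 2 - v ^ 2) * (1 - t ^ 2) :=
      mul_le_mul e1 e2 (by norm_num) (by linarith)
    linarith
  · simp only [kw]
    rw [norm_div, Complex.norm_ofNat]
    have := norm_add_le w (I / w)
    linarith

/-- The characteristic function vanishes at the point attached to a solution. -/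
theorem Finf_zero {a : ℝ} {w : ℂ} (hw : w ≠ 0) (hq : 0 < (qw w).re) (hki : 0 < (kw w).im)
    (hE : Complex.exp (I * a * w + a / w) = I * w ^ 2) :
    qq (kw w ^ 2) = qw w ∧ kap (kw w ^ 2) = - I * kw w ∧ Finf a (kw w ^ 2) = 0 := by
  have h1 : qq (kw w ^ 2) = qw w := by
    refine sqrt_sq hq ?_
    linear_combination -kw_sq w hw
  have h2 : kap (kw w ^ 2) = - I * kw w := by
    refine sqrt_sq ?_ ?_
    · simp [hki]
    · rw [mul_pow, neg_sq, Complex.I_sq]; ring
  refine ⟨h1, h2, ?_⟩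
  have hq0 : qw w ≠ 0 := by
    intro h; rw [h] at hq; simp at hq
  have hθ : Complex.exp (2 * qw w * a * I) = I * w ^ 2 := by
    rw [← hE]; congr 1
    simp only [qw]
    field_simp
    linear_combination (-(a : ℂ)) * Complex.I_sq
  have hθ' : Complex.exp (-(2 * qw w * a) * I) = (I * w ^ 2)⁻¹ := by
    rw [neg_mul, Complex.exp_neg, hθ]
  have hcos : Complex.cos (2 * qw w * a) = (I * w ^ 2 + (I * w ^ 2)⁻¹) / 2 := by
    rw [Complex.cos, hθ, hθ']
  have hsin : Complex.sin (2 * qw w * a) = ((I * w ^ 2)⁻¹ - I * w ^ 2) * I / 2 := by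
    rw [Complex.sin, hθ, hθ']
  have hmain : qw w * Finf a (kw w ^ 2) = 0 := by
    simp only [Finf, h1, h2, hcos, hsin]
    have e1 : qw w * (2 * (-I * kw w) * ((I * w ^ 2 + (I * w ^ 2)⁻¹) / 2)
        + ((-I * kw w) ^ 2 / qw w - qw w) * (((I * w ^ 2)⁻¹ - I * w ^ 2) * I / 2))
        = (-I * kw w) * qw w * (I * w ^ 2 + (I * w ^ 2)⁻¹)
          + ((-I * kw w) ^ 2 - qw w ^ 2) * (((I * w ^ 2)⁻¹ - I * w ^ 2) * I / 2) := by
      field_simp
    rw [e1]
    simp only [kw, qw, mul_inv, Complex.inv_I]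
    field_simp
    ring_nf
    have i3 : I ^ 3 = -I := by rw [pow_succ, Complex.I_sq]; ring
    have i4 : I ^ 4 = 1 := by rw [show (4:ℕ) = 2 * 2 from rfl, pow_mul, Complex.I_sq]; norm_num
    have i5 : I ^ 5 = I := by rw [pow_succ, i4]; ring
    have i6 : I ^ 6 = -1 := by rw [show (6:ℕ) = 4 + 2 from rfl, pow_add, i4, Complex.I_sq]; norm_num
    simp only [Complex.I_sq, i3, i4, i5, i6]
    ring
  exact (mul_eq_zero.1 hmain).resolve_left hq0

/-! ### zeros are isolated -/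

theorem half_sq (z : ℂ) : (z ^ (1 / 2 : ℂ)) ^ 2 = z := by
  rw [one_div]
  exact Complex.cpow_nat_inv_pow z two_ne_zero

theorem hasDerivAt_sqrt {f : ℂ → ℂ} {f' e : ℂ} (hf : HasDerivAt f f' e)
    (h : f e ∈ Complex.slitPlane) :
    HasDerivAt (fun ζ => (f ζ) ^ (1 / 2 : ℂ)) (f' / (2 * (f e) ^ (1 / 2 : ℂ))) e := by
  refine (hf.cpow_const (c := (1 / 2 : ℂ)) h).congr_deriv ?_
  have h0 : f e ≠ 0 := Complex.slitPlane_ne_zero h
  have h1 := half_sq (f e)
  have hs : (f e) ^ (1 / 2 : ℂ) ≠ 0 := by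
    intro h2; rw [h2] at h1; simp at h1; exact h0 h1.symm
  rw [Complex.cpow_sub _ _ h0, Complex.cpow_one]
  set s := (f e) ^ (1 / 2 : ℂ)
  rw [← h1]
  field_simp

theorem isolated {a : ℝ} (ha : 0 < a) {e : ℂ} (he : 1 < e.re) (hei : 1 / 4 ≤ e.im)
    (hκ : 0 < (kap e).re) (h0 : Finf a e = 0) : ∀ᶠ ζ in 𝓝[≠] e, Finf a ζ ≠ 0 := by
  have hs1 : -e ∈ Complex.slitPlane := by
    right; simp only [Complex.neg_im, ne_eq, neg_eq_zero]; linarith
  have hs2 : e - I ∈ Complex.slitPlane := by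
    left; simp only [Complex.sub_re, Complex.I_re, sub_zero]; linarith
  have hk : HasDerivAt kap (-1 / (2 * kap e)) e :=
    hasDerivAt_sqrt (f := fun ζ => -ζ) (hasDerivAt_id e).neg hs1
  have hq : HasDerivAt qq (1 / (2 * qq e)) e :=
    hasDerivAt_sqrt (f := fun ζ => ζ - I) ((hasDerivAt_id e).sub_const I) hs2
  have hk2 : ∀ ζ, kap ζ ^ 2 = -ζ := fun ζ => half_sq _
  have hq2 : ∀ ζ, qq ζ ^ 2 = ζ - I := fun ζ => half_sq _
  have hk0 : kap e ≠ 0 := by
    intro h; rw [h] at hκ; simp at hκ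
  have hq0 : qq e ≠ 0 := by
    intro h
    have := hq2 e
    rw [h] at this
    exact Complex.slitPlane_ne_zero hs2 (by rw [← this]; simp)
  let G : ℂ → ℂ := fun ζ => 2 * kap ζ * qq ζ * Complex.cos (2 * qq ζ * a)
    + (I - 2 * ζ) * Complex.sin (2 * qq ζ * a)
  have hGF : ∀ ζ, qq ζ ≠ 0 → G ζ = qq ζ * Finf a ζ := by
    intro ζ hζ
    simp only [G, Finf]
    rw [mul_add]
    congr 1
    · ring
    · rw [← mul_assoc]
      congr 1
      have : qq ζ * (kap ζ ^ 2 / qq ζ - qq ζ) = kap ζ ^ 2 - qq ζ ^ 2 := by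
        field_simp
      rw [this, hk2, hq2]; ring
  have hθ : HasDerivAt (fun ζ => 2 * qq ζ * (a : ℂ)) (2 * (1 / (2 * qq e)) * a) e :=
    (hq.const_mul 2).mul_const _
  have hG : HasDerivAt G ((2 * (-1 / (2 * kap e)) * qq e + 2 * kap e * (1 / (2 * qq e)))
      * Complex.cos (2 * qq e * a)
      + 2 * kap e * qq e * (-Complex.sin (2 * qq e * a) * (2 * (1 / (2 * qq e)) * a))
      + ((0 - 2 * 1) * Complex.sin (2 * qq e * a)
      + (I - 2 * e) * (Complex.cos (2 * qq e * a) * (2 * (1 / (2 * qq e)) * a)))) e := by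
    refine HasDerivAt.add (HasDerivAt.mul ((hk.const_mul 2).mul hq) hθ.ccos)
      (HasDerivAt.mul ?_ hθ.csin)
    exact (hasDerivAt_const e I).sub ((hasDerivAt_id e).const_mul 2)
  have hG0 : G e = 0 := by rw [hGF e hq0, h0, mul_zero]
  have hne : ((2 * (-1 / (2 * kap e)) * qq e + 2 * kap e * (1 / (2 * qq e)))
      * Complex.cos (2 * qq e * a)
      + 2 * kap e * qq e * (-Complex.sin (2 * qq e * a) * (2 * (1 / (2 * qq e)) * a))
      + ((0 - 2 * 1) * Complex.sin (2 * qq e * a)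
      + (I - 2 * e) * (Complex.cos (2 * qq e * a) * (2 * (1 / (2 * qq e)) * a)))) ≠ 0 := by
    intro hcon
    have hG0' : 2 * kap e * qq e * Complex.cos (2 * qq e * a)
        + (I - 2 * e) * Complex.sin (2 * qq e * a) = 0 := hG0
    have hsc := Complex.sin_sq_add_cos_sq (2 * qq e * a)
    set c := Complex.cos (2 * qq e * a)
    set s := Complex.sin (2 * qq e * a)
    set κ := kap e with hκd
    set q := qq e with hqd
    have e1 : κ ^ 2 = -e := hk2 e
    have e2 : q ^ 2 = e - I := hq2 e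
    have e3 : I - 2 * e = κ ^ 2 - q ^ 2 := by rw [e1, e2]; ring
    rw [e3] at hcon hG0'
    have e4 : κ * q * ((2 * (-1 / (2 * κ)) * q + 2 * κ * (1 / (2 * q))) * c
      + 2 * κ * q * (-s * (2 * (1 / (2 * q)) * a))
      + ((0 - 2 * 1) * s + (κ ^ 2 - q ^ 2) * (c * (2 * (1 / (2 * q)) * a))))
      = (1 + κ * a) * ((κ ^ 2 - q ^ 2) * c - 2 * κ * q * s) := by
      field_simp
      ring
    rw [hcon, mul_zero] at e4
    have e5 : (1 + κ * a : ℂ) ≠ 0 := by
      intro h
      have := congrArg Complex.re h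
      simp only [Complex.add_re, Complex.one_re, Complex.zero_re, Complex.mul_re,
        Complex.ofReal_re, Complex.ofReal_im, mul_zero, sub_zero] at this
      have := mul_pos hκ ha
      linarith
    have e6 : (κ ^ 2 - q ^ 2) * c - 2 * κ * q * s = 0 :=
      (mul_eq_zero.1 e4.symm).resolve_left e5
    have e7 : κ ^ 2 + q ^ 2 = -I := by rw [e1, e2]; ring
    have e8 : (κ ^ 2 + q ^ 2) ^ 2 = -1 := by rw [e7, neg_sq, Complex.I_sq]
    have e9 : (κ ^ 2 + q ^ 2) ^ 2 = 0 := by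
      have : (κ ^ 2 + q ^ 2) ^ 2 * (s ^ 2 + c ^ 2)
          = ((κ ^ 2 - q ^ 2) * c - 2 * κ * q * s) ^ 2
            + (2 * κ * q * c + (κ ^ 2 - q ^ 2) * s) ^ 2 := by ring
      rw [hsc, e6, hG0'] at this
      simpa using this
    rw [e8] at e9
    norm_num at e9
  have h1 := hG.eventually_ne (c := 0) hne
  have h2 : ∀ᶠ ζ in 𝓝[≠] e, qq ζ ≠ 0 :=
    (hq.continuousAt.eventually_ne hq0).filter_mono nhdsWithin_le_nhds
  filter_upwards [h1, h2] with ζ hζ1 hζ2 hF
  exact hζ1 (by rw [hGF ζ hζ2, hF, mul_zero])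

theorem qw_add_kw (w : ℂ) : qw w + kw w = w := by
  simp only [qw, kw]; ring

/-- The exponential equation. -/
theorem exp_eq {a x : ℝ} (ha : 0 < a) {m : ℕ} (hx : a * x = 2 * Real.pi * m + Real.pi / 2)
    {w : ℂ} (hw : w ≠ 0) (hfix : w = x - (2 * I / a) * Complex.log w + I / w) :
    Complex.exp (I * a * w + a / w) = I * w ^ 2 := by
  have ha' : (a : ℂ) ≠ 0 := by exact_mod_cast ha.ne'
  have e1 : I * a * w + a / w = I * ((a * x : ℝ) : ℂ) + 2 * Complex.log w := by
    have e2 : I * a * w = I * a * (x - (2 * I / a) * Complex.log w + I / w) := by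
      conv_lhs => rw [hfix]
    rw [e2]
    push_cast
    field_simp
    linear_combination (a - 2 * Complex.log w * w) * Complex.I_sq
  rw [e1, hx, Complex.exp_add]
  have e3 : Complex.exp (2 * Complex.log w) = w ^ 2 := by
    rw [two_mul, Complex.exp_add, Complex.exp_log hw, sq]
  have e4 : I * ((2 * Real.pi * m + Real.pi / 2 : ℝ) : ℂ)
      = (m : ℂ) * (2 * Real.pi * I) + (Real.pi / 2 : ℂ) * I := by
    push_cast; ring
  rw [e3, e4, Complex.exp_add, Complex.exp_nat_mul_two_pi_mul_I, Complex.exp_mul_I,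
    Complex.cos_pi_div_two, Complex.sin_pi_div_two]
  ring

theorem norm_pow_half {k : ℂ} : ‖k ^ 2‖ ^ (-(1 / 2) : ℝ) = ‖k‖⁻¹ := by
  rw [norm_pow, ← Real.rpow_natCast, ← Real.rpow_mul (norm_nonneg k)]
  norm_num
  exact Real.rpow_neg_one _

theorem exists_zeros (M : ℝ) : ∃ a : ℝ, 1 ≤ a ∧ ∃ S : Finset ℂ,
    (∀ e ∈ S, 1 < e.re ∧ 1 / 4 ≤ e.im ∧ Finf a e = 0 ∧ ∀ᶠ ζ in 𝓝[≠] e, Finf a ζ ≠ 0) ∧
    M * a ≤ ∑ e ∈ S, ‖e‖ ^ (-(1 / 2) : ℝ) := by
  classical
  have hπ := Real.pi_pos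
  have hπ3 := Real.pi_gt_three
  -- many blocks
  obtain ⟨N, hN⟩ : ∃ N : ℕ, 6 * (2 * Real.pi * M) ≤ ∑ i ∈ Finset.range N, (1 : ℝ) / (i + 1) :=
    (Real.tendsto_sum_range_one_div_nat_succ_atTop.eventually_ge_atTop _).exists
  set X : ℝ := N + 4 with hX
  obtain ⟨A, hA⟩ : ∃ A : ℕ, 16 * (X + 5) * (X + 1) ≤ A := exists_nat_ge _
  have hX4 : 4 ≤ X := by rw [hX]; linarith [Nat.cast_nonneg (α := ℝ) N]
  have hA1 : (1 : ℝ) ≤ A := by nlinarith
  have hA0 : (0 : ℝ) < A := by linarith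
  set a : ℝ := 2 * Real.pi * A with ha
  have haA : (A : ℝ) ≤ a := by rw [ha]; nlinarith
  have ha0 : 0 < a := by linarith
  have haX : 16 * (X + 5) * (X + 1) ≤ a := hA.trans haA
  let P : Finset (ℕ × ℕ) := Finset.range N ×ˢ Finset.range A
  let mm : ℕ × ℕ → ℕ := fun p => (4 + p.1) * A + p.2
  let x : ℕ × ℕ → ℝ := fun p => ((mm p : ℝ) + 1 / 4) / A
  have hmm : ∀ p, (mm p : ℝ) = (4 + p.1) * A + p.2 := fun p => by simp [mm]
  have hax : ∀ p, a * x p = 2 * Real.pi * (mm p : ℕ) + Real.pi / 2 := by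
    intro p
    simp only [x, ha]
    field_simp
    ring
  have hx4 : ∀ p, 4 ≤ x p := by
    intro p
    simp only [x]
    rw [le_div_iff₀ hA0, hmm]
    have := Nat.cast_nonneg (α := ℝ) p.1
    have := Nat.cast_nonneg (α := ℝ) p.2
    nlinarith
  have hxi : ∀ p ∈ P, x p ≤ p.1 + 5 := by
    intro p hp
    have hp2 : p.2 + 1 ≤ A := Finset.mem_range.1 (Finset.mem_product.1 hp).2
    have hp2' : (p.2 : ℝ) + 1 ≤ A := by exact_mod_cast hp2
    simp only [x]
    rw [div_le_iff₀ hA0, hmm]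
    nlinarith
  have hxX : ∀ p ∈ P, x p ≤ X := by
    intro p hp
    have hp1 : p.1 + 1 ≤ N := Finset.mem_range.1 (Finset.mem_product.1 hp).1
    have hp1' : (p.1 : ℝ) + 1 ≤ N := by exact_mod_cast hp1
    have := hxi p hp
    rw [hX]; linarith
  have hex : ∀ p : ℕ × ℕ, ∃ w : ℂ, p ∈ P → (‖w - x p‖ ≤ 1 ∧
      w = x p - (2 * I / a) * Complex.log w + I / w) := by
    intro p
    by_cases hp : p ∈ P
    · obtain ⟨w, hw⟩ := exists_w (hx4 p) (hxX p hp) haX
      exact ⟨w, fun _ => hw⟩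
    · exact ⟨0, fun h => absurd h hp⟩
  choose w hw using hex
  have hw0 : ∀ p ∈ P, w p ≠ 0 := by
    intro p hp h
    have := (ball_facts (hx4 p) (hxX p hp) (hw p hp).1).2.2.1
    rw [h] at this; simp at this; linarith
  have hfacts := fun p (hp : p ∈ P) =>
    point_facts (hx4 p) (hxX p hp) haX (hw p hp).1 (hw p hp).2
  have hzero := fun p (hp : p ∈ P) => Finf_zero (hw0 p hp) (hfacts p hp).1 (hfacts p hp).2.2.1
    (exp_eq ha0 (hax p) (hw0 p hp) (hw p hp).2)
  let e : ℕ × ℕ → ℂ := fun p => kw (w p) ^ 2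
  have hinj : Set.InjOn e P := by
    intro p hp p' hp' hee
    have hp : p ∈ P := hp
    have hp' : p' ∈ P := hp'
    have hee : kw (w p) ^ 2 = kw (w p') ^ 2 := hee
    have h1 := (hzero p hp).1
    have h2 := (hzero p' hp').1
    have h3 := (hzero p hp).2.1
    have h4 := (hzero p' hp').2.1
    rw [hee] at h1 h3
    have h5 : qw (w p) = qw (w p') := h1.symm.trans h2
    have h6 : kw (w p) = kw (w p') := by
      have := h3.symm.trans h4
      exact mul_left_cancel₀ (neg_ne_zero.2 Complex.I_ne_zero) this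
    have h7 : w p = w p' := by rw [← qw_add_kw (w p), ← qw_add_kw (w p'), h5, h6]
    have h8 : (x p : ℂ) = x p' := by
      have e1 := (hw p hp).2
      have e2 := (hw p' hp').2
      rw [← h7] at e2
      linear_combination e2 - e1
    have h9 : x p = x p' := by exact_mod_cast h8
    have h10 : (mm p : ℝ) = mm p' := by
      simp only [x] at h9
      have := (div_left_inj' hA0.ne').1 h9
      linarith
    have h11 : mm p = mm p' := by exact_mod_cast h10
    have hp2 : p.2 < A := Finset.mem_range.1 (Finset.mem_product.1 hp).2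
    have hp2' : p'.2 < A := Finset.mem_range.1 (Finset.mem_product.1 hp').2
    have hd : mm p / A = 4 + p.1 := by
      simp only [mm]
      rw [Nat.add_div_of_dvd_right (Dvd.intro_left _ rfl), Nat.mul_div_cancel _ (by omega),
        Nat.div_eq_of_lt hp2, add_zero]
    have hd' : mm p' / A = 4 + p'.1 := by
      simp only [mm]
      rw [Nat.add_div_of_dvd_right (Dvd.intro_left _ rfl), Nat.mul_div_cancel _ (by omega),
        Nat.div_eq_of_lt hp2', add_zero]
    have h12 : p.1 = p'.1 := by rw [h11, hd'] at hd; omega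
    have h13 : p.2 = p'.2 := by
      simp only [mm] at h11
      rw [h12] at h11
      omega
    exact Prod.ext h12 h13
  refine ⟨a, by linarith, P.image e, ?_, ?_⟩
  · intro z hz
    obtain ⟨p, hp, rfl⟩ := Finset.mem_image.1 hz
    obtain ⟨f1, f2, f3, f4, f5, f6⟩ := hfacts p hp
    obtain ⟨g1, g2, g3⟩ := hzero p hp
    refine ⟨f4, f5, g3, isolated ha0 f4 f5 ?_ g3⟩
    simp only [e]
    rw [g2]
    simp [f3]
  · rw [Finset.sum_image hinj]
    have h1 : ∀ p ∈ P, (1 : ℝ) / (p.1 + 6) ≤ ‖e p‖ ^ (-(1 / 2) : ℝ) := by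
      intro p hp
      obtain ⟨f1, f2, f3, f4, f5, f6⟩ := hfacts p hp
      simp only [e]
      rw [norm_pow_half, ← one_div]
      have hk : 0 < ‖kw (w p)‖ := by
        rw [norm_pos_iff]; intro h; rw [h] at f2; simp at f2
      apply one_div_le_one_div_of_le hk
      have := hxi p hp
      linarith
    refine le_trans ?_ (Finset.sum_le_sum h1)
    simp only [P]
    rw [Finset.sum_product]
    simp only [Finset.sum_const, Finset.card_range, nsmul_eq_mul]
    rw [← Finset.mul_sum]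
    have h2 : ∑ i ∈ Finset.range N, (1 / 6 : ℝ) * (1 / (i + 1))
        ≤ ∑ i ∈ Finset.range N, (1 : ℝ) / (i + 6) := by
      refine Finset.sum_le_sum fun i _ => ?_
      rw [one_div_mul_one_div]
      apply one_div_le_one_div_of_le (by positivity)
      have := Nat.cast_nonneg (α := ℝ) i
      linarith
    rw [← Finset.mul_sum] at h2
    have h3 : 2 * Real.pi * M ≤ ∑ i ∈ Finset.range N, (1 : ℝ) / (i + 6) := by linarith
    calc M * a = A * (2 * Real.pi * M) := by rw [ha]; ring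
      _ ≤ _ := by gcongr

end Pool.Agent.TH55.J59
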