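import Pool.Agent.TH795.LT.Defs

/-!
# Radial functions times harmonic polynomials solve the weak Schroedinger equation
-/

set_option autoImplicit false

open MeasureTheory Filter Topology Set
open scoped ENNReal NNReal ContDiff

namespace Pool.Agent.TH55.J60

open Pool.Agent.Helper41.CE (E IsTest pd pair IsGrad WeakEq Graph GenVec IndepVecs mult dRay posRay)
open Pool.Agent.TH795.LT

/-- Real partial derivative. -/
noncomputable def rd {d : ℕ} (i : Fin d) (Y : E d → ℝ) (x : E d) : ℝ :=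
  fderiv ℝ Y x (EuclideanSpace.single i 1)

/-! ### calculus of `pd` -/

theorem pd_mul {d : ℕ} (i : Fin d) {f g : E d → ℂ} {x : E d} (hf : DifferentiableAt ℝ f x)
    (hg : DifferentiableAt ℝ g x) :
    pd i (fun y => f y * g y) x = pd i f x * g x + f x * pd i g x := by
  simp only [pd]
  rw [fderiv_fun_mul hf hg]
  simp only [_root_.add_apply, _root_.smul_apply, smul_eq_mul]
  ring

theorem pd_add {d : ℕ} (i : Fin d) {f g : E d → ℂ} {x : E d} (hf : DifferentiableAt ℝ f x)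
    (hg : DifferentiableAt ℝ g x) :
    pd i (fun y => f y + g y) x = pd i f x + pd i g x := by
  simp only [pd]
  rw [fderiv_fun_add hf hg]
  simp only [_root_.add_apply]

theorem hasFDerivAt_radial {d : ℕ} {K K' : ℝ → ℂ} (hK : ∀ t, HasDerivAt K (K' t) t) (x : E d) :
    HasFDerivAt (fun y : E d => K (‖y‖ ^ 2))
      ((ContinuousLinearMap.toSpanSingleton ℝ (K' (‖x‖ ^ 2))).comp (2 • (innerSL ℝ) x)) x := by
  have h1 : HasFDerivAt (fun y : E d => ‖y‖ ^ 2) (2 • (innerSL ℝ) x) x :=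
    (hasStrictFDerivAt_norm_sq x).hasFDerivAt
  exact HasFDerivAt.comp x (hK (‖x‖ ^ 2)).hasFDerivAt h1

theorem pd_radial {d : ℕ} (i : Fin d) {K K' : ℝ → ℂ} (hK : ∀ t, HasDerivAt K (K' t) t) (x : E d) :
    pd i (fun y : E d => K (‖y‖ ^ 2)) x = 2 * (x i : ℂ) * K' (‖x‖ ^ 2) := by
  simp only [pd]
  rw [(hasFDerivAt_radial hK x).fderiv]
  simp only [ContinuousLinearMap.comp_apply, ContinuousLinearMap.toSpanSingleton_apply,
    _root_.smul_apply, innerSL_apply_apply, EuclideanSpace.inner_single_right]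
  simp

theorem pd_ofReal {d : ℕ} (i : Fin d) {Y : E d → ℝ} {x : E d} (hY : DifferentiableAt ℝ Y x) :
    pd i (fun y => (Y y : ℂ)) x = (rd i Y x : ℂ) := by
  simp only [pd, rd]
  have h : HasFDerivAt (fun y => (Y y : ℂ)) (Complex.ofRealCLM.comp (fderiv ℝ Y x)) x :=
    HasFDerivAt.comp x Complex.ofRealCLM.hasFDerivAt hY.hasFDerivAt
  rw [h.fderiv]
  simp

theorem pd_coord {d : ℕ} (i : Fin d) (x : E d) :
    pd i (fun y : E d => ((y i : ℝ) : ℂ)) x = 1 := by
  have h2 : HasFDerivAt (fun x : E d => x i) (EuclideanSpace.proj i : E d →L[ℝ] ℝ) x :=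
    (EuclideanSpace.proj i : E d →L[ℝ] ℝ).hasFDerivAt
  rw [pd_ofReal i h2.differentiableAt, rd, h2.fderiv]
  simp

/-! ### Euler's identity and homogeneity -/

theorem sum_rd {d : ℕ} (Y : E d → ℝ) (x : E d) :
    ∑ i, x i * rd i Y x = fderiv ℝ Y x x := by
  have h : x = ∑ i, x i • (EuclideanSpace.single i 1 : E d) := by
    have := (EuclideanSpace.basisFun (Fin d) ℝ).sum_repr x
    simpa using this.symm
  conv_rhs => rw [h]
  rw [map_sum]
  refine Finset.sum_congr rfl fun i _ => ?_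
  simp only [map_smul, smul_eq_mul, rd]
  congr 2
  rw [← h]

theorem euler {d l : ℕ} {Y : E d → ℝ} (hY : ContDiff ℝ ∞ Y)
    (hhom : ∀ (c : ℝ) (x : E d), Y (c • x) = c ^ l * Y x) (x : E d) :
    ∑ i, x i * rd i Y x = l * Y x := by
  rw [sum_rd]
  have hd : DifferentiableAt ℝ Y ((1 : ℝ) • x) := hY.differentiable (by simp) _
  have h1 : HasDerivAt (fun c : ℝ => Y (c • x)) (fderiv ℝ Y ((1 : ℝ) • x) ((1 : ℝ) • x)) 1 :=
    hd.hasFDerivAt.comp_hasDerivAt (1 : ℝ) ((hasDerivAt_id (1 : ℝ)).smul_const x)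
  have h2 : HasDerivAt (fun c : ℝ => Y (c • x)) (l * (1 : ℝ) ^ (l - 1) * Y x) 1 := by
    have : (fun c : ℝ => Y (c • x)) = fun c => c ^ l * Y x := by funext c; exact hhom c x
    rw [this]
    exact (hasDerivAt_pow l (1 : ℝ)).mul_const _
  have := h1.unique h2
  simpa using this

theorem rd_hom {d l : ℕ} (hl : 1 ≤ l) {Y : E d → ℝ} (hY : ContDiff ℝ ∞ Y)
    (hhom : ∀ (c : ℝ) (x : E d), Y (c • x) = c ^ l * Y x) (i : Fin d) (c : ℝ) (hc : c ≠ 0)
    (x : E d) : rd i Y (c • x) = c ^ (l - 1) * rd i Y x := by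
  simp only [rd]
  set v : E d := EuclideanSpace.single i 1
  have hd : DifferentiableAt ℝ Y (c • x) := hY.differentiable (by simp) _
  have hd' : DifferentiableAt ℝ Y x := hY.differentiable (by simp) _
  have h1 : HasFDerivAt (fun y : E d => Y (c • y))
      ((fderiv ℝ Y (c • x)).comp (c • ContinuousLinearMap.id ℝ (E d))) x :=
    HasFDerivAt.comp x hd.hasFDerivAt ((hasFDerivAt_id x).const_smul c)
  have h2 : HasFDerivAt (fun y : E d => Y (c • y)) (c ^ l • fderiv ℝ Y x) x := by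
    have : (fun y : E d => Y (c • y)) = fun y => c ^ l * Y y := by funext y; exact hhom c y
    rw [this]
    exact hd'.hasFDerivAt.const_mul _
  have h3 := congrArg (fun L : E d →L[ℝ] ℝ => L v) (h1.unique h2)
  simp only [ContinuousLinearMap.comp_apply, _root_.smul_apply, ContinuousLinearMap.id_apply,
    map_smul, smul_eq_mul] at h3
  have h4 : c ^ l = c * c ^ (l - 1) := by
    rw [← pow_succ']; congr 1; omega
  rw [h4, mul_assoc] at h3
  exact mul_left_cancel₀ hc h3

theorem hom_bound {d n : ℕ} {G : E d → ℝ} (hG : Continuous G)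
    (hhom : ∀ (c : ℝ), c ≠ 0 → ∀ x : E d, G (c • x) = c ^ n * G x) :
    ∃ C : ℝ, 0 ≤ C ∧ ∀ x : E d, x ≠ 0 → |G x| ≤ C * ‖x‖ ^ n := by
  obtain ⟨C, hC⟩ := (isCompact_sphere (0 : E d) 1).exists_bound_of_continuousOn hG.continuousOn
  refine ⟨max C 0, le_max_right _ _, fun x hx => ?_⟩
  have hx' : 0 < ‖x‖ := norm_pos_iff.2 hx
  have h1 : x = ‖x‖ • (‖x‖⁻¹ • x) := by
    rw [smul_smul, mul_inv_cancel₀ hx'.ne', one_smul]
  have h2 : G x = ‖x‖ ^ n * G (‖x‖⁻¹ • x) := by
    conv_lhs => rw [h1]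
    exact hhom _ hx'.ne' _
  have h3 : ‖G (‖x‖⁻¹ • x)‖ ≤ C := by
    apply hC
    simp [norm_smul, hx'.ne']
  rw [h2, abs_mul, abs_of_nonneg (by positivity : (0:ℝ) ≤ ‖x‖ ^ n), mul_comm]
  gcongr
  rw [← Real.norm_eq_abs]
  exact h3.trans (le_max_left _ _)

/-! ### polar coordinates -/

theorem memLp_radial {d : ℕ} (hd : 2 ≤ d) {g : ℝ → ℝ} (hg : Continuous g)
    (hi : IntegrableOn (fun r : ℝ => r ^ (d - 1) * g r ^ 2) (Ioi 0)) :
    MemLp (fun x : E d => g ‖x‖) 2 volume := by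
  have : Nontrivial (E d) := by
    have : NeZero d := ⟨by omega⟩
    infer_instance
  have hc : Continuous (fun x : E d => g ‖x‖) := hg.comp continuous_norm
  rw [memLp_two_iff_integrable_sq hc.aestronglyMeasurable]
  have := (integrable_fun_norm_addHaar (volume : Measure (E d)) (f := fun r => g r ^ 2)).2
  apply this
  simpa using hi

theorem ae_ne_zero {d : ℕ} (hd : 2 ≤ d) : ∀ᵐ x : E d ∂volume, x ≠ 0 := by
  have : Nontrivial (E d) := by
    have : NeZero d := ⟨by omega⟩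
    infer_instance
  rw [ae_iff]
  simp

/-- Integration by parts against test functions. -/
theorem ibp {d : ℕ} (i : Fin d) {u : E d → ℂ} (hu : ContDiff ℝ 1 u) {φ : E d → ℂ}
    (hφ : IsTest φ) : pair u (pd i φ) = - pair (pd i u) φ := by
  have hφ1 : ContDiff ℝ 1 φ := hφ.1.of_le (by simp)
  have hc1 : Continuous (fun x => fderiv ℝ u x (EuclideanSpace.single i 1)) :=
    (hu.continuous_fderiv (by simp)).clm_apply continuous_const
  have hc2 : Continuous (fun x => fderiv ℝ φ x (EuclideanSpace.single i 1)) :=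
    (hφ1.continuous_fderiv (by simp)).clm_apply continuous_const
  have hs : HasCompactSupport (fun x => fderiv ℝ φ x (EuclideanSpace.single i 1)) :=
    (hφ.2.fderiv_apply (𝕜 := ℝ) _)
  have := integral_mul_fderiv_eq_neg_fderiv_mul_of_integrable (μ := (volume : Measure (E d)))
    (f := u) (g := φ) (v := EuclideanSpace.single i 1)
    ((hc1.mul hφ1.continuous).integrable_of_hasCompactSupport hφ.2.mul_left)
    ((hu.continuous.mul hc2).integrable_of_hasCompactSupport hs.mul_left)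
    ((hu.continuous.mul hφ1.continuous).integrable_of_hasCompactSupport hφ.2.mul_left)
    (fun x _ => hu.differentiable (by simp) x) (fun x _ => hφ1.differentiable (by simp) x)
  exact this

theorem integrable_mul_test {d : ℕ} {u φ : E d → ℂ} (hu : Continuous u) (hφ : IsTest φ) :
    Integrable (fun x => u x * φ x) volume :=
  (hu.mul hφ.1.continuous).integrable_of_hasCompactSupport hφ.2.mul_left

theorem graph_radial {d l : ℕ} (hd : 2 ≤ d) (hl : 1 ≤ l) (v : ℝ → ℂ) (hv : Continuous v)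
    (hvb : ∃ C, ∀ r, ‖v r‖ ≤ C) (ħ : ℝ) (hħ : 0 < ħ) (z : ℂ) (H H1 H2 : ℝ → ℂ)
    (hH : ∀ t, HasDerivAt H (H1 t) t) (hH1 : ∀ t, HasDerivAt H1 (H2 t) t) (hH2 : Continuous H2)
    (hode : ∀ r : ℝ, 0 ≤ r → (ħ : ℂ) ^ 2 * (4 * (r : ℂ) ^ 2 * H2 (r ^ 2)
      + (2 * d + 4 * l) * H1 (r ^ 2)) = (v r - z) * H (r ^ 2))
    (hi0 : IntegrableOn (fun r : ℝ => r ^ (2 * l + d - 1) * ‖H (r ^ 2)‖ ^ 2) (Ioi 0))
    (hi1 : IntegrableOn (fun r : ℝ => r ^ (2 * l + d + 1) * ‖H1 (r ^ 2)‖ ^ 2) (Ioi 0))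
    (Y : E d → ℝ) (hY : IsHH d l Y) :
    Graph (fun x : E d => v ‖x‖) ħ (fun x => H (‖x‖ ^ 2) * (Y x : ℂ))
      (fun x => z * (H (‖x‖ ^ 2) * (Y x : ℂ))) := by
  obtain ⟨hYs, hYhom, hYharm⟩ := hY
  have hHc : Continuous H := continuous_iff_continuousAt.2 fun t => (hH t).continuousAt
  have hH1c : Continuous H1 := continuous_iff_continuousAt.2 fun t => (hH1 t).continuousAt
  -- smoothness
  have hH1s : ContDiff ℝ 1 H1 := by
    rw [contDiff_one_iff_deriv]
    refine ⟨fun t => (hH1 t).differentiableAt, ?_⟩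
    have : deriv H1 = H2 := funext fun t => (hH1 t).deriv
    rw [this]; exact hH2
  have hHs : ContDiff ℝ 1 H := by
    rw [contDiff_one_iff_deriv]
    refine ⟨fun t => (hH t).differentiableAt, ?_⟩
    have : deriv H = H1 := funext fun t => (hH t).deriv
    rw [this]; exact hH1c
  have hns : ContDiff ℝ 1 (fun x : E d => ‖x‖ ^ 2) := contDiff_norm_sq ℝ
  have hYC : ContDiff ℝ 1 (fun x : E d => (Y x : ℂ)) :=
    Complex.ofRealCLM.contDiff.comp (hYs.of_le (by simp))
  have hrdS : ∀ i, ContDiff ℝ ∞ (rd i Y) := fun i => by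
    have h1 : ContDiff ℝ ∞ (fderiv ℝ Y) := hYs.fderiv_right (by simp)
    exact h1.clm_apply contDiff_const
  have hrdC : ∀ i, ContDiff ℝ 1 (fun x : E d => (rd i Y x : ℂ)) := fun i =>
    Complex.ofRealCLM.contDiff.comp ((hrdS i).of_le (by simp))
  have hcoord : ∀ i, ContDiff ℝ 1 (fun x : E d => ((x i : ℝ) : ℂ)) := fun i =>
    Complex.ofRealCLM.contDiff.comp (by fun_prop)
  let U : E d → ℂ := fun x => H (‖x‖ ^ 2) * (Y x : ℂ)
  have hHr : ContDiff ℝ 1 (fun x : E d => H (‖x‖ ^ 2)) := hHs.comp hns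
  have hH1r : ContDiff ℝ 1 (fun x : E d => H1 (‖x‖ ^ 2)) := hH1s.comp hns
  have hUs : ContDiff ℝ 1 U := hHr.mul hYC
  -- gradient
  have hgrad : ∀ i, pd i U = fun x => (2 * (x i : ℂ) * H1 (‖x‖ ^ 2)) * (Y x : ℂ)
      + H (‖x‖ ^ 2) * (rd i Y x : ℂ) := by
    intro i
    funext x
    rw [pd_mul i (hHr.differentiable (by simp) x) (hYC.differentiable (by simp) x),
      pd_radial i hH, pd_ofReal i (hYs.differentiable (by simp) x)]
  have hgs : ∀ i, ContDiff ℝ 1 (pd i U) := by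
    intro i
    rw [hgrad i]
    exact (((contDiff_const.mul (hcoord i)).mul hH1r).mul hYC).add (hHr.mul (hrdC i))
  have hlap : ∀ x, ∑ i, pd i (pd i U) x =
      (4 * ((‖x‖ : ℝ) : ℂ) ^ 2 * H2 (‖x‖ ^ 2) + (2 * d + 4 * l) * H1 (‖x‖ ^ 2)) * (Y x : ℂ) := by
    intro x
    have e1 : ∀ i, pd i (pd i U) x = 2 * H1 (‖x‖ ^ 2) * (Y x : ℂ)
        + 4 * (x i : ℂ) ^ 2 * H2 (‖x‖ ^ 2) * (Y x : ℂ)
        + 4 * H1 (‖x‖ ^ 2) * ((x i : ℂ) * (rd i Y x : ℂ))
        + H (‖x‖ ^ 2) * (rd i (rd i Y) x : ℂ) := by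
      intro i
      rw [hgrad i]
      have d1 : DifferentiableAt ℝ (fun x : E d => (2 * (x i : ℂ) * H1 (‖x‖ ^ 2))) x :=
        ((contDiff_const.mul (hcoord i)).mul hH1r).differentiable (by simp) x
      have d2 : DifferentiableAt ℝ (fun x : E d => (Y x : ℂ)) x := hYC.differentiable (by simp) x
      have d3 : DifferentiableAt ℝ (fun x : E d => H (‖x‖ ^ 2)) x := hHr.differentiable (by simp) x
      have d4 : DifferentiableAt ℝ (fun x : E d => (rd i Y x : ℂ)) x :=
        (hrdC i).differentiable (by simp) x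
      have d5 : DifferentiableAt ℝ (fun x : E d => (2 * (x i : ℂ))) x :=
        (contDiff_const.mul (hcoord i)).differentiable (by simp) x
      have d6 : DifferentiableAt ℝ (fun x : E d => H1 (‖x‖ ^ 2)) x :=
        hH1r.differentiable (by simp) x
      have d7 : DifferentiableAt ℝ (fun x : E d => ((x i : ℝ) : ℂ)) x :=
        (hcoord i).differentiable (by simp) x
      have d8 : DifferentiableAt ℝ (fun x : E d => (2 * (x i : ℂ) * H1 (‖x‖ ^ 2)) * (Y x : ℂ)) x :=
        d1.mul d2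
      have d9 : DifferentiableAt ℝ (fun x : E d => H (‖x‖ ^ 2) * (rd i Y x : ℂ)) x := d3.mul d4
      rw [pd_add i d8 d9, pd_mul i d1 d2, pd_mul i d3 d4, pd_mul i d5 d6,
        pd_mul i (differentiableAt_const _) d7, pd_radial i hH, pd_radial i hH1,
        pd_ofReal i (hYs.differentiable (by simp) x),
        pd_ofReal i ((hrdS i).differentiable (by simp) x), pd_coord]
      have : pd i (fun _ : E d => (2 : ℂ)) x = 0 := by simp [pd]
      rw [this]
      ring
    simp only [e1, Finset.sum_add_distrib, ← Finset.mul_sum, ← Finset.sum_mul, Finset.sum_const,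
      Finset.card_univ, Fintype.card_fin, nsmul_eq_mul]
    have e2 : ∑ i, ((x i : ℂ)) ^ 2 = ((‖x‖ : ℝ) : ℂ) ^ 2 := by
      have : ‖x‖ ^ 2 = ∑ i, x i ^ 2 := EuclideanSpace.real_norm_sq_eq x
      exact_mod_cast this.symm
    have e3 : ∑ i, ((x i : ℂ) * (rd i Y x : ℂ)) = (l : ℂ) * (Y x : ℂ) := by
      have := euler hYs hYhom x
      exact_mod_cast this
    have e4 : ∑ i, (rd i (rd i Y) x : ℂ) = 0 := by
      have := hYharm x
      exact_mod_cast this
    rw [e2, e3, e4]
    ring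
  -- bounds
  obtain ⟨C0, hC0, hYb⟩ := hom_bound (n := l) hYs.continuous (fun c _ x => hYhom c x)
  have hYm : MemLp U 2 volume := by
    have h1 : MemLp (fun x : E d => (fun r : ℝ => C0 * r ^ l * ‖H (r ^ 2)‖) ‖x‖) 2 volume := by
      refine memLp_radial (g := fun r : ℝ => C0 * r ^ l * ‖H (r ^ 2)‖) hd (by fun_prop) ?_
      have := hi0.const_mul (C0 ^ 2)
      refine IntegrableOn.congr_fun this (fun r _ => ?_) measurableSet_Ioi
      have e : 2 * l + d - 1 = 2 * l + (d - 1) := by omega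
      simp only [e, pow_add, pow_mul, mul_pow]
      ring
    refine h1.mono' hUs.continuous.aestronglyMeasurable ?_
    filter_upwards [ae_ne_zero hd] with x hx
    simp only [U, norm_mul, Complex.norm_real, Real.norm_eq_abs]
    have := hYb x hx
    calc ‖H (‖x‖ ^ 2)‖ * |Y x| ≤ ‖H (‖x‖ ^ 2)‖ * (C0 * ‖x‖ ^ l) := by gcongr
      _ = C0 * ‖x‖ ^ l * ‖H (‖x‖ ^ 2)‖ := by ring
  have hgm : ∀ i, MemLp (pd i U) 2 volume := by
    intro i
    obtain ⟨C1, hC1, hrb⟩ := hom_bound (n := l - 1) (hrdS i).continuous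
      (fun c hc x => rd_hom hl hYs hYhom i c hc x)
    rw [hgrad i]
    refine MemLp.add ?_ ?_
    · have h1 : MemLp (fun x : E d => (fun r : ℝ => 2 * C0 * r ^ (l + 1) * ‖H1 (r ^ 2)‖) ‖x‖) 2
          volume := by
        refine memLp_radial (g := fun r : ℝ => 2 * C0 * r ^ (l + 1) * ‖H1 (r ^ 2)‖) hd
          (by fun_prop) ?_
        have := hi1.const_mul ((2 * C0) ^ 2)
        refine IntegrableOn.congr_fun this (fun r _ => ?_) measurableSet_Ioi
        have e : 2 * l + d + 1 = 2 * (l + 1) + (d - 1) := by omega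
        simp only [e, pow_add, pow_mul, mul_pow]
        ring
      refine h1.mono' (((contDiff_const.mul (hcoord i)).mul hH1r).mul
        hYC).continuous.aestronglyMeasurable ?_
      filter_upwards [ae_ne_zero hd] with x hx
      simp only [norm_mul, Complex.norm_real, Real.norm_eq_abs, Complex.norm_ofNat]
      have h2 := hYb x hx
      have h3 : |x i| ≤ ‖x‖ := by
        rw [← Real.norm_eq_abs]; exact PiLp.norm_apply_le x i
      calc 2 * |x i| * ‖H1 (‖x‖ ^ 2)‖ * |Y x| ≤ 2 * ‖x‖ * ‖H1 (‖x‖ ^ 2)‖ * (C0 * ‖x‖ ^ l) := by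
            gcongr
        _ = 2 * C0 * ‖x‖ ^ (l + 1) * ‖H1 (‖x‖ ^ 2)‖ := by ring
    · have h1 : MemLp (fun x : E d => (fun r : ℝ => C1 * r ^ (l - 1) * ‖H (r ^ 2)‖) ‖x‖) 2
          volume := by
        refine memLp_radial (g := fun r : ℝ => C1 * r ^ (l - 1) * ‖H (r ^ 2)‖) hd
          (by fun_prop) ?_
        have hcont : Continuous (fun r : ℝ => r ^ (d - 1) * (C1 * r ^ (l - 1) * ‖H (r ^ 2)‖) ^ 2) := by
          fun_prop
        rw [← Ioc_union_Ioi_eq_Ioi (zero_le_one' ℝ)]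
        refine IntegrableOn.union ?_ ?_
        · exact (hcont.integrableOn_Icc).mono_set Ioc_subset_Icc_self
        · have h4 := IntegrableOn.mono_set (hi0.const_mul (C1 ^ 2))
            (Ioi_subset_Ioi (zero_le_one' ℝ))
          refine Integrable.mono' h4 hcont.aestronglyMeasurable ?_
          filter_upwards [ae_restrict_mem measurableSet_Ioi] with r hr
          have hr1 : 1 < r := hr
          have hr0 : 0 < r := by linarith
          rw [Real.norm_of_nonneg (by positivity)]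
          have e5 : r ^ (d - 1) * (C1 * r ^ (l - 1) * ‖H (r ^ 2)‖) ^ 2
              = C1 ^ 2 * (r ^ (2 * (l - 1) + (d - 1)) * ‖H (r ^ 2)‖ ^ 2) := by
            simp only [pow_add, pow_mul, mul_pow]
            ring
          rw [e5]
          gcongr
          · exact hr1.le
          · omega
      refine h1.mono' (hHr.mul (hrdC i)).continuous.aestronglyMeasurable ?_
      filter_upwards [ae_ne_zero hd] with x hx
      simp only [norm_mul, Complex.norm_real, Real.norm_eq_abs]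
      have h2 := hrb x hx
      calc ‖H (‖x‖ ^ 2)‖ * |rd i Y x| ≤ ‖H (‖x‖ ^ 2)‖ * (C1 * ‖x‖ ^ (l - 1)) := by gcongr
        _ = C1 * ‖x‖ ^ (l - 1) * ‖H (‖x‖ ^ 2)‖ := by ring
  have hvc : Continuous (fun x : E d => v ‖x‖) := hv.comp continuous_norm
  refine ⟨hYm, hYm.const_mul z, ?_, fun i => pd i U, fun i => ⟨hgm i, fun φ hφ => ibp i hUs hφ⟩, ?_⟩
  · obtain ⟨C, hC⟩ := hvb
    have h1 : Integrable (fun x => ‖U x‖ ^ 2) volume :=
      (memLp_two_iff_integrable_sq_norm hUs.continuous.aestronglyMeasurable).1 hYm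
    refine (h1.const_mul C).mono' ?_ ?_
    · exact (hvc.norm.mul (hUs.continuous.norm.pow 2)).aestronglyMeasurable
    · filter_upwards with x
      rw [Real.norm_of_nonneg (by positivity)]
      gcongr
      exact hC _
  · intro φ hφ
    have h1 : ∀ i, pair (pd i U) (pd i φ) = - pair (pd i (pd i U)) φ := fun i => ibp i (hgs i) hφ
    simp only [h1]
    have hpc : ∀ i, Continuous (pd i (pd i U)) := fun i =>
      ((hgs i).continuous_fderiv (by simp)).clm_apply continuous_const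
    simp only [pair]
    rw [Finset.sum_neg_distrib, ← integral_finsetSum _ (fun i _ => integrable_mul_test (hpc i) hφ)]
    have h2 : ∀ x, ∑ i, pd i (pd i U) x * φ x = (∑ i, pd i (pd i U) x) * φ x := fun x => by
      rw [Finset.sum_mul]
    simp only [h2, hlap]
    rw [mul_neg, ← integral_const_mul, ← sub_eq_neg_add, ← integral_sub]
    · refine integral_congr_ae (Filter.Eventually.of_forall fun x => ?_)
      have h3 := hode ‖x‖ (norm_nonneg x)
      simp only
      push_cast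
      linear_combination (-(Y x : ℂ) * φ x) * h3
    · exact integrable_mul_test (hvc.mul hUs.continuous) hφ
    · refine Integrable.const_mul ?_ _
      refine integrable_mul_test (u := fun x => (4 * ((‖x‖ : ℝ) : ℂ) ^ 2 * H2 (‖x‖ ^ 2)
        + (2 * d + 4 * l) * H1 (‖x‖ ^ 2)) * (Y x : ℂ)) ?_ hφ
      have := hYs.continuous
      fun_prop

end Pool.Agent.TH55.J60
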