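import Pool.Agent.TH795.LT.Defs

/-!
# Harmonic homogeneous polynomials
-/

set_option autoImplicit false

open MeasureTheory Filter Topology Set
open scoped ENNReal NNReal ContDiff

namespace Pool.Agent.TH55.J61

open Pool.Agent.Helper41.CE (E)
open Pool.Agent.TH795.LT
open MvPolynomial

/-- The polynomial function on Euclidean space attached to a polynomial. -/
noncomputable def ev (d : ℕ) : MvPolynomial (Fin d) ℝ →ₗ[ℝ] (E d → ℝ) where
  toFun p := fun x => eval (fun i => x i) p
  map_add' p q := by funext x; simp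
  map_smul' c p := by funext x; simp [smul_eval]

theorem ev_apply {d : ℕ} (p : MvPolynomial (Fin d) ℝ) (x : E d) :
    ev d p x = eval (fun i => x i) p := rfl

theorem ev_ker (d : ℕ) : LinearMap.ker (ev d) = ⊥ := by
  rw [LinearMap.ker_eq_bot]
  intro p q h
  refine MvPolynomial.funext fun x => ?_
  have := congrFun h (WithLp.toLp 2 x)
  simpa [ev_apply] using this

theorem ev_contDiff {d : ℕ} (p : MvPolynomial (Fin d) ℝ) : ContDiff ℝ ∞ (ev d p) := by
  induction p using MvPolynomial.induction_on with
  | C a =>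
    have : ev d (C a) = fun _ => a := by funext x; simp [ev_apply]
    rw [this]; exact contDiff_const
  | add p q hp hq =>
    rw [map_add]; exact hp.add hq
  | mul_X p n hp =>
    have : ev d (p * X n) = fun x => ev d p x * x n := by funext x; simp [ev_apply]
    rw [this]
    refine hp.mul ?_
    fun_prop

theorem fderiv_ev {d : ℕ} (p : MvPolynomial (Fin d) ℝ) (i : Fin d) (x : E d) :
    fderiv ℝ (ev d p) x (EuclideanSpace.single i 1) = ev d (pderiv i p) x := by
  induction p using MvPolynomial.induction_on with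
  | C a =>
    have : ev d (C a) = fun _ => a := by funext x; simp [ev_apply]
    rw [this]; simp
  | add p q hp hq =>
    have h1 : DifferentiableAt ℝ (ev d p) x := (ev_contDiff p).differentiable (by simp) x
    have h2 : DifferentiableAt ℝ (ev d q) x := (ev_contDiff q).differentiable (by simp) x
    rw [map_add, fderiv_add h1 h2, map_add, map_add]
    simp [hp, hq]
  | mul_X p n hp =>
    have : ev d (p * X n) = fun x => ev d p x * x n := by funext x; simp [ev_apply]
    have h1 : DifferentiableAt ℝ (ev d p) x := (ev_contDiff p).differentiable (by simp) x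
    have h2 : HasFDerivAt (fun x : E d => x n) (EuclideanSpace.proj n : E d →L[ℝ] ℝ) x :=
      (EuclideanSpace.proj n : E d →L[ℝ] ℝ).hasFDerivAt
    rw [this, fderiv_fun_mul h1 h2.differentiableAt, h2.fderiv]
    have e3 : ev d (pderiv i (p * X n)) x
        = ev d p x * (if n = i then 1 else 0) + x n * ev d (pderiv i p) x := by
      rw [Derivation.leibniz, pderiv_X]
      simp only [smul_eq_mul, map_add, Pi.add_apply]
      congr 1
      · by_cases h : n = i
        · subst h; simp
        · simp [h]
      · simp [ev_apply]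
    rw [e3]
    simp only [_root_.add_apply, _root_.smul_apply, smul_eq_mul, hp]
    congr 2
    simp

/-- The formal Laplacian. -/
noncomputable def Lap (d : ℕ) : MvPolynomial (Fin d) ℝ →ₗ[ℝ] MvPolynomial (Fin d) ℝ :=
  ∑ i : Fin d, (pderiv i).toLinearMap ∘ₗ (pderiv i).toLinearMap

theorem Lap_apply {d : ℕ} (p : MvPolynomial (Fin d) ℝ) :
    Lap d p = ∑ i : Fin d, pderiv i (pderiv i p) := by
  simp [Lap]

theorem isHH_of {d l : ℕ} (p : MvPolynomial (Fin d) ℝ) (h : p.IsHomogeneous l)
    (hL : Lap d p = 0) : IsHH d l (ev d p) := by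
  refine ⟨ev_contDiff p, ?_, ?_⟩
  · intro c x
    simp only [ev_apply]
    have : (fun i => (c • x) i) = fun i => c * x i := by funext i; simp
    rw [this]
    rw [MvPolynomial.eval_eq', MvPolynomial.eval_eq', Finset.mul_sum]
    refine Finset.sum_congr rfl fun m hm => ?_
    have hdeg : ∑ i, m i = l := by
      have h1 := h (MvPolynomial.mem_support_iff.1 hm)
      rw [← h1, Finsupp.weight_apply, Finsupp.sum_fintype _ _ (by simp)]
      simp
    have : ∏ i, (c * x i) ^ m i = c ^ l * ∏ i, x i ^ m i := by
      simp_rw [mul_pow]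
      rw [Finset.prod_mul_distrib, Finset.prod_pow_eq_pow_sum, hdeg]
    rw [this]; ring
  · intro x
    have : ∀ i, fderiv ℝ (fun y => fderiv ℝ (ev d p) y (EuclideanSpace.single i 1)) x
        (EuclideanSpace.single i 1) = ev d (pderiv i (pderiv i p)) x := by
      intro i
      have e : (fun y => fderiv ℝ (ev d p) y (EuclideanSpace.single i 1)) = ev d (pderiv i p) := by
        funext y; exact fderiv_ev p i y
      rw [e, fderiv_ev]
    simp only [this]
    have h2 : ev d (Lap d p) x = 0 := by rw [hL]; simp
    rw [Lap_apply, map_sum, Finset.sum_apply] at h2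
    exact h2

theorem degree_eq {d : ℕ} (m : Fin d →₀ ℕ) : Finsupp.degree m = ∑ i, m i :=
  Finsupp.degree_eq_sum m

/-- Multi-indices of degree `l`. -/
def A (d l : ℕ) : Set (Fin d →₀ ℕ) := {m | ∑ i, m i = l}

/-- Multi-indices of degree `l - 2`. -/
def A' (d l : ℕ) : Set (Fin d →₀ ℕ) := {m | ∑ i, m i + 2 = l}

theorem A_finite (d l : ℕ) : (A d l).Finite := by
  have := Finsupp.finite_of_degree_eq (σ := Fin d) l
  refine this.subset fun m hm => ?_
  simp only [Set.mem_ofPred_eq, degree_eq]; exact hm

theorem A'_finite (d l : ℕ) : (A' d l).Finite := by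
  refine (A_finite d (l - 2)).subset fun m hm => ?_
  simp only [A', A, Set.mem_ofPred_eq] at hm ⊢
  omega

theorem Lap_maps {d l : ℕ} (p : MvPolynomial (Fin d) ℝ) (hp : p ∈ restrictSupport ℝ (A d l)) :
    Lap d p ∈ restrictSupport ℝ (A' d l) := by
  rw [restrictSupport_eq_span] at hp
  induction hp using Submodule.span_induction with
  | mem x hx =>
    obtain ⟨m, hm, rfl⟩ := hx
    rw [Lap_apply]
    refine Submodule.sum_mem _ fun i _ => ?_
    rw [pderiv_monomial, pderiv_monomial]
    rw [monomial_mem_restrictSupport]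
    by_cases h : 2 ≤ m i
    · left
      simp only [A', A, Set.mem_ofPred_eq] at hm ⊢
      have h1 : m = (m - Finsupp.single i 1 - Finsupp.single i 1) + Finsupp.single i 2 := by
        ext j
        by_cases hj : j = i
        · subst hj; simp; omega
        · simp [Ne.symm hj]
      have h2 : ∑ j, m j = ∑ j, (m - Finsupp.single i 1 - Finsupp.single i 1 : Fin d →₀ ℕ) j + 2 := by
        conv_lhs => rw [h1]
        simp only [Finsupp.add_apply, Finset.sum_add_distrib]
        congr 1
        simp [Finsupp.single_apply]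
      omega
    · right
      have : m i = 0 ∨ m i = 1 := by omega
      rcases this with h0 | h0 <;> simp [h0]
  | zero => simp
  | add x y _ _ hx hy => rw [map_add]; exact Submodule.add_mem _ hx hy
  | smul a x _ hx => rw [map_smul]; exact Submodule.smul_mem _ _ hx

theorem card_ineq (e l : ℕ) :
    Nat.card (A' (e + 2) l) + (l + e).choose e ≤ Nat.card (A (e + 2) l) := by
  classical
  have hA : Finite (A (e + 2) l) := (A_finite _ _).to_subtype
  have hA' : Finite (A' (e + 2) l) := (A'_finite _ _).to_subtype
  let f : (A' (e + 2) l) ⊕ {P : Fin (e + 1) → ℕ // ∑ i, P i = l} → A (e + 2) l :=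
    Sum.elim
      (fun m => ⟨m.1 + Finsupp.single 0 2, by
        have h2 : ∑ i, (m.1 + Finsupp.single 0 2 : Fin (e + 2) →₀ ℕ) i = ∑ i, m.1 i + 2 := by
          simp only [Finsupp.add_apply, Finset.sum_add_distrib]
          congr 1
          simp [Finsupp.single_apply]
        have h3 : ∑ i, m.1 i + 2 = l := m.2
        exact h2.trans h3⟩)
      (fun P => ⟨Finsupp.equivFunOnFinite.symm (Fin.cons 0 P.1), by
        simp only [A, Set.mem_ofPred_eq]
        rw [Fin.sum_univ_succ]
        simp [P.2]⟩)
  have hf : Function.Injective f := by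
    rintro (m | P) (m' | P') h
    · simp only [f, Sum.elim_inl, Subtype.mk.injEq] at h
      congr 1
      exact Subtype.ext (add_right_cancel h)
    · exfalso
      simp only [f, Sum.elim_inl, Sum.elim_inr, Subtype.mk.injEq] at h
      have := DFunLike.congr_fun h 0
      simp at this
    · exfalso
      simp only [f, Sum.elim_inl, Sum.elim_inr, Subtype.mk.injEq] at h
      have := DFunLike.congr_fun h 0
      simp at this
    · simp only [f, Sum.elim_inr, Subtype.mk.injEq, EmbeddingLike.apply_eq_iff_eq] at h
      congr 1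
      refine Subtype.ext ?_
      exact (Fin.cons_injective2 h).2
  have hcard : Nat.card {P : Fin (e + 1) → ℕ // ∑ i, P i = l} = (l + e).choose e := by
    rw [← Nat.card_congr (Sym.equivNatSumOfFintype (Fin (e + 1)) l), Nat.card_eq_fintype_card,
      Sym.card_sym_eq_multichoose, Nat.multichoose_eq, Fintype.card_fin]
    have : e + 1 + l - 1 = l + e := by omega
    rw [this]
    exact Nat.choose_symm_add
  have hfin : Finite {P : Fin (e + 1) → ℕ // ∑ i, P i = l} :=
    Finite.of_equiv _ (Sym.equivNatSumOfFintype (Fin (e + 1)) l)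
  rw [← hcard, ← Nat.card_sum]
  exact Nat.card_le_card_of_injective f hf

theorem exists_ker_family {V W F : Type*} [AddCommGroup V] [Module ℝ V] [AddCommGroup W]
    [Module ℝ W] [AddCommGroup F] [Module ℝ F] [FiniteDimensional ℝ V] [FiniteDimensional ℝ W]
    (L : V →ₗ[ℝ] W) (n : ℕ) (h : Module.finrank ℝ W + n ≤ Module.finrank ℝ V)
    (φ : V →ₗ[ℝ] F) (hφ : LinearMap.ker φ = ⊥) :
    ∃ f : Fin n → V, (∀ i, L (f i) = 0) ∧ LinearIndependent ℝ (fun i => φ (f i)) := by
  have h1 := LinearMap.finrank_range_add_finrank_ker L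
  have h2 : Module.finrank ℝ (LinearMap.range L) ≤ Module.finrank ℝ W := Submodule.finrank_le _
  have h4 : n ≤ Module.finrank ℝ (LinearMap.ker L) := by omega
  obtain ⟨f, hf⟩ := exists_linearIndependent_of_le_finrank h4
  refine ⟨fun i => (f i : V), fun i => (f i).2, ?_⟩
  have g1 : LinearIndependent ℝ (fun i => ((f i : V))) :=
    hf.map' (LinearMap.ker L).subtype (Submodule.ker_subtype _)
  exact g1.map' φ hφ

theorem exists_harmonics (d l : ℕ) (hd : 2 ≤ d) :
    ∃ Y : Fin ((l + d - 2).choose (d - 2)) → E d → ℝ,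
      (∀ i, IsHH d l (Y i)) ∧ LinearIndependent ℝ Y := by
  obtain ⟨e, rfl⟩ : ∃ e, d = e + 2 := ⟨d - 2, by omega⟩
  have hde : l + (e + 2) - 2 = l + e := by omega
  have hde' : e + 2 - 2 = e := by omega
  rw [hde, hde']
  have hA : Finite (A (e + 2) l) := (A_finite _ _).to_subtype
  have hA' : Finite (A' (e + 2) l) := (A'_finite _ _).to_subtype
  have hVf : FiniteDimensional ℝ (restrictSupport ℝ (A (e + 2) l)) :=
    (basisRestrictSupport ℝ (A (e + 2) l)).finiteDimensional_of_finite
  have hWf : FiniteDimensional ℝ (restrictSupport ℝ (A' (e + 2) l)) :=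
    (basisRestrictSupport ℝ (A' (e + 2) l)).finiteDimensional_of_finite
  have hV : Module.finrank ℝ (restrictSupport ℝ (A (e + 2) l)) = Nat.card (A (e + 2) l) :=
    Module.finrank_eq_nat_card_basis (basisRestrictSupport ℝ (A (e + 2) l))
  have hW : Module.finrank ℝ (restrictSupport ℝ (A' (e + 2) l)) = Nat.card (A' (e + 2) l) :=
    Module.finrank_eq_nat_card_basis (basisRestrictSupport ℝ (A' (e + 2) l))
  have hφ : LinearMap.ker ((ev (e + 2)).comp (restrictSupport ℝ (A (e + 2) l)).subtype) = ⊥ := by
    rw [LinearMap.ker_comp, ev_ker]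
    exact Submodule.ker_subtype _
  obtain ⟨f, hf0, hf⟩ := exists_ker_family
    ((Lap (e + 2)).restrict fun p hp => Lap_maps (l := l) p hp) ((l + e).choose e)
    (by rw [hV, hW]; exact card_ineq e l) _ hφ
  refine ⟨fun i => ev (e + 2) (f i : MvPolynomial (Fin (e + 2)) ℝ), ?_, hf⟩
  intro i
  refine isHH_of _ ?_ ?_
  · have hmem := (f i).2
    intro m hm
    have : m ∈ A (e + 2) l := by
      have h5 := ((mem_restrictSupport_iff ℝ).1 hmem)
      exact h5 (MvPolynomial.mem_support_iff.2 hm)
    rw [Finsupp.weight_apply, Finsupp.sum_fintype _ _ (by simp)]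
    simpa [A] using this
  · exact congrArg Subtype.val (hf0 i)

end Pool.Agent.TH55.J61
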