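import Pool.Agent.TH795.LT.Defs

/-!
# Linear independence of radial functions times harmonic polynomials
-/

set_option autoImplicit false

open MeasureTheory Filter Topology Set
open scoped ENNReal NNReal ContDiff

namespace Pool.Agent.TH55.J62

open Pool.Agent.Helper41.CE (E)
open Pool.Agent.TH795.LT

theorem indep_radial {d : ℕ} (hd : 2 ≤ d) {ι : Type} [Fintype ι] (deg N : ι → ℕ)
    (hdeg : Function.Injective deg) (Y : (i : ι) → Fin (N i) → E d → ℝ)
    (hY : ∀ i j, IsHH d (deg i) (Y i j)) (hlin : ∀ i, LinearIndependent ℝ (Y i))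
    (H : ι → ℝ → ℂ) (hH : ∀ i, Continuous (H i)) (h1 : ∀ i, H i 0 = 1)
    (c : (i : ι) → Fin (N i) → ℂ)
    (h0 : (fun x : E d => ∑ i, ∑ j, c i j * (H i (‖x‖ ^ 2) * (Y i j x : ℂ)))
      =ᵐ[volume] 0) : ∀ i j, c i j = 0 := by
  classical
  have hYc : ∀ i j, Continuous (Y i j) := fun i j => (hY i j).1.continuous
  have hF : Continuous (fun x : E d => ∑ i, ∑ j, c i j * (H i (‖x‖ ^ 2) * (Y i j x : ℂ))) := by
    refine continuous_finsetSum _ fun i _ => continuous_finsetSum _ fun j _ => ?_
    exact continuous_const.mul (((hH i).comp (continuous_norm.pow 2)).mul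
      (Complex.continuous_ofReal.comp (hYc i j)))
  have hzero : (fun x : E d => ∑ i, ∑ j, c i j * (H i (‖x‖ ^ 2) * (Y i j x : ℂ))) = 0 :=
    (Continuous.ae_eq_iff_eq volume hF continuous_const).1 h0
  by_contra hcon
  push Not at hcon
  obtain ⟨i1, j1, hij1⟩ := hcon
  let S : Finset ι := Finset.univ.filter (fun i => ∃ j, c i j ≠ 0)
  have hS : S.Nonempty := ⟨i1, by simp only [S, Finset.mem_filter, Finset.mem_univ, true_and]; exact ⟨j1, hij1⟩⟩
  obtain ⟨i0, hi0, hmin⟩ := S.exists_min_image deg hS
  have hnot : ∀ i, i ∉ S → ∀ j, c i j = 0 := by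
    intro i hi j
    by_contra h
    exact hi (by simp only [S, Finset.mem_filter, Finset.mem_univ, true_and]; exact ⟨j, h⟩)
  -- the lowest order part
  have hZ : ∀ x : E d, ∑ j, c i0 j * (Y i0 j x : ℂ) = 0 := by
    intro x
    let Z : ι → ℂ := fun i => ∑ j, c i j * (Y i j x : ℂ)
    have hZnot : ∀ i, i ∉ S → Z i = 0 := by
      intro i hi
      refine Finset.sum_eq_zero fun j _ => ?_
      rw [hnot i hi j, zero_mul]
    let G : ℝ → ℂ := fun t => ∑ i, H i (‖t • x‖ ^ 2) * ((t : ℂ) ^ (deg i - deg i0) * Z i)
    have hG : Continuous G := by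
      refine continuous_finsetSum _ fun i _ => ?_
      refine ((hH i).comp ?_).mul ?_
      · fun_prop
      · fun_prop
    have hGt : ∀ t : ℝ, t ≠ 0 → G t = 0 := by
      intro t ht
      have e1 := congrFun hzero (t • x)
      simp only [Pi.zero_apply] at e1
      have e2 : (t : ℂ) ^ (deg i0) * G t =
          ∑ i, ∑ j, c i j * (H i (‖t • x‖ ^ 2) * (Y i j (t • x) : ℂ)) := by
        simp only [G]
        rw [Finset.mul_sum]
        refine Finset.sum_congr rfl fun i _ => ?_
        by_cases hi : i ∈ S
        · have hle := hmin i hi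
          have hpow : (t : ℂ) ^ (deg i) = (t : ℂ) ^ (deg i0) * (t : ℂ) ^ (deg i - deg i0) := by
            rw [← pow_add]; congr 1; omega
          have : ∑ j, c i j * (H i (‖t • x‖ ^ 2) * (Y i j (t • x) : ℂ))
              = H i (‖t • x‖ ^ 2) * ((t : ℂ) ^ (deg i) * Z i) := by
            simp only [Z]
            rw [Finset.mul_sum, Finset.mul_sum]
            refine Finset.sum_congr rfl fun j _ => ?_
            rw [(hY i j).2.1 t x]
            push_cast
            ring
          rw [this, hpow]
          ring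
        · rw [hZnot i hi]
          rw [Finset.sum_eq_zero (fun j _ => by rw [hnot i hi j, zero_mul])]
          ring
      rw [e1] at e2
      exact (mul_eq_zero.1 e2).resolve_left (pow_ne_zero _ (by exact_mod_cast ht))
    have hG0 : G 0 = 0 := by
      have h2 : Tendsto G (𝓝[≠] 0) (𝓝 (G 0)) := (hG.tendsto 0).mono_left nhdsWithin_le_nhds
      have h3 : Tendsto G (𝓝[≠] 0) (𝓝 0) := by
        refine Tendsto.congr' ?_ tendsto_const_nhds
        filter_upwards [self_mem_nhdsWithin] with t ht
        exact (hGt t ht).symm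
      exact tendsto_nhds_unique h2 h3
    have hG1 : G 0 = Z i0 := by
      simp only [G]
      rw [Finset.sum_eq_single i0]
      · simp [h1]
      · intro i _ hne
        by_cases hi : i ∈ S
        · have hle := hmin i hi
          have hne' : deg i ≠ deg i0 := fun h => hne (hdeg h)
          have hpos : deg i - deg i0 ≠ 0 := by omega
          simp [hpos]
        · rw [hZnot i hi]; ring
      · intro h; exact absurd (Finset.mem_univ _) h
    rw [hG1] at hG0
    exact hG0
  have hli := Fintype.linearIndependent_iff.1 (hlin i0)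
  have hre : ∀ j, (c i0 j).re = 0 := by
    apply hli
    funext x
    have := congrArg Complex.re (hZ x)
    simp only [Complex.re_sum, Complex.mul_re, Complex.ofReal_re, Complex.ofReal_im, mul_zero,
      sub_zero, Complex.zero_re] at this
    simpa [Finset.sum_apply] using this
  have him : ∀ j, (c i0 j).im = 0 := by
    apply hli
    funext x
    have := congrArg Complex.im (hZ x)
    simp only [Complex.im_sum, Complex.mul_im, Complex.ofReal_re, Complex.ofReal_im, mul_zero,
      zero_add, Complex.zero_im] at this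
    simpa [Finset.sum_apply] using this
  obtain ⟨j, hj⟩ := (Finset.mem_filter.1 hi0).2
  exact hj (Complex.ext (hre j) (him j))

end Pool.Agent.TH55.J62
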