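import Pool.Agent.TH986.LK_B
import Pool.Agent.TH806.LS.Defs

set_option autoImplicit false

/-! JOB LS U4 of the LS project (helper806): the twisted second moment for the weights with squares.
Port of `Pool.Agent.TH986.LK_U4` (helper986). -/

namespace Pool.Agent.TH55.LS_U4s

open Finset Filter Topology MeasureTheory
open Pool.Agent.W184.NZ
open Pool.Agent.TH806
open Pool.Agent.TH806.LK
open Pool.Agent.TH806.LS
open Pool.Agent.TH986.LK_B (NC_conj_real NC_cont' pf_cont' zz_cont zz_le hh_cont hh_bd norm_e DK_conj swap2 dbl_le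
  gauss2_up len_le VV_nonneg small VV_le dbl_lin WW_ge)
open Pool.Agent.H306R2.SM (om cl Yf)
open Pool.Agent.H262R4.TM (Rng Ck)

noncomputable section

/-! ### the local factor with squares -/

lemma NS_conj_real (K : ℕ) (a : ℝ) (z : ℂ) :
    starRingEnd ℂ (NS K a z) = NS K a (starRingEnd ℂ z) := by
  unfold NS
  have h : ((a:ℂ) / 2) = ((a / 2 : ℝ) : ℂ) := by push_cast; ring
  rw [h, map_pow, NC_conj_real]

lemma NS_cont' {X : Type*} [TopologicalSpace X] (K : ℕ) (a : ℂ) {g : X → ℂ} (hg : Continuous g) :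
    Continuous fun x => NS K a (g x) := by
  unfold NS
  exact (NC_cont' K continuous_const hg).pow 2

lemma BFs_cont' {X : Type*} [TopologicalSpace X] (K : ℕ) (a b : ℝ) {f g : X → ℝ} {h : X → ℂ}
    (hf : Continuous f) (hg : Continuous g) (hh : Continuous h) :
    Continuous fun x => BFs K a b (f x) (g x) (h x) := by
  unfold BFs
  have h2 : Continuous fun x => starRingEnd ℂ (h x) := Complex.continuous_conj.comp hh
  exact ((NS_cont' K a hh).mul (NS_cont' K b h2)).mul ((pf_cont' K hf hh).mul (pf_cont' K hg hh))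

/-- the integrand -/
def FS (n Rs J : ℕ) (I : ℕ → Finset ℕ) (a b u : ℝ) (t θ₁ θ₂ : ℝ) : ℂ :=
  ((hh θ₁ * hh θ₂ : ℝ) : ℂ) * (Complex.exp (-(((θ₁ + θ₂) * u : ℝ) : ℂ) * Complex.I) *
    ∏ i ∈ range J, BFs (KK n Rs i) a b θ₁ θ₂ (zz I t i))

lemma prodS_cont (n Rs J : ℕ) {I : ℕ → Finset ℕ} (hI : ∀ i, ∀ p ∈ I i, p.Prime) (a b : ℝ) :
    Continuous fun x : ℝ × ℝ × ℝ => ∏ i ∈ range J, BFs (KK n Rs i) a b x.2.1 x.2.2 (zz I x.1 i) := by
  refine continuous_finsetProd _ fun i _ => ?_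
  have h1 : Continuous fun x : ℝ × ℝ × ℝ => x.2.1 := by fun_prop
  have h2 : Continuous fun x : ℝ × ℝ × ℝ => x.2.2 := by fun_prop
  have h3 : Continuous fun x : ℝ × ℝ × ℝ => zz I x.1 i := (zz_cont hI i).comp continuous_fst
  exact BFs_cont' (KK n Rs i) a b h1 h2 h3

lemma FS_cont (n Rs J : ℕ) {I : ℕ → Finset ℕ} (hI : ∀ i, ∀ p ∈ I i, p.Prime) (a b u : ℝ) :
    Continuous fun x : ℝ × ℝ × ℝ => FS n Rs J I a b u x.1 x.2.1 x.2.2 := by
  unfold FS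
  have h1 := prodS_cont n Rs J hI a b
  have h2 := hh_cont
  fun_prop

lemma prodS_bd (n Rs J : ℕ) {I : ℕ → Finset ℕ} (hI : ∀ i, ∀ p ∈ I i, p.Prime) (a b : ℝ) :
    ∃ B : ℝ, 0 ≤ B ∧ ∀ t, ∀ θ₁ ∈ Set.Icc (-1:ℝ) 1, ∀ θ₂ ∈ Set.Icc (-1:ℝ) 1,
      ‖∏ i ∈ range J, BFs (KK n Rs i) a b θ₁ θ₂ (zz I t i)‖ ≤ B := by
  have h1 : ∀ i, ∃ B : ℝ, ∀ t, ∀ θ₁ ∈ Set.Icc (-1:ℝ) 1, ∀ θ₂ ∈ Set.Icc (-1:ℝ) 1,
      ‖BFs (KK n Rs i) a b θ₁ θ₂ (zz I t i)‖ ≤ B := by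
    intro i
    have hK : IsCompact (Set.Icc (-1:ℝ) 1 ×ˢ Set.Icc (-1:ℝ) 1 ×ˢ Metric.closedBall (0:ℂ) (I i).card) :=
      isCompact_Icc.prod (isCompact_Icc.prod (isCompact_closedBall _ _))
    have hcB : Continuous fun x : ℝ × ℝ × ℂ => BFs (KK n Rs i) a b x.1 x.2.1 x.2.2 :=
      BFs_cont' (KK n Rs i) a b (by fun_prop) (by fun_prop) (by fun_prop)
    obtain ⟨B, hB⟩ := hK.exists_bound_of_continuousOn hcB.continuousOn
    refine ⟨B, fun t θ₁ h1 θ₂ h2 => hB (θ₁, θ₂, zz I t i) ⟨h1, h2, ?_⟩⟩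
    rw [mem_closedBall_zero_iff]
    exact zz_le hI i t
  choose B hB using h1
  refine ⟨∏ i ∈ range J, |B i|, by positivity, fun t θ₁ h1 θ₂ h2 => ?_⟩
  rw [norm_prod]
  exact prod_le_prod (fun i _ => norm_nonneg _) fun i _ => (hB i t θ₁ h1 θ₂ h2).trans (le_abs_self _)

lemma FS_bd (n Rs J : ℕ) {I : ℕ → Finset ℕ} (hI : ∀ i, ∀ p ∈ I i, p.Prime) (a b u : ℝ) :
    ∃ B : ℝ, ∀ t, ∀ θ₁ ∈ Set.Icc (-1:ℝ) 1, ∀ θ₂ ∈ Set.Icc (-1:ℝ) 1, ‖FS n Rs J I a b u t θ₁ θ₂‖ ≤ B := by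
  obtain ⟨B, hB0, hB⟩ := prodS_bd n Rs J hI a b
  refine ⟨B, fun t θ₁ h1 θ₂ h2 => ?_⟩
  unfold FS
  rw [norm_mul, norm_mul, norm_e, one_mul, Complex.norm_real, Real.norm_eq_abs, abs_mul,
    abs_of_nonneg (hh_bd h1).1, abs_of_nonneg (hh_bd h2).1]
  have h4 : hh θ₁ * hh θ₂ ≤ 1 := mul_le_one₀ (hh_bd h1).2 (hh_bd h2).1 (hh_bd h2).2
  calc hh θ₁ * hh θ₂ * ‖∏ i ∈ range J, BFs (KK n Rs i) a b θ₁ θ₂ (zz I t i)‖ ≤ 1 * B :=
        mul_le_mul h4 (hB t θ₁ h1 θ₂ h2) (norm_nonneg _) zero_le_one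
    _ = B := one_mul B

lemma DKs_sq (n Rs J : ℕ) (a b u : ℝ) (z : ℕ → ℂ) :
    AQ n Rs J a z * starRingEnd ℂ (AQ n Rs J b z) * ((‖DK n Rs J hh u z‖ ^ 2 : ℝ) : ℂ) =
      ∫ θ₁ in (-1:ℝ)..1, ∫ θ₂ in (-1:ℝ)..1, ((hh θ₁ * hh θ₂ : ℝ) : ℂ) *
        (Complex.exp (-(((θ₁ + θ₂) * u : ℝ) : ℂ) * Complex.I) *
          ∏ i ∈ range J, BFs (KK n Rs i) a b θ₁ θ₂ (z i)) := by
  have h1 : ((‖DK n Rs J hh u z‖ ^ 2 : ℝ) : ℂ) = DK n Rs J hh u z * DK n Rs J hh u z := by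
    have := Complex.mul_conj' (DK n Rs J hh u z)
    rw [DK_conj] at this
    rw [this]; push_cast; rfl
  have h2 : ∀ θ₁ θ₂ : ℝ, ((hh θ₁ * hh θ₂ : ℝ) : ℂ) *
        (Complex.exp (-(((θ₁ + θ₂) * u : ℝ) : ℂ) * Complex.I) *
          ∏ i ∈ range J, BFs (KK n Rs i) a b θ₁ θ₂ (z i)) =
      (AQ n Rs J a z * starRingEnd ℂ (AQ n Rs J b z) *
        ((hh θ₁ : ℂ) * (Complex.exp (-((θ₁ * u : ℝ) : ℂ) * Complex.I) *
          ∏ i ∈ range J, pf (KK n Rs i) θ₁ (z i)))) *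
        ((hh θ₂ : ℂ) * (Complex.exp (-((θ₂ * u : ℝ) : ℂ) * Complex.I) *
          ∏ i ∈ range J, pf (KK n Rs i) θ₂ (z i))) := by
    intro θ₁ θ₂
    have e1 : Complex.exp (-(((θ₁ + θ₂) * u : ℝ) : ℂ) * Complex.I) =
        Complex.exp (-((θ₁ * u : ℝ) : ℂ) * Complex.I) * Complex.exp (-((θ₂ * u : ℝ) : ℂ) * Complex.I) := by
      rw [← Complex.exp_add]; congr 1; push_cast; ring
    have e2 : ∏ i ∈ range J, BFs (KK n Rs i) a b θ₁ θ₂ (z i) = AQ n Rs J a z * starRingEnd ℂ (AQ n Rs J b z) *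
        ((∏ i ∈ range J, pf (KK n Rs i) θ₁ (z i)) * ∏ i ∈ range J, pf (KK n Rs i) θ₂ (z i)) := by
      unfold AQ
      rw [map_prod]
      simp_rw [NS_conj_real]
      rw [← prod_mul_distrib, ← prod_mul_distrib, ← prod_mul_distrib]
      rfl
    rw [e1, e2]
    push_cast
    ring
  simp_rw [h2, intervalIntegral.integral_const_mul, intervalIntegral.integral_mul_const]
  rw [intervalIntegral.integral_const_mul, h1]
  unfold DK
  ring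

lemma len4_le {y : ℝ} (hy : 1 ≤ y) (n Rs J : ℕ) :
    ∑ i ∈ range J, ((4 * KK n Rs i : ℕ) : ℝ) * Real.log (bb y i) ≤ 320 * (n * ((Rs:ℝ) + 1) * Real.log y) := by
  have h := len_le hy n Rs J
  have h1 : ∑ i ∈ range J, ((4 * KK n Rs i : ℕ) : ℝ) * Real.log (bb y i) =
      4 / 3 * ∑ i ∈ range J, ((3 * KK n Rs i : ℕ) : ℝ) * Real.log (bb y i) := by
    rw [mul_sum]
    refine sum_congr rfl fun i _ => ?_
    push_cast
    ring
  rw [h1]
  linarith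

/-- the twisted second moment -/
theorem t_U4s : Pool.Agent.TH806.LS.P_ALGs → Pool.Agent.TH806.LK.P_LAW → Pool.Agent.TH806.LS.P_PRDs →
    Pool.Agent.TH806.LK.P_AV2 → Pool.Agent.TH806.LS.P_U4s := by
  intro hA hL hP h2
  intro n c hn hc
  have hn0 : (1:ℝ) ≤ n := by exact_mod_cast hn
  obtain ⟨P₀, C, hP144, hC1, hLaw⟩ := hL (8 * n + 8) (by linarith)
  obtain ⟨C₃, hC3, hprd⟩ := hP n c C hn hc
  obtain ⟨η₀, hη0, hη1, hav⟩ := h2
  obtain ⟨C₂, hC2, hav⟩ := hav c (8 * n + 8) C (n + 1) hc (by linarith) (by linarith)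
  refine ⟨P₀, 48 * C₂ * C₃ + 1, η₀ / 320, by positivity, by positivity, fun Rs hRs => ?_⟩
  filter_upwards [hav, small hη0 (show 0 < Real.exp (-c) * Real.exp (-c) / 4 by positivity),
    Real.tendsto_log_atTop.eventually_gt_atTop 1, eventually_gt_atTop (3:ℝ)]
    with T hT hsm hLT hT3 κ hκ y J I hCfg hlen a u ha
  have hI : ∀ i, ∀ p ∈ I i, p.Prime := fun i p hp => (hCfg.rg.pr i p hp).1
  have hIP : ∀ i, ∀ p ∈ I i, p.Prime ∧ P₀ ≤ p := fun i p hp => ⟨hI i p hp, hCfg.P i p hp⟩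
  choose ν hν using fun i => (hLaw (I i) (hIP i)).2.1
  have hT0 : 0 < T := by linarith
  have hL0 : 0 < Real.log T := by linarith
  have hk0 : (0:ℝ) < κ := by
    have := hκ.1
    nlinarith
  have hδ : 0 < (κ:ℝ) / T := by positivity
  have hV0 : 0 ≤ VV I J := VV_nonneg I J
  have hVl : VV I J ≤ Real.log (Real.log T) + c := VV_le hCfg hn (by positivity) (by linarith) hLT hlen
  have hlen2 : ∑ i ∈ range J, ((4 * KK n Rs i : ℕ) : ℝ) * Real.log (bb y i) ≤ η₀ * Real.log T := by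
    refine (len4_le (by linarith [hCfg.y1]) n Rs J).trans ?_
    linarith
  have hs : -1 ≤ 2 * a + a ^ 2 := by nlinarith [sq_nonneg (a + 1)]
  set V := VV I J with hV
  -- the inner bound
  have hin : ∀ θ₁ θ₂ : ℝ, |θ₁| ≤ 1 → |θ₂| ≤ 1 →
      ‖∫ t in Set.Ioi (0:ℝ), ((wz κ T t : ℝ) : ℂ) * ∏ i ∈ range J, BFs (KK n Rs i) a a θ₁ θ₂ (zz I t i)‖ ≤
        2 * C₂ * C₃ * Real.log T * Real.exp ((2 * a + a ^ 2) * V) * Real.exp (-((θ₁ + θ₂) ^ 2 / 4 * V)) +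
          T ^ (-η₀) := by
    intro θ₁ θ₂ h1 h2
    have hb := hT κ hκ J I (bb y) (fun i => 4 * KK n Rs i) (fun i => BFs (KK n Rs i) a a θ₁ θ₂) ν hCfg.rg
      (fun i _ => hν i) (fun i _ => by
        have hKn : n + 1 ≤ KK n Rs i := by
          unfold KK RR
          nlinarith [Nat.zero_le i, Nat.zero_le (n * i), Nat.mul_le_mul hn hRs]
        obtain ⟨q1, _, _, q4, _, _⟩ := hA n (KK n Rs i) 1 a a θ₁ θ₂ hn hKn le_rfl ha ha h1 h2
        refine ⟨by omega, ?_, q1, q4⟩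
        have : ((n + 1 : ℕ) : ℝ) ≤ KK n Rs i := by exact_mod_cast hKn
        push_cast at this ⊢
        linarith) hlen2
    have hpr := hprd J Rs I (bb y) ν hCfg.rg hRs w1 1 zero_le_one le_rfl (fun i _ => hν i) a θ₁ θ₂ ha h1 h2
    set E := Real.exp ((2 * 1 * a + a ^ 2 - (θ₁ + θ₂) ^ 2 / 4) * VV I J) with hE
    have hE2 : E = Real.exp ((2 * a + a ^ 2) * V) * Real.exp (-((θ₁ + θ₂) ^ 2 / 4 * V)) := by
      rw [hE, ← Real.exp_add]; congr 1; ring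
    have hE0 : 0 < E := Real.exp_pos _
    refine hb.trans (add_le_add_left ?_ _)
    have e1 : Real.log T * ∏ i ∈ range J, ‖∫ q, q.2 * BFs (KK n Rs i) a a θ₁ θ₂ q.1 ∂(ν i)‖ ≤
        Real.log T * (C₃ * E) := mul_le_mul_of_nonneg_left hpr.1 hL0.le
    have e2 : ∑ i ∈ range J, ((4 * KK n Rs i : ℕ) : ℝ) * Real.log (bb y i) *
          ∏ j ∈ (range J).erase i, ‖∫ q, q.2 * BFs (KK n Rs j) a a θ₁ θ₂ q.1 ∂(ν j)‖ ≤
        Real.log T * (C₃ * E) := by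
      calc _ ≤ ∑ i ∈ range J, ((4 * KK n Rs i : ℕ) : ℝ) * Real.log (bb y i) * (C₃ * E) := by
            refine sum_le_sum fun i hi => ?_
            rw [mem_range] at hi
            refine mul_le_mul_of_nonneg_left (hpr.2 i hi).1 ?_
            have hb1 : 0 ≤ Real.log (bb y i) := Real.log_nonneg (by linarith [hCfg.rg.b10 i hi])
            positivity
        _ = (∑ i ∈ range J, ((4 * KK n Rs i : ℕ) : ℝ) * Real.log (bb y i)) * (C₃ * E) := by rw [sum_mul]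
        _ ≤ (η₀ * Real.log T) * (C₃ * E) := mul_le_mul_of_nonneg_right hlen2 (by positivity)
        _ ≤ (1 * Real.log T) * (C₃ * E) := by
            refine mul_le_mul_of_nonneg_right (mul_le_mul_of_nonneg_right (by linarith) hL0.le) (by positivity)
        _ = _ := by ring
    calc _ ≤ C₂ * (Real.log T * (C₃ * E) + Real.log T * (C₃ * E)) :=
          mul_le_mul_of_nonneg_left (add_le_add e1 e2) hC2.le
      _ = _ := by rw [hE2]; ring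
  -- the integral
  have hWi : IntegrableOn (fun t => wz κ T t) (Set.Ioi 0) := Pool.Agent.H262R4.TM.TTW.int2 κ hδ
  have hWc : Integrable (fun t => ((wz κ T t : ℝ) : ℂ)) (volume.restrict (Set.Ioi 0)) := hWi.ofReal
  obtain ⟨B, hB⟩ := FS_bd n Rs J hI a a u
  have hsw := swap2 hWc (FS_cont n Rs J hI a a u) hB
  have hAD : ∀ t, ((AQD n Rs J I a u t : ℝ) : ℂ) =
      ∫ θ₁ in (-1:ℝ)..1, ∫ θ₂ in (-1:ℝ)..1, FS n Rs J I a a u t θ₁ θ₂ := by
    intro t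
    unfold AQD FS
    rw [← DKs_sq, Complex.mul_conj']
    push_cast
    rfl
  have hmain : ((∫ t in Set.Ioi (0:ℝ), wz κ T t * AQD n Rs J I a u t : ℝ) : ℂ) =
      ∫ θ₁ in (-1:ℝ)..1, ∫ θ₂ in (-1:ℝ)..1, ∫ t in Set.Ioi (0:ℝ), ((wz κ T t : ℝ) : ℂ) *
        FS n Rs J I a a u t θ₁ θ₂ := by
    rw [← hsw.1, ← integral_complex_ofReal]
    refine integral_congr_ae (Eventually.of_forall fun t => ?_)
    simp only
    rw [← hAD]
    push_cast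
    rfl
  have hup : (∫ t in Set.Ioi (0:ℝ), wz κ T t * AQD n Rs J I a u t) ≤
      ∫ θ₁ in (-1:ℝ)..1, ∫ θ₂ in (-1:ℝ)..1,
        ((2 * C₂ * C₃ * Real.log T * Real.exp ((2 * a + a ^ 2) * V)) *
          Real.exp (-((θ₁ + θ₂) ^ 2 / 4 * V)) + T ^ (-η₀)) := by
    refine (le_abs_self _).trans ?_
    rw [← Real.norm_eq_abs, ← Complex.norm_real, hmain]
    refine dbl_le (by fun_prop) fun θ₁ h1 θ₂ h2 => ?_
    have e1 : ∀ t : ℝ, ((wz κ T t : ℝ) : ℂ) * FS n Rs J I a a u t θ₁ θ₂ =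
        (((hh θ₁ * hh θ₂ : ℝ) : ℂ) * Complex.exp (-(((θ₁ + θ₂) * u : ℝ) : ℂ) * Complex.I)) *
        (((wz κ T t : ℝ) : ℂ) * ∏ i ∈ range J, BFs (KK n Rs i) a a θ₁ θ₂ (zz I t i)) := by
      intro t; unfold FS; ring
    simp_rw [e1]
    rw [integral_const_mul, norm_mul, norm_mul, norm_e, mul_one, Complex.norm_real, Real.norm_eq_abs, abs_mul,
      abs_of_nonneg (hh_bd h1).1, abs_of_nonneg (hh_bd h2).1]
    have h3 := hin θ₁ θ₂ (abs_le.mpr h1) (abs_le.mpr h2)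
    have h4 : hh θ₁ * hh θ₂ ≤ 1 := mul_le_one₀ (hh_bd h1).2 (hh_bd h2).1 (hh_bd h2).2
    calc _ ≤ 1 * ‖∫ t in Set.Ioi (0:ℝ), ((wz κ T t : ℝ) : ℂ) *
          ∏ i ∈ range J, BFs (KK n Rs i) a a θ₁ θ₂ (zz I t i)‖ := mul_le_mul_of_nonneg_right h4 (norm_nonneg _)
      _ = _ := one_mul _
      _ ≤ _ := h3
  rw [dbl_lin (g := fun θ₁ θ₂ => Real.exp (-((θ₁ + θ₂) ^ 2 / 4 * V))) (by fun_prop)] at hup
  have hg := gauss2_up hV0
  have hW := WW_ge hV0 hL0 hVl hs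
  have h5 : 4 * T ^ (-η₀) ≤ Real.log T * WW (2 * a + a ^ 2) V := by
    have e1 : 4 * T ^ (-η₀) ≤ Real.exp (-c) * Real.exp (-c) / Real.log T := by
      calc 4 * T ^ (-η₀) ≤ 4 * (Real.exp (-c) * Real.exp (-c) / 4 / Real.log T) :=
            mul_le_mul_of_nonneg_left hsm (by norm_num)
        _ = _ := by ring
    have e2 : Real.exp (-c) * Real.exp (-c) / Real.log T =
        Real.log T * ((Real.exp (-c) / Real.log T) * (Real.exp (-c) / Real.log T)) := by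
      field_simp
    rw [e2] at e1
    exact e1.trans (mul_le_mul_of_nonneg_left hW hL0.le)
  have h6 : (2 * C₂ * C₃ * Real.log T * Real.exp ((2 * a + a ^ 2) * V)) *
      (∫ θ₁ in (-1:ℝ)..1, ∫ θ₂ in (-1:ℝ)..1, Real.exp (-((θ₁ + θ₂) ^ 2 / 4 * V))) ≤
      48 * C₂ * C₃ * Real.log T * WW (2 * a + a ^ 2) V := by
    calc _ ≤ (2 * C₂ * C₃ * Real.log T * Real.exp ((2 * a + a ^ 2) * V)) *
        (24 * (1 + V) ^ (-(1 / 2) : ℝ)) := mul_le_mul_of_nonneg_left hg (by positivity)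
      _ = _ := by unfold WW; ring
  calc _ ≤ _ := hup
    _ ≤ 48 * C₂ * C₃ * Real.log T * WW (2 * a + a ^ 2) V + Real.log T * WW (2 * a + a ^ 2) V :=
        add_le_add h6 h5
    _ = _ := by ring

end

end Pool.Agent.TH55.LS_U4s
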