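import Mathlib

set_option autoImplicit false
open MeasureTheory Filter Topology
open scoped FourierTransform SchwartzMap ENNReal

namespace Pool.Agent.TH55.PowA

/-- the real pairing on the plane -/
def sm (x ξ : ℂ) : ℝ := x.re * ξ.re + x.im * ξ.im

/-- Fourier transform, literal form -/
noncomputable def Ft (f : 𝓢(ℂ, ℂ)) (ξ : ℂ) : ℂ :=
  ∫ x : ℂ, Complex.exp (-(2 * (Real.pi : ℂ) * Complex.I * ((sm x ξ : ℝ) : ℂ))) * f x

/-- the multiplier operator with symbol `m`, literal form -/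
noncomputable def T (m : ℂ → ℂ) (f : 𝓢(ℂ, ℂ)) (z : ℂ) : ℂ :=
  ∫ ξ : ℂ, Complex.exp (2 * (Real.pi : ℂ) * Complex.I * ((sm z ξ : ℝ) : ℂ)) * (m ξ * Ft f ξ)

lemma Ft_eq (f : 𝓢(ℂ, ℂ)) (ξ : ℂ) : Ft f ξ = (𝓕 f : 𝓢(ℂ, ℂ)) ξ := by
  rw [SchwartzMap.fourier_coe, Real.fourier_eq']
  unfold Ft
  refine integral_congr_ae (Eventually.of_forall fun x => ?_)
  simp only [smul_eq_mul]
  have : (inner ℝ x ξ : ℝ) = sm x ξ := by
    rw [Complex.inner]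
    simp [sm]
    ring
  rw [this]
  congr 2
  push_cast
  ring

lemma Ft_fun (f : 𝓢(ℂ, ℂ)) : Ft f = ⇑(𝓕 f : 𝓢(ℂ, ℂ)) := funext (Ft_eq f)

lemma Ft_int (f : 𝓢(ℂ, ℂ)) : Integrable (Ft f) := by
  rw [Ft_fun]; exact (𝓕 f : 𝓢(ℂ, ℂ)).integrable

lemma norm_ex (a : ℝ) : ‖Complex.exp (2 * (Real.pi : ℂ) * Complex.I * (a : ℂ))‖ = 1 := by
  have : 2 * (Real.pi : ℂ) * Complex.I * (a : ℂ) = ((2 * Real.pi * a : ℝ) : ℂ) * Complex.I := by
    push_cast; ring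
  rw [this, Complex.norm_exp_ofReal_mul_I]

lemma meas_ex (z : ℂ) : Measurable (fun ξ : ℂ =>
    Complex.exp (2 * (Real.pi : ℂ) * Complex.I * ((sm z ξ : ℝ) : ℂ))) := by
  unfold sm
  fun_prop

/-- admissible symbols -/
structure Adm (m : ℂ → ℂ) : Prop where
  meas : Measurable m
  le1 : ∀ ξ, ‖m ξ‖ ≤ 1

lemma T_integrand_int {m : ℂ → ℂ} (hm : Adm m) (f : 𝓢(ℂ, ℂ)) (z : ℂ) :
    Integrable (fun ξ : ℂ => Complex.exp (2 * (Real.pi : ℂ) * Complex.I * ((sm z ξ : ℝ) : ℂ)) *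
      (m ξ * Ft f ξ)) := by
  refine (Ft_int f).mono ?_ (Eventually.of_forall fun ξ => ?_)
  · exact (meas_ex z).aestronglyMeasurable.mul
      (hm.meas.aestronglyMeasurable.mul (Ft_int f).aestronglyMeasurable)
  · rw [norm_mul, norm_ex, one_mul, norm_mul]
    calc ‖m ξ‖ * ‖Ft f ξ‖ ≤ 1 * ‖Ft f ξ‖ := by gcongr; exact hm.le1 ξ
      _ = _ := one_mul _

lemma T_cont {m : ℂ → ℂ} (hm : Adm m) (f : 𝓢(ℂ, ℂ)) : Continuous (T m f) := by
  unfold T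
  refine continuous_of_dominated (bound := fun ξ => ‖Ft f ξ‖)
    (fun z => (T_integrand_int hm f z).aestronglyMeasurable) (fun z => ?_) (Ft_int f).norm ?_
  · refine Eventually.of_forall fun ξ => ?_
    rw [norm_mul, norm_ex, one_mul, norm_mul]
    calc ‖m ξ‖ * ‖Ft f ξ‖ ≤ 1 * ‖Ft f ξ‖ := by gcongr; exact hm.le1 ξ
      _ = _ := one_mul _
  · refine Eventually.of_forall fun ξ => ?_
    unfold sm
    fun_prop

/-! ### the linear maps -/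

/-- `z ↦ z + c conj z` -/
noncomputable def Ac (c : ℂ) : ℂ →L[ℝ] ℂ :=
  ContinuousLinearMap.id ℝ ℂ + (ContinuousLinearMap.mul ℝ ℂ c).comp (Complex.conjCLE : ℂ →L[ℝ] ℂ)

/-- its inverse -/
noncomputable def Bc (c : ℂ) : ℂ →L[ℝ] ℂ :=
  (1 - ‖c‖ ^ 2)⁻¹ • (ContinuousLinearMap.id ℝ ℂ -
    (ContinuousLinearMap.mul ℝ ℂ c).comp (Complex.conjCLE : ℂ →L[ℝ] ℂ))

@[simp] lemma Ac_apply (c z : ℂ) : Ac c z = z + c * (starRingEnd ℂ) z := by
  simp [Ac]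

@[simp] lemma Bc_apply (c z : ℂ) :
    Bc c z = ((1 - ‖c‖ ^ 2)⁻¹ : ℝ) • (z - c * (starRingEnd ℂ) z) := by
  simp [Bc]

lemma c_conj (c : ℂ) : c * (starRingEnd ℂ) c = ((‖c‖ ^ 2 : ℝ) : ℂ) := by
  rw [Complex.mul_conj, Complex.normSq_eq_norm_sq]

noncomputable def Ae (c : ℂ) (hc : ‖c‖ < 1) : ℂ ≃L[ℝ] ℂ :=
  ContinuousLinearEquiv.equivOfInverse (Ac c) (Bc c)
    (by
      intro z
      have h : (1 : ℝ) - ‖c‖ ^ 2 ≠ 0 := by nlinarith [norm_nonneg c]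
      have h' : ((1 : ℂ) - (‖c‖ : ℂ) ^ 2) ≠ 0 := by exact_mod_cast h
      simp only [Ac_apply, Bc_apply, map_add, map_mul, Complex.conj_conj, Complex.real_smul]
      have := c_conj c
      push_cast at this ⊢
      field_simp
      linear_combination (-z) * this)
    (by
      intro z
      have h : (1 : ℝ) - ‖c‖ ^ 2 ≠ 0 := by nlinarith [norm_nonneg c]
      simp only [Ac_apply, Bc_apply, Complex.real_smul, map_sub, map_mul, Complex.conj_conj,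
        Complex.conj_ofReal]
      have h' : ((1 : ℂ) - (‖c‖ : ℂ) ^ 2) ≠ 0 := by exact_mod_cast h
      have := c_conj c
      push_cast at this ⊢
      field_simp
      linear_combination (-z) * this)

@[simp] lemma Ae_apply (c : ℂ) (hc : ‖c‖ < 1) (z : ℂ) :
    Ae c hc z = z + c * (starRingEnd ℂ) z := by
  show Ac c z = _
  simp

lemma sm_Ae (c : ℂ) (hc : ‖c‖ < 1) (x ξ : ℂ) : sm (Ae c hc x) ξ = sm x (Ae c hc ξ) := by
  simp only [Ae_apply, sm, Complex.add_re, Complex.mul_re, Complex.conj_re, Complex.conj_im,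
    Complex.add_im, Complex.mul_im]
  ring

lemma map_Ae (c : ℂ) (hc : ‖c‖ < 1) : ∃ κ : ℝ≥0∞, κ ≠ 0 ∧ κ ≠ ∞ ∧
    Measure.map (Ae c hc) (volume : Measure ℂ) = κ • volume := by
  have hdet : LinearMap.det ((Ae c hc).toLinearEquiv : ℂ →ₗ[ℝ] ℂ) ≠ 0 :=
    (LinearEquiv.isUnit_det' _).ne_zero
  refine ⟨ENNReal.ofReal |(LinearMap.det ((Ae c hc).toLinearEquiv : ℂ →ₗ[ℝ] ℂ))⁻¹|, ?_,
    ENNReal.ofReal_ne_top, ?_⟩
  · simp only [ne_eq, ENNReal.ofReal_eq_zero, not_le, abs_pos]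
    exact inv_ne_zero hdet
  · exact Measure.map_linearMap_addHaar_eq_smul_addHaar volume hdet

lemma Ae_emb (c : ℂ) (hc : ‖c‖ < 1) : MeasurableEmbedding (Ae c hc) :=
  (Ae c hc).toHomeomorph.measurableEmbedding

lemma int_comp {c : ℂ} {hc : ‖c‖ < 1} {κ : ℝ≥0∞}
    (hκ : Measure.map (Ae c hc) (volume : Measure ℂ) = κ • volume) (g : ℂ → ℂ) :
    ∫ x : ℂ, g (Ae c hc x) = κ.toReal • ∫ x : ℂ, g x := by
  rw [← (Ae_emb c hc).integral_map, hκ, integral_smul_measure]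

/-- composition with the linear map -/
noncomputable def cmp (c : ℂ) (hc : ‖c‖ < 1) (f : 𝓢(ℂ, ℂ)) : 𝓢(ℂ, ℂ) :=
  SchwartzMap.compCLMOfContinuousLinearEquiv ℂ (Ae c hc) f

lemma cmp_apply (c : ℂ) (hc : ‖c‖ < 1) (f : 𝓢(ℂ, ℂ)) (x : ℂ) :
    cmp c hc f x = f (Ae c hc x) := rfl

lemma Ft_cmp {c : ℂ} {hc : ‖c‖ < 1} {κ : ℝ≥0∞}
    (hκ : Measure.map (Ae c hc) (volume : Measure ℂ) = κ • volume) (f : 𝓢(ℂ, ℂ)) (ξ : ℂ) :
    Ft (cmp c hc f) (Ae c hc ξ) = κ.toReal • Ft f ξ := by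
  unfold Ft
  rw [← int_comp hκ (fun x => Complex.exp (-(2 * (Real.pi : ℂ) * Complex.I *
    ((sm x ξ : ℝ) : ℂ))) * f x)]
  refine integral_congr_ae (Eventually.of_forall fun x => ?_)
  simp only [cmp_apply, sm_Ae]

lemma T_cmp {c : ℂ} {hc : ‖c‖ < 1} {κ : ℝ≥0∞} (hκ0 : κ ≠ 0) (hκt : κ ≠ ∞)
    (hκ : Measure.map (Ae c hc) (volume : Measure ℂ) = κ • volume) (b : ℂ → ℂ) (f : 𝓢(ℂ, ℂ))
    (y : ℂ) : T (fun ξ => b (Ae c hc ξ)) f (Ae c hc y) = T b (cmp c hc f) y := by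
  have hκr : κ.toReal ≠ 0 := (ENNReal.toReal_pos hκ0 hκt).ne'
  have h1 : κ.toReal • T (fun ξ => b (Ae c hc ξ)) f (Ae c hc y)
      = κ.toReal • T b (cmp c hc f) y := by
    unfold T
    rw [← int_comp hκ (fun ξ : ℂ => Complex.exp (2 * (Real.pi : ℂ) * Complex.I *
      ((sm y ξ : ℝ) : ℂ)) * (b ξ * Ft (cmp c hc f) ξ)), ← integral_smul]
    refine integral_congr_ae (Eventually.of_forall fun ξ => ?_)
    simp only [Ft_cmp hκ, sm_Ae, Complex.real_smul]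
    ring
  exact smul_right_injective ℂ hκr h1

/-- the norm bound is invariant under the linear change of variable -/
lemma bound_cmp {P : ℝ≥0∞} (hP : P ≠ ∞) {K : ℝ≥0∞} (b : ℂ → ℂ)
    (hb : ∀ f : 𝓢(ℂ, ℂ), eLpNorm (T b f) P volume ≤ K * eLpNorm f P volume)
    (c : ℂ) (hc : ‖c‖ < 1) (f : 𝓢(ℂ, ℂ)) :
    eLpNorm (T (fun ξ => b (Ae c hc ξ)) f) P volume ≤ K * eLpNorm f P volume := by
  obtain ⟨κ, hκ0, hκt, hκ⟩ := map_Ae c hc
  have key : ∀ g : ℂ → ℂ, eLpNorm (fun x => g (Ae c hc x)) P volume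
      = κ ^ (1 / P).toReal * eLpNorm g P volume := by
    intro g
    have h1 : eLpNorm (g ∘ Ae c hc) P volume = eLpNorm g P (Measure.map (Ae c hc) volume) :=
      ((Ae_emb c hc).eLpNorm_map_measure).symm
    have h2 := eLpNorm_smul_measure_of_ne_top hP g κ (μ := (volume : Measure ℂ))
    rw [hκ, h2, smul_eq_mul] at h1
    exact h1
  have h := hb (cmp c hc f)
  have e1 : T b (cmp c hc f) = fun y => T (fun ξ => b (Ae c hc ξ)) f (Ae c hc y) :=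
    funext fun y => (T_cmp hκ0 hκt hκ b f y).symm
  have e2 : (⇑(cmp c hc f) : ℂ → ℂ) = fun x => f (Ae c hc x) := funext (cmp_apply c hc f)
  rw [e1, e2, key, key, ← mul_assoc, mul_comm K, mul_assoc] at h
  have hz : κ ^ (1 / P).toReal ≠ 0 := by
    rw [ne_eq, ENNReal.rpow_eq_zero_iff]
    rintro (⟨h0, _⟩ | ⟨h0, _⟩)
    · exact hκ0 h0
    · exact hκt h0
  have ht : κ ^ (1 / P).toReal ≠ ∞ :=
    ENNReal.rpow_ne_top_of_nonneg ENNReal.toReal_nonneg hκt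
  exact (ENNReal.mul_le_mul_iff_right hz ht).1 h

end Pool.Agent.TH55.PowA
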