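import Pool.Agent.TH55.PowA

set_option autoImplicit false
open MeasureTheory Filter Topology
open scoped FourierTransform SchwartzMap ENNReal

namespace Pool.Agent.TH55.PowA

/-- the Beurling symbol -/
noncomputable def bs (ξ : ℂ) : ℂ := (starRingEnd ℂ) ξ / ξ

lemma bs_norm_le (ξ : ℂ) : ‖bs ξ‖ ≤ 1 := by
  unfold bs
  rw [norm_div, RCLike.norm_conj]
  exact div_self_le_one _

lemma bs_meas : Measurable bs := by
  unfold bs
  exact (Complex.continuous_conj.measurable).div measurable_id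

lemma adm_bs (c : ℂ) (hc : ‖c‖ < 1) : Adm (fun ξ => bs (Ae c hc ξ)) :=
  ⟨bs_meas.comp (Ae c hc).continuous.measurable, fun _ => bs_norm_le _⟩

lemma bs_norm (ξ : ℂ) (h : ξ ≠ 0) : ‖bs ξ‖ = 1 := by
  unfold bs
  rw [norm_div, RCLike.norm_conj, div_self (norm_ne_zero_iff.2 h)]

lemma one_add_ne (c : ℂ) (hc : ‖c‖ < 1) (w : ℂ) (hw : ‖w‖ = 1) : 1 + c * w ≠ 0 := by
  intro h
  have h1 : c * w = -1 := by linear_combination h
  have h2 : ‖c * w‖ = 1 := by rw [h1]; simp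
  rw [norm_mul, hw, mul_one] at h2
  linarith

/-- the Moebius form of the symbol -/
lemma bs_Ae (c : ℂ) (hc : ‖c‖ < 1) (ξ : ℂ) (h : ξ ≠ 0) :
    bs (Ae c hc ξ) = (starRingEnd ℂ) c + (1 - c * (starRingEnd ℂ) c) * (bs ξ / (1 + c * bs ξ)) := by
  have h1 := one_add_ne c hc (bs ξ) (bs_norm ξ h)
  have h2 : ξ + c * (starRingEnd ℂ) ξ = ξ * (1 + c * bs ξ) := by
    unfold bs
    field_simp
  have h3 : (starRingEnd ℂ) ξ = bs ξ * ξ := by
    unfold bs
    field_simp
  have e : bs (Ae c hc ξ) = (bs ξ + (starRingEnd ℂ) c) / (1 + c * bs ξ) := by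
    conv_lhs => rw [bs, Ae_apply, map_add, map_mul, Complex.conj_conj, h2, h3]
    rw [show bs ξ * ξ + (starRingEnd ℂ) c * ξ = ξ * (bs ξ + (starRingEnd ℂ) c) by ring,
      mul_div_mul_left _ _ h]
  rw [e, div_eq_iff h1, add_mul, mul_assoc, div_mul_cancel₀ _ h1]
  ring

/-- root of unity sums -/
lemma root_sum {N : ℕ} {ω : ℂ} (hω : IsPrimitiveRoot ω N) (l : ℕ) :
    ∑ j ∈ Finset.range N, (ω ^ l) ^ j = if N ∣ l then (N : ℂ) else 0 := by
  split_ifs with h
  · have : ω ^ l = 1 := (hω.pow_eq_one_iff_dvd l).2 h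
    simp [this]
  · have h1 : ω ^ l ≠ 1 := fun h' => h ((hω.pow_eq_one_iff_dvd l).1 h')
    have h2 := geom_sum_eq h1 N
    rw [h2, ← pow_mul, mul_comm l N, pow_mul, hω.pow_eq_one, one_pow, sub_self, zero_div]

/-- the filter identity -/
lemma filt {N : ℕ} (hN : 0 < N) {ω : ℂ} (hω : IsPrimitiveRoot ω N) (y : ℂ)
    (hy : ‖y‖ < 1) (r : ℕ) (hr : r < N) :
    ∑ j ∈ Finset.range N, (ω ^ j) ^ (N - r) * (1 - ω ^ j * y)⁻¹ = N * y ^ r / (1 - y ^ N) := by
  have hω1 : ‖ω‖ = 1 := hω.norm'_eq_one hN.ne'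
  have hyN : (1 : ℂ) - y ^ N ≠ 0 := by
    intro h
    have h1 : y ^ N = 1 := by linear_combination -h
    have h2 : ‖y ^ N‖ = 1 := by rw [h1]; simp
    rw [norm_pow] at h2
    have h3 : ‖y‖ ^ N < 1 := pow_lt_one₀ (norm_nonneg _) hy hN.ne'
    linarith
  have hne : ∀ j : ℕ, (1 : ℂ) - ω ^ j * y ≠ 0 := by
    intro j h
    have h1 : ω ^ j * y = 1 := by linear_combination -h
    have h2 : ‖ω ^ j * y‖ = 1 := by rw [h1]; simp
    rw [norm_mul, norm_pow, hω1, one_pow, one_mul] at h2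
    linarith
  have hinv : ∀ j : ℕ, (1 - ω ^ j * y)⁻¹ = (∑ l ∈ Finset.range N, (ω ^ j * y) ^ l) / (1 - y ^ N) := by
    intro j
    have h1 := geom_sum_mul_neg (ω ^ j * y) N
    have h2 : (ω ^ j * y) ^ N = y ^ N := by
      rw [mul_pow, ← pow_mul, mul_comm j N, pow_mul, hω.pow_eq_one, one_pow, one_mul]
    rw [h2] at h1
    rw [eq_div_iff hyN, ← h1, inv_mul_eq_div, mul_div_assoc, div_self (hne j), mul_one]
  have h1 : ∑ j ∈ Finset.range N, (ω ^ j) ^ (N - r) * (1 - ω ^ j * y)⁻¹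
      = (∑ l ∈ Finset.range N, y ^ l * ∑ j ∈ Finset.range N, (ω ^ (N - r + l)) ^ j)
        / (1 - y ^ N) := by
    simp only [Finset.mul_sum, Finset.sum_div]
    rw [Finset.sum_comm]
    refine Finset.sum_congr rfl fun j _ => ?_
    rw [hinv j, Finset.sum_div, Finset.mul_sum]
    refine Finset.sum_congr rfl fun l _ => ?_
    rw [mul_pow, ← pow_mul, ← pow_mul, ← pow_mul]
    rw [show (N - r + l) * j = j * (N - r) + j * l by ring, pow_add]
    ring
  rw [h1]
  congr 1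
  simp only [root_sum hω]
  rw [Finset.sum_eq_single r]
  · rw [if_pos]
    · ring
    · rw [Nat.sub_add_cancel hr.le]
  · intro l hl hlr
    rw [if_neg, mul_zero]
    intro hd
    rw [Finset.mem_range] at hl
    obtain ⟨q, hq⟩ := hd
    rcases Nat.lt_or_ge q 1 with h | h
    · interval_cases q
      omega
    · rcases Nat.lt_or_ge q 2 with h' | h'
      · interval_cases q
        omega
      · have : N * 2 ≤ N * q := Nat.mul_le_mul_left N h'
        omega
  · intro h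
    exact absurd (Finset.mem_range.2 hr) h

end Pool.Agent.TH55.PowA
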