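import Pool.Agent.TH55.PowB

set_option autoImplicit false
open MeasureTheory Filter Topology
open scoped FourierTransform SchwartzMap ENNReal

namespace Pool.Agent.TH55.PowA

lemma T_sum {ι : Type*} (s : Finset ι) (a : ι → ℂ) (m : ι → ℂ → ℂ) (hm : ∀ i ∈ s, Adm (m i))
    (f : 𝓢(ℂ, ℂ)) (z : ℂ) :
    T (fun ξ => ∑ i ∈ s, a i * m i ξ) f z = ∑ i ∈ s, a i * T (m i) f z := by
  have h1 : ∀ i ∈ s, a i * T (m i) f z = ∫ ξ : ℂ, a i *
      (Complex.exp (2 * (Real.pi : ℂ) * Complex.I * ((sm z ξ : ℝ) : ℂ)) * (m i ξ * Ft f ξ)) := by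
    intro i _
    rw [integral_const_mul]
    rfl
  rw [Finset.sum_congr rfl h1, ← integral_finsetSum s
    (fun i hi => (T_integrand_int (hm i hi) f z).const_mul (a i))]
  unfold T
  refine integral_congr_ae (Eventually.of_forall fun ξ => ?_)
  simp only [Finset.sum_mul, Finset.mul_sum]
  refine Finset.sum_congr rfl fun i _ => ?_
  ring

lemma avg_bound {ι : Type*} {P : ℝ≥0∞} (hP : 1 ≤ P) {K : ℝ≥0∞} (s : Finset ι) (a : ι → ℂ)
    (m : ι → ℂ → ℂ) (hm : ∀ i ∈ s, Adm (m i)) (f : 𝓢(ℂ, ℂ))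
    (hK : ∀ i ∈ s, eLpNorm (T (m i) f) P volume ≤ K * eLpNorm f P volume) :
    eLpNorm (T (fun ξ => ∑ i ∈ s, a i * m i ξ) f) P volume
      ≤ (∑ i ∈ s, ‖a i‖ₑ) * (K * eLpNorm f P volume) := by
  have e : T (fun ξ => ∑ i ∈ s, a i * m i ξ) f = ∑ i ∈ s, (a i • T (m i) f) := by
    funext z
    rw [T_sum s a m hm, Finset.sum_apply]
    rfl
  rw [e, Finset.sum_mul]
  refine (eLpNorm_sum_le (fun i hi =>
    ((T_cont (hm i hi) f).aestronglyMeasurable.const_smul (a i))) hP).trans ?_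
  refine Finset.sum_le_sum fun i hi => ?_
  rw [eLpNorm_const_smul]
  gcongr
  exact hK i hi

/-- the averaged symbol -/
noncomputable def av (n N : ℕ) (k : ℝ) (hk : ∀ j : ℕ, ‖(k : ℂ) * (Complex.exp (2 * Real.pi * Complex.I / N)) ^ j‖ < 1) (ξ : ℂ) : ℂ :=
  ∑ j ∈ Finset.range N, ((N : ℂ)⁻¹ * ((Complex.exp (2 * Real.pi * Complex.I / N)) ^ j) ^ (N - (n - 1))) *
    bs (Ae ((k : ℂ) * (Complex.exp (2 * Real.pi * Complex.I / N)) ^ j) (hk j) ξ)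

lemma om_norm (N : ℕ) (hN : N ≠ 0) : ‖Complex.exp (2 * Real.pi * Complex.I / N)‖ = 1 :=
  (Complex.isPrimitiveRoot_exp N hN).norm'_eq_one hN

lemma av_eq (n N : ℕ) (hn : 1 ≤ n) (hN : n < N) (k : ℝ) (hk0 : 0 ≤ k) (hk1 : k < 1)
    (hk : ∀ j : ℕ, ‖(k : ℂ) * (Complex.exp (2 * Real.pi * Complex.I / N)) ^ j‖ < 1) (ξ : ℂ)
    (hξ : ξ ≠ 0) :
    av n N k hk ξ = (1 - (k : ℂ) ^ 2) * bs ξ * (-(k : ℂ) * bs ξ) ^ (n - 1)
      / (1 - (-(k : ℂ) * bs ξ) ^ N) := by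
  have hN0 : N ≠ 0 := by omega
  have hNp : 0 < N := by omega
  have hNc : (N : ℂ) ≠ 0 := by exact_mod_cast hN0
  obtain ⟨ω, hω⟩ : ∃ ω : ℂ, ω = Complex.exp (2 * Real.pi * Complex.I / N) := ⟨_, rfl⟩
  have hpr : IsPrimitiveRoot ω N := by rw [hω]; exact Complex.isPrimitiveRoot_exp N hN0
  have hω1 : ‖ω‖ = 1 := hpr.norm'_eq_one hN0
  have hcc : (starRingEnd ℂ) ω = ω ^ (N - 1) := by
    have h1 : ω * (starRingEnd ℂ) ω = 1 := by
      rw [c_conj, hω1]; simp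
    have h2 : ω * ω ^ (N - 1) = 1 := by
      rw [← pow_succ', Nat.sub_add_cancel hNp, hpr.pow_eq_one]
    have h3 : ω ≠ 0 := by intro h; rw [h] at hω1; simp at hω1
    exact mul_left_cancel₀ h3 (h1.trans h2.symm)
  have hb := bs_norm ξ hξ
  unfold av
  simp only [← hω]
  have hterm : ∀ j ∈ Finset.range N, ((N : ℂ)⁻¹ * (ω ^ j) ^ (N - (n - 1))) *
      bs (Ae ((k : ℂ) * ω ^ j) (by rw [hω]; exact hk j) ξ)
      = (N : ℂ)⁻¹ * k * (ω ^ (2 * N - n)) ^ j + (N : ℂ)⁻¹ * (1 - (k : ℂ) ^ 2) * bs ξ *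
        ((ω ^ j) ^ (N - (n - 1)) * (1 - ω ^ j * (-(k : ℂ) * bs ξ))⁻¹) := by
    intro j _
    rw [bs_Ae _ _ ξ hξ]
    have e1 : (starRingEnd ℂ) ((k : ℂ) * ω ^ j) = k * (ω ^ (N - 1)) ^ j := by
      rw [map_mul, Complex.conj_ofReal, map_pow, hcc]
    have e2 : ((k : ℂ) * ω ^ j) * (starRingEnd ℂ) ((k : ℂ) * ω ^ j) = (k : ℂ) ^ 2 := by
      rw [c_conj, norm_mul, norm_pow, hω1, one_pow, mul_one, Complex.norm_real,
        Real.norm_of_nonneg hk0]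
      push_cast
      ring
    rw [e2, e1]
    have e3 : (ω ^ j) ^ (N - (n - 1)) * (ω ^ (N - 1)) ^ j = (ω ^ (2 * N - n)) ^ j := by
      rw [← pow_mul, ← pow_mul, ← pow_mul, ← pow_add]
      congr 1
      rw [mul_comm j, ← add_mul]
      congr 1
      omega
    have e4 : (1 : ℂ) + (k : ℂ) * ω ^ j * bs ξ = 1 - ω ^ j * (-(k : ℂ) * bs ξ) := by ring
    rw [e4, ← e3, div_eq_mul_inv]
    ring
  rw [Finset.sum_congr rfl hterm, Finset.sum_add_distrib, ← Finset.mul_sum, ← Finset.mul_sum,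
    root_sum hpr, if_neg, mul_zero, zero_add, filt hNp hpr _ _ (n - 1) (by omega)]
  · field_simp
  · rw [norm_mul, hb, mul_one, norm_neg, Complex.norm_real, Real.norm_of_nonneg hk0]
    exact hk1
  · intro hd
    have h1 : N ∣ n := by
      have h2 : N ∣ 2 * N := Dvd.intro_left 2 rfl
      have h3 := (Nat.dvd_sub h2 hd)
      rwa [Nat.sub_sub_self (by omega)] at h3
    have := Nat.le_of_dvd (by omega) h1
    omega

end Pool.Agent.TH55.PowA
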