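import Pool.Agent.TH55.PowC

set_option autoImplicit false
open MeasureTheory Filter Topology
open scoped FourierTransform SchwartzMap ENNReal

namespace Pool.Agent.TH55.PowA

lemma hk_of {N : ℕ} (hN : N ≠ 0) {k : ℝ} (hk0 : 0 ≤ k) (hk1 : k < 1) (j : ℕ) :
    ‖(k : ℂ) * (Complex.exp (2 * Real.pi * Complex.I / N)) ^ j‖ < 1 := by
  rw [norm_mul, norm_pow, om_norm N hN, one_pow, mul_one, Complex.norm_real,
    Real.norm_of_nonneg hk0]
  exact hk1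

lemma weight_sum {n N : ℕ} (hN : N ≠ 0) :
    ∑ j ∈ Finset.range N, ‖((N : ℂ)⁻¹ * ((Complex.exp (2 * Real.pi * Complex.I / N)) ^ j) ^
      (N - (n - 1)))‖ₑ = 1 := by
  have h : ∀ j ∈ Finset.range N, ‖((N : ℂ)⁻¹ * ((Complex.exp (2 * Real.pi * Complex.I / N)) ^ j) ^
      (N - (n - 1)))‖ₑ = (N : ℝ≥0∞)⁻¹ := by
    intro j _
    rw [enorm_mul, enorm_pow, enorm_pow]
    have h1 : ‖Complex.exp (2 * Real.pi * Complex.I / N)‖ₑ = 1 := by
      rw [← ofReal_norm, om_norm N hN, ENNReal.ofReal_one]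
    rw [h1, one_pow, one_pow, mul_one, ← ofReal_norm, norm_inv, RCLike.norm_natCast,
      ENNReal.ofReal_inv_of_pos (by positivity), ENNReal.ofReal_natCast]
  rw [Finset.sum_congr rfl h, Finset.sum_const, Finset.card_range, nsmul_eq_mul,
    ENNReal.mul_inv_cancel (by exact_mod_cast hN) (ENNReal.natCast_ne_top N)]

lemma norm_av_le {n N : ℕ} (hN : N ≠ 0) (k : ℝ)
    (hk : ∀ j : ℕ, ‖(k : ℂ) * (Complex.exp (2 * Real.pi * Complex.I / N)) ^ j‖ < 1) (ξ : ℂ) :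
    ‖av n N k hk ξ‖ ≤ 1 := by
  unfold av
  refine (norm_sum_le _ _).trans ?_
  have h : ∀ j ∈ Finset.range N, ‖((N : ℂ)⁻¹ * ((Complex.exp (2 * Real.pi * Complex.I / N)) ^ j) ^
      (N - (n - 1))) * bs (Ae ((k : ℂ) * (Complex.exp (2 * Real.pi * Complex.I / N)) ^ j) (hk j) ξ)‖
      ≤ (N : ℝ)⁻¹ := by
    intro j _
    rw [norm_mul, norm_mul, norm_pow, norm_pow, om_norm N hN, one_pow, one_pow, mul_one,
      norm_inv, RCLike.norm_natCast]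
    exact mul_le_of_le_one_right (by positivity) (bs_norm_le _)
  refine (Finset.sum_le_sum h).trans ?_
  rw [Finset.sum_const, Finset.card_range, nsmul_eq_mul, mul_inv_cancel₀ (by exact_mod_cast hN)]

/-- the limit symbol -/
noncomputable def lim (n : ℕ) (k : ℝ) : ℂ := (1 - (k : ℂ) ^ 2) * (-(k : ℂ)) ^ (n - 1)

lemma tendsto_av (n : ℕ) (hn : 1 ≤ n) (k : ℝ) (hk0 : 0 ≤ k) (hk1 : k < 1) (ξ : ℂ) (hξ : ξ ≠ 0) :
    Tendsto (fun M : ℕ => av n (n + 1 + M) k (fun j => hk_of (by omega) hk0 hk1 j) ξ) atTop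
      (𝓝 (lim n k * bs ξ ^ n)) := by
  have h1 : ∀ M : ℕ, av n (n + 1 + M) k (fun j => hk_of (by omega) hk0 hk1 j) ξ =
      (1 - (k : ℂ) ^ 2) * bs ξ * (-(k : ℂ) * bs ξ) ^ (n - 1)
      / (1 - (-(k : ℂ) * bs ξ) ^ (n + 1 + M)) := fun M =>
    av_eq n (n + 1 + M) hn (by omega) k hk0 hk1 _ ξ hξ
  simp only [h1]
  have hy : ‖-(k : ℂ) * bs ξ‖ < 1 := by
    rw [norm_mul, bs_norm ξ hξ, mul_one, norm_neg, Complex.norm_real, Real.norm_of_nonneg hk0]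
    exact hk1
  have h2 : Tendsto (fun M : ℕ => (-(k : ℂ) * bs ξ) ^ (n + 1 + M)) atTop (𝓝 0) := by
    have := (tendsto_pow_atTop_nhds_zero_of_norm_lt_one hy)
    exact this.comp (tendsto_atTop_mono (fun M => Nat.le_add_left M (n + 1)) tendsto_id)
  have h3 : Tendsto (fun M : ℕ => (1 - (k : ℂ) ^ 2) * bs ξ * (-(k : ℂ) * bs ξ) ^ (n - 1)
      / (1 - (-(k : ℂ) * bs ξ) ^ (n + 1 + M))) atTop
      (𝓝 ((1 - (k : ℂ) ^ 2) * bs ξ * (-(k : ℂ) * bs ξ) ^ (n - 1) / (1 - 0))) :=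
    tendsto_const_nhds.div (tendsto_const_nhds.sub h2) (by simp)
  have h4 : (1 - (k : ℂ) ^ 2) * bs ξ * (-(k : ℂ) * bs ξ) ^ (n - 1) / (1 - 0)
      = lim n k * bs ξ ^ n := by
    unfold lim
    obtain ⟨m, rfl⟩ : ∃ m, n = m + 1 := ⟨n - 1, by omega⟩
    simp only [Nat.add_sub_cancel, mul_pow, sub_zero, div_one, pow_succ]
    ring
  rw [h4] at h3
  exact h3

lemma ae_ne : ∀ᵐ ξ : ℂ ∂volume, ξ ≠ 0 := by
  rw [ae_iff]
  simp

lemma adm_av {n N : ℕ} (hN : N ≠ 0) (k : ℝ)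
    (hk : ∀ j : ℕ, ‖(k : ℂ) * (Complex.exp (2 * Real.pi * Complex.I / N)) ^ j‖ < 1) :
    Adm (av n N k hk) := by
  refine ⟨?_, norm_av_le hN k hk⟩
  unfold av
  exact Finset.measurable_fun_sum _ fun j _ => (adm_bs _ (hk j)).meas.const_mul _

lemma T_tendsto (n : ℕ) (hn : 1 ≤ n) (k : ℝ) (hk0 : 0 ≤ k) (hk1 : k < 1) (f : 𝓢(ℂ, ℂ)) (z : ℂ) :
    Tendsto (fun M : ℕ => T (av n (n + 1 + M) k (fun j => hk_of (by omega) hk0 hk1 j)) f z) atTop
      (𝓝 (lim n k * T (fun ξ => bs ξ ^ n) f z)) := by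
  have e : lim n k * T (fun ξ => bs ξ ^ n) f z = ∫ ξ : ℂ,
      Complex.exp (2 * (Real.pi : ℂ) * Complex.I * ((sm z ξ : ℝ) : ℂ)) *
        ((lim n k * bs ξ ^ n) * Ft f ξ) := by
    unfold T
    rw [← integral_const_mul]
    refine integral_congr_ae (Eventually.of_forall fun ξ => ?_)
    simp only
    ring
  rw [e]
  unfold T
  refine tendsto_integral_of_dominated_convergence (fun ξ => ‖Ft f ξ‖)
    (fun M => (T_integrand_int (adm_av (by omega) k _) f z).aestronglyMeasurable)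
    (Ft_int f).norm (fun M => Eventually.of_forall fun ξ => ?_) ?_
  · rw [norm_mul, norm_ex, one_mul, norm_mul]
    calc _ ≤ 1 * ‖Ft f ξ‖ := by gcongr; exact norm_av_le (by omega) k _ ξ
      _ = _ := one_mul _
  · filter_upwards [ae_ne] with ξ hξ
    exact ((tendsto_av n hn k hk0 hk1 ξ hξ).mul_const _).const_mul _

lemma av_bound {P : ℝ≥0∞} (hP : 1 ≤ P) (hP' : P ≠ ∞) {K : ℝ≥0∞}
    (hb : ∀ f : 𝓢(ℂ, ℂ), eLpNorm (T bs f) P volume ≤ K * eLpNorm f P volume)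
    {n N : ℕ} (hN : N ≠ 0) (k : ℝ)
    (hk : ∀ j : ℕ, ‖(k : ℂ) * (Complex.exp (2 * Real.pi * Complex.I / N)) ^ j‖ < 1)
    (f : 𝓢(ℂ, ℂ)) : eLpNorm (T (av n N k hk) f) P volume ≤ K * eLpNorm f P volume := by
  have h2 := avg_bound hP (Finset.range N)
    (fun j => (((N : ℂ))⁻¹ * ((Complex.exp (2 * Real.pi * Complex.I / N)) ^ j) ^ (N - (n - 1))))
    (fun j ξ => bs (Ae ((k : ℂ) * (Complex.exp (2 * Real.pi * Complex.I / N)) ^ j) (hk j) ξ))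
    (fun j _ => adm_bs _ (hk j)) f (fun j _ => bound_cmp hP' bs hb _ (hk j) f)
  rw [weight_sum hN, one_mul] at h2
  exact h2

/-- the averaged bound -/
lemma main_lim {P : ℝ≥0∞} (hP : 1 ≤ P) (hP' : P ≠ ∞) {K : ℝ≥0∞}
    (hb : ∀ f : 𝓢(ℂ, ℂ), eLpNorm (T bs f) P volume ≤ K * eLpNorm f P volume)
    (n : ℕ) (hn : 1 ≤ n) (k : ℝ) (hk0 : 0 ≤ k) (hk1 : k < 1) (f : 𝓢(ℂ, ℂ)) :
    ‖lim n k‖ₑ * eLpNorm (T (fun ξ => bs ξ ^ n) f) P volume ≤ K * eLpNorm f P volume := by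
  rw [← eLpNorm_const_smul]
  refine Lp.eLpNorm_le_of_ae_tendsto (u := atTop)
    (f := fun M : ℕ => T (av n (n + 1 + M) k (fun j => hk_of (by omega) hk0 hk1 j)) f)
    (Eventually.of_forall fun M => av_bound hP hP' hb (by omega) k _ f)
    (fun M => (T_cont (adm_av (by omega) k _) f).aestronglyMeasurable)
    (Eventually.of_forall fun z => T_tendsto n hn k hk0 hk1 f z)

/-- the constant -/
noncomputable def Cn (n : ℕ) : ℝ :=
  ((n : ℝ) + 1) / 2 * (((n : ℝ) + 1) / ((n : ℝ) - 1)) ^ (((n : ℝ) - 1) / 2)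

lemma Cn_one : Cn 1 = 1 := by
  unfold Cn
  norm_num

lemma Cn_le (n : ℕ) (hn : 1 ≤ n) : Cn n ≤ Real.exp 1 / 2 * ((n : ℝ) + 1) := by
  have hnr : (1 : ℝ) ≤ n := by exact_mod_cast hn
  unfold Cn
  have key : (((n : ℝ) + 1) / ((n : ℝ) - 1)) ^ (((n : ℝ) - 1) / 2) ≤ Real.exp 1 := by
    rcases hnr.lt_or_eq with h | h
    · have h1 : (0 : ℝ) < (n : ℝ) - 1 := by linarith
      have h2 : ((n : ℝ) + 1) / ((n : ℝ) - 1) = 2 / ((n : ℝ) - 1) + 1 := by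
        field_simp
        ring
      have h3 : ((n : ℝ) + 1) / ((n : ℝ) - 1) ≤ Real.exp (2 / ((n : ℝ) - 1)) := by
        rw [h2]
        exact Real.add_one_le_exp _
      calc (((n : ℝ) + 1) / ((n : ℝ) - 1)) ^ (((n : ℝ) - 1) / 2)
          ≤ (Real.exp (2 / ((n : ℝ) - 1))) ^ (((n : ℝ) - 1) / 2) :=
            Real.rpow_le_rpow (by positivity) h3 (by positivity)
        _ = Real.exp 1 := by
            rw [← Real.exp_mul]
            congr 1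
            field_simp
    · rw [← h]
      norm_num
  calc ((n : ℝ) + 1) / 2 * (((n : ℝ) + 1) / ((n : ℝ) - 1)) ^ (((n : ℝ) - 1) / 2)
      ≤ ((n : ℝ) + 1) / 2 * Real.exp 1 := by gcongr
    _ = _ := by ring

lemma lim_norm (n : ℕ) (hn : 1 ≤ n) :
    ‖lim n (Real.sqrt (((n : ℝ) - 1) / ((n : ℝ) + 1)))‖ * Cn n = 1 := by
  have hnr : (1 : ℝ) ≤ n := by exact_mod_cast hn
  set k : ℝ := Real.sqrt (((n : ℝ) - 1) / ((n : ℝ) + 1)) with hk
  have hq : 0 ≤ ((n : ℝ) - 1) / ((n : ℝ) + 1) := by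
    apply div_nonneg <;> linarith
  have hk0 : 0 ≤ k := Real.sqrt_nonneg _
  have hk2 : k ^ 2 = ((n : ℝ) - 1) / ((n : ℝ) + 1) := Real.sq_sqrt hq
  have h1 : 1 - k ^ 2 = 2 / ((n : ℝ) + 1) := by
    rw [hk2]
    field_simp
    ring
  have h2 : ‖lim n k‖ = (1 - k ^ 2) * k ^ (n - 1) := by
    unfold lim
    rw [norm_mul, norm_pow, norm_neg, Complex.norm_real, Real.norm_of_nonneg hk0]
    congr 1
    have : (1 : ℂ) - (k : ℂ) ^ 2 = ((1 - k ^ 2 : ℝ) : ℂ) := by push_cast; ring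
    rw [this, Complex.norm_real, Real.norm_of_nonneg]
    rw [h1]; positivity
  rw [h2, h1]
  unfold Cn
  rcases Nat.lt_or_ge 1 n with h | h
  · have hnr' : (1 : ℝ) < n := by exact_mod_cast h
    have h3 : k ^ (n - 1) = (((n : ℝ) - 1) / ((n : ℝ) + 1)) ^ (((n : ℝ) - 1) / 2) := by
      rw [hk, Real.sqrt_eq_rpow, ← Real.rpow_natCast, ← Real.rpow_mul hq]
      congr 1
      rw [Nat.cast_sub hn]
      push_cast
      ring
    have h4 : (((n : ℝ) - 1) / ((n : ℝ) + 1)) ^ (((n : ℝ) - 1) / 2) *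
        (((n : ℝ) + 1) / ((n : ℝ) - 1)) ^ (((n : ℝ) - 1) / 2) = 1 := by
      rw [← Real.mul_rpow hq (by apply div_nonneg <;> linarith)]
      have : (((n : ℝ) - 1) / ((n : ℝ) + 1)) * (((n : ℝ) + 1) / ((n : ℝ) - 1)) = 1 := by
        have : (n : ℝ) - 1 ≠ 0 := by linarith
        field_simp
      rw [this, Real.one_rpow]
    rw [h3]
    calc 2 / ((n : ℝ) + 1) * (((n : ℝ) - 1) / ((n : ℝ) + 1)) ^ (((n : ℝ) - 1) / 2) *
        (((n : ℝ) + 1) / 2 * (((n : ℝ) + 1) / ((n : ℝ) - 1)) ^ (((n : ℝ) - 1) / 2))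
        = (2 / ((n : ℝ) + 1) * (((n : ℝ) + 1) / 2)) *
          ((((n : ℝ) - 1) / ((n : ℝ) + 1)) ^ (((n : ℝ) - 1) / 2) *
            (((n : ℝ) + 1) / ((n : ℝ) - 1)) ^ (((n : ℝ) - 1) / 2)) := by ring
      _ = 1 := by
          rw [h4, mul_one]
          field_simp
  · have : n = 1 := by omega
    subst this
    norm_num

/-- the bound for powers from the bound for the operator -/
theorem pow_bound {P : ℝ≥0∞} (hP : 1 ≤ P) (hP' : P ≠ ∞) {K : ℝ} (hK : 0 ≤ K)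
    (hb : ∀ f : 𝓢(ℂ, ℂ), eLpNorm (T bs f) P volume ≤ ENNReal.ofReal K * eLpNorm f P volume)
    (n : ℕ) (hn : 1 ≤ n) (f : 𝓢(ℂ, ℂ)) :
    eLpNorm (T (fun ξ => bs ξ ^ n) f) P volume
      ≤ ENNReal.ofReal (Cn n * K) * eLpNorm f P volume := by
  have hnr : (1 : ℝ) ≤ n := by exact_mod_cast hn
  have hk1 : Real.sqrt (((n : ℝ) - 1) / ((n : ℝ) + 1)) < 1 := by
    rw [Real.sqrt_lt' one_pos, one_pow, div_lt_one (by linarith)]
    linarith
  have h := main_lim hP hP' hb n hn _ (Real.sqrt_nonneg _) hk1 f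
  have h1 := lim_norm n hn
  have hCn : 0 ≤ Cn n := by
    unfold Cn
    have : 0 ≤ ((n : ℝ) + 1) / ((n : ℝ) - 1) := by apply div_nonneg <;> linarith
    positivity
  have h2 : ENNReal.ofReal (Cn n) * ‖lim n (Real.sqrt (((n : ℝ) - 1) / ((n : ℝ) + 1)))‖ₑ = 1 := by
    rw [← ofReal_norm, ← ENNReal.ofReal_mul hCn, mul_comm, h1, ENNReal.ofReal_one]
  calc eLpNorm (T (fun ξ => bs ξ ^ n) f) P volume
      = ENNReal.ofReal (Cn n) * (‖lim n (Real.sqrt (((n : ℝ) - 1) / ((n : ℝ) + 1)))‖ₑ *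
        eLpNorm (T (fun ξ => bs ξ ^ n) f) P volume) := by rw [← mul_assoc, h2, one_mul]
    _ ≤ ENNReal.ofReal (Cn n) * (ENNReal.ofReal K * eLpNorm f P volume) := by gcongr
    _ = _ := by rw [← mul_assoc, ← ENNReal.ofReal_mul hCn]

end Pool.Agent.TH55.PowA
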