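import Pool.Agent.TH55.PowD
import Pool.Agent.W488.IX.Sch

set_option autoImplicit false
open MeasureTheory Filter Topology
open scoped FourierTransform SchwartzMap ENNReal

namespace Pool.Agent.TH55.PowA

/-- the sharp bound for the Beurling transform itself -/
theorem base (p : ℝ) (hp : 2 ≤ p) (f : 𝓢(ℂ, ℂ)) :
    eLpNorm (T bs f) (ENNReal.ofReal p) volume
      ≤ ENNReal.ofReal (p - 1) * eLpNorm f (ENNReal.ofReal p) volume := by
  have h := Pool.Agent.W488.IX.Sch.form p hp f
  refine le_trans (le_of_eq ?_) h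
  congr 1
  funext z
  simp only [T, Ft, bs, sm, pow_one]

/-- **the linear bound for all powers** -/
theorem main (p : ℝ) (hp : 2 ≤ p) (n : ℕ) (hn : 1 ≤ n) (f : 𝓢(ℂ, ℂ)) :
    eLpNorm (T (fun ξ => bs ξ ^ n) f) (ENNReal.ofReal p) volume
      ≤ ENNReal.ofReal (Cn n * (p - 1)) * eLpNorm f (ENNReal.ofReal p) volume := by
  refine pow_bound ?_ ENNReal.ofReal_ne_top (by linarith) (base p hp) n hn f
  rw [← ENNReal.ofReal_one]
  exact ENNReal.ofReal_le_ofReal (by linarith)

end Pool.Agent.TH55.PowA
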