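import Pool.Agent.TH84.UA.Plan
set_option autoImplicit false
namespace Pool.Agent.TH55.UA_GREEDY
open Finset Filter
open scoped Classical
open Pool.Agent.TH84.UA

theorem t_GREEDY : P_GREEDY := by
  intro n T F hT
  set C : Finset (Finset (Finset (Fin n) × Fin n)) :=
    univ.filter (fun S => (∀ z ∈ S, Unc F z.1 z.2) ∧ T * S.card ≤ (bl S).card) with hC
  have hne : C.Nonempty := ⟨∅, by rw [hC, mem_filter]; simp⟩
  obtain ⟨S, hS, hmax⟩ := C.exists_max_image (fun S => S.card) hne
  rw [hC, mem_filter] at hS
  obtain ⟨-, hS1, hS2⟩ := hS
  refine ⟨S, hS1, ?_, ?_⟩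
  · refine hS2.trans ((Finset.card_le_univ _).trans ?_)
    rw [Fintype.card_finset, Fintype.card_fin]
  · intro D y hDy
    by_contra hcon
    rw [not_le] at hcon
    set N := univ.filter (fun A : Finset (Fin n) => A ∉ bl S ∧ A ⊂ D ∧ y ∈ A) with hN
    have hnot : (D, y) ∉ S := by
      intro hmem
      have : N = ∅ := by
        rw [Finset.eq_empty_iff_forall_notMem]
        intro A hA
        rw [hN, mem_filter] at hA
        apply hA.2.1
        unfold bl
        rw [mem_filter]
        exact ⟨mem_univ _, (D, y), hmem, hA.2.2.1, hA.2.2.2⟩
      rw [this, card_empty] at hcon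
      omega
    have hmem' : insert (D, y) S ∈ C := by
      rw [hC, mem_filter]
      refine ⟨mem_univ _, ?_, ?_⟩
      · intro z hz
        rcases mem_insert.1 hz with h | h
        · rw [h]; exact hDy
        · exact hS1 z h
      · rw [card_insert_of_notMem hnot, mul_add, mul_one]
        have hsub : bl S ∪ N ⊆ bl (insert (D, y) S) := by
          intro A hA
          rcases mem_union.1 hA with h | h
          · unfold bl at h ⊢
            rw [mem_filter] at h ⊢
            obtain ⟨-, z, hz, h1⟩ := h
            exact ⟨mem_univ _, z, mem_insert_of_mem hz, h1⟩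
          · rw [hN, mem_filter] at h
            unfold bl
            rw [mem_filter]
            exact ⟨mem_univ _, (D, y), mem_insert_self _ _, h.2.2.1, h.2.2.2⟩
        have hdisj : Disjoint (bl S) N := by
          rw [Finset.disjoint_left]
          intro A h1 h2
          rw [hN, mem_filter] at h2
          exact h2.2.1 h1
        have := card_le_card hsub
        rw [card_union_of_disjoint hdisj] at this
        omega
    have := hmax _ hmem'
    rw [card_insert_of_notMem hnot] at this
    omega

theorem t_MANY : P_MANY := by
  intro n
  set L : Finset (Finset (Fin n)) := powersetCard (n / 2) univ with hL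
  have hLc : L.powerset.card = 2 ^ n.choose (n / 2) := by
    rw [card_powerset, hL, card_powersetCard, card_univ, Fintype.card_fin]
  rw [← hLc]
  set U : Finset (Finset (Fin n)) := univ.filter (fun A => n / 2 < A.card) with hU
  apply Finset.card_le_card_of_injOn (fun G => G ∪ U)
  · intro G hG
    have hGL : G ⊆ L := by simpa using hG
    simp only [coe_filter, mem_univ, true_and, Set.mem_ofPred_eq]
    intro A hA B hB
    have hcard : ∀ X ∈ G ∪ U, n / 2 ≤ X.card := by
      intro X hX
      rcases mem_union.1 hX with h | h
      · have := hGL h
        rw [hL, mem_powersetCard] at this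
        exact this.2.ge
      · rw [hU, mem_filter] at h
        exact h.2.le
    rcases lt_or_ge (n / 2) (A ∪ B).card with h | h
    · apply mem_union_right
      rw [hU, mem_filter]
      exact ⟨mem_univ _, h⟩
    · have h1 : A = A ∪ B := eq_of_subset_of_card_le subset_union_left (h.trans (hcard A hA))
      rw [← h1]
      exact hA
  · intro G hG G' hG' h
    have hGL : G ⊆ L := by simpa using hG
    have hGL' : G' ⊆ L := by simpa using hG'
    have hdisj : ∀ X ∈ L, X ∉ U := by
      intro X hX hXU
      rw [hL, mem_powersetCard] at hX
      rw [hU, mem_filter] at hXU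
      omega
    simp only at h
    ext X
    constructor
    · intro hX
      have : X ∈ G' ∪ U := by rw [← h]; exact mem_union_left _ hX
      rcases mem_union.1 this with h1 | h1
      · exact h1
      · exact absurd h1 (hdisj X (hGL hX))
    · intro hX
      have : X ∈ G ∪ U := by rw [h]; exact mem_union_left _ hX
      rcases mem_union.1 this with h1 | h1
      · exact h1
      · exact absurd h1 (hdisj X (hGL' hX))

end Pool.Agent.TH55.UA_GREEDY
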